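import Pool.Agent.CLA.Lem
import Pool.Agent.CPT.EvM

/-!
# Evaluation in a structure embedded into a larger type of atoms
-/

set_option autoImplicit false

namespace Pool.Agent.CLA

open Finset Classical
open Pool.Agent.CPT

/-- evaluation commutes with embeddings, general form -/
theorem eval_map_gen {Γ : Voc} {V A : Type} (f : V → A) (hf : Function.Injective f)
    (U : Finset V) (S0 : Str Γ V) (S : Str Γ A)
    (hS : ∀ (r : Γ.R) (x : Fin (Γ.ar r) → V), S0 r x ↔ S r (fun i => f (x i)))
    (ns b : ℕ) (t : Tm Γ) : ∀ ρ : List (HF V),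
    HF.map f (eval U S0 ns b t ρ) = eval (U.image f) S ns b t (ρ.map (HF.map f)) := by
  induction t with
  | var i =>
    intro ρ
    simp only [eval]
    rw [← EvMap.map_emp f, List.getD_map]
  | empty => intro ρ; simp only [eval]; exact EvMap.map_emp f
  | atoms =>
    intro ρ
    simp only [eval]
    rw [HF.map_mk, Finset.image_image, Finset.image_image]
    congr 1
    apply Finset.image_congr
    intro v _
    exact HF.map_atom f v
  | pair s t ihs iht =>
    intro ρ
    simp only [eval]
    rw [EvMap.map_pr, ihs, iht]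
  | union t ih => intro ρ; simp only [eval]; rw [EvMap.map_un, ih]
  | uniq t ih => intro ρ; simp only [eval]; rw [EvMap.map_uq hf, ih]
  | card t ih =>
    intro ρ
    simp only [eval]
    rw [HF.map_ord, ← ih, EvMap.card_elems_map hf]
  | eq s t ihs iht =>
    intro ρ
    simp only [eval]
    rw [EvMap.map_tv, ← ihs, ← iht, EvMap.map_inj' hf]
  | mem s t ihs iht =>
    intro ρ
    simp only [eval]
    rw [EvMap.map_tv, ← ihs, ← iht, EvMap.map_mem_elems hf]
  | rel r ts ih =>
    intro ρ
    simp only [eval]
    rw [EvMap.map_tv]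
    congr 1
    apply propext
    constructor
    · rintro ⟨x, hx, hr⟩
      refine ⟨fun i => f (x i), fun i => ?_, (hS r x).1 hr⟩
      rw [← ih i, hx i, HF.map_atom]
    · rintro ⟨y, hy, hr⟩
      have h1 : ∀ i, ∃ v, eval U S0 ns b (ts i) ρ = HF.atom v ∧ f v = y i := by
        intro i
        apply EvMap.map_eq_atom
        rw [ih i, hy i]
      choose x hx hxy using h1
      refine ⟨x, hx, (hS r x).2 ?_⟩
      have : (fun i => f (x i)) = y := funext hxy
      rw [this]
      exact hr
  | neg t ih =>
    intro ρ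
    simp only [eval]
    rw [EvMap.map_tv, ← ih, EvMap.map_eq_ord hf]
  | and s t ihs iht =>
    intro ρ
    simp only [eval]
    rw [EvMap.map_tv, ← ihs, ← iht, ne_eq, ne_eq, ne_eq, ne_eq, EvMap.map_eq_ord hf, EvMap.map_eq_ord hf]
  | comp s t c ihs iht ihc =>
    intro ρ
    simp only [eval]
    rw [HF.map_mk, ← iht, HF.elems_map]
    congr 1
    ext z
    simp only [Finset.mem_image, Finset.mem_filter]
    constructor
    · rintro ⟨y, ⟨x, ⟨hx, hc⟩, rfl⟩, rfl⟩
      refine ⟨HF.map f x, ⟨⟨x, hx, rfl⟩, ?_⟩, ?_⟩
      · intro h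
        apply hc
        have h2 := ihc (x :: ρ)
        rw [List.map_cons, h, EvMap.map_eq_ord hf] at h2
        exact h2
      · have h2 := ihs (x :: ρ)
        rw [List.map_cons] at h2
        exact h2.symm
    · rintro ⟨y, ⟨⟨x, hx, rfl⟩, hc⟩, rfl⟩
      refine ⟨eval U S0 ns b s (x :: ρ), ⟨x, ⟨hx, ?_⟩, rfl⟩, ?_⟩
      · intro h
        apply hc
        have h2 := ihc (x :: ρ)
        rw [List.map_cons, h, HF.map_ord] at h2
        exact h2.symm
      · have h2 := ihs (x :: ρ)
        rw [List.map_cons] at h2
        exact h2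
  | iter t ih =>
    intro ρ
    simp only [eval]
    apply EvMap.map_itr hf
    intro x
    have h2 := ih (x :: ρ)
    rw [List.map_cons] at h2
    exact h2
  | la o tp ti te ihp ihi ihe =>
    intro ρ
    simp only [eval]
    rw [HF.map_ord]
    congr 1
    have hn : ∀ x : HF V, num (HF.map f x) = num x :=
      fun x => num_congr (fun n => EvMap.map_eq_ord hf)
    rw [← ihp ρ, hn]
    refine o.f_image _ _ _ (HF.map f) (fun x _ y _ h => (EvMap.map_inj' hf).1 h) ?_ _ _ ?_
    · rw [← ihi ρ, HF.elems_map]
    · intro j x y x' y' hx hy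
      have h2 := ihe j (y.1 :: x.1 :: ρ)
      rw [List.map_cons, List.map_cons] at h2
      rw [hx, hy, ← h2, hn]

theorem eval_map {Γ : Voc} {V A : Type} [Fintype V] (f : V → A) (hf : Function.Injective f)
    (S : Str Γ A) (ns b : ℕ) (t : Tm Γ) (ρ : List (HF V)) :
    HF.map f (eval Finset.univ (fun r x => S r (fun i => f (x i))) ns b t ρ) =
      eval (Finset.univ.image f) S ns b t (ρ.map (HF.map f)) :=
  eval_map_gen f hf Finset.univ _ S (fun _ _ => Iff.rfl) ns b t ρ

/-- acceptance is invariant under embeddings into a larger type of atoms -/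
theorem accepts_iff {Γ : Voc} {V A : Type} [Fintype V] (f : V → A) (hf : Function.Injective f)
    (S : Str Γ A) (ns b : ℕ) (t : Tm Γ) :
    Accepts (fun r x => S r (fun i => f (x i))) t ns b ↔
      eval (Finset.univ.image f) S ns b t [] = HF.ord 1 := by
  have h := eval_map f hf S ns b t []
  rw [List.map_nil] at h
  unfold Accepts
  rw [← h, EvMap.map_eq_ord hf]

/-- acceptance is invariant under isomorphisms -/
theorem accepts_iso {Γ : Voc} {V W : Type} [Fintype V] [Fintype W] (e : V ≃ W)
    (S : Str Γ W) (ns b : ℕ) (t : Tm Γ) :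
    Accepts (fun r x => S r (fun i => e (x i))) t ns b ↔ Accepts S t ns b := by
  rw [accepts_iff (fun v => e v) e.injective S ns b t]
  unfold Accepts
  have : Finset.univ.image (fun v => e v) = (Finset.univ : Finset W) := by
    ext w
    simp only [Finset.mem_image, Finset.mem_univ, true_and, iff_true]
    exact ⟨e.symm w, e.apply_symm_apply w⟩
  rw [this]

end Pool.Agent.CLA
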