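import Pool.Agent.CLA.In4

/-!
# Intertwiners V: existence of invertible intertwiners over all fields
-/

set_option autoImplicit false
set_option linter.unusedSectionVars false

namespace Pool.Agent.CLA

open Finset Classical Matrix
open Pool.Agent.CPT

variable {A I K : Type} [Fintype A] [Fintype I] [Fintype K] [Group K] [MulAction K A]

section mats

variable {F : Fr A I K} {s : ℕ} {R : Type} [CommRing R] {X : Finset I} {k : K} {B : ℕ}
  {Z : Finset (HF A)}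

theorem TF_stable (hc : ∀ g ∈ F.G, ∀ h : K, g * h = h * g) {g : K} (hg : g ∈ F.G)
    (ht : Trv F.pl X g) : ∀ z ∈ F.TF s Z X k, g • z ∈ F.TF s Z X k := by
  intro z hz
  obtain ⟨y, hy, Y, hY, hY', r, hr, hr', rfl⟩ := (F.mem_TF s).1 hz
  rw [F.smul_T s y Y r hg, F.mem_TF]
  refine ⟨y, hy, Y, hY, hY', g * r, F.Th_mul hg hr, ag_trans hr' ?_, rfl⟩
  rw [hc g hg]
  exact ag_mul_iff.2 ht

theorem Pm_trans {Z : Finset (HF A)} {g : K} : (Pm Z R g)ᵀ = Pm Z R g⁻¹ := by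
  ext z y
  simp only [Matrix.transpose_apply, Pm]
  by_cases h : g • z.1 = y.1
  · rw [if_pos h, if_pos (by rw [← h, inv_smul_smul])]
  · rw [if_neg h, if_neg (fun h' => h (by rw [← h', smul_inv_smul]))]

theorem mul_Pm_apply {Z Z' : Finset (HF A)} (M : Matrix {z // z ∈ Z'} {z // z ∈ Z} R) {g : K}
    (hg : ∀ y ∈ Z, g • y ∈ Z) (y' : {z // z ∈ Z'}) (y : {z // z ∈ Z}) :
    (M * Pm Z R g) y' y = M y' ⟨g • y.1, hg y.1 y.2⟩ := by
  rw [Matrix.mul_apply, Finset.sum_eq_single (⟨g • y.1, hg y.1 y.2⟩ : {z // z ∈ Z})]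
  · simp only [Pm, if_true, mul_one]
  · intro u _ hu
    have h1 : ¬ g • y.1 = u.1 := fun h => hu (Subtype.ext h.symm)
    simp only [Pm, if_neg h1, mul_zero]
  · intro h
    exact absurd (mem_univ _) h

theorem Pm_mul_apply {Z Z' : Finset (HF A)} (M : Matrix {z // z ∈ Z} {z // z ∈ Z'} R) {g : K}
    (hg : ∀ y ∈ Z, g⁻¹ • y ∈ Z) (y : {z // z ∈ Z}) (y' : {z // z ∈ Z'}) :
    (Pm Z R g * M) y y' = M ⟨g⁻¹ • y.1, hg y.1 y.2⟩ y' := by
  rw [Matrix.mul_apply, Finset.sum_eq_single (⟨g⁻¹ • y.1, hg y.1 y.2⟩ : {z // z ∈ Z})]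
  · simp only [Pm, smul_inv_smul, if_true, one_mul]
  · intro u _ hu
    have h1 : ¬ g • u.1 = y.1 := fun h => hu (Subtype.ext (eq_inv_smul_iff.2 h))
    simp only [Pm, if_neg h1, zero_mul]
  · intro h
    exact absurd (mem_univ _) h

theorem trv_inv' {D : Finset I} {g : K} (h : Trv F.pl D g) : Trv F.pl D g⁻¹ :=
  fun a ha => by rw [inv_smul_eq_iff, h a ha]

/-- the matrix of a measure commutes with the group -/
theorem Ms.mat_Pm (w : Ms F R X k B) (hB : B ≤ F.L) (hZ : ∀ y ∈ Z, HS F.pl F.G s y)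
    (hG : ∀ g ∈ F.G, Trv F.pl X g → ∀ y ∈ Z, g • y ∈ Z)
    (hc : ∀ g ∈ F.G, ∀ h : K, g * h = h * g)
    (hX : X.card + 6 * s ≤ B) {g : K} (hg : g ∈ F.G) (ht : Trv F.pl X g) :
    w.mat s Z * Pm Z R g = Pm (F.TF s Z X k) R g * w.mat s Z := by
  ext y' y
  rw [mul_Pm_apply _ (hG g hg ht), Pm_mul_apply _ (TF_stable hc (inv_mem hg) (trv_inv' ht))]
  have hs := hZ y.1 y.2
  set D := X ∪ sp F s y.1 with hD
  have hDc : D.card ≤ X.card + s := (card_union_le _ _).trans (Nat.add_le_add_left (sp_card _) _)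
  have hDs : Supp F.pl F.G D y.1 := F.supp_mono (sp_supp (hZ y.1 y.2)) subset_union_right
  have hXD : X ⊆ D := subset_union_left
  show w.S s y'.1 (g • y.1) = w.S s (g⁻¹ • y'.1) y.1
  rw [w.S_eq hB (Fr.HS.smul F s hs g) hXD (F.supp_smul hDs g) (by omega),
    w.S_eq hB hs hXD hDs (by omega)]
  refine w.sum_congr fun c _ => ?_
  have h1 : F.T s (g • y.1) D c = g • F.T s y.1 D c := by
    rw [← T_mulr F s hg, ← hc g hg, F.smul_T s _ _ _ hg]
  rw [h1]
  constructor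
  · intro h
    rw [← h, inv_smul_smul]
  · intro h
    rw [h, smul_inv_smul]

theorem Ms.mat_trans_Pm (w : Ms F R X k B) (hB : B ≤ F.L) (hZ : ∀ y ∈ Z, HS F.pl F.G s y)
    (hG : ∀ g ∈ F.G, Trv F.pl X g → ∀ y ∈ Z, g • y ∈ Z)
    (hc : ∀ g ∈ F.G, ∀ h : K, g * h = h * g)
    (hX : X.card + 6 * s ≤ B) {g : K} (hg : g ∈ F.G) (ht : Trv F.pl X g) :
    (w.mat s Z)ᵀ * Pm (F.TF s Z X k) R g = Pm Z R g * (w.mat s Z)ᵀ := by
  have h1 := congrArg Matrix.transpose (w.mat_Pm hB hZ hG hc hX (inv_mem hg) (trv_inv' ht))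
  rw [Matrix.transpose_mul, Matrix.transpose_mul, Pm_trans, Pm_trans, inv_inv] at h1
  exact h1.symm

/-- transported matrices commute with the group -/
theorem Trm.Pm (hZ : ∀ y ∈ Z, HS F.pl F.G s y)
    (hG : ∀ g ∈ F.G, Trv F.pl X g → ∀ y ∈ Z, g • y ∈ Z) (hk : k ∈ F.Th X)
    (hX : X.card + 9 * s ≤ F.L) {M N} (h : Trm F s (R := R) X k Z M N) {g : K} (hg : g ∈ F.G)
    (ht : Trv F.pl X g) : M * Pm Z R g = Pm Z R g * M := by
  ext x y
  rw [mul_Pm_apply _ (hG g hg ht), Pm_mul_apply _ (hG g⁻¹ (inv_mem hg) (trv_inv' ht))]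
  have hsx := hZ x.1 x.2
  have hsy := hZ y.1 y.2
  set E := sp F s x.1 with hE
  set W := sp F s y.1 with hW
  have hEc : (X ∪ E ∪ W).card ≤ X.card + s + s :=
    (card_union_le _ _).trans (Nat.add_le_add ((card_union_le _ _).trans
      (Nat.add_le_add_left (sp_card _) _)) (sp_card _))
  have hx : g⁻¹ • x.1 ∈ Z := hG g⁻¹ (inv_mem hg) (trv_inv' ht) x.1 x.2
  obtain ⟨k', hk', ha⟩ := F.Th_ext (X := X) (Y := X ∪ E ∪ W)
    (subset_union_left.trans subset_union_left) (by omega) hk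
  have hEs : Supp F.pl F.G E x.1 := sp_supp hsx
  have hWs : Supp F.pl F.G W y.1 := sp_supp hsy
  have mE : ∀ z ∈ Z, Supp F.pl F.G E z → ∀ c ∈ F.Th (X ∪ E ∪ W), Agr F.pl X k c →
      F.T s z E c ∈ F.TF s Z X k := fun z hz hs c hcc hcA =>
    (F.mem_TF s).2 ⟨z, hz, E, sp_card _, hs, c, F.Th_anti subset_union_left hcc, hcA, rfl⟩
  have mW : ∀ z ∈ Z, Supp F.pl F.G W z → ∀ c ∈ F.Th (X ∪ E ∪ W), Agr F.pl X k c →
      F.T s z W c ∈ F.TF s Z X k := fun z hz hs c hcc hcA =>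
    (F.mem_TF s).2 ⟨z, hz, W, sp_card _, hs, c,
      F.Th_anti (union_subset_union_left subset_union_left) hcc, hcA, rfl⟩
  have hxs : Supp F.pl F.G E (g⁻¹ • x.1) := F.supp_smul hEs _
  have hys : Supp F.pl F.G W (g • y.1) := F.supp_smul hWs _
  have hgy := hG g hg ht y.1 y.2
  have hk2 : k' * g ∈ F.Th (X ∪ E ∪ W) := Th_mulr F hg hk'
  have ha2 : Agr F.pl X k (k' * g) := ag_trans ha (ag_mul_iff.2 ht)
  have r1 := h x ⟨g • y.1, hgy⟩ E W (sp_card _) (sp_card _) hEs hys k' hk' ha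
    ⟨_, mE x.1 x.2 hEs k' hk' ha⟩ ⟨_, mW _ hgy hys k' hk' ha⟩ rfl rfl
  have r2 := h ⟨g⁻¹ • x.1, hx⟩ y E W (sp_card _) (sp_card _) hxs hWs (k' * g) hk2 ha2
    ⟨_, mE x.1 x.2 hEs k' hk' ha⟩ ⟨_, mW _ hgy hys k' hk' ha⟩ ?_ ?_
  · rw [← r1, r2]
  · show F.T s x.1 E k' = F.T s (g⁻¹ • x.1) E (k' * g)
    have := F.T_smul s x.1 E k' (inv_mem hg)
    rw [inv_inv] at this
    exact this.symm
  · show F.T s (g • y.1) W k' = F.T s y.1 W (k' * g)
    exact (T_mulr F s hg _ _ _).symm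

end mats

/-! ### The idempotents -/

section idem

variable {F : Fr A I K} {s : ℕ} {R : Type} [Field R] {X D : Finset I} {k cD : K} {B : ℕ}
  {Z : Finset (HF A)}

/-- the projection on the vectors invariant under the elements trivial on `D` -/
noncomputable def Ed (F : Fr A I K) (Z : Finset (HF A)) (R : Type) [Field R] (D : Finset I) :
    Matrix {z // z ∈ Z} {z // z ∈ Z} R := ((GD F D).card : R)⁻¹ • ∑ g ∈ GD F D, Pm Z R g

theorem trv_anti {D D' : Finset I} (h : D ⊆ D') {g : K} (hg : Trv F.pl D' g) : Trv F.pl D g :=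
  fun a ha => hg a (ha.trans h)

theorem mul_Ed {m : Type} {M : Matrix m {z // z ∈ Z} R} {N : Matrix m {z // z ∈ Z} R}
    (hN : ((GD F D).card : R) ≠ 0) (h : ∀ g ∈ GD F D, M * Pm Z R g = N) : M * Ed F Z R D = N := by
  unfold Ed
  rw [Matrix.mul_smul, Matrix.mul_sum, Finset.sum_congr rfl h, sum_const, ← Nat.cast_smul_eq_nsmul R,
    smul_smul, inv_mul_cancel₀ hN, one_smul]

theorem Ed_comm {M : Matrix {z // z ∈ Z} {z // z ∈ Z} R}
    (h : ∀ g ∈ GD F D, M * Pm Z R g = Pm Z R g * M) : M * Ed F Z R D = Ed F Z R D * M := by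
  unfold Ed
  rw [Matrix.mul_smul, Matrix.mul_sum, Matrix.smul_mul, Matrix.sum_mul, Finset.sum_congr rfl h]

theorem Ed_single (hN : ((GD F D).card : R) ≠ 0) (y : {z // z ∈ Z})
    (hD : Supp F.pl F.G D y.1) : (Ed F Z R D).mulVec (Pi.single y 1) = Pi.single y 1 := by
  have h1 : ∀ g ∈ GD F D, (Pm Z R g).mulVec (Pi.single y 1) = Pi.single y 1 := by
    intro g hg
    rw [mem_GD] at hg
    ext z
    rw [Matrix.mulVec_single_one, Matrix.col_apply, Pi.single_apply]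
    simp only [Pm]
    rw [hD.1 g hg.1 hg.2]
    by_cases h : z = y
    · rw [if_pos h, if_pos (by rw [h])]
    · rw [if_neg h, if_neg (fun h' => h (Subtype.ext h'.symm))]
  unfold Ed
  rw [Matrix.smul_mulVec, Matrix.sum_mulVec, Finset.sum_congr rfl h1, sum_const,
    ← Nat.cast_smul_eq_nsmul R, smul_smul, inv_mul_cancel₀ hN, one_smul]

/-- the matrix of the uniform measure is invariant -/
theorem wMs_Pm (hXD : X ⊆ D) (hcD : cD ∈ F.Th D) (hk : Agr F.pl X k cD)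
    (hB : D.card + B ≤ F.L + X.card) (hBL : B ≤ F.L) (hZ : ∀ y ∈ Z, HS F.pl F.G s y)
    (hG : ∀ g ∈ F.G, Trv F.pl X g → ∀ y ∈ Z, g • y ∈ Z)
    (hDB : D.card + 4 * s ≤ B) {g : K} (hg : g ∈ GD F D) :
    (wMs F R hXD hcD hk hB).mat s Z * Pm Z R g = (wMs F R hXD hcD hk hB).mat s Z := by
  have hg' := mem_GD.1 hg
  ext y' y
  rw [mul_Pm_apply _ (hG g hg'.1 (trv_anti hXD hg'.2))]
  have hs := hZ y.1 y.2
  set E := D ∪ sp F s y.1 with hE
  have hEc : E.card ≤ D.card + s := (card_union_le _ _).trans (Nat.add_le_add_left (sp_card _) _)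
  have hEs : Supp F.pl F.G E y.1 := F.supp_mono (sp_supp (hZ y.1 y.2)) subset_union_right
  have hXE : X ⊆ E := hXD.trans subset_union_left
  show (wMs F R hXD hcD hk hB).S s y'.1 (g • y.1) = (wMs F R hXD hcD hk hB).S s y'.1 y.1
  rw [(wMs F R hXD hcD hk hB).S_eq hBL (Fr.HS.smul F s hs g) hXE (F.supp_smul hEs g) (by omega),
    (wMs F R hXD hcD hk hB).S_eq hBL hs hXE hEs (by omega)]
  show ∑ c ∈ univ.filter (fun c => F.T s (g • y.1) E c = y'.1), wD F R D cD E c =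
    ∑ c ∈ univ.filter (fun c => F.T s y.1 E c = y'.1), wD F R D cD E c
  rw [wD_filter, wD_filter]
  congr 1
  rw [← GD_sum_mul (fun h => if F.T s y.1 E (ex F D cD E * h) = y'.1 then (1 : R) else 0) hg]
  refine Finset.sum_congr rfl fun h _ => ?_
  rw [← mul_assoc, T_mulr F s hg'.1]

/-- the Gram matrix of the uniform measure -/
theorem wMs_gram (hXD : X ⊆ D) (hcD : cD ∈ F.Th D) (hk : Agr F.pl X k cD)
    (hB : D.card + B ≤ F.L + X.card) (hBL : B ≤ F.L) (hZ : ∀ y ∈ Z, HS F.pl F.G s y)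
    (h9 : 9 * s ≤ F.L) (hN : ((GD F D).card : R) ≠ 0)
    (hDB : D.card + 5 * s ≤ B) :
    ((wMs F R hXD hcD hk hB).mat s Z)ᵀ * (wMs F R hXD hcD hk hB).mat s Z = Ed F Z R D := by
  ext z y
  set E := D ∪ sp F s y.1 with hE
  have hEc : E.card ≤ D.card + s := (card_union_le _ _).trans (Nat.add_le_add_left (sp_card _) _)
  have hEs : Supp F.pl F.G E y.1 := F.supp_mono (sp_supp (hZ y.1 y.2)) subset_union_right
  have hXE : X ⊆ E := hXD.trans subset_union_left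
  have hDE : D ⊆ E := subset_union_left
  have hDE' : D ∪ E = E := union_eq_right.2 hDE
  rw [(wMs F R hXD hcD hk hB).ptp hBL hZ h9 hXE (by omega) z y hEs]
  obtain ⟨e1, e2⟩ := ex_spec (F := F) (D := D) (Y := E) (cD := cD) hcD (by rw [hDE']; omega)
  rw [hDE'] at e1
  have h1 : ∀ g' ∈ GD F D, ∀ g ∈ GD F D,
      Pm Z R (gam F X E (ex F D cD E * g) (ex F D cD E * g')) z y = Pm Z R (g⁻¹ * g') z y := by
    intro g' hg' g hg
    have m1 := mem_GD.1 hg
    have m2 := mem_GD.1 hg'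
    have a1 : Agr F.pl X (ex F D cD E * g) (ex F D cD E * g') :=
      ag_trans (ag_symm (ag_mul_iff.2 (trv_anti hXD m1.2))) (ag_mul_iff.2 (trv_anti hXD m2.2))
    have a2 := gam_agr hXE (by omega) (Th_mulr F m1.1 e1) (Th_mulr F m2.1 e1) a1
    set γ := gam F X E (ex F D cD E * g) (ex F D cD E * g') with hγ
    have hγG : γ ∈ F.G := gam_mem
    have a3 : Agr F.pl E (g⁻¹ * g') γ := by
      have := ag_left a2 (g⁻¹ * (ex F D cD E)⁻¹)
      have e3 : g⁻¹ * (ex F D cD E)⁻¹ * (ex F D cD E * g') = g⁻¹ * g' := by group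
      have e4 : g⁻¹ * (ex F D cD E)⁻¹ * (ex F D cD E * g * γ) = γ := by group
      rwa [e3, e4] at this
    have a4 : Trv F.pl E (γ⁻¹ * (g⁻¹ * g')) := by
      rw [← ag_mul_iff (k := γ), mul_inv_cancel_left]
      exact ag_symm a3
    have a5 : (γ⁻¹ * (g⁻¹ * g')) • y.1 = y.1 :=
      hEs.1 _ (mul_mem (inv_mem hγG) (mul_mem (inv_mem m1.1) m2.1)) a4
    rw [mul_smul, inv_smul_eq_iff] at a5
    simp only [Pm, a5]
  show ∑ c' : K, ∑ c : K, (wD F R D cD E c' * wD F R D cD E c) *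
    Pm Z R (gam F X E c c') z y = Ed F Z R D z y
  have h2 : ∀ c' : K, ∑ c : K, (wD F R D cD E c' * wD F R D cD E c) * Pm Z R (gam F X E c c') z y =
      wD F R D cD E c' * (((GD F D).card : R)⁻¹ * ∑ g ∈ GD F D,
        Pm Z R (gam F X E (ex F D cD E * g) c') z y) := by
    intro c'
    rw [← wD_sum (fun c => Pm Z R (gam F X E c c') z y), Finset.mul_sum]
    exact Finset.sum_congr rfl fun c _ => by ring
  rw [Finset.sum_congr rfl (fun c' _ => h2 c'),
    wD_sum (fun c' => ((GD F D).card : R)⁻¹ * ∑ g ∈ GD F D,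
        Pm Z R (gam F X E (ex F D cD E * g) c') z y)]
  have h3 : ∀ g' ∈ GD F D, ((GD F D).card : R)⁻¹ * ∑ g ∈ GD F D,
        Pm Z R (gam F X E (ex F D cD E * g) (ex F D cD E * g')) z y = Ed F Z R D z y := by
    intro g' hg'
    unfold Ed
    rw [Finset.sum_congr rfl (fun g hg => h1 g' hg' g hg),
      GD_sum_inv (fun g => Pm Z R (g * g') z y), GD_sum_mul (fun g => Pm Z R g z y) hg']
    simp only [Matrix.smul_apply, Matrix.sum_apply, smul_eq_mul]
  rw [Finset.sum_congr rfl h3, sum_const, nsmul_eq_mul, ← mul_assoc, inv_mul_cancel₀ hN, one_mul]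

/-- all sets `D` with `X ⊆ D` and `|D| ≤ |X| + s` -/
noncomputable def Ds (X : Finset I) (s : ℕ) : Finset (Finset I) :=
  univ.filter (fun D => X ⊆ D ∧ D.card ≤ X.card + s)

/-- intertwiners in characteristic different from two -/
theorem int_ne (hk : k ∈ F.Th X) (hZ : ∀ y ∈ Z, HS F.pl F.G s y)
    (hG : ∀ g ∈ F.G, Trv F.pl X g → ∀ y ∈ Z, g • y ∈ Z)
    (hc : ∀ g ∈ F.G, ∀ h : K, g * h = h * g) (hN : ∀ D, ((GD F D).card : R) ≠ 0)
    (hX : X.card + 9 * s ≤ F.L) :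
    ∃ (P : Matrix {z // z ∈ F.TF s Z X k} {z // z ∈ Z} R)
      (Q : Matrix {z // z ∈ Z} {z // z ∈ F.TF s Z X k} R), P * Q = 1 ∧ Q * P = 1 ∧
      ∀ M N, Trm F s X k Z M N → P * M = N * P := by
  have h9 : 9 * s ≤ F.L := by omega
  set ι := {D : Finset I // X ⊆ D ∧ D.card ≤ X.card + s} with hι
  have hex : ∀ D : ι, ∃ c ∈ F.Th D.1, Agr F.pl X k c := fun D =>
    F.Th_ext D.2.1 (by have := D.2.2; omega) hk
  choose cc hcc hcA using hex
  set B := X.card + 6 * s with hB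
  have hBL : B ≤ F.L := by omega
  have hBD : ∀ D : ι, D.1.card + B ≤ F.L + X.card := fun D => by have := D.2.2; omega
  let w : ∀ D : ι, Ms F R X k B := fun D => wMs F R D.2.1 (hcc D) (hcA D) (hBD D)
  let U : ι → Matrix {z // z ∈ F.TF s Z X k} {z // z ∈ Z} R := fun D => (w D).mat s Z
  let E : ι → Matrix {z // z ∈ Z} {z // z ∈ Z} R := fun D => Ed F Z R D.1
  have hst : ∀ g ∈ F.G, Trv F.pl X g → ∀ y ∈ Z, g • y ∈ Z := hG
  have hUt : ∀ D, (U D)ᵀ * U D = E D := fun D =>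
    wMs_gram D.2.1 (hcc D) (hcA D) (hBD D) hBL hZ h9 (hN _) (by have := D.2.2; omega)
  have hUE : ∀ D, U D * E D = U D := fun D =>
    mul_Ed (hN _) (fun g hg => wMs_Pm D.2.1 (hcc D) (hcA D) (hBD D) hBL hZ hG
      (by have := D.2.2; omega) hg)
  have hUU : ∀ i j l, (U i)ᵀ * U j * E l = E l * ((U i)ᵀ * U j) := by
    intro i j l
    refine Ed_comm fun g hg => ?_
    have hg' := mem_GD.1 hg
    have ht := trv_anti l.2.1 hg'.2
    rw [Matrix.mul_assoc, (w j).mat_Pm hBL hZ hG hc (by omega) hg'.1 ht, ← Matrix.mul_assoc,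
      (w i).mat_trans_Pm hBL hZ hG hc (by omega) hg'.1 ht, Matrix.mul_assoc]
  have hEE : ∀ i j, E i * E j = E j * E i := by
    intro i j
    refine Ed_comm fun g hg => ?_
    have hg' := mem_GD.1 hg
    refine (Ed_comm fun h hh => ?_).symm
    have hh' := mem_GD.1 hh
    rw [Pm_mul (hG h hh'.1 (trv_anti i.2.1 hh'.2)), Pm_mul (hG g hg'.1 (trv_anti j.2.1 hg'.2)),
      hc g hg'.1]
  set l : List ι := (Finset.univ : Finset ι).toList with hl
  have hR : glR E l = 0 := by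
    ext z y
    have hs := hZ y.1 y.2
    set D : Finset I := X ∪ sp F s y.1 with hD
    have hDc : D.card ≤ X.card + s :=
      (card_union_le _ _).trans (Nat.add_le_add_left (sp_card _) _)
    have hDs : Supp F.pl F.G D y.1 := F.supp_mono (sp_supp hs) subset_union_right
    have h1 := glR_mulVec (E := E) hEE (i := ⟨D, subset_union_left, hDc⟩)
      (Ed_single (hN _) y hDs) (l := l) (by rw [hl]; simp)
    have h2 := congrFun h1 z
    rw [Matrix.mulVec_single_one, Matrix.col_apply] at h2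
    rw [h2]
    rfl
  have hSS : (glS U E l)ᵀ * glS U E l = 1 := by
    rw [glS_gram hUt hUU hUE hEE, hR, sub_zero]
  have hcard : Fintype.card {z // z ∈ Z} = Fintype.card {z // z ∈ F.TF s Z X k} := by
    rw [Fintype.card_coe, Fintype.card_coe]
    exact (F.card_TF s hZ hG (by omega) (by omega) hk).symm
  refine ⟨glS U E l, (glS U E l)ᵀ, ?_, hSS, fun M N h => ?_⟩
  · exact (Matrix.mul_eq_one_comm_of_equiv (Fintype.equivOfCardEq hcard)).1 hSS
  · refine glS_intertw (fun D => (w D).intertw hBL hZ hG h9 (by omega) h) (fun D => ?_) l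
    refine Ed_comm fun g hg => ?_
    have hg' := mem_GD.1 hg
    exact h.Pm hZ hG hk hX hg'.1 (trv_anti D.2.1 hg'.2)

end idem

/-! ### All fields -/

section all

variable {F : Fr A I K} {s : ℕ} {X : Finset I} {k : K} {Z : Finset (HF A)}

/-- change of rings for measures -/
def Ms.map {R R' : Type} [CommRing R] [CommRing R'] (f : R →+* R') {B : ℕ} (w : Ms F R X k B) :
    Ms F R' X k B where
  w := fun Y c => f (w.w Y c)
  th := fun h1 h2 h3 => w.th h1 h2 (fun h => h3 (by rw [h, map_zero]))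
  ag := fun h1 h2 h3 => w.ag h1 h2 (fun h => h3 (by rw [h, map_zero]))
  cons := fun h1 h2 h3 p hp => by
    rw [← map_sum, ← map_sum, w.cons h1 h2 h3 p hp]

/-- intertwiners over all fields -/
theorem int_field (R : Type) [Field R] (hk : k ∈ F.Th X) (hZ : ∀ y ∈ Z, HS F.pl F.G s y)
    (hG : ∀ g ∈ F.G, Trv F.pl X g → ∀ y ∈ Z, g • y ∈ Z)
    (hc : ∀ g ∈ F.G, ∀ h : K, g * h = h * g) {a : ℕ} (ha : ∀ g ∈ F.G, g ^ (2 ^ a) = 1)
    (hX : X.card + 9 * s ≤ F.L)
    (hd : ∃ w : Ms F (ZMod 2) X k (X.card + 6 * s), ∑ c, w.w X c = 1) :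
    ∃ (P : Matrix {z // z ∈ F.TF s Z X k} {z // z ∈ Z} R)
      (Q : Matrix {z // z ∈ Z} {z // z ∈ F.TF s Z X k} R), P * Q = 1 ∧ Q * P = 1 ∧
      ∀ M N, Trm F s X k Z M N → P * M = N * P := by
  by_cases h2 : (2 : R) = 0
  · obtain ⟨w, hw⟩ := hd
    have : CharP R 2 := CharTwo.of_one_ne_zero_of_two_eq_zero one_ne_zero h2
    set f : ZMod 2 →+* R := ZMod.castHom (dvd_refl 2) R with hf
    refine int_two (w.map f) (by omega) hZ hk h2 ?_ hG (fun g hg h _ => hc g hg h) ha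
      (by omega) le_rfl
    show ∑ c, f (w.w X c) = 1
    rw [← map_sum, hw, map_one]
  · exact int_ne hk hZ hG hc (fun D => GD_card_ne h2 ha) hX

end all

end Pool.Agent.CLA
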