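import Pool.Agent.CLA.Gd

/-!
# The dissolving measure in characteristic two: the comb tree

Elements of the group algebra over `ZMod 2` of the group of chains. `tree` constructs, for a charge
`2 ^ j • u` at a vertex, a sum of chains whose restriction to the edges at any set `D` with at most
`j` points in the region of the tree is a sum of chains with this charge on `D`, while every chain
of the sum itself has no charges of size larger than `u` except in the region.
-/

set_option autoImplicit false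

namespace Pool.Agent.CLA

open Finset Classical Pool.Agent.CPT

variable {l : ℕ} {M : Type} [AddCommGroup M]

/-- the group algebra of the chains -/
abbrev Ga (l : ℕ) (M : Type) [AddCommGroup M] : Type := AddMonoidAlgebra (ZMod 2) (Ed l → M)

/-- chains restricted to the edges at `D` -/
noncomputable def cres (D : Finset (Vx l)) : (Ed l → M) →+ (Ed l → M) where
  toFun z e := if ∃ d ∈ D, ie e d then z e else 0
  map_zero' := by funext e; simp
  map_add' z z' := by
    funext e
    by_cases h : ∃ d ∈ D, ie e d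
    · simp only [Pi.add_apply, if_pos h]
    · simp only [Pi.add_apply, if_neg h, add_zero]

theorem cres_apply (D : Finset (Vx l)) (z : Ed l → M) (e : Ed l) :
    cres D z e = if ∃ d ∈ D, ie e d then z e else 0 := rfl

theorem dv_cres {D : Finset (Vx l)} {d : Vx l} (hd : d ∈ D) (z : Ed l → M) :
    dv (cres D z) d = dv z d :=
  dv_congr fun e he => by rw [cres_apply, if_pos ⟨d, hd, he⟩]

/-- restriction in the group algebra -/
noncomputable def cR (D : Finset (Vx l)) : Ga l M →+* Ga l M :=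
  AddMonoidAlgebra.mapDomainRingHom (ZMod 2) (cres D)

/-- a chain as an element of the group algebra -/
noncomputable def el (p : Ed l → M) : Ga l M := AddMonoidAlgebra.single p 1

theorem el_zero : (el (0 : Ed l → M)) = 1 := rfl

theorem cR_el (D : Finset (Vx l)) (p : Ed l → M) : cR D (el p) = el (cres D p) := by
  unfold cR el
  simp

theorem ga_add_self (m : Ga l M) : m + m = 0 := by
  ext p
  simp only [AddMonoidAlgebra.coeff_add, Finsupp.add_apply, AddMonoidAlgebra.coeff_zero,
    Finsupp.zero_apply]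
  exact CharTwo.add_self_eq_zero _

/-- all chains of `m` have the divergence `f` on `D` -/
def Lg (D : Finset (Vx l)) (f : Vx l → M) (m : Ga l M) : Prop :=
  ∀ p ∈ m.coeff.support, ∀ d ∈ D, dv p d = f d

theorem Lg.add {D : Finset (Vx l)} {f : Vx l → M} {m m' : Ga l M} (h : Lg D f m) (h' : Lg D f m') :
    Lg D f (m + m') := by
  intro p hp
  rw [AddMonoidAlgebra.coeff_add] at hp
  rcases mem_union.1 (Finsupp.support_add hp) with h1 | h1
  · exact h p h1
  · exact h' p h1

theorem mem_supp_mul {m m' : Ga l M} {p : Ed l → M} (hp : p ∈ (m * m').coeff.support) :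
    ∃ q ∈ m.coeff.support, ∃ q' ∈ m'.coeff.support, p = q + q' := by
  have h1 := AddMonoidAlgebra.support_coeff_mul_subset m m' hp
  obtain ⟨q, hq, q', hq', h2⟩ := Finset.mem_add.1 h1
  exact ⟨q, hq, q', hq', h2.symm⟩

theorem Lg.mul {D : Finset (Vx l)} {f f' : Vx l → M} {m m' : Ga l M} (h : Lg D f m)
    (h' : Lg D f' m') : Lg D (f + f') (m * m') := by
  intro p hp d hd
  obtain ⟨q, hq, q', hq', rfl⟩ := mem_supp_mul hp
  rw [dv_add, h q hq d hd, h' q' hq' d hd]
  rfl

theorem mem_supp_el {p q : Ed l → M} (h : q ∈ (el p).coeff.support) : q = p := by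
  have h1 : (el p : Ga l M).coeff = Finsupp.single p 1 := rfl
  rw [h1] at h
  exact mem_singleton.1 (Finsupp.support_single_subset h)

theorem Lg.el {D : Finset (Vx l)} {p : Ed l → M} (f : Vx l → M) (h : ∀ d ∈ D, dv p d = f d) :
    Lg D f (el p) := by
  intro q hq
  rw [mem_supp_el hq]
  exact h

theorem Lg.one {D : Finset (Vx l)} (f : Vx l → M) (h : ∀ d ∈ D, f d = 0) : Lg D f 1 := by
  rw [← el_zero]
  exact Lg.el f fun d hd => by rw [h d hd, dv_zero]

/-- all chains of `m` have all edges inside `R` -/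
def Sp (R : Vx l → Prop) (m : Ga l M) : Prop :=
  ∀ p ∈ m.coeff.support, ∀ e, p e ≠ 0 → (e.2 e.1).val + 1 < l ∧ ∀ v, ie e v → R v

theorem Sp.mono {R R' : Vx l → Prop} (h : ∀ v, R v → R' v) {m : Ga l M} (hm : Sp R m) : Sp R' m :=
  fun p hp e he => ⟨(hm p hp e he).1, fun v hv => h v ((hm p hp e he).2 v hv)⟩

theorem Sp.add {R : Vx l → Prop} {m m' : Ga l M} (h : Sp R m) (h' : Sp R m') : Sp R (m + m') := by
  intro p hp
  rw [AddMonoidAlgebra.coeff_add] at hp
  rcases mem_union.1 (Finsupp.support_add hp) with h1 | h1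
  · exact h p h1
  · exact h' p h1

theorem Sp.mul {R : Vx l → Prop} {m m' : Ga l M} (h : Sp R m) (h' : Sp R m') : Sp R (m * m') := by
  intro p hp e he
  obtain ⟨q, hq, q', hq', rfl⟩ := mem_supp_mul hp
  by_cases h1 : q e = 0
  · have h2 : q' e ≠ 0 := by
      intro h3
      apply he
      rw [Pi.add_apply, h1, h3, add_zero]
    exact h' q' hq' e h2
  · exact h q hq e h1

theorem Sp.el {R : Vx l → Prop} {p : Ed l → M}
    (h : ∀ e, p e ≠ 0 → (e.2 e.1).val + 1 < l ∧ ∀ v, ie e v → R v) : Sp R (el p) := by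
  intro q hq
  rw [mem_supp_el hq]
  exact h

/-! ### Vertices of the plane and flows -/

/-- a natural number as a coordinate -/
def cl (y0 : Fin l) (n : ℕ) : Fin l := if h : n < l then ⟨n, h⟩ else y0

theorem cl_val {y0 : Fin l} {n : ℕ} (h : n < l) : (cl y0 n).val = n := by
  simp [cl, h]

/-- vertices of the plane -/
def vt (y0 : Fin l) (x z : ℕ) : Vx l := ![cl y0 x, y0, cl y0 z]

theorem vt_0 (y0 : Fin l) (x z : ℕ) : vt y0 x z 0 = cl y0 x := rfl
theorem vt_1 (y0 : Fin l) (x z : ℕ) : vt y0 x z 1 = y0 := rfl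
theorem vt_2 (y0 : Fin l) (x z : ℕ) : vt y0 x z 2 = cl y0 z := rfl

theorem up_vt0 (y0 : Fin l) {x z : ℕ} (hx : x + 1 < l) :
    ∃ h : (((0 : Fin 3), vt y0 x z).2 ((0 : Fin 3), vt y0 x z).1).val + 1 < l,
      up ((0 : Fin 3), vt y0 x z) h = vt y0 (x + 1) z := by
  have h : (vt y0 x z 0).val + 1 < l := by rw [vt_0, cl_val (by omega)]; exact hx
  refine ⟨h, ?_⟩
  funext i
  fin_cases i
  · apply Fin.ext
    simp [up, vt, cl_val, hx, cl_val (y0 := y0) (show x < l by omega)]
  · simp [up, vt]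
  · simp [up, vt]

theorem up_vt2 (y0 : Fin l) {x z : ℕ} (hz : z + 1 < l) :
    ∃ h : (((2 : Fin 3), vt y0 x z).2 ((2 : Fin 3), vt y0 x z).1).val + 1 < l,
      up ((2 : Fin 3), vt y0 x z) h = vt y0 x (z + 1) := by
  have h : (vt y0 x z 2).val + 1 < l := by rw [vt_2, cl_val (by omega)]; exact hz
  refine ⟨h, ?_⟩
  funext i
  fin_cases i
  · simp [up, vt]
  · simp [up, vt]
  · apply Fin.ext
    simp [up, vt, cl_val, hz, cl_val (y0 := y0) (show z < l by omega)]

/-- horizontal flow -/
theorem hor (y0 : Fin l) (q : M) (x z : ℕ) : ∀ t, x + t < l → ∃ F : Ed l → M,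
    (∀ v, dv F v = (if v = vt y0 x z then q else 0) - (if v = vt y0 (x + t) z then q else 0)) ∧
    ∀ e, F e ≠ 0 → (e.2 e.1).val + 1 < l ∧ ∀ v, ie e v → v 1 = y0 ∧ v 2 = cl y0 z ∧
      x ≤ (v 0).val ∧ (v 0).val ≤ x + t := by
  intro t
  induction t with
  | zero =>
    intro _
    refine ⟨0, fun v => ?_, fun e he => absurd rfl he⟩
    rw [dv_zero, add_zero, sub_self]
  | succ t ih =>
    intro ht
    obtain ⟨F, hF, hF'⟩ := ih (by omega)
    obtain ⟨h, hup⟩ := up_vt0 y0 (x := x + t) (z := z) (by omega)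
    refine ⟨F + Pi.single ((0 : Fin 3), vt y0 (x + t) z) (sgv (vt y0 (x + t) z) • q),
      fun v => ?_, fun e he => ?_⟩
    · rw [dv_add, hF, dv_single _ h, hup]
      simp only [sgv_smul_smul]
      rw [← add_assoc x t 1]
      abel
    · by_cases h1 : F e = 0
      · have h2 : e = ((0 : Fin 3), vt y0 (x + t) z) := by
          by_contra h3
          apply he
          rw [Pi.add_apply, h1, Pi.single_eq_of_ne h3, add_zero]
        subst h2
        refine ⟨h, fun v hv => ?_⟩
        rcases (ie_iff _ h v).1 hv with h3 | h3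
        · rw [h3]
          refine ⟨rfl, rfl, ?_⟩
          have h4 : (vt y0 (x + t) z 0).val = x + t := by rw [vt_0, cl_val (by omega)]
          show x ≤ (vt y0 (x + t) z 0).val ∧ (vt y0 (x + t) z 0).val ≤ x + (t + 1)
          omega
        · rw [h3, hup]
          refine ⟨rfl, rfl, ?_⟩
          have h4 : (vt y0 (x + t + 1) z 0).val = x + t + 1 := by rw [vt_0, cl_val (by omega)]
          omega
      · refine ⟨(hF' e h1).1, fun v hv => ?_⟩
        obtain ⟨h2, h3, h4, h5⟩ := (hF' e h1).2 v hv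
        exact ⟨h2, h3, h4, by omega⟩

/-- flow from a vertex to one in the next lower row -/
theorem pth (y0 : Fin l) (q : M) (x z t : ℕ) (hz : z + 1 < l) (ht : x + t < l) :
    ∃ F : Ed l → M,
    (∀ v, dv F v = (if v = vt y0 x (z + 1) then q else 0) -
      (if v = vt y0 (x + t) z then q else 0)) ∧
    ∀ e, F e ≠ 0 → (e.2 e.1).val + 1 < l ∧ ∀ v, ie e v → (v 1 = y0 ∧ v 2 = cl y0 (z + 1) ∧
      x ≤ (v 0).val ∧ (v 0).val ≤ x + t) ∨ v = vt y0 (x + t) z := by
  obtain ⟨F, hF, hF'⟩ := hor y0 q x (z + 1) t ht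
  obtain ⟨h, hup⟩ := up_vt2 y0 (x := x + t) (z := z) hz
  refine ⟨F + Pi.single ((2 : Fin 3), vt y0 (x + t) z) (sgv (vt y0 (x + t) z) • (-q)),
    fun v => ?_, fun e he => ?_⟩
  · rw [dv_add, hF, dv_single _ h, hup]
    simp only [sgv_smul_smul]
    have hneg : ∀ (c : Prop) [Decidable c], (if c then -q else 0) = -(if c then q else 0) := by
      intro c _
      split_ifs
      · rfl
      · rw [neg_zero]
    rw [hneg, hneg]
    abel
  · by_cases h1 : F e = 0
    · have h2 : e = ((2 : Fin 3), vt y0 (x + t) z) := by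
        by_contra h3
        apply he
        rw [Pi.add_apply, h1, Pi.single_eq_of_ne h3, add_zero]
      subst h2
      refine ⟨h, fun v hv => ?_⟩
      rcases (ie_iff _ h v).1 hv with h3 | h3
      · exact Or.inr h3
      · left
        rw [h3, hup]
        refine ⟨rfl, rfl, ?_⟩
        have h4 : (vt y0 (x + t) (z + 1) 0).val = x + t := by rw [vt_0, cl_val (by omega)]
        omega
    · refine ⟨(hF' e h1).1, fun v hv => Or.inl ?_⟩
      exact (hF' e h1).2 v hv

/-! ### The tree -/

/-- the region of the tree of height `j` with root `(x, z)` -/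
def Rg (y0 : Fin l) (j x z : ℕ) (v : Vx l) : Prop :=
  v 1 = y0 ∧ x ≤ (v 0).val ∧ (v 0).val < x + 3 ^ j ∧ (v 2).val ≤ z ∧ z ≤ (v 2).val + j

theorem Rg_root (y0 : Fin l) (j : ℕ) {x z : ℕ} (hx : x < l) (hz : z < l) :
    Rg y0 j x z (vt y0 x z) := by
  have h0 : (vt y0 x z 0).val = x := by rw [vt_0, cl_val hx]
  have h2 : (vt y0 x z 2).val = z := by rw [vt_2, cl_val hz]
  have h3 : 0 < 3 ^ j := by positivity
  exact ⟨rfl, by omega, by omega, by omega, by omega⟩

theorem Rg_child {y0 : Fin l} {j x z a : ℕ} (ha : a < 3) {v : Vx l}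
    (h : Rg y0 j (x + a * 3 ^ j) z v) : Rg y0 (j + 1) x (z + 1) v := by
  obtain ⟨h1, h2, h3, h4, h5⟩ := h
  have h6 : (3 : ℕ) ^ (j + 1) = 3 * 3 ^ j := by rw [pow_succ]; ring
  have h7 : a * 3 ^ j + 3 ^ j ≤ 3 * 3 ^ j := by
    have : (a + 1) * 3 ^ j ≤ 3 * 3 ^ j := Nat.mul_le_mul_right _ (by omega)
    linarith [this]
  have h8 : 0 ≤ a * 3 ^ j := Nat.zero_le _
  exact ⟨h1, by omega, by omega, by omega, by omega⟩

theorem Rg_disj {y0 : Fin l} {j x z a b : ℕ} (hab : a ≠ b) {v : Vx l}
    (h : Rg y0 j (x + a * 3 ^ j) z v) (h' : Rg y0 j (x + b * 3 ^ j) z v) : False := by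
  obtain ⟨-, h2, h3, -, -⟩ := h
  obtain ⟨-, h2', h3', -, -⟩ := h'
  rcases lt_or_gt_of_ne hab with h | h
  · have : (a + 1) * 3 ^ j ≤ b * 3 ^ j := Nat.mul_le_mul_right _ h
    have h5 : (a + 1) * 3 ^ j = a * 3 ^ j + 3 ^ j := by ring
    omega
  · have : (b + 1) * 3 ^ j ≤ a * 3 ^ j := Nat.mul_le_mul_right _ h
    have h5 : (b + 1) * 3 ^ j = b * 3 ^ j + 3 ^ j := by ring
    omega

theorem cR_el_one {D : Finset (Vx l)} {p : Ed l → M}
    (h : ∀ e, p e ≠ 0 → ∀ v, ie e v → v ∉ D) : cR D (el p) = 1 := by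
  rw [cR_el, ← el_zero]
  congr 1
  funext e
  rw [cres_apply]
  by_cases h1 : ∃ d ∈ D, ie e d
  · rw [if_pos h1]
    obtain ⟨d, hd, he⟩ := h1
    by_contra h2
    exact h e h2 d he hd
  · rw [if_neg h1]
    rfl

theorem Lg.congr {D : Finset (Vx l)} {f f' : Vx l → M} {m : Ga l M} (h : Lg D f m)
    (hf : ∀ d ∈ D, f d = f' d) : Lg D f' m :=
  fun p hp d hd => (h p hp d hd).trans (hf d hd)

/-- the tree -/
theorem tree (u : M) (y0 : Fin l) : ∀ j x z : ℕ, x + 3 ^ j ≤ l → j ≤ z → z < l → ∃ m : Ga l M,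
    Sp (Rg y0 j x z) m ∧
    (∀ D : Finset (Vx l), (∀ d ∈ D, ¬ Rg y0 j x z d) → cR D m = 1) ∧
    (∀ D : Finset (Vx l), (D.filter (fun d => Rg y0 j x z d)).card ≤ j →
      Lg D (fun v => if v = vt y0 x z then (2 ^ j) • u else 0) (cR D m)) := by
  intro j
  induction j with
  | zero =>
    intro x z hx hz hzl
    refine ⟨1, ?_, fun D _ => map_one _, fun D hD => ?_⟩
    · rw [← el_zero]
      exact Sp.el fun e he => absurd rfl he
    · rw [map_one]
      refine Lg.one _ fun d hd => ?_
      rw [if_neg]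
      rintro rfl
      have h1 : vt y0 x z ∈ D.filter (fun d => Rg y0 0 x z d) := by
        rw [mem_filter]
        refine ⟨hd, Rg_root y0 0 (by simpa using hx) hzl⟩
      have h2 := card_pos.2 ⟨_, h1⟩
      omega
  | succ j ih =>
    intro x z1 hx hz hzl
    obtain ⟨z, rfl⟩ : ∃ z, z1 = z + 1 := ⟨z1 - 1, by omega⟩
    have h3j : (3 : ℕ) ^ (j + 1) = 3 * 3 ^ j := by rw [pow_succ]; ring
    have hpos : 0 < 3 ^ j := by positivity
    have hxa : ∀ a, a < 3 → x + a * 3 ^ j + 3 ^ j ≤ l := by
      intro a ha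
      have h1 : (a + 1) * 3 ^ j ≤ 3 * 3 ^ j := Nat.mul_le_mul_right _ ha
      have h2 : (a + 1) * 3 ^ j = a * 3 ^ j + 3 ^ j := by ring
      omega
    -- the branches
    have hX : ∀ a : ℕ, ∃ X : Ga l M, a < 3 → Sp (Rg y0 (j + 1) x (z + 1)) X ∧
        (∀ D : Finset (Vx l), (∀ d ∈ D, Rg y0 (j + 1) x (z + 1) d →
          (d 2).val ≤ z ∧ ¬ Rg y0 j (x + a * 3 ^ j) z d) → cR D X = 1) ∧
        (∀ D : Finset (Vx l), (D.filter (fun d => Rg y0 j (x + a * 3 ^ j) z d)).card ≤ j →
          Lg D (fun v => if v = vt y0 x (z + 1) then (2 ^ j) • u else 0) (cR D X)) := by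
      intro a
      by_cases ha : a < 3
      swap
      · exact ⟨1, fun h => absurd h ha⟩
      have hxa' := hxa a ha
      obtain ⟨m, hm1, hm2, hm3⟩ := ih (x + a * 3 ^ j) z hxa' (by omega) (by omega)
      obtain ⟨F, hF, hF'⟩ := pth y0 ((2 ^ j) • u) x z (a * 3 ^ j) (by omega) (by omega)
      have hroot : Rg y0 j (x + a * 3 ^ j) z (vt y0 (x + a * 3 ^ j) z) :=
        Rg_root y0 j (by omega) (by omega)
      have h7 : a * 3 ^ j + 3 ^ j ≤ 3 * 3 ^ j := by
        have : (a + 1) * 3 ^ j ≤ 3 * 3 ^ j := Nat.mul_le_mul_right _ (by omega)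
        linarith [this]
      have hFR : ∀ e, F e ≠ 0 → ∀ v, ie e v → Rg y0 (j + 1) x (z + 1) v ∧
          ((v 2).val = z + 1 ∨ Rg y0 j (x + a * 3 ^ j) z v) := by
        intro e he v hv
        rcases (hF' e he).2 v hv with ⟨h1, h2, h3, h4⟩ | h1
        · have h5 : (v 2).val = z + 1 := by rw [h2, cl_val (by omega)]
          exact ⟨⟨h1, h3, by omega, by omega, by omega⟩, Or.inl h5⟩
        · rw [h1]
          exact ⟨Rg_child ha hroot, Or.inr hroot⟩
      refine ⟨el F * m, fun _ => ⟨?_, ?_, ?_⟩⟩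
      · refine Sp.mul (Sp.el fun e he => ⟨(hF' e he).1, fun v hv => (hFR e he v hv).1⟩) ?_
        exact hm1.mono fun v hv => Rg_child ha hv
      · intro D hD
        rw [map_mul, hm2 D fun d hd hR => (hD d hd (Rg_child ha hR)).2 hR, mul_one]
        refine cR_el_one fun e he v hv hvD => ?_
        obtain ⟨h1, h2⟩ := hFR e he v hv
        obtain ⟨h3, h4⟩ := hD v hvD h1
        rcases h2 with h2 | h2
        · omega
        · exact h4 h2
      · intro D hD
        rw [map_mul, cR_el]
        have h1 : Lg D (dv F) (el (cres D F)) := Lg.el _ fun d hd => dv_cres hd F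
        refine (h1.mul (hm3 D hD)).congr fun d _ => ?_
        rw [Pi.add_apply, hF]
        abel
    choose X hX using hX
    have h0 := hX 0 (by norm_num)
    have h1 := hX 1 (by norm_num)
    have h2 := hX 2 (by norm_num)
    refine ⟨X 0 * X 1 + X 0 * X 2 + X 1 * X 2, ?_, ?_, ?_⟩
    · exact ((h0.1.mul h1.1).add (h0.1.mul h2.1)).add (h1.1.mul h2.1)
    · intro D hD
      have e : ∀ a, a < 3 → cR D (X a) = 1 := fun a ha =>
        (hX a ha).2.1 D fun d hd hR => absurd hR (hD d hd)
      rw [map_add, map_add, map_mul, map_mul, map_mul, e 0 (by norm_num), e 1 (by norm_num),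
        e 2 (by norm_num), mul_one, ga_add_self, zero_add]
    · intro D hD
      by_cases hc : ∃ a, a < 3 ∧ ∀ d ∈ D, Rg y0 (j + 1) x (z + 1) d → Rg y0 j (x + a * 3 ^ j) z d
      · obtain ⟨a, ha, hc⟩ := hc
        -- the other branches restrict to `1`
        have e : ∀ b, b < 3 → b ≠ a → cR D (X b) = 1 := by
          intro b hb hba
          refine (hX b hb).2.1 D fun d hd hR => ?_
          have hR' := hc d hd hR
          exact ⟨hR'.2.2.2.1, fun h => Rg_disj hba h hR'⟩
        have hone : cR D (X 0 * X 1 + X 0 * X 2 + X 1 * X 2) = 1 := by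
          rw [map_add, map_add, map_mul, map_mul, map_mul]
          have hcase : a = 0 ∨ a = 1 ∨ a = 2 := by omega
          rcases hcase with rfl | rfl | rfl
          · rw [e 1 (by norm_num) (by norm_num), e 2 (by norm_num) (by norm_num), mul_one, mul_one,
              ga_add_self, zero_add]
          · rw [e 0 (by norm_num) (by norm_num), e 2 (by norm_num) (by norm_num), mul_one, mul_one,
              one_mul, add_comm (cR D (X 1)) 1, add_assoc, ga_add_self, add_zero]
          · rw [e 0 (by norm_num) (by norm_num), e 1 (by norm_num) (by norm_num), mul_one, one_mul,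
              add_assoc, ga_add_self, add_zero]
        rw [hone]
        refine Lg.one _ fun d hd => ?_
        rw [if_neg]
        rintro rfl
        have hR := hc _ hd (Rg_root y0 (j + 1) (by omega) hzl)
        have h4 := hR.2.2.2.1
        rw [vt_2, cl_val hzl] at h4
        omega
      · push Not at hc
        have e : ∀ a, a < 3 →
            Lg D (fun v => if v = vt y0 x (z + 1) then (2 ^ j) • u else 0) (cR D (X a)) := by
          intro a ha
          refine (hX a ha).2.2 D ?_
          obtain ⟨d, hd, hR, hR'⟩ := hc a ha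
          have hlt : (D.filter (fun d => Rg y0 j (x + a * 3 ^ j) z d)).card <
              (D.filter (fun d => Rg y0 (j + 1) x (z + 1) d)).card := by
            apply card_lt_card
            rw [ssubset_iff_of_subset]
            · exact ⟨d, mem_filter.2 ⟨hd, hR⟩, fun h => hR' (mem_filter.1 h).2⟩
            · intro d' hd'
              rw [mem_filter] at hd' ⊢
              exact ⟨hd'.1, Rg_child ha hd'.2⟩
          omega
        have hm : ∀ a b, a < 3 → b < 3 →
            Lg D (fun v => if v = vt y0 x (z + 1) then (2 ^ (j + 1)) • u else 0)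
              (cR D (X a * X b)) := by
          intro a b ha hb
          rw [map_mul]
          refine ((e a ha).mul (e b hb)).congr fun d _ => ?_
          rw [Pi.add_apply]
          by_cases h5 : d = vt y0 x (z + 1)
          · rw [if_pos h5, if_pos h5, ← add_smul, pow_succ, mul_two]
          · rw [if_neg h5, if_neg h5, add_zero]
        rw [map_add, map_add]
        exact ((hm 0 1 (by norm_num) (by norm_num)).add (hm 0 2 (by norm_num) (by norm_num))).add
          (hm 1 2 (by norm_num) (by norm_num))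

/-- the coefficients of the restriction -/
theorem cR_coeff [Fintype M] (D : Finset (Vx l)) (m : Ga l M) (z0 : Ed l → M) :
    (cR D m).coeff z0 = ∑ z ∈ univ.filter (fun z => cres D z = z0), m.coeff z := by
  have h1 : (cR D m).coeff = Finsupp.mapDomain (cres D) m.coeff := rfl
  rw [h1, Finsupp.mapDomain, Finsupp.sum_apply, Finsupp.sum_fintype _ _ (fun i => by simp),
    sum_filter]
  refine sum_congr rfl fun z _ => ?_
  rw [Finsupp.single_apply]

/-- **the dissolving measure** -/
theorem comb {l : ℕ} {M : Type} [AddCommGroup M] [Fintype M] (u : M) (h : ℕ) (y0 : Fin l)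
    (hl : 3 ^ h + h < l) : ∃ (r : Vx l) (β : (Ed l → M) → ZMod 2), r 1 = y0 ∧ ∑ z, β z = 1 ∧
    (∀ z, β z ≠ 0 → ∀ e : Ed l, (e.1 = 1 ∨ e.2 1 ≠ y0 ∨ ¬ ∃ u, ie e u) → z e = 0) ∧
    ∀ (D : Finset (Vx l)), (D.filter (fun d => d 1 = y0)).card ≤ h → ∀ z0 : Ed l → M,
      (∃ d ∈ D, dv z0 d ≠ if d = r then (2 ^ h) • u else 0) →
      ∑ z ∈ univ.filter (fun z : Ed l → M => ∀ d ∈ D, ∀ e, ie e d → z e = z0 e), β z = 0 := by
  have hpos : 0 < 3 ^ h := by positivity
  obtain ⟨m, h1, h2, h3⟩ := tree u y0 h 0 h (by omega) le_rfl (by omega)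
  refine ⟨vt y0 0 h, fun z => m.coeff z, rfl, ?_, ?_, ?_⟩
  · have h4 := cR_coeff ∅ m 0
    rw [h2 ∅ (by simp)] at h4
    have h5 : (univ.filter (fun z : Ed l → M => cres ∅ z = 0)) = univ := by
      rw [filter_eq_self]
      intro z _
      funext e
      rw [cres_apply, if_neg (by simp)]
      rfl
    rw [h5] at h4
    rw [← h4]
    show (AddMonoidAlgebra.single (0 : Ed l → M) (1 : ZMod 2)).coeff 0 = 1
    simp
  · intro z hz e he
    by_contra h4
    obtain ⟨h5, h6⟩ := h1 z (Finsupp.mem_support_iff.2 hz) e h4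
    have h7 := h6 e.2 ((ie_iff e h5 _).2 (Or.inl rfl))
    have h8 := h6 (up e h5) ((ie_iff e h5 _).2 (Or.inr rfl))
    rcases he with he | he | he
    · have h9 := h7.1
      have h10 := h8.1
      have h11 : (up e h5 1).val = (e.2 1).val + 1 := by
        obtain ⟨i, v⟩ := e
        simp only at he
        subst he
        simp [up]
      rw [h10, ← h9] at h11
      omega
    · exact he h7.1
    · exact he ⟨e.2, (ie_iff e h5 _).2 (Or.inl rfl)⟩
  · intro D hD z0 ⟨d, hd, hz0⟩
    have h4 := cR_coeff D m (cres D z0)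
    have h5 : (cR D m).coeff (cres D z0) = 0 := by
      by_contra h6
      refine hz0 ?_
      rw [← dv_cres hd z0]
      refine h3 D (le_trans (card_le_card ?_) hD) _ (Finsupp.mem_support_iff.2 h6) d hd
      intro d' hd'
      rw [mem_filter] at hd' ⊢
      exact ⟨hd'.1, hd'.2.1⟩
    rw [h5] at h4
    rw [h4]
    refine sum_congr ?_ fun _ _ => rfl
    ext z
    simp only [mem_filter, mem_univ, true_and]
    constructor
    · intro h6
      funext e
      rw [cres_apply, cres_apply]
      by_cases h7 : ∃ d ∈ D, ie e d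
      · rw [if_pos h7, if_pos h7]
        obtain ⟨d', hd', he⟩ := h7
        exact h6 d' hd' e he
      · rw [if_neg h7, if_neg h7]
    · intro h6 d' hd' e he
      have h7 := congrFun h6 e
      rwa [cres_apply, cres_apply, if_pos ⟨d', hd', he⟩, if_pos ⟨d', hd', he⟩] at h7

/-- the dissolving measure and classes modulo equality at the edges at `D` and the edges without
ends -/
theorem comb' {l : ℕ} {M : Type} [AddCommGroup M] [Fintype M] (u : M) (h : ℕ) (y0 : Fin l)
    (hl : 3 ^ h + h < l) : ∃ (r : Vx l) (β : (Ed l → M) → ZMod 2), r 1 = y0 ∧ ∑ z, β z = 1 ∧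
    (∀ z, β z ≠ 0 → ∀ e : Ed l, (e.1 = 1 ∨ e.2 1 ≠ y0 ∨ ¬ ∃ u, ie e u) → z e = 0) ∧
    ∀ (D : Finset (Vx l)), (D.filter (fun d => d 1 = y0)).card ≤ h → ∀ z0 : Ed l → M,
      (∃ d ∈ D, dv z0 d ≠ if d = r then (2 ^ h) • u else 0) →
      ∑ z ∈ univ.filter (fun z : Ed l → M =>
        ∀ e, ((∃ u, ie e u) → ∃ u, ie e u ∧ u ∈ D) → z e = z0 e), β z = 0 := by
  obtain ⟨r, β, h1, h2, h3, h4⟩ := comb u h y0 hl
  refine ⟨r, β, h1, h2, h3, fun D hD z0 hz0 => ?_⟩
  by_cases hd : ∀ e : Ed l, (¬ ∃ u, ie e u) → z0 e = 0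
  · rw [← h4 D hD z0 hz0]
    refine sum_subset ?_ ?_
    · intro z hz
      rw [mem_filter] at hz ⊢
      exact ⟨mem_univ _, fun d hd' e he => hz.2 e fun _ => ⟨d, he, hd'⟩⟩
    · intro z hz hz'
      by_contra hne
      apply hz'
      rw [mem_filter] at hz ⊢
      refine ⟨mem_univ _, fun e he => ?_⟩
      by_cases hu : ∃ u, ie e u
      · obtain ⟨d, hde, hdD⟩ := he hu
        exact hz.2 d hdD e hde
      · rw [hd e hu, h3 z hne e (Or.inr (Or.inr hu))]
  · push Not at hd
    obtain ⟨e, he, he'⟩ := hd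
    refine sum_eq_zero fun z hz => ?_
    by_contra hne
    rw [mem_filter] at hz
    have he0 : ¬ ∃ u, ie e u := fun ⟨u, hu⟩ => he u hu
    have h5 := hz.2 e fun hu => absurd hu he0
    rw [h3 z hne e (Or.inr (Or.inr he0))] at h5
    exact he' h5.symm

end Pool.Agent.CLA
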