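import Pool.Agent.CLA.Gd

/-!
# Flows in the complement of a cube of coordinates
-/

set_option autoImplicit false

namespace Pool.Agent.CLA

open Finset Classical Pool.Agent.CPT

variable {l : ℕ} {M : Type} [AddCommGroup M]

/-- there is a flow of `a` from `v` to `w` outside `X^3` -/
private def Rl (X : Finset (Fin l)) (a : M) (v w : Vx l) : Prop :=
    ∃ z : Ed l → M, (∀ e, z e ≠ 0 → (∃ u, ie e u) ∧ ∀ u, ie e u → ¬ co u ⊆ X) ∧
      ∀ u, dv z u = (if u = v then a else 0) - (if u = w then a else 0)

private theorem Rl.refl (X : Finset (Fin l)) (a : M) (v : Vx l) : Rl X a v v := by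
  refine ⟨0, fun e h => absurd rfl h, fun u => ?_⟩
  rw [sub_self, dv_zero]

private theorem Rl.symm {X : Finset (Fin l)} {a : M} {v w : Vx l} (h : Rl X a v w) :
    Rl X a w v := by
  obtain ⟨z, h1, h2⟩ := h
  refine ⟨-z, fun e he => h1 e ?_, fun u => by rw [dv_neg, h2 u, neg_sub]⟩
  intro h3
  exact he (by rw [Pi.neg_apply, h3, neg_zero])

private theorem Rl.trans {X : Finset (Fin l)} {a : M} {v w u : Vx l} (h : Rl X a v w)
    (h' : Rl X a w u) : Rl X a v u := by
  obtain ⟨z, h1, h2⟩ := h
  obtain ⟨z', h1', h2'⟩ := h'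
  refine ⟨z + z', fun e he => ?_, fun t => ?_⟩
  · by_cases h3 : z e = 0
    · by_cases h4 : z' e = 0
      · exact absurd (by rw [Pi.add_apply, h3, h4, add_zero]) he
      · exact h1' e h4
    · exact h1 e h3
  · rw [dv_add, h2 t, h2' t]
    abel

private theorem not_sub {X : Finset (Fin l)} {v : Vx l} {j : Fin 3} (h : v j ∉ X) : ¬ co v ⊆ X :=
  fun h1 => h (h1 (Finset.mem_image_of_mem v (Finset.mem_univ j)))

/-- along a line -/
private theorem Rl.line {X : Finset (Fin l)} {a : M} {v : Vx l} {i j : Fin 3} (hij : j ≠ i)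
    (h : v j ∉ X) (n : ℕ) (hn : n < l) :
    Rl X a (Function.update v i ⟨0, by omega⟩) (Function.update v i ⟨n, hn⟩) := by
  induction n with
  | zero => exact Rl.refl X a _
  | succ n ih =>
    refine (ih (by omega)).trans ?_
    set u : Vx l := Function.update v i ⟨n, by omega⟩ with hu
    have hui : u i = ⟨n, by omega⟩ := by rw [hu, Function.update_self]
    have hl : ((((i, u) : Ed l).2 ((i, u) : Ed l).1).val) + 1 < l := by
      change (u i).val + 1 < l
      rw [hui]
      exact hn
    have hup : up (i, u) hl = Function.update v i ⟨n + 1, hn⟩ := by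
      funext k
      by_cases hk : k = i
      · rw [up, hk, Function.update_self, Function.update_self]
        apply Fin.ext
        change (u i).val + 1 = n + 1
        rw [hui]
      · rw [up, Function.update_of_ne hk, Function.update_of_ne hk]
        change u k = v k
        rw [hu, Function.update_of_ne hk]
    refine ⟨Pi.single (i, u) (sgv u • a), fun e he => ?_, fun t => ?_⟩
    · have h1 : e = (i, u) := by
        by_contra h2
        exact he (Pi.single_eq_of_ne h2 _)
      rw [h1]
      refine ⟨⟨u, (ie_iff _ hl _).2 (Or.inl rfl)⟩, fun t ht => ?_⟩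
      refine not_sub (j := j) ?_
      rw [ht.2.1 j hij]
      change u j ∉ X
      rw [hu, Function.update_of_ne hij]
      exact h
    · rw [dv_single _ hl, hup]
      change (if t = u then sgv u • sgv u • a else 0) - (if _ then sgv u • sgv u • a else 0) = _
      rw [sgv_smul_smul]

private theorem Rl.line' {X : Finset (Fin l)} {b : M} {v : Vx l} {i j : Fin 3} (hij : j ≠ i)
    (h : v j ∉ X) (a : Fin l) : Rl X b v (Function.update v i a) := by
  have h1 := Rl.line (a := b) hij h a.1 a.2
  have h2 := Rl.line (a := b) hij h (v i).1 (v i).2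
  have h3 : Function.update v i ⟨(v i).1, (v i).2⟩ = v := Function.update_eq_self i v
  rw [h3] at h2
  exact h2.symm.trans h1

/-- in a plane -/
private theorem Rl.plane {X : Finset (Fin l)} {c : M} {v w : Vx l} {j : Fin 3} (h : v j ∉ X)
    (hw : w j = v j) : Rl X c v w := by
  obtain ⟨a, b, ha, hb, hab⟩ : ∃ a b : Fin 3, j ≠ a ∧ j ≠ b ∧ ∀ k, k ≠ a → k ≠ b → k = j := by
    revert j
    intro j _ _
    fin_cases j
    · exact ⟨1, 2, by decide, by decide, by decide⟩
    · exact ⟨0, 2, by decide, by decide, by decide⟩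
    · exact ⟨0, 1, by decide, by decide, by decide⟩
  have h1 := Rl.line' (b := c) ha h (w a)
  have h2 : Function.update v a (w a) j ∉ X := by rwa [Function.update_of_ne ha]
  have h3 := Rl.line' (b := c) hb h2 (w b)
  have h4 : Function.update (Function.update v a (w a)) b (w b) = w := by
    funext k
    by_cases hkb : k = b
    · rw [hkb, Function.update_self]
    · rw [Function.update_of_ne hkb]
      by_cases hka : k = a
      · rw [hka, Function.update_self]
      · rw [Function.update_of_ne hka, hab k hka hkb, hw]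
  rw [h4] at h3
  exact h1.trans h3

private theorem Rl.two {X : Finset (Fin l)} {c : M} {v w : Vx l} {i j : Fin 3} (hij : i ≠ j)
    (hv : v i ∉ X) (hw : w j ∉ X) : Rl X c v w := by
  have h1 : Rl X c v (Function.update v j (w j)) := Rl.plane hv (Function.update_of_ne hij _ _)
  have h2 : Rl X c (Function.update v j (w j)) w := by
    refine Rl.symm (Rl.plane hw ?_)
    rw [Function.update_self]
  exact h1.trans h2

theorem exists_notMem_of_not_sub {X : Finset (Fin l)} {u : Vx l} (hu : ¬ co u ⊆ X) :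
    ∃ i, u i ∉ X := by
  by_contra h
  push Not at h
  refine hu fun x hx => ?_
  rw [co, Finset.mem_image] at hx
  obtain ⟨i, -, rfl⟩ := hx
  exact h i

theorem not_sub_of_notMem {X : Finset (Fin l)} {v : Vx l} {j : Fin 3} (h : v j ∉ X) :
    ¬ co v ⊆ X := not_sub h

/-- the complement of `X^3` is connected: there are flows from `v` to `w` -/
theorem conn {X : Finset (Fin l)} {v w : Vx l} (hv : ¬ co v ⊆ X) (hw : ¬ co w ⊆ X) (a : M) :
    ∃ z : Ed l → M, (∀ e, z e ≠ 0 → (∃ u, ie e u) ∧ ∀ u, ie e u → ¬ co u ⊆ X) ∧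
      ∀ u, dv z u = (if u = v then a else 0) - (if u = w then a else 0) := by
  obtain ⟨i, hi⟩ := exists_notMem_of_not_sub hv
  obtain ⟨j, hj⟩ := exists_notMem_of_not_sub hw
  change Rl X a v w
  by_cases hij : i = j
  · subst hij
    obtain ⟨k, hk⟩ : ∃ k : Fin 3, k ≠ i := by
      fin_cases i
      · exact ⟨1, by decide⟩
      · exact ⟨0, by decide⟩
      · exact ⟨0, by decide⟩
    have h1 : Rl X a v (Function.update v k (v i)) := Rl.plane hi (Function.update_of_ne hk.symm _ _)
    have h2 : Function.update v k (v i) k ∉ X := by rwa [Function.update_self]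
    exact h1.trans (Rl.two hk h2 hj)
  · exact Rl.two hij hi hj

/-- a function with total sum zero that vanishes on `X^3` is the divergence of a flow outside
`X^3` -/
theorem flow {X : Finset (Fin l)} (f : Vx l → M) (hf : ∀ v, co v ⊆ X → f v = 0)
    (hs : ∑ v, f v = 0) :
    ∃ z : Ed l → M, (∀ e, z e ≠ 0 → (∃ u, ie e u) ∧ ∀ u, ie e u → ¬ co u ⊆ X) ∧
      ∀ u, dv z u = f u := by
  by_cases h0 : ∀ v, f v = 0
  · exact ⟨0, fun e h => absurd rfl h, fun u => by rw [dv_zero, h0]⟩
  push Not at h0
  obtain ⟨v0, hv0⟩ := h0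
  have hv0' : ¬ co v0 ⊆ X := fun h => hv0 (hf v0 h)
  have key : ∀ v : Vx l, ∃ z : Ed l → M,
      (∀ e, z e ≠ 0 → (∃ u, ie e u) ∧ ∀ u, ie e u → ¬ co u ⊆ X) ∧
      ∀ u, dv z u = (if u = v then f v else 0) - (if u = v0 then f v else 0) := by
    intro v
    by_cases hv : co v ⊆ X
    · refine ⟨0, fun e h => absurd rfl h, fun u => ?_⟩
      rw [dv_zero, hf v hv]
      simp
    · exact conn hv hv0' (f v)
  choose Z h1 h2 using key
  refine ⟨∑ v, Z v, fun e he => ?_, fun u => ?_⟩
  · rw [Finset.sum_apply] at he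
    obtain ⟨v, -, hv⟩ := Finset.exists_ne_zero_of_sum_ne_zero he
    exact h1 v e hv
  · rw [dv_sum]
    simp only [h2]
    rw [Finset.sum_sub_distrib, Finset.sum_ite_eq, if_pos (Finset.mem_univ _)]
    by_cases hu : u = v0
    · simp only [if_pos hu]
      rw [hs, sub_zero]
    · simp only [if_neg hu]
      rw [Finset.sum_const_zero, sub_zero]

/-- a function that vanishes on `X^3` is on `Y^3` the divergence of a flow outside `X^3` -/
theorem flow' {X Y : Finset (Fin l)} (hXY : X ⊆ Y) {v0 : Vx l} (hv0 : ¬ co v0 ⊆ Y)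
    (f : Vx l → M) (hf : ∀ v, co v ⊆ X → f v = 0) :
    ∃ z : Ed l → M, (∀ e, z e ≠ 0 → (∃ u, ie e u) ∧ ∀ u, ie e u → ¬ co u ⊆ X) ∧
      ∀ u, co u ⊆ Y → dv z u = f u := by
  set g : Vx l → M := fun v => if co v ⊆ Y then f v else
    if v = v0 then - ∑ w ∈ Finset.univ.filter (fun w => co w ⊆ Y), f w else 0 with hg
  have h1 : ∀ v, co v ⊆ X → g v = 0 := by
    intro v hv
    rw [hg]
    simp only
    rw [if_pos (hv.trans hXY), hf v hv]
  have h2 : ∑ v, g v = 0 := by
    rw [← Finset.sum_filter_add_sum_filter_not Finset.univ (fun w : Vx l => co w ⊆ Y)]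
    have e1 : ∑ v ∈ Finset.univ.filter (fun w : Vx l => co w ⊆ Y), g v =
        ∑ w ∈ Finset.univ.filter (fun w : Vx l => co w ⊆ Y), f w := by
      refine Finset.sum_congr rfl fun v hv => ?_
      rw [hg]
      simp only
      rw [if_pos (Finset.mem_filter.1 hv).2]
    have e2 : ∑ v ∈ Finset.univ.filter (fun w : Vx l => ¬ co w ⊆ Y), g v =
        - ∑ w ∈ Finset.univ.filter (fun w => co w ⊆ Y), f w := by
      rw [Finset.sum_eq_single v0]
      · rw [hg]
        simp only
        rw [if_neg hv0, if_pos trivial]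
      · intro v hv hne
        rw [hg]
        simp only
        rw [if_neg (Finset.mem_filter.1 hv).2, if_neg hne]
      · intro h
        exact absurd (show v0 ∈ Finset.univ.filter (fun w : Vx l => ¬ co w ⊆ Y) from
          Finset.mem_filter.2 ⟨Finset.mem_univ _, hv0⟩) h
    rw [e1, e2, add_neg_cancel]
  obtain ⟨z, hz1, hz2⟩ := flow g h1 h2
  refine ⟨z, hz1, fun u hu => ?_⟩
  rw [hz2 u, hg]
  simp only
  rw [if_pos hu]

end Pool.Agent.CLA
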