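import Pool.Agent.CPT.TrC

/-!
# Intertwiners I: measures on local isomorphisms

A measure `w` on the local isomorphisms which extend `k` defines a matrix `w.S` between a set of
objects and its transport. It intertwines all definable matrices.
-/

set_option autoImplicit false
set_option linter.unusedSectionVars false

namespace Pool.Agent.CLA

open Finset Classical
open Pool.Agent.CPT

/-! ### Local isomorphisms: elementary lemmas -/

section agr

variable {A I K : Type} [Group K] [MulAction K A] {pl : A → Finset I}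

theorem ag_refl (X : Finset I) (k : K) : Agr pl X k k := fun _ _ => rfl

theorem ag_anti {X Y : Finset I} (hXY : X ⊆ Y) {k k' : K} (h : Agr pl Y k k') :
    Agr pl X k k' := fun a ha => h a (ha.trans hXY)

theorem ag_symm {X : Finset I} {k k' : K} (h : Agr pl X k k') : Agr pl X k' k :=
  fun a ha => (h a ha).symm

theorem ag_trans {X : Finset I} {k k' k'' : K} (h : Agr pl X k k') (h' : Agr pl X k' k'') :
    Agr pl X k k'' := fun a ha => (h a ha).trans (h' a ha)

theorem ag_left {X : Finset I} {k k' : K} (h : Agr pl X k k') (g : K) :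
    Agr pl X (g * k) (g * k') := fun a ha => by rw [mul_smul, mul_smul, h a ha]

end agr

variable {A I K : Type} [Fintype A] [Fintype I] [Fintype K] [Group K] [MulAction K A]

theorem ag_right (F : Fr A I K) {X : Finset I} {k k' : K} (h : Agr F.pl X k k') (g : K) :
    Agr F.pl X (k * g) (k' * g) := fun a ha => by
  rw [mul_smul, mul_smul]
  exact h _ (by rw [F.pl_smul]; exact ha)

theorem ag_inv (F : Fr A I K) {X : Finset I} {k k' : K} (h : Agr F.pl X k k') :
    Agr F.pl X k⁻¹ k'⁻¹ := fun a ha => by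
  rw [inv_smul_eq_iff]
  have h1 : k • k'⁻¹ • a = k' • k'⁻¹ • a := h _ (by rw [F.pl_smul]; exact ha)
  rw [h1, smul_inv_smul]

theorem ag_mul_iff {pl : A → Finset I} {X : Finset I} {k g : K} :
    Agr pl X k (k * g) ↔ Trv pl X g := by
  constructor
  · intro h a ha
    have h1 := h a ha
    rw [mul_smul] at h1
    exact (MulAction.injective k h1).symm
  · intro h a ha
    rw [mul_smul, h a ha]

theorem Th_mulr (F : Fr A I K) {X : Finset I} {g k : K} (hg : g ∈ F.G) (hk : k ∈ F.Th X) :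
    k * g ∈ F.Th X := by
  have h := F.Th_mul (F.norm.conj_mem g hg k) hk
  have e : k * g * k⁻¹ * k = k * g := by group
  rwa [e] at h

theorem T_mulr (F : Fr A I K) (s : ℕ) {g : K} (hg : g ∈ F.G) (x : HF A) (X : Finset I) (k : K) :
    F.T s x X (k * g) = F.T s (g • x) X k := by
  rw [← F.T_smul s x X (k * g) hg, mul_inv_cancel_right]

/-! ### Transport of one object with large supports -/

section transport

variable (F : Fr A I K) (s : ℕ) {X : Finset I} {k : K} {Z : Finset (HF A)}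

theorem T_mem_TF (hZ : ∀ y ∈ Z, HS F.pl F.G s y) {y : HF A} (hy : y ∈ Z) {D : Finset I}
    (hXD : X ⊆ D) (hD : Supp F.pl F.G D y) {c : K} (hc : c ∈ F.Th D) (hk : Agr F.pl X k c)
    (hL : D.card + 2 * s ≤ F.L) : F.T s y D c ∈ F.TF s Z X k := by
  obtain ⟨Y, hY, hYs⟩ := hZ y hy y (HF.self_mem_tc y)
  have hc1 : (D ∪ Y).card ≤ D.card + s :=
    le_trans (Finset.card_union_le _ _) (Nat.add_le_add_left hY _)
  obtain ⟨c', hc', ha⟩ := F.Th_ext (X := D) (Y := D ∪ Y) subset_union_left (by omega) hc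
  rw [F.mem_TF]
  refine ⟨y, hy, Y, hY, hYs, c', F.Th_anti (union_subset_union_left hXD) hc',
    ag_trans hk (ag_anti hXD ha), ?_⟩
  rw [F.T_agr s hD ha, F.T_indep s hD hYs (by omega) hc']

theorem supp_TF {z : HF A} (hz : z ∈ F.TF s Z X k) :
    ∃ Y : Finset I, Y.card ≤ s ∧ Supp F.pl F.G Y z := by
  obtain ⟨y, hy, Y, hY, hY', r, hr, hr', rfl⟩ := (F.mem_TF s).1 hz
  exact ⟨Y, hY, F.supp_T s r hY'⟩

theorem HS_TF (hZ : ∀ y ∈ Z, HS F.pl F.G s y) (h9 : 9 * s ≤ F.L) {z : HF A}
    (hz : z ∈ F.TF s Z X k) : HS F.pl F.G s z := by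
  obtain ⟨y, hy, Y, hY, hY', r, hr, hr', rfl⟩ := (F.mem_TF s).1 hz
  exact F.HS_T s (hZ y hy) hY' (by omega) (by omega) (F.Th_anti Finset.subset_union_right hr)

/-- the inverse transport of an element of the transport -/
theorem T_inv_mem (hZ : ∀ y ∈ Z, HS F.pl F.G s y)
    (hG : ∀ g ∈ F.G, Trv F.pl X g → ∀ y ∈ Z, g • y ∈ Z) (h9 : 9 * s ≤ F.L)
    {z : HF A} (hz : z ∈ F.TF s Z X k) {D : Finset I} (hXD : X ⊆ D)
    (hD : Supp F.pl F.G D z) {c : K} (hc : c ∈ F.Th D) (hk : Agr F.pl X k c)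
    (hL : D.card + 4 * s ≤ F.L) : F.T s z D c⁻¹ ∈ Z ∧ Supp F.pl F.G D (F.T s z D c⁻¹) ∧
      F.T s (F.T s z D c⁻¹) D c = z := by
  have hsz := HS_TF F s hZ h9 hz
  refine ⟨?_, F.supp_T s _ hD, ?_⟩
  · obtain ⟨y, hy, Y, hY, hY', r, hr, hr', rfl⟩ := (F.mem_TF s).1 hz
    have hc1 : (D ∪ Y).card ≤ D.card + s :=
      le_trans (Finset.card_union_le _ _) (Nat.add_le_add_left hY _)
    have hXY : X ∪ Y ⊆ D ∪ Y := union_subset_union_left hXD
    have hc2 := card_le_card hXY
    obtain ⟨c', hc', ha⟩ := F.Th_ext (X := D) (Y := D ∪ Y) subset_union_left (by omega) hc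
    obtain ⟨g, hg, hg1⟩ := F.Th_hom (by omega) (F.Th_anti hXY hc') hr
    have hgN : Trv F.pl X g := by
      rw [← ag_mul_iff (k := c')]
      exact ag_trans (ag_symm (ag_anti hXD ha)) (ag_trans (ag_symm hk) (ag_trans hr'
        (ag_anti subset_union_left hg1)))
    have e1 : F.T s y Y r = F.T s (g • y) Y c' := by
      rw [← T_mulr F s hg]
      exact F.T_agr s hY' (ag_anti subset_union_right hg1)
    have hYg : Supp F.pl F.G Y (g • y) := F.supp_smul hY' g
    have hYc : Y.card ≤ (D ∪ Y).card := card_le_card subset_union_right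
    have e2 : F.T s (F.T s y Y r) D c⁻¹ = g • y := by
      rw [F.T_agr s hD (ag_inv F ha), F.T_indep s hD (F.supp_T s r hY') (by omega)
        (F.Th_inv hc'), e1]
      exact F.T_inv s (Fr.HS.smul F s (hZ y hy) g) hYg (by omega) (by omega)
        (F.Th_anti subset_union_right hc')
    rw [e2]
    exact hG g hg hgN y hy
  · have := F.T_inv s hsz hD (by omega) (by omega) (F.Th_inv hc)
    rwa [inv_inv] at this

end transport

/-! ### Measures -/

/-- a measure on the local isomorphisms which extend `k`, for sets of size at most `B` -/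
structure Ms (F : Fr A I K) (R : Type) [CommRing R] (X : Finset I) (k : K) (B : ℕ) where
  /-- the weights -/
  w : Finset I → K → R
  th : ∀ {Y : Finset I} {c : K}, X ⊆ Y → Y.card ≤ B → w Y c ≠ 0 → c ∈ F.Th Y
  ag : ∀ {Y : Finset I} {c : K}, X ⊆ Y → Y.card ≤ B → w Y c ≠ 0 → Agr F.pl X k c
  cons : ∀ {Y Y' : Finset I}, X ⊆ Y → Y ⊆ Y' → Y'.card ≤ B → ∀ p : K → Prop,
    (∀ c c', Agr F.pl Y c c' → (p c ↔ p c')) →
    ∑ c ∈ univ.filter p, w Y' c = ∑ c ∈ univ.filter p, w Y c

/-- a small support -/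
noncomputable def sp (F : Fr A I K) (s : ℕ) (y : HF A) : Finset I :=
  if h : ∃ Y : Finset I, Y.card ≤ s ∧ Supp F.pl F.G Y y then h.choose else ∅

section ms

variable {F : Fr A I K} {s : ℕ} {R : Type} [CommRing R] {X : Finset I} {k : K} {B : ℕ}
  {Z : Finset (HF A)}

theorem sp_card (y : HF A) : (sp F s y).card ≤ s := by
  unfold sp
  split_ifs with h
  · exact h.choose_spec.1
  · simp

theorem sp_supp {y : HF A} (h : HS F.pl F.G s y) : Supp F.pl F.G (sp F s y) y := by
  unfold sp
  rw [dif_pos (h y (HF.self_mem_tc y))]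
  exact (h y (HF.self_mem_tc y)).choose_spec.2

/-- the matrix of a measure -/
noncomputable def Ms.S (w : Ms F R X k B) (s : ℕ) (y' y : HF A) : R :=
  ∑ c ∈ univ.filter (fun c => F.T s y (X ∪ sp F s y) c = y'), w.w (X ∪ sp F s y) c

theorem Ms.sum_congr (w : Ms F R X k B) {Y : Finset I} {p q : K → Prop}
    (h : ∀ c, w.w Y c ≠ 0 → (p c ↔ q c)) :
    ∑ c ∈ univ.filter p, w.w Y c = ∑ c ∈ univ.filter q, w.w Y c := by
  rw [sum_filter, sum_filter]
  refine Finset.sum_congr rfl fun c _ => ?_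
  by_cases hc : w.w Y c = 0
  · rw [hc]
    simp
  · by_cases hp : p c
    · rw [if_pos hp, if_pos ((h c hc).1 hp)]
    · rw [if_neg hp, if_neg (fun hq => hp ((h c hc).2 hq))]

/-- the matrix can be computed with any support -/
theorem Ms.S_eq (w : Ms F R X k B) (hB : B ≤ F.L) {y y' : HF A} (hs : HS F.pl F.G s y) {D : Finset I}
    (hXD : X ⊆ D) (hD : Supp F.pl F.G D y) (hL : D.card + 2 * s ≤ B) :
    w.S s y' y = ∑ c ∈ univ.filter (fun c => F.T s y D c = y'), w.w D c := by
  unfold Ms.S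
  set E := sp F s y with hE
  have hEs : Supp F.pl F.G (X ∪ E) y := F.supp_mono (sp_supp hs) subset_union_right
  have h1 : (D ∪ E).card ≤ D.card + s :=
    le_trans (Finset.card_union_le _ _) (Nat.add_le_add_left (sp_card y) _)
  have h2 : X ∪ E ⊆ D ∪ E := union_subset_union_left hXD
  rw [← w.cons subset_union_left h2 (by omega) (fun c => F.T s y (X ∪ E) c = y')
      (fun c c' h => by rw [F.T_agr s hEs h]),
    ← w.cons hXD (subset_union_left (s₁ := D) (s₂ := E)) (by omega)
      (fun c => F.T s y D c = y') (fun c c' h => by rw [F.T_agr s hD h])]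
  refine w.sum_congr fun c hc => ?_
  have hc' := w.th (hXD.trans subset_union_left) (by omega) hc
  have h3 : (X ∪ E) ∪ D ⊆ D ∪ E :=
    union_subset h2 subset_union_left
  rw [F.T_indep s hEs hD (by have := card_le_card h3; omega) (F.Th_anti h3 hc')]

/-- the matrix computed with a support of the image -/
theorem Ms.S_inv (w : Ms F R X k B) (hB : B ≤ F.L) {y y' : HF A} (hs : HS F.pl F.G s y) (hs' : HS F.pl F.G s y')
    (h9 : 9 * s ≤ F.L) {D : Finset I}
    (hXD : X ⊆ D) (hD : Supp F.pl F.G D y') (hL : D.card + 4 * s ≤ B) :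
    w.S s y' y = ∑ c ∈ univ.filter (fun c => F.T s y' D c⁻¹ = y), w.w D c := by
  set E := sp F s y with hE
  have h1 : (D ∪ E).card ≤ D.card + s :=
    le_trans (Finset.card_union_le _ _) (Nat.add_le_add_left (sp_card y) _)
  have hEs : Supp F.pl F.G (D ∪ E) y := F.supp_mono (sp_supp hs) subset_union_right
  have hDs : Supp F.pl F.G (D ∪ E) y' := F.supp_mono hD subset_union_left
  rw [w.S_eq hB hs (hXD.trans subset_union_left) hEs (by omega),
    ← w.cons hXD (subset_union_left (s₁ := D) (s₂ := E)) (by omega)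
      (fun c => F.T s y' D c⁻¹ = y) (fun c c' h => by rw [F.T_agr s hD (ag_inv F h)])]
  refine w.sum_congr fun c hc => ?_
  have hc' := w.th (hXD.trans subset_union_left) (by omega) hc
  have h3 : F.T s y' D c⁻¹ = F.T s y' (D ∪ E) c⁻¹ := by
    have h4 : D ∪ (D ∪ E) ⊆ D ∪ E := union_subset subset_union_left subset_rfl
    exact F.T_indep s hD hDs (by have := card_le_card h4; omega) (F.Th_inv (F.Th_anti h4 hc'))
  rw [h3]
  constructor
  · intro h
    rw [← h]
    exact F.T_inv s hs hEs (by omega) (by omega) hc'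
  · intro h
    have := F.T_inv s hs' hDs (by omega) (by omega) (F.Th_inv hc')
    rwa [inv_inv, h] at this

/-- the matrix of a measure as a matrix between a set of objects and its transport -/
noncomputable def Ms.mat (w : Ms F R X k B) (s : ℕ) (Z : Finset (HF A)) :
    Matrix {z // z ∈ F.TF s Z X k} {z // z ∈ Z} R := fun y' y => w.S s y'.1 y.1

/-- `M` and `N` are transports of each other -/
def Trm (F : Fr A I K) (s : ℕ) {R : Type} (X : Finset I) (k : K) (Z : Finset (HF A))
    (M : Matrix {z // z ∈ Z} {z // z ∈ Z} R)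
    (N : Matrix {z // z ∈ F.TF s Z X k} {z // z ∈ F.TF s Z X k} R) : Prop :=
  ∀ x y : {z // z ∈ Z}, ∀ Yx Yy : Finset I, Yx.card ≤ s → Yy.card ≤ s →
    Supp F.pl F.G Yx x.1 → Supp F.pl F.G Yy y.1 →
    ∀ k' ∈ F.Th (X ∪ Yx ∪ Yy), Agr F.pl X k k' →
    ∀ x' y' : {z // z ∈ F.TF s Z X k}, x'.1 = F.T s x.1 Yx k' → y'.1 = F.T s y.1 Yy k' →
    N x' y' = M x y

/-- the matrix of a measure intertwines transported matrices -/
theorem Ms.intertw (w : Ms F R X k B) (hB : B ≤ F.L) (hZ : ∀ y ∈ Z, HS F.pl F.G s y)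
    (hG : ∀ g ∈ F.G, Trv F.pl X g → ∀ y ∈ Z, g • y ∈ Z) (h9 : 9 * s ≤ F.L)
    (hX : X.card + 6 * s ≤ B)
    {M : Matrix {z // z ∈ Z} {z // z ∈ Z} R}
    {N : Matrix {z // z ∈ F.TF s Z X k} {z // z ∈ F.TF s Z X k} R} (hMN : Trm F s X k Z M N) :
    w.mat s Z * M = N * w.mat s Z := by
  ext y' x
  rw [Matrix.mul_apply, Matrix.mul_apply]
  obtain ⟨W, hW, hWs⟩ := supp_TF F s y'.2
  have hsy' := HS_TF F s hZ h9 y'.2
  have hsx := hZ x.1 x.2
  set E := sp F s x.1 with hE
  set D := X ∪ E ∪ W with hD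
  have hXD : X ⊆ D := subset_union_left.trans subset_union_left
  have hED : E ⊆ D := subset_union_right.trans subset_union_left
  have hWD : W ⊆ D := subset_union_right
  have hDc : D.card ≤ X.card + s + s := by
    refine (card_union_le _ _).trans (Nat.add_le_add ((card_union_le _ _).trans
      (Nat.add_le_add_left (sp_card _) _)) hW)
  have hDx : Supp F.pl F.G D x.1 := F.supp_mono (sp_supp hsx) hED
  have hDy : Supp F.pl F.G D y'.1 := F.supp_mono hWs hWD
  have e1 : ∀ y : {z // z ∈ Z}, w.mat s Z y' y * M y x =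
      ∑ c : K, (if F.T s y'.1 D c⁻¹ = y.1 then w.w D c else 0) * M y x := by
    intro y
    rw [← Finset.sum_mul, ← sum_filter]
    congr 1
    exact w.S_inv hB (hZ y.1 y.2) hsy' h9 hXD hDy (by omega)
  have e2 : ∀ x' : {z // z ∈ F.TF s Z X k}, N y' x' * w.mat s Z x' x =
      ∑ c : K, N y' x' * (if F.T s x.1 D c = x'.1 then w.w D c else 0) := by
    intro x'
    rw [← Finset.mul_sum, ← sum_filter]
    congr 1
    exact w.S_eq hB hsx hXD hDx (by omega)
  rw [Finset.sum_congr rfl (fun y _ => e1 y), Finset.sum_congr rfl (fun x' _ => e2 x'),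
    Finset.sum_comm, Finset.sum_comm (s := (univ : Finset {z // z ∈ F.TF s Z X k}))]
  refine Finset.sum_congr rfl fun c _ => ?_
  by_cases hc : w.w D c = 0
  · simp only [hc, ite_self, zero_mul, mul_zero, sum_const_zero]
  · have hcT := w.th hXD (by omega) hc
    have hcA := w.ag hXD (by omega) hc
    obtain ⟨g1, g2, g3⟩ := T_inv_mem F s hZ hG h9 y'.2 hXD hDy hcT hcA (by omega)
    have g4 := T_mem_TF F s hZ x.2 hXD hDx hcT hcA (by omega)
    have f1 : ∑ y : {z // z ∈ Z}, (if F.T s y'.1 D c⁻¹ = y.1 then w.w D c else 0) * M y x =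
        w.w D c * M ⟨_, g1⟩ x := by
      rw [Finset.sum_eq_single (⟨_, g1⟩ : {z // z ∈ Z})]
      · rw [if_pos rfl]
      · intro y _ hy
        rw [if_neg (fun h => hy (Subtype.ext h.symm)), zero_mul]
      · intro h
        exact absurd (mem_univ _) h
    have f2 : ∑ x' : {z // z ∈ F.TF s Z X k},
        N y' x' * (if F.T s x.1 D c = x'.1 then w.w D c else 0) = N y' ⟨_, g4⟩ * w.w D c := by
      rw [Finset.sum_eq_single (⟨_, g4⟩ : {z // z ∈ F.TF s Z X k})]
      · rw [if_pos rfl]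
      · intro y _ hy
        rw [if_neg (fun h => hy (Subtype.ext h.symm)), mul_zero]
      · intro h
        exact absurd (mem_univ _) h
    rw [f1, f2, mul_comm]
    congr 1
    -- the entries
    have hWc : (D ∪ W).card ≤ D.card + s :=
      le_trans (Finset.card_union_le _ _) (Nat.add_le_add_left hW _)
    have hDW : D ∪ W ⊆ D := union_subset subset_rfl hWD
    have hDE : D ∪ E ⊆ D := union_subset subset_rfl hED
    have h5 : F.T s y'.1 D c⁻¹ = F.T s y'.1 W c⁻¹ :=
      F.T_indep s hDy hWs (by omega) (F.Th_inv (F.Th_anti hDW hcT))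
    have hWc2 : W.card ≤ D.card := card_le_card hWD
    have h6 : F.T s (F.T s y'.1 D c⁻¹) W c = y'.1 := by
      rw [h5]
      have := F.T_inv s hsy' hWs (by omega) (by omega) (F.Th_inv (F.Th_anti hWD hcT))
      rwa [inv_inv] at this
    have h7 : F.T s x.1 D c = F.T s x.1 E c :=
      F.T_indep s hDx (sp_supp hsx) (by have := card_le_card hDE; omega) (F.Th_anti hDE hcT)
    have h8 : Supp F.pl F.G W (F.T s y'.1 D c⁻¹) := by
      rw [h5]
      exact F.supp_T s _ hWs
    refine (hMN ⟨_, g1⟩ x W E hW (sp_card _) h8 (sp_supp hsx) c ?_ hcA y' ⟨_, g4⟩ h6.symm h7).symm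
    exact F.Th_anti (union_subset (union_subset hXD hWD) hED) hcT

end ms

end Pool.Agent.CLA
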