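import Pool.Agent.CLA.Twn
import Pool.Agent.CLA.Comb
import Pool.Agent.CLA.GdC
import Pool.Agent.CLA.In1

/-!
# The dissolving measures of the frame

`y0 ∉ X`, `u = 2^(n-1-h)` in the group `Ah n h` (so `2^h u = 2^(n-1)`), `r`, `β` from `comb'`. By
`flow` there is `a = k.z + z1` with divergence `tw n v0 - Pi.single r (2^(n-1))` everywhere, equal to
`k.z` at `X`. The weight of `a + z` is `β z` if `a + z` is in `Tht v0 n h Y`, otherwise `0`. The chains in
`Th Y` and not in `Th Y'` split into classes modulo agreement at `Y'`, all of mass `0` by the last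
clause of `comb'` with `D = {v | co v ⊆ Y'}`, which has at most `|Y'|^2` points in the plane.
-/

set_option autoImplicit false

namespace Pool.Agent.CLA

open Finset Classical
open Pool.Agent.CPT

variable {l n : ℕ}

theorem card_plane {Y : Finset (Fin l)} (y0 : Fin l) :
    ((univ.filter (fun v : Vx l => co v ⊆ Y)).filter (fun d => d 1 = y0)).card ≤
      Y.card * Y.card := by
  rw [← card_product]
  refine card_le_card_of_injOn (fun v => (v 0, v 2)) ?_ ?_
  · intro v hv
    have hv1 : co v ⊆ Y := by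
      have := (mem_filter.1 (mem_filter.1 (mem_coe.1 hv)).1).2
      exact this
    exact mem_coe.2 (mem_product.2 ⟨hv1 (mem_image_of_mem _ (mem_univ _)),
      hv1 (mem_image_of_mem _ (mem_univ _))⟩)
  · intro v hv w hw hvw
    have h1 := (mem_filter.1 (mem_coe.1 hv)).2
    have h2 := (mem_filter.1 (mem_coe.1 hw)).2
    obtain ⟨h3, h4⟩ := Prod.mk.inj hvw
    funext i
    fin_cases i
    · exact h3
    · exact h1.trans h2.symm
    · exact h4

/-- the local isomorphism with flips `a + z`, `z` with values in `Ah` -/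
noncomputable def shf (h : ℕ) (a : Ed l → Rn n) (z : Ed l → Ah n h) : KK l n :=
  mkK (fun e => a e + (z e : Rn n)) 1

theorem dv_add_coe (h : ℕ) (a : Ed l → Rn n) (z : Ed l → Ah n h) (v : Vx l) :
    dv (fun e => a e + (z e : Rn n)) v = dv a v + ((dv z v : Ah n h) : Rn n) := by
  have h1 : (fun e => a e + (z e : Rn n)) = a + fun e => (Ah n h).subtype (z e) := rfl
  rw [h1, dv_add, dv_map]
  rfl

/-- the measure for the graphs -/
theorem msC (v0 : Vx l) {h L B : ℕ} (hL : L < l) {X : Finset (Fin l)} {k : KK l n}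
    (hk : k ∈ Tht v0 n h X) (hX : X.card < l) (hBh : B ^ 2 ≤ h)
    (hl : 3 ^ h + h < l) (hn : h + 1 ≤ n) :
    ∃ w : Ms (frm v0 n h L hL) (ZMod 2) X k B, ∑ c, w.w X c = 1 := by
  -- a plane that does not meet `X^3`
  obtain ⟨y0, hy0⟩ : ∃ y0 : Fin l, y0 ∉ X := by
    by_contra hc
    push Not at hc
    have : X = univ := eq_univ_iff_forall.2 hc
    rw [this, card_univ, Fintype.card_fin] at hX
    omega
  have hu : (2 : Rn n) ^ (n - 1 - h) ∈ Ah n h := AddSubgroup.mem_zmultiples _
  have h2u : (2 ^ h) • (2 : Rn n) ^ (n - 1 - h) = (2 : Rn n) ^ (n - 1) := by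
    rw [nsmul_eq_mul, Nat.cast_pow, Nat.cast_ofNat, ← pow_add]
    congr 1
    omega
  obtain ⟨r, β, hr, hβ1, hβ2, hβ3⟩ := comb' (l := l) (⟨_, hu⟩ : Ah n h) h y0 hl
  have hrX : ¬ co r ⊆ X := fun hc => hy0 (hr ▸ hc (mem_image_of_mem _ (mem_univ _)))
  -- the shift
  have hf0 : ∀ v, co v ⊆ X →
      tw n v0 v - (if v = r then (2 : Rn n) ^ (n - 1) else 0) - dv k.z v = 0 := by
    intro v hv
    rw [hk.2.2 v hv, if_neg (fun hc : v = r => hrX (hc ▸ hv)), sub_zero, sub_self]
  have hmem : ∀ v, tw n v0 v - (if v = r then (2 : Rn n) ^ (n - 1) else 0) - dv k.z v ∈ Ah n h := by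
    intro v
    refine (Ah n h).sub_mem ((Ah n h).sub_mem ?_ ?_) ?_
    · unfold tw
      by_cases hv : v = v0
      · rw [hv, Pi.single_eq_same]
        exact half_mem n h
      · rw [Pi.single_eq_of_ne hv]
        exact (Ah n h).zero_mem
    · split_ifs
      · exact half_mem n h
      · exact (Ah n h).zero_mem
    · have h1 : k.z = fun e => (Ah n h).subtype ⟨k.z e, hk.2.1 e⟩ := rfl
      rw [h1, dv_map]
      exact (dv _ v : Ah n h).2
  have hsum : ∑ v, (⟨_, hmem v⟩ : Ah n h) = 0 := by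
    apply Subtype.ext
    rw [AddSubgroup.val_finsetSum]
    show ∑ v, (tw n v0 v - (if v = r then (2 : Rn n) ^ (n - 1) else 0) - dv k.z v) = 0
    rw [sum_sub_distrib, sum_sub_distrib, sum_dv, sub_zero]
    simp [tw]
  obtain ⟨z1, hz1, hz2⟩ := flow (X := X) (fun v => (⟨_, hmem v⟩ : Ah n h))
    (fun v hv => Subtype.ext (hf0 v hv)) hsum
  set a : Ed l → Rn n := fun e => k.z e + (z1 e : Rn n) with ha
  have hdva : ∀ v, dv a v = tw n v0 v - if v = r then (2 : Rn n) ^ (n - 1) else 0 := by
    intro v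
    rw [ha, dv_add_coe, hz2]
    show dv k.z v + (tw n v0 v - (if v = r then (2 : Rn n) ^ (n - 1) else 0) - dv k.z v) = _
    abel
  have haX : ∀ e, EdX X e → a e = k.z e := by
    intro e he
    have h1 : z1 e = 0 := by
      by_contra hne
      obtain ⟨h2, h3⟩ := hz1 e hne
      obtain ⟨u, hu1, hu2⟩ := he h2
      exact h3 u hu1 hu2
    rw [ha]
    simp only
    rw [h1]
    exact add_zero _
  have haA : ∀ e, a e ∈ Ah n h := fun e => (Ah n h).add_mem (hk.2.1 e) (z1 e).2
  -- membership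
  have hTh : ∀ (Y : Finset (Fin l)) (z : Ed l → Ah n h), shf h a z ∈ Tht v0 n h Y ↔
      ∀ v, co v ⊆ Y → dv z v = if v = r then (2 ^ h) • (⟨_, hu⟩ : Ah n h) else 0 := by
    intro Y z
    have key : ∀ v, (dv (shf h a z).z v = tw n v0 v ↔
        dv z v = if v = r then (2 ^ h) • (⟨_, hu⟩ : Ah n h) else 0) := by
      intro v
      have h1 : dv (shf h a z).z v = dv a v + ((dv z v : Ah n h) : Rn n) := dv_add_coe h a z v
      rw [h1, hdva]
      constructor
      · intro h2
        apply Subtype.ext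
        have h3 : ((dv z v : Ah n h) : Rn n) = if v = r then (2 : Rn n) ^ (n - 1) else 0 := by
          have h4 : ((dv z v : Ah n h) : Rn n) =
              (tw n v0 v - (if v = r then (2 : Rn n) ^ (n - 1) else 0) + ((dv z v : Ah n h) : Rn n)) -
              (tw n v0 v - (if v = r then (2 : Rn n) ^ (n - 1) else 0)) := by
            rw [add_sub_cancel_left]
          rw [h4, h2, sub_sub_cancel]
        rw [h3]
        split_ifs
        · rw [← h2u]
          rfl
        · rfl
      · intro h2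
        rw [h2]
        split_ifs
        · have h3 : (((2 ^ h) • (⟨_, hu⟩ : Ah n h) : Ah n h) : Rn n) = (2 : Rn n) ^ (n - 1) := by
            rw [← h2u]
            rfl
          rw [h3]
          abel
        · show tw n v0 v - 0 + (0 : Rn n) = _
          abel
    constructor
    · intro h1 v hv
      exact (key v).1 (h1.2.2 v hv)
    · intro h1
      exact ⟨rfl, fun e => (Ah n h).add_mem (haA e) (z e).2, fun v hv => (key v).2 (h1 v hv)⟩
  -- the sums
  set W : Finset (Fin l) → KK l n → ZMod 2 := fun Y c =>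
    ∑ z ∈ univ.filter (fun z : Ed l → Ah n h => shf h a z = c ∧ shf h a z ∈ Tht v0 n h Y), β z
    with hW
  have hWsum : ∀ (Y : Finset (Fin l)) (p : KK l n → Prop), ∑ c ∈ univ.filter p, W Y c =
      ∑ z ∈ univ.filter (fun z : Ed l → Ah n h => p (shf h a z) ∧ shf h a z ∈ Tht v0 n h Y),
        β z := by
    intro Y p
    rw [hW]
    simp only [sum_filter]
    rw [← sum_filter, sum_comm]
    refine sum_congr rfl fun z _ => ?_
    rw [sum_filter]
    rw [sum_eq_single (shf h a z)]
    · by_cases h1 : p (shf h a z) <;> by_cases h2 : shf h a z ∈ Tht v0 n h Y <;> simp [h1, h2]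
    · intro c _ hc
      rw [if_neg (fun h1 : shf h a z = c ∧ _ => hc h1.1.symm), ite_self]
    · intro hc
      exact absurd (mem_univ _) hc
  have hWne : ∀ {Y : Finset (Fin l)} {c : KK l n}, W Y c ≠ 0 → ∃ z : Ed l → Ah n h,
      β z ≠ 0 ∧ shf h a z = c ∧ shf h a z ∈ Tht v0 n h Y := by
    intro Y c hne
    obtain ⟨z, hz, hz'⟩ := exists_ne_zero_of_sum_ne_zero hne
    rw [mem_filter] at hz
    exact ⟨z, hz', hz.2.1, hz.2.2⟩
  have hplane : ∀ z : Ed l → Ah n h, β z ≠ 0 → ∀ e, EdX X e → z e = 0 := by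
    intro z hz e he
    by_cases hu' : ∃ u, ie e u
    · obtain ⟨u, hu1, hu2⟩ := he hu'
      by_cases h1 : e.1 = 1
      · exact hβ2 z hz e (Or.inl h1)
      · refine hβ2 z hz e (Or.inr (Or.inl ?_))
        intro h2
        apply hy0
        rw [← h2, ← hu1.2.1 1 (fun hc => h1 hc.symm)]
        exact hu2 (mem_image_of_mem _ (mem_univ _))
    · exact hβ2 z hz e (Or.inr (Or.inr hu'))
  refine ⟨⟨W, ?_, ?_, ?_⟩, ?_⟩
  · intro Y c _ _ hne
    obtain ⟨z, -, rfl, hz⟩ := hWne hne
    exact hz
  · intro Y c _ _ hne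
    obtain ⟨z, hz, rfl, -⟩ := hWne hne
    show Agr (pl (n := n)) X k (shf h a z)
    rw [flip_agr hk.1 rfl]
    intro e he
    show k.z e = a e + (z e : Rn n)
    rw [haX e he, hplane z hz e he]
    exact (add_zero _).symm
  · intro Y Y' hXY hYY' hY' p hp
    rw [hWsum, hWsum]
    have hsub : univ.filter (fun z : Ed l → Ah n h => p (shf h a z) ∧
        shf h a z ∈ Tht v0 n h Y') ⊆ univ.filter (fun z : Ed l → Ah n h => p (shf h a z) ∧
        shf h a z ∈ Tht v0 n h Y) := by
      intro z hz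
      rw [mem_filter] at hz ⊢
      exact ⟨hz.1, hz.2.1, hz.2.2.1, hz.2.2.2.1, fun v hv => hz.2.2.2.2 v (hv.trans hYY')⟩
    rw [← sum_sdiff hsub]
    symm
    rw [add_eq_right]
    set S := univ.filter (fun z : Ed l → Ah n h => p (shf h a z) ∧
        shf h a z ∈ Tht v0 n h Y) \ univ.filter (fun z : Ed l → Ah n h => p (shf h a z) ∧
        shf h a z ∈ Tht v0 n h Y') with hS
    have hSm : ∀ z, z ∈ S ↔ p (shf h a z) ∧ shf h a z ∈ Tht v0 n h Y ∧
        shf h a z ∉ Tht v0 n h Y' := by
      intro z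
      rw [hS, Finset.mem_sdiff, mem_filter, mem_filter]
      simp only [mem_univ, true_and]
      tauto
    -- classes
    let cl : (Ed l → Ah n h) → (Ed l → Ah n h) := fun z e => if EdX Y' e then z e else 0
    have hcl : ∀ z z', cl z = cl z' ↔ ∀ e, EdX Y' e → z e = z' e := by
      intro z z'
      constructor
      · intro h1 e he
        have h2 := congrFun h1 e
        simp only [cl, if_pos he] at h2
        exact h2
      · intro h1
        funext e
        simp only [cl]
        by_cases he : EdX Y' e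
        · rw [if_pos he, if_pos he, h1 e he]
        · rw [if_neg he, if_neg he]
    have hdvc : ∀ z z' : Ed l → Ah n h, (∀ e, EdX Y' e → z e = z' e) → ∀ v, co v ⊆ Y' → dv z v = dv z' v := by
      intro z z' h1 v hv
      exact dv_congr fun e he => h1 e fun _ => ⟨v, he, hv⟩
    rw [← sum_fiberwise_of_maps_to (s := S) (t := S.image cl) (g := cl)
      (fun z hz => mem_image_of_mem _ hz)]
    refine sum_eq_zero fun z1 hz1 => ?_
    obtain ⟨z0, hz0, rfl⟩ := mem_image.1 hz1
    obtain ⟨hp0, hY0, hY0'⟩ := (hSm z0).1 hz0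
    have hviol : ∃ d ∈ univ.filter (fun v : Vx l => co v ⊆ Y'),
        dv z0 d ≠ if d = r then (2 ^ h) • (⟨_, hu⟩ : Ah n h) else 0 := by
      by_contra hc
      push Not at hc
      apply hY0'
      rw [hTh]
      exact fun v hv => hc v (mem_filter.2 ⟨mem_univ _, hv⟩)
    have h3 := hβ3 (univ.filter (fun v : Vx l => co v ⊆ Y'))
      ((card_plane y0).trans ((Nat.mul_le_mul hY' hY').trans ((sq B).symm.le.trans hBh))) z0 hviol
    refine Eq.trans (sum_congr ?_ fun _ _ => rfl) h3
    ext z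
    simp only [mem_filter, mem_univ, true_and, hcl]
    show _ ↔ ∀ e, EdX Y' e → z e = z0 e
    constructor
    · exact fun h4 => h4.2
    · intro h4
      refine ⟨?_, h4⟩
      rw [hSm]
      have hag : Agr (pl (n := n)) Y' (shf h a z0) (shf h a z) := by
        rw [flip_agr rfl rfl]
        intro e he
        show a e + (z0 e : Rn n) = a e + (z e : Rn n)
        rw [h4 e he]
      refine ⟨(hp _ _ (ag_anti hYY' hag)).1 hp0, ?_, ?_⟩
      · rw [hTh] at hY0 ⊢
        intro v hv
        rw [hdvc z z0 h4 v (hv.trans hYY')]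
        exact hY0 v hv
      · intro h5
        apply hY0'
        rw [hTh] at h5 ⊢
        intro v hv
        rw [← hdvc z z0 h4 v hv]
        exact h5 v hv
  · show ∑ c, W X c = 1
    have h1 := hWsum X (fun _ => True)
    simp only [filter_true, true_and] at h1
    rw [h1, ← hβ1]
    refine sum_subset (filter_subset _ _) fun z _ hz => ?_
    by_contra hne
    apply hz
    rw [mem_filter]
    refine ⟨mem_univ _, ?_⟩
    rw [hTh]
    intro v hv
    rw [if_neg (fun hc : v = r => hrX (hc ▸ hv))]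
    have h2 : dv z v = dv (0 : Ed l → Ah n h) v :=
      dv_congr fun e he => hplane z hne e fun _ => ⟨v, he, hv⟩
    rw [h2, dv_zero]

/-- measures and additional fixed atoms -/
theorem Ms.toExt {A I K : Type} [Fintype A] [Fintype I] [Fintype K] [Group K] [MulAction K A]
    {F : Fr A I K} {R : Type} [CommRing R] {X : Finset I} {k : K} {B : ℕ} (A' : Type) [Fintype A']
    (h : ∃ w : Ms F R X k B, ∑ c, w.w X c = 1) :
    ∃ w : Ms (F.ext A') R X k B, ∑ c, w.w X c = 1 := by
  have hag : ∀ (Y : Finset I) (c c' : K), Agr (F.ext A').pl Y c c' ↔ Agr F.pl Y c c' := by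
    intro Y c c'
    constructor
    · intro h a ha
      exact AB.l_inj (h (AB.l a) ha)
    · intro h x hx
      rcases AB.cases x with ⟨a, rfl⟩ | ⟨b, rfl⟩
      · rw [AB.smul_l, AB.smul_l, h a hx]
      · rfl
  obtain ⟨w, hw⟩ := h
  exact ⟨⟨w.w, fun h1 h2 h3 => w.th h1 h2 h3, fun h1 h2 h3 => (hag _ _ _).2 (w.ag h1 h2 h3),
    fun h1 h2 h3 p hp => w.cons h1 h2 h3 p fun c c' hc => hp c c' ((hag _ _ _).2 hc)⟩, hw⟩

theorem ms_exists (v0 : Vx l) (h L B : ℕ) (hL : L < l) (hB : B ^ 2 ≤ h) (hn : h + 1 ≤ n)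
    (hl : 3 ^ h + h < l) (A' : Type) [Fintype A'] {X : Finset (Fin l)} {k : KK l n}
    (hX : X.card ≤ L) (hk : k ∈ Tht v0 n h X) :
    ∃ w : Ms ((frm v0 n h L hL).ext A') (ZMod 2) X k B, ∑ c, w.w X c = 1 :=
  Ms.toExt A' (msC v0 hL hk (lt_of_le_of_lt hX hL) hB hl hn)

end Pool.Agent.CLA
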