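import Mathlib

/-!
# Signed topology lemma

Abstract form over an additive commutative group `A` with elements `eX x y z`, `eY x y z`,
`eZ x y z` (the oriented edges of the grid graph `{0..l-1}^3`) and a subgroup `S` containing the
oriented boundaries of all squares outside `X x X' x X''`: every edge outside is homologous to the
difference of the chosen paths to its ends, and every cycle outside lies in `S`.
-/

set_option autoImplicit false
set_option linter.unusedSectionVars false

namespace Pool.Agent.CLA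

section rect

variable {A : Type*} [AddCommGroup A]

/-- prefix sum -/
def pre (e : ℕ → A) (n : ℕ) : A := ∑ t ∈ Finset.range n, e t

theorem pre_succ (e : ℕ → A) (n : ℕ) : pre e (n + 1) = pre e n + e n := by
  simp [pre, Finset.sum_range_succ]

private theorem Topo_strip0 (S : AddSubgroup A) (l : ℕ) (e1 e1' e2 : ℕ → A)
    (h : ∀ t, t + 1 < l → e1 t - e1' t + (e2 (t + 1) - e2 t) ∈ S) :
    ∀ a, a < l → pre e1 a - pre e1' a + (e2 a - e2 0) ∈ S := by
  intro a
  induction a with
  | zero => intro _; simp [pre, S.zero_mem]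
  | succ a ih =>
    intro ha
    have h4 := S.add_mem (ih (by omega)) (h a ha)
    rw [pre_succ, pre_succ]
    have e : pre e1 a + e1 a - (pre e1' a + e1' a) + (e2 (a + 1) - e2 0)
        = (pre e1 a - pre e1' a + (e2 a - e2 0)) + (e1 a - e1' a + (e2 (a + 1) - e2 a)) := by abel
    rw [e]
    exact h4

/-- strip between two neighbouring lines -/
theorem strip (S : AddSubgroup A) (l : ℕ) (e1 e1' e2 : ℕ → A)
    (h : ∀ t, t + 1 < l → e1 t - e1' t + (e2 (t + 1) - e2 t) ∈ S)
    (a b : ℕ) (ha : a < l) (hb : b < l) :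
    (pre e1 b - pre e1 a) - (pre e1' b - pre e1' a) + (e2 b - e2 a) ∈ S := by
  have h1 := Topo_strip0 S l e1 e1' e2 h a ha
  have h3 := Topo_strip0 S l e1 e1' e2 h b hb
  have h4 := S.sub_mem h3 h1
  have e : (pre e1 b - pre e1 a) - (pre e1' b - pre e1' a) + (e2 b - e2 a)
      = (pre e1 b - pre e1' b + (e2 b - e2 0)) - (pre e1 a - pre e1' a + (e2 a - e2 0)) := by abel
  rw [e]
  exact h4

/-- full rectangle -/
theorem rect (S : AddSubgroup A) (l : ℕ) (e1 e2 : ℕ → ℕ → A)
    (h : ∀ t s, t + 1 < l → s + 1 < l →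
      e1 t s - e1 t (s + 1) + (e2 (t + 1) s - e2 t s) ∈ S)
    (a b c d : ℕ) (ha : a < l) (hb : b < l) (hc : c < l) (hd : d < l) :
    (pre (fun t => e1 t c) b - pre (fun t => e1 t c) a)
      - (pre (fun t => e1 t d) b - pre (fun t => e1 t d) a)
      + ((pre (e2 b) d - pre (e2 b) c) - (pre (e2 a) d - pre (e2 a) c)) ∈ S := by
  have key : ∀ s, s + 1 < l →
      (pre (fun t => e1 t s) b - pre (fun t => e1 t s) a)
      - (pre (fun t => e1 t (s + 1)) b - pre (fun t => e1 t (s + 1)) a)
      + (e2 b s - e2 a s) ∈ S := by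
    intro s hs
    exact strip S l (fun t => e1 t s) (fun t => e1 t (s + 1)) (fun t => e2 t s)
      (fun t ht => h t s ht hs) a b ha hb
  have := strip S l (e2 b) (e2 a) (fun s => - (pre (fun t => e1 t s) b - pre (fun t => e1 t s) a))
    (fun s hs => by
      have := key s hs
      have e : e2 b s - e2 a s + (-(pre (fun t => e1 t (s + 1)) b - pre (fun t => e1 t (s + 1)) a)
          - -(pre (fun t => e1 t s) b - pre (fun t => e1 t s) a))
          = (pre (fun t => e1 t s) b - pre (fun t => e1 t s) a)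
      - (pre (fun t => e1 t (s + 1)) b - pre (fun t => e1 t (s + 1)) a)
      + (e2 b s - e2 a s) := by abel
      rw [e]; exact this) c d hc hd
  have e : (pre (fun t => e1 t c) b - pre (fun t => e1 t c) a)
      - (pre (fun t => e1 t d) b - pre (fun t => e1 t d) a)
      + ((pre (e2 b) d - pre (e2 b) c) - (pre (e2 a) d - pre (e2 a) c))
      = pre (e2 b) d - pre (e2 b) c - (pre (e2 a) d - pre (e2 a) c) +
        ((fun s => - (pre (fun t => e1 t s) b - pre (fun t => e1 t s) a)) d -
        (fun s => - (pre (fun t => e1 t s) b - pre (fun t => e1 t s) a)) c) := by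
    simp only []
    abel
  rw [e]
  exact this

end rect

section edges

variable {A : Type*} [AddCommGroup A]

private theorem Topo_mem (S : AddSubgroup A) {g m : A} (hm : m ∈ S) (h : g = m) : g ∈ S := by
  rw [h]; exact hm

/-- the path from `(x0, y0, z0)` to `(x, y, z)` as a chain -/
noncomputable def pathTo (q r : ℕ → Prop) (eX eY eZ : ℕ → ℕ → ℕ → A) (x0 y0 z0 x y z : ℕ) : A :=
  open Classical in
  if ¬ q y ∨ ¬ r z then
    (pre (fun t => eZ x0 y0 t) z - pre (fun t => eZ x0 y0 t) z0)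
    + (pre (fun t => eY x0 t z) y - pre (fun t => eY x0 t z) y0)
    + (pre (fun t => eX t y z) x - pre (fun t => eX t y z) x0)
  else
    (pre (fun t => eZ x0 y0 t) z - pre (fun t => eZ x0 y0 t) z0)
    + (pre (fun t => eX t y0 z) x - pre (fun t => eX t y0 z) x0)
    + (pre (fun t => eY x t z) y - pre (fun t => eY x t z) y0)

variable (S : AddSubgroup A) (l : ℕ) (p q r : ℕ → Prop)
  (eX eY eZ : ℕ → ℕ → ℕ → A)
  (hXY : ∀ x y z, x + 1 < l → y + 1 < l → z < l →
    ((¬ p x ∧ ¬ p (x + 1)) ∨ (¬ q y ∧ ¬ q (y + 1)) ∨ ¬ r z) →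
    eX x y z - eX x (y + 1) z + (eY (x + 1) y z - eY x y z) ∈ S)
  (hXZ : ∀ x y z, x + 1 < l → y < l → z + 1 < l →
    ((¬ p x ∧ ¬ p (x + 1)) ∨ ¬ q y ∨ (¬ r z ∧ ¬ r (z + 1))) →
    eX x y z - eX x y (z + 1) + (eZ (x + 1) y z - eZ x y z) ∈ S)
  (hYZ : ∀ x y z, x < l → y + 1 < l → z + 1 < l →
    (¬ p x ∨ (¬ q y ∧ ¬ q (y + 1)) ∨ (¬ r z ∧ ¬ r (z + 1))) →
    eY x y z - eY x y (z + 1) + (eZ x (y + 1) z - eZ x y z) ∈ S)
  (x0 y0 z0 : ℕ) (hx0 : x0 < l) (hy0 : y0 < l) (hz0 : z0 < l)
  (px0 : ¬ p x0) (qy0 : ¬ q y0) (rz0 : ¬ r z0)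

include hXY hXZ hYZ hx0 hy0 hz0 px0 qy0 rz0

private theorem Topo_box (x y z : ℕ) (hx : x < l) (hy : y < l) (hz : z < l)
    (px : ¬ p x) (qy : ¬ q y) :
    (pre (fun t => eX t y0 z) x - pre (fun t => eX t y0 z) x0)
      - (pre (fun t => eX t y z) x - pre (fun t => eX t y z) x0)
      + ((pre (fun t => eY x t z) y - pre (fun t => eY x t z) y0)
        - (pre (fun t => eY x0 t z) y - pre (fun t => eY x0 t z) y0)) ∈ S := by
  have r0 := rect S l (fun t s => eX t s z0) (fun t s => eY t s z0)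
    (fun t s ht hs => hXY t s z0 ht hs hz0 (Or.inr (Or.inr rz0))) x0 x y0 y hx0 hx hy0 hy
  have w1 := rect S l (fun t s => eX t y0 s) (fun t s => eZ t y0 s)
    (fun t s ht hs => hXZ t y0 s ht hy0 hs (Or.inr (Or.inl qy0))) x0 x z z0 hx0 hx hz hz0
  have w2 := rect S l (fun t s => eX t y s) (fun t s => eZ t y s)
    (fun t s ht hs => hXZ t y s ht hy hs (Or.inr (Or.inl qy))) x0 x z z0 hx0 hx hz hz0
  have w3 := rect S l (fun t s => eY x0 t s) (fun t s => eZ x0 t s)
    (fun t s ht hs => hYZ x0 t s hx0 ht hs (Or.inl px0)) y0 y z z0 hy0 hy hz hz0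
  have w4 := rect S l (fun t s => eY x t s) (fun t s => eZ x t s)
    (fun t s ht hs => hYZ x t s hx ht hs (Or.inl px)) y0 y z z0 hy0 hy hz hz0
  refine Topo_mem S (S.add_mem (S.add_mem (S.add_mem (S.add_mem r0 w1) (S.neg_mem w2))
    (S.neg_mem w3)) w4) ?_
  abel

theorem edgeX (x y z : ℕ) (hx : x + 1 < l) (hy : y < l) (hz : z < l)
    (h1 : ¬ (p x ∧ q y ∧ r z)) (h1' : ¬ (p (x + 1) ∧ q y ∧ r z)) :
    eX x y z - (pathTo q r eX eY eZ x0 y0 z0 (x + 1) y z - pathTo q r eX eY eZ x0 y0 z0 x y z)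
      ∈ S := by
  unfold pathTo
  by_cases c : ¬ q y ∨ ¬ r z
  · rw [if_pos c, if_pos c, pre_succ]
    refine Topo_mem S S.zero_mem ?_
    abel
  · rw [if_neg c, if_neg c, pre_succ]
    have c' : q y ∧ r z := by
      simpa [not_or, not_not] using c
    have px : ¬ p x := fun h => h1 ⟨h, c'⟩
    have px' : ¬ p (x + 1) := fun h => h1' ⟨h, c'⟩
    have s1 := strip S l (fun t => eY x t z) (fun t => eY (x + 1) t z) (fun t => eX x t z)
      (fun t ht => by
        have := S.neg_mem (hXY x t z hx ht hz (Or.inl ⟨px, px'⟩))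
        have e : eY x t z - eY (x + 1) t z + (eX x (t + 1) z - eX x t z)
          = - (eX x t z - eX x (t + 1) z + (eY (x + 1) t z - eY x t z)) := by abel
        rw [e]; exact this) y0 y hy0 hy
    refine Topo_mem S s1 ?_
    abel

theorem edgeY (x y z : ℕ) (hx : x < l) (hy : y + 1 < l) (hz : z < l)
    (h1 : ¬ (p x ∧ q y ∧ r z)) (h1' : ¬ (p x ∧ q (y + 1) ∧ r z)) :
    eY x y z - (pathTo q r eX eY eZ x0 y0 z0 x (y + 1) z - pathTo q r eX eY eZ x0 y0 z0 x y z)
      ∈ S := by
  have box := Topo_box S l p q r eX eY eZ hXY hXZ hYZ x0 y0 z0 hx0 hy0 hz0 px0 qy0 rz0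
  unfold pathTo
  by_cases c : ¬ r z ∨ (¬ q y ∧ ¬ q (y + 1))
  · have c1 : ¬ q y ∨ ¬ r z := by tauto
    have c2 : ¬ q (y + 1) ∨ ¬ r z := by tauto
    rw [if_pos c1, if_pos c2, pre_succ]
    have s1 := strip S l (fun t => eX t y z) (fun t => eX t (y + 1) z) (fun t => eY t y z)
      (fun t ht => hXY t y z ht hy hz (by tauto)) x0 x hx0 hx
    refine Topo_mem S s1 ?_
    abel
  · have rz : r z := by tauto
    by_cases c1 : q y
    · have px : ¬ p x := fun h => h1 ⟨h, c1, rz⟩
      by_cases c2 : q (y + 1)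
      · rw [if_neg (by tauto), if_neg (by tauto), pre_succ]
        refine Topo_mem S S.zero_mem ?_
        abel
      · rw [if_pos (by tauto), if_neg (by tauto)]
        have b := box x (y + 1) z hx hy hz px c2
        rw [pre_succ, pre_succ] at b
        rw [pre_succ]
        refine Topo_mem S b ?_
        abel
    · have c2 : q (y + 1) := by tauto
      have px : ¬ p x := fun h => h1' ⟨h, c2, rz⟩
      rw [if_neg (by tauto), if_pos (by tauto), pre_succ]
      have b := box x y z hx (by omega) hz px c1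
      refine Topo_mem S (S.neg_mem b) ?_
      abel

theorem edgeZ (x y z : ℕ) (hx : x < l) (hy : y < l) (hz : z + 1 < l)
    (h1 : ¬ (p x ∧ q y ∧ r z)) (h1' : ¬ (p x ∧ q y ∧ r (z + 1))) :
    eZ x y z - (pathTo q r eX eY eZ x0 y0 z0 x y (z + 1) - pathTo q r eX eY eZ x0 y0 z0 x y z)
      ∈ S := by
  -- strips
  have sx0 := strip S l (fun t => eY x0 t z) (fun t => eY x0 t (z + 1)) (fun t => eZ x0 t z)
      (fun t ht => hYZ x0 t z hx0 ht hz (Or.inl px0)) y0 y hy0 hy
  have sy0 := strip S l (fun t => eX t y0 z) (fun t => eX t y0 (z + 1)) (fun t => eZ t y0 z)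
      (fun t ht => hXZ t y0 z ht hy0 hz (Or.inr (Or.inl qy0))) x0 x hx0 hx
  unfold pathTo
  by_cases c : ¬ q y ∨ (¬ r z ∧ ¬ r (z + 1))
  · rw [if_pos (by tauto), if_pos (by tauto), pre_succ]
    have s2 := strip S l (fun t => eX t y z) (fun t => eX t y (z + 1)) (fun t => eZ t y z)
      (fun t ht => hXZ t y z ht hy hz (by tauto)) x0 x hx0 hx
    refine Topo_mem S (S.add_mem sx0 s2) ?_
    abel
  · have px : ¬ p x := by tauto
    have sx := strip S l (fun t => eY x t z) (fun t => eY x t (z + 1)) (fun t => eZ x t z)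
      (fun t ht => hYZ x t z hx ht hz (Or.inl px)) y0 y hy0 hy
    by_cases c1 : r z
    · by_cases c2 : r (z + 1)
      · rw [if_neg (by tauto), if_neg (by tauto), pre_succ]
        refine Topo_mem S (S.add_mem sy0 sx) ?_
        abel
      · rw [if_pos (by tauto), if_neg (by tauto), pre_succ]
        have r1 := rect S l (fun t s => eX t s (z + 1)) (fun t s => eY t s (z + 1))
          (fun t s ht hs => hXY t s (z + 1) ht hs hz (Or.inr (Or.inr c2))) x0 x y0 y hx0 hx hy0 hy
        refine Topo_mem S (S.add_mem (S.add_mem sy0 sx) r1) ?_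
        abel
    · rw [if_neg (by tauto), if_pos (by tauto), pre_succ]
      have r1 := rect S l (fun t s => eX t s z) (fun t s => eY t s z)
          (fun t s ht hs => hXY t s z ht hs (by omega) (Or.inr (Or.inr c1))) x0 x y0 y hx0 hx hy0 hy
      refine Topo_mem S (S.add_mem (S.add_mem sy0 sx) (S.neg_mem r1)) ?_
      abel

end edges

section cycle

/-- the homomorphisms with values in a subgroup -/
def homInto (M : Type*) {N : Type*} [AddCommGroup M] [AddCommGroup N] (S : AddSubgroup N) :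
    AddSubgroup (M →+ N) where
  carrier := {f | ∀ m, f m ∈ S}
  add_mem' hf hg m := S.add_mem (hf m) (hg m)
  zero_mem' _ := S.zero_mem
  neg_mem' hf m := S.neg_mem (hf m)

theorem mem_homInto {M N : Type*} [AddCommGroup M] [AddCommGroup N] {S : AddSubgroup N}
    {f : M →+ N} : f ∈ homInto M S ↔ ∀ m, f m ∈ S := Iff.rfl

/-- a cycle with coefficients in `M` is homologous to zero if every edge is homologous to the
difference of the paths to its ends -/
theorem cycle_mem {I V M N : Type*} [AddCommGroup M] [AddCommGroup N] [DecidableEq V]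
    (S : AddSubgroup N) (Z : Finset I) (src tgt : I → V) (e : I → M →+ N) (P : V → M →+ N)
    (z : I → M)
    (hz : ∀ v, ∑ i ∈ Z.filter (fun i => tgt i = v), z i = ∑ i ∈ Z.filter (fun i => src i = v), z i)
    (h : ∀ i ∈ Z, e i - (P (tgt i) - P (src i)) ∈ homInto M S) :
    ∑ i ∈ Z, e i (z i) ∈ S := by
  have h1 : ∑ i ∈ Z, (e i - (P (tgt i) - P (src i))) (z i) ∈ S :=
    S.sum_mem fun i hi => h i hi (z i)
  have key : ∀ f : I → V, ∑ i ∈ Z, P (f i) (z i) =
      ∑ v ∈ Z.image src ∪ Z.image tgt ∪ Z.image f,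
        P v (∑ i ∈ Z.filter (fun i => f i = v), z i) := by
    intro f
    rw [← Finset.sum_fiberwise_of_maps_to (s := Z) (t := Z.image src ∪ Z.image tgt ∪ Z.image f)
      (g := f) (fun i hi => Finset.mem_union_right _ (Finset.mem_image_of_mem _ hi))]
    refine Finset.sum_congr rfl fun v _ => ?_
    rw [map_sum]
    exact Finset.sum_congr rfl fun i hi => by rw [(Finset.mem_filter.1 hi).2]
  have h0 : ∑ i ∈ Z, P (tgt i) (z i) = ∑ i ∈ Z, P (src i) (z i) := by
    rw [key src, key tgt]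
    have e1 : Z.image src ∪ Z.image tgt ∪ Z.image src = Z.image src ∪ Z.image tgt := by
      ext v; simp only [Finset.mem_union]; tauto
    have e2 : Z.image src ∪ Z.image tgt ∪ Z.image tgt = Z.image src ∪ Z.image tgt := by
      ext v; simp only [Finset.mem_union]; tauto
    rw [e1, e2]
    exact Finset.sum_congr rfl fun v _ => by rw [hz v]
  have h2 : ∑ i ∈ Z, (e i - (P (tgt i) - P (src i))) (z i) = ∑ i ∈ Z, e i (z i) := by
    simp only [AddMonoidHom.sub_apply, Finset.sum_sub_distrib]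
    rw [h0, sub_self, sub_zero]
  rw [← h2]
  exact h1

end cycle

end Pool.Agent.CLA
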