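import Pool.Agent.CLA.Hb
import Pool.Agent.CPT.Grp

/-!
# The group lemma for Heisenberg groups

A group `G` acts on `X`, `φ i : Hb n →* G` are homomorphisms with pairwise commuting images, the orbit
of `x` has at most `q` elements, `1 ≤ r`. Then there is a set `S` of indices with
`2 ^ (r * |S|) ≤ q ^ 2` such that for `i ∉ S` all central elements `φ i (0, 0, 2^(2r-2) b)` fix `x`.

Plan (compare `exists_cover`, `group_lemma'` in `Pool/Agent/CPT/Grp.lean`; `DS`, `DS_comm`,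
`comm_aux` of this file can be used with the subgroups `(φ i).range`).
(1) COVER. For every finite `U` and every family `a : ℕ → Hb n` with `a (s + t) = a s * a t` (here
`a s = (s,0,0)` or `(0,s,0)`) there is `S ⊆ U` with `2 ^ (r * |S|) ≤ |orbit of x under DS S|` such
that for `i ∈ U`, `i ∉ S` there are `0 < s < 2^r` and `d ∈ DS S` with `d • x = φ i (a s) • x`: take `S`
maximal; if the `2^r` translates `φ i (a s) • O`, `0 ≤ s < 2^r`, of the orbit `O` of `x` under `DS S`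
were pairwise disjoint, the orbit under `DS (insert i S)` would have at least `2^r |O|` elements.
If the translates for `s < t` meet, cancel.
(2) Apply (1) to `U = univ` and `(s,0,0)`, which gives `S1`, and then to the complement of `S1` and
`(0,s,0)`, which gives `S2`. For `i ∉ S1 ∪ S2`: `d⁻¹ φ i (s,0,0)` and `e⁻¹ φ i (0,t,0)` fix `x`, so their
commutator, which is `φ i (0,0,s t)` by `comm_aux` and `Hb.comm_xy`, fixes `x`.
(3) `0 < s, t < 2^r`: `s t = 2^v u` with `u` odd and `v ≤ 2r-2`; `u` is invertible modulo `2^n`, so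
`(0,0,2^(2r-2) b)` is a power of `(0,0,s t)` (`Hb.pow_ce`).
-/

set_option autoImplicit false

namespace Pool.Agent.CLA

open Finset Classical

private theorem Grp_cover {G X ι : Type} [Group G] [MulAction G X] (Γ : ι → Subgroup G)
    (hc : ∀ i j, i ≠ j → ∀ x ∈ Γ i, ∀ y ∈ Γ j, x * y = y * x) (c : ι → ℕ → G)
    (hcm : ∀ i s, c i s ∈ Γ i) (hca : ∀ i s t, c i (s + t) = c i s * c i t) (x : X)
    (hfin : (MulAction.orbit G x).Finite) (r : ℕ) (U : Finset ι) :
    ∃ S ⊆ U, 2 ^ (r * S.card) ≤ (MulAction.orbit (CPT.DS Γ S) x).ncard ∧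
      ∀ i ∈ U, i ∉ S → ∃ s, 0 < s ∧ s < 2 ^ r ∧ ∃ d ∈ CPT.DS Γ S, d • x = c i s • x := by
  have hsub : ∀ S : Finset ι, MulAction.orbit (CPT.DS Γ S) x ⊆ MulAction.orbit G x := by
    rintro S _ ⟨g, rfl⟩
    exact ⟨(g : G), rfl⟩
  set P : Finset (Finset ι) :=
    U.powerset.filter (fun S => 2 ^ (r * S.card) ≤ (MulAction.orbit (CPT.DS Γ S) x).ncard) with hP
  have hne : P.Nonempty := by
    refine ⟨∅, ?_⟩
    rw [hP, Finset.mem_filter]
    refine ⟨Finset.empty_mem_powerset _, ?_⟩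
    rw [Finset.card_empty, mul_zero, pow_zero]
    exact Set.ncard_pos ((hfin.subset (hsub ∅))) |>.2 ⟨x, MulAction.mem_orbit_self x⟩
  obtain ⟨S, hS, hmax⟩ := P.exists_max_image Finset.card hne
  rw [hP, Finset.mem_filter, Finset.mem_powerset] at hS
  refine ⟨S, hS.1, hS.2, fun i hi hiS => ?_⟩
  by_contra hcon
  push Not at hcon
  have hcomm : ∀ s : ℕ, ∀ d ∈ CPT.DS Γ S, c i s * d = d * c i s := by
    intro s d hd
    exact CPT.DS_comm hc (S := {i}) (T := S) (Finset.disjoint_singleton_left.2 hiS) (c i s)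
      (CPT.le_DS (Finset.mem_singleton_self i) (hcm i s)) d hd
  have h1 : insert i S ∈ P := by
    rw [hP, Finset.mem_filter, Finset.mem_powerset]
    refine ⟨Finset.insert_subset hi hS.1, ?_⟩
    rw [Finset.card_insert_of_notMem hiS, mul_add, mul_one, pow_add]
    have hO := hfin.subset (hsub S)
    have hO' := hfin.subset (hsub (insert i S))
    set O : Finset X := hO.toFinset with hOdef
    set O' : Finset X := hO'.toFinset with hOdef'
    have hOc : (MulAction.orbit (CPT.DS Γ S) x).ncard = O.card := Set.ncard_eq_toFinset_card _ hO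
    have hOc' : (MulAction.orbit (CPT.DS Γ (insert i S)) x).ncard = O'.card :=
      Set.ncard_eq_toFinset_card _ hO'
    have hle : CPT.DS Γ S ≤ CPT.DS Γ (insert i S) :=
      CPT.DS_le_iff.2 fun j hj => CPT.le_DS (Finset.mem_insert_of_mem hj)
    have himg : (Finset.range (2 ^ r) ×ˢ O).image (fun p => c i p.1 • p.2) ⊆ O' := by
      intro z hz
      rw [Finset.mem_image] at hz
      obtain ⟨⟨s, w⟩, hsw, rfl⟩ := hz
      rw [Finset.mem_product] at hsw
      have hw : w ∈ MulAction.orbit (CPT.DS Γ S) x := by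
        have := hsw.2
        rwa [hOdef, Set.Finite.mem_toFinset] at this
      obtain ⟨g, rfl⟩ := hw
      rw [hOdef', Set.Finite.mem_toFinset]
      have h4 : c i s ∈ CPT.DS Γ (insert i S) := CPT.le_DS (Finset.mem_insert_self i S) (hcm i s)
      exact ⟨⟨c i s * g, mul_mem h4 (hle g.2)⟩, by
        change (c i s * (g : G)) • x = c i s • ((g : G) • x)
        rw [mul_smul]⟩
    have key : ∀ s t : ℕ, s < t → t < 2 ^ r → ∀ d ∈ CPT.DS Γ S, ∀ d' ∈ CPT.DS Γ S,
        c i s • d • x ≠ c i t • d' • x := by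
      intro s t hst ht d hd d' hd' heq
      obtain ⟨m, rfl⟩ : ∃ m, t = s + m := ⟨t - s, by omega⟩
      rw [hca, mul_smul, smul_left_cancel_iff, ← mul_smul (c i m), hcomm m d' hd', mul_smul] at heq
      refine hcon m (by omega) (by omega) (d'⁻¹ * d) (mul_mem (inv_mem hd') hd) ?_
      rw [mul_smul, heq, inv_smul_smul]
    have hinj : Set.InjOn (fun p : ℕ × X => c i p.1 • p.2) (Finset.range (2 ^ r) ×ˢ O : Finset (ℕ × X)) := by
      rintro ⟨s, w⟩ h1 ⟨t, w'⟩ h2 heq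
      rw [Finset.mem_coe, Finset.mem_product, Finset.mem_range, hOdef, Set.Finite.mem_toFinset]
        at h1 h2
      obtain ⟨h1, ⟨g, hg⟩⟩ := h1
      obtain ⟨h2, ⟨g', hg'⟩⟩ := h2
      change (g : G) • x = w at hg
      change (g' : G) • x = w' at hg'
      change c i s • w = c i t • w' at heq
      rcases lt_trichotomy s t with h | h | h
      · exfalso
        rw [← hg, ← hg'] at heq
        exact key s t h h2 _ g.2 _ g'.2 heq
      · subst h
        rw [smul_left_cancel_iff] at heq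
        rw [heq]
      · exfalso
        rw [← hg, ← hg'] at heq
        exact key t s h h1 _ g'.2 _ g.2 heq.symm
    calc 2 ^ (r * S.card) * 2 ^ r ≤ (MulAction.orbit (CPT.DS Γ S) x).ncard * 2 ^ r :=
          Nat.mul_le_mul_right _ hS.2
      _ = ((Finset.range (2 ^ r) ×ˢ O).image (fun p => c i p.1 • p.2)).card := by
          rw [Finset.card_image_of_injOn hinj, Finset.card_product, Finset.card_range, hOc, mul_comm]
      _ ≤ O'.card := Finset.card_le_card himg
      _ = _ := hOc'.symm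
  have h7 := hmax _ h1
  rw [Finset.card_insert_of_notMem hiS] at h7
  omega

/-- a product of two positive numbers smaller than `2 ^ r` divides `2 ^ (2 r - 2) b` modulo
`2 ^ n` -/
private theorem Grp_num {n r s t : ℕ} (hr : 1 ≤ r) (hs0 : 0 < s) (hs : s < 2 ^ r) (ht0 : 0 < t)
    (ht : t < 2 ^ r) (b : Rn n) : ∃ k : ℕ, k • ((s : Rn n) * (t : Rn n)) = 2 ^ (2 * r - 2) * b := by
  obtain ⟨v, u, hu, rfl⟩ := Nat.exists_eq_two_pow_mul_odd hs0.ne'
  obtain ⟨v', u', hu', rfl⟩ := Nat.exists_eq_two_pow_mul_odd ht0.ne'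
  have hv : v < r := by
    by_contra h
    have h1 : 2 ^ r ≤ 2 ^ v := Nat.pow_le_pow_right (by norm_num) (not_lt.1 h)
    have h2 : 2 ^ v * 1 ≤ 2 ^ v * u := Nat.mul_le_mul_left _ hu.pos
    omega
  have hv' : v' < r := by
    by_contra h
    have h1 : 2 ^ r ≤ 2 ^ v' := Nat.pow_le_pow_right (by norm_num) (not_lt.1 h)
    have h2 : 2 ^ v' * 1 ≤ 2 ^ v' * u' := Nat.mul_le_mul_left _ hu'.pos
    omega
  have hcop : Nat.Coprime (u * u') (2 ^ n) :=
    ((Nat.coprime_two_right.2 (hu.mul hu'))).pow_right n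
  obtain ⟨w, hw⟩ : ∃ w : Rn n, ((u * u' : ℕ) : Rn n) * w = 1 :=
    ⟨((u * u' : ℕ) : Rn n)⁻¹, ZMod.coe_mul_inv_eq_one _ hcop⟩
  refine ⟨(2 ^ (2 * r - 2 - (v + v')) * w * b : Rn n).val, ?_⟩
  rw [nsmul_eq_mul, ZMod.natCast_zmod_val]
  have h1 : (2 : Rn n) ^ (2 * r - 2) = 2 ^ (2 * r - 2 - (v + v')) * (2 ^ v * 2 ^ v') := by
    rw [← pow_add, ← pow_add]
    congr 1
    omega
  rw [h1]
  push_cast at hw ⊢
  linear_combination (2 ^ (2 * r - 2 - (v + v')) * 2 ^ v * 2 ^ v' * b : Rn n) * hw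

theorem grp_lemma {G X ι : Type} [Group G] [MulAction G X] [Fintype ι] {n : ℕ}
    (φ : ι → Hb n →* G)
    (hc : ∀ i j, i ≠ j → ∀ a b : Hb n, φ i a * φ j b = φ j b * φ i a) (x : X) (q r : ℕ)
    (hr : 1 ≤ r) (hfin : (MulAction.orbit G x).Finite) (hq : (MulAction.orbit G x).ncard ≤ q) :
    ∃ S : Finset ι, 2 ^ (r * S.card) ≤ q ^ 2 ∧
      ∀ i ∉ S, ∀ b : Rn n, φ i (Hb.ce (2 ^ (2 * r - 2) * b)) • x = x := by
  set Γ : ι → Subgroup G := fun i => (φ i).range with hΓ
  have hc' : ∀ i j, i ≠ j → ∀ x ∈ Γ i, ∀ y ∈ Γ j, x * y = y * x := by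
    rintro i j hij _ ⟨a, rfl⟩ _ ⟨b, rfl⟩
    exact hc i j hij a b
  have hsub : ∀ S : Finset ι, MulAction.orbit (CPT.DS Γ S) x ⊆ MulAction.orbit G x := by
    rintro S _ ⟨g, rfl⟩
    exact ⟨(g : G), rfl⟩
  have hle : ∀ S : Finset ι, (MulAction.orbit (CPT.DS Γ S) x).ncard ≤ q := fun S =>
    (Set.ncard_le_ncard (hsub S) hfin).trans hq
  obtain ⟨S, hSU, hS1, hS2⟩ := Grp_cover Γ hc' (fun i s => φ i ⟨(s : Rn n), 0, 0⟩)
    (fun i s => ⟨_, rfl⟩) (fun i s t => by
      rw [← map_mul]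
      congr 1
      ext <;> simp) x hfin r Finset.univ
  obtain ⟨T, hTU, hT1, hT2⟩ := Grp_cover Γ hc' (fun i s => φ i ⟨0, (s : Rn n), 0⟩)
    (fun i s => ⟨_, rfl⟩) (fun i s t => by
      rw [← map_mul]
      congr 1
      ext <;> simp) x hfin r (Finset.univ \ S)
  refine ⟨S ∪ T, ?_, fun i hi b => ?_⟩
  · calc 2 ^ (r * (S ∪ T).card) ≤ 2 ^ (r * S.card + r * T.card) := by
          refine Nat.pow_le_pow_right (by norm_num) ?_
          rw [← mul_add]
          exact Nat.mul_le_mul_left _ (Finset.card_union_le S T)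
      _ = 2 ^ (r * S.card) * 2 ^ (r * T.card) := pow_add _ _ _
      _ ≤ q * q := Nat.mul_le_mul (hS1.trans (hle S)) (hT1.trans (hle T))
      _ = _ := by ring
  · rw [Finset.mem_union, not_or] at hi
    obtain ⟨s, hs0, hs, d, hd, hd1⟩ := hS2 i (Finset.mem_univ _) hi.1
    obtain ⟨t, ht0, ht, e, he, he1⟩ := hT2 i (Finset.mem_sdiff.2 ⟨Finset.mem_univ _, hi.1⟩) hi.2
    have hdis : Disjoint S T := by
      rw [Finset.disjoint_left]
      intro j hj hj'
      exact (Finset.mem_sdiff.1 (hTU hj')).2 hj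
    set a : G := φ i ⟨(s : Rn n), 0, 0⟩ with ha
    set c : G := φ i ⟨0, (t : Rn n), 0⟩ with hcc
    have h1 : d⁻¹ * a ∈ MulAction.stabilizer G x := by
      rw [MulAction.mem_stabilizer_iff, mul_smul, ← hd1, inv_smul_smul]
    have h2 : e⁻¹ * c ∈ MulAction.stabilizer G x := by
      rw [MulAction.mem_stabilizer_iff, mul_smul, ← he1, inv_smul_smul]
    have hiS : Disjoint ({i} : Finset ι) S := Finset.disjoint_singleton_left.2 hi.1
    have hiT : Disjoint ({i} : Finset ι) T := Finset.disjoint_singleton_left.2 hi.2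
    have ha' : a ∈ CPT.DS Γ {i} := CPT.le_DS (Finset.mem_singleton_self i) ⟨_, rfl⟩
    have hc'' : c ∈ CPT.DS Γ {i} := CPT.le_DS (Finset.mem_singleton_self i) ⟨_, rfl⟩
    have k1 : Commute d⁻¹ a := (CPT.DS_comm hc' hiS a ha' _ (inv_mem hd)).symm
    have k2 : Commute d⁻¹ c := (CPT.DS_comm hc' hiS c hc'' _ (inv_mem hd)).symm
    have k3 : Commute e⁻¹ a := (CPT.DS_comm hc' hiT a ha' _ (inv_mem he)).symm
    have k4 : Commute e⁻¹ c := (CPT.DS_comm hc' hiT c hc'' _ (inv_mem he)).symm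
    have k5 : Commute d⁻¹ e⁻¹ := CPT.DS_comm hc' hdis _ (inv_mem hd) _ (inv_mem he)
    have h3 : a * c * a⁻¹ * c⁻¹ = (d⁻¹ * a) * (e⁻¹ * c) * (d⁻¹ * a)⁻¹ * (e⁻¹ * c)⁻¹ :=
      CPT.comm_aux k1 k2 k3 k4 k5
    have h4 : a * c * a⁻¹ * c⁻¹ = φ i (Hb.ce ((s : Rn n) * (t : Rn n))) := by
      rw [ha, hcc, ← map_inv, ← map_inv, ← map_mul, ← map_mul, ← map_mul, Hb.comm_xy]
    have h5 : φ i (Hb.ce ((s : Rn n) * (t : Rn n))) ∈ MulAction.stabilizer G x := by
      rw [← h4, h3]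
      exact mul_mem (mul_mem (mul_mem h1 h2) (inv_mem h1)) (inv_mem h2)
    obtain ⟨k, hk⟩ := Grp_num hr hs0 hs ht0 ht b
    rw [← hk, ← Hb.pow_ce, map_pow]
    exact MulAction.mem_stabilizer_iff.1 (pow_mem h5 k)

end Pool.Agent.CLA
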