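import Pool.Agent.CLA.Twn
import Pool.Agent.CLA.Grp
import Pool.Agent.CLA.GdF

/-!
# The support theorem

Objects with small orbits under the group `HH` of all known automorphisms have small supports for the
central group `GZ` of the transport.

Plan. `few_sq`: the orbit under the subgroup of the elements `mkK 0 g` (all of them are in `HH`) is
contained in the orbit under `HH`. `grp_lemma` with the index set `Sq l` and
`φ C g = mkK 0 (Pi.mulSingle C g)` (as homomorphisms to `KK l n` restricted to that subgroup, or to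
`Sq l → Hb n` acting through `MulAction.compHom` as in `CPT/Sup.lean`).
`sqf_triv`: the element `(sg C · a, ce (-a) at C)` changes no label (`dw`, `Hb.cc_ce`) and no
component (`Hb.ce_smul`).
`fix_of_sq`: `k = mkK z 1` with `z = 0` on the edges with an end in `X^3` and on the edges without
ends (`flip_trv`), so `fill` (in the group `Ah n h`, then `dv_map`) gives `z = ∑ C, sg C • σ C` with
`σ C` in `Ah n h` and `σ C = 0` for `C ∈ J`. For `C ∉ J` both `(sg C · a, ce (-a) at C)` and
`ce a at C` fix `x`, hence so does their product `mkK (sg C · a) 1`.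
`sup_exists` as in `CPT/Sup.lean`; the elements of `Ah n h` have the form `2^(2r-2) b`.
-/

set_option autoImplicit false
set_option linter.unusedSectionVars false

namespace Pool.Agent.CLA

open Finset Classical
open Pool.Agent.CPT

variable {l n : ℕ} {B : Type} [Fintype B]

/-! ### Elements which act trivially -/

private theorem Sup_hf_triv {A K : Type} [Group K] [MulAction K A] {k : K}
    (h : ∀ a : A, k • a = a) (x : HF A) : k • x = x := by
  rw [HF.smul_def]
  have : (fun a : A => k • a) = id := funext h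
  rw [this, HF.map_id]

/-- an element acts trivially if its local components act trivially on the squares and no label
changes -/
private theorem Sup_triv {k : KK l n} (h1 : ∀ C, ∀ p : Rn n × Rn n, k.g C • p = p)
    (h2 : ∀ (a : Sq l → Rn n × Rn n) (e : Ed l), dw k a e = 0) (x : HF (AB (Al l n) B)) :
    k • x = x := by
  have hA : ∀ a : At l n, k • a = a := by
    intro a
    refine At.ext rfl ?_ ?_
    · funext C
      rw [smul_a, h1, ite_self]
    · funext e
      rw [smul_w, h2, add_zero, ite_self]
  have hE : ∀ y : Es l n, k • y = y := by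
    intro y
    refine Es.ext rfl ?_ ?_
    · funext C
      rw [smulE_a, h1, ite_self]
    · rw [smulE_w, h2, add_zero]
  apply Sup_hf_triv
  intro a
  rcases AB.cases a with ⟨a, rfl⟩ | ⟨b, rfl⟩
  · rw [AB.smul_l]
    congr 1
    cases a with
    | atm x => rw [smul_atm, hA]
    | est y => rw [smul_est, hE]
    | lf y => rw [smul_lf, hE]
    | pv v => rfl
    | pf v j => rfl
    | mr i => rfl
    | mf i j => rfl
  · rw [AB.smul_r]

/-- the flip of a square together with the central element of its local group acts trivially -/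
theorem sqf_triv (C : Sq l) (a : Rn n) (x : HF (AB (Al l n) B)) :
    (mkK (fun e => sg C e • a) (Pi.mulSingle C (Hb.ce (-a))) : KK l n) • x = x := by
  apply Sup_triv
  · intro C' p
    rw [mkK_g]
    by_cases h : C' = C
    · subst h
      rw [Pi.mulSingle_eq_same, Hb.ce_smul]
    · rw [Pi.mulSingle_eq_of_ne h, one_smul]
  · intro a' e
    unfold dw
    rw [mkK_z, mkK_g, Finset.sum_filter, Finset.sum_eq_single C]
    · rw [Pi.mulSingle_eq_same, Hb.cc_ce]
      by_cases hC : se C e
      · rw [if_pos hC, smul_neg, add_neg_cancel]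
      · rw [if_neg hC, add_zero, sg, if_neg hC, zero_smul]
    · intro C' _ hne
      rw [Pi.mulSingle_eq_of_ne hne, Hb.cc_one, smul_zero, ite_self]
    · intro h
      exact absurd (Finset.mem_univ _) h

/-! ### Sums of squares -/

private theorem Sup_sum (S : Subgroup (KK l n)) (σ : Sq l → Rn n)
    (h : ∀ C, σ C ≠ 0 → (mkK (fun e => sg C e • σ C) 1 : KK l n) ∈ S) :
    (mkK (fun e => ∑ C, sg C e • σ C) 1 : KK l n) ∈ S := by
  have key : ∀ T : Finset (Sq l), (mkK (fun e => ∑ C ∈ T, sg C e • σ C) 1 : KK l n) ∈ S := by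
    intro T
    induction T using Finset.induction_on with
    | empty =>
      have : (mkK (fun e => ∑ C ∈ (∅ : Finset (Sq l)), sg C e • σ C) 1 : KK l n) = 1 := by
        apply KK.ext
        · funext e
          simp
        · rfl
      rw [this]
      exact S.one_mem
    | insert C T hC ih =>
      have e1 : (mkK (fun e => ∑ C' ∈ insert C T, sg C' e • σ C') 1 : KK l n) =
          mkK (fun e => sg C e • σ C) 1 * mkK (fun e => ∑ C' ∈ T, sg C' e • σ C') 1 := by
        apply KK.ext
        · funext e
          rw [mul_z, mkK_z, mkK_z, mkK_z, Finset.sum_insert hC, Pi.add_apply]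
        · rw [mul_g, mkK_g, mkK_g, mkK_g, one_mul]
      rw [e1]
      refine S.mul_mem ?_ ih
      by_cases h0 : σ C = 0
      · have : (mkK (fun e => sg C e • σ C) 1 : KK l n) = 1 := by
          apply KK.ext
          · funext e
            rw [mkK_z, h0, smul_zero]
            rfl
          · rfl
        rw [this]
        exact S.one_mem
      · exact h C h0
  exact key Finset.univ

/-- what triviality means for flips -/
private theorem Sup_trv {X : Finset (Fin l)} {k : KK l n} (hk : k.g = 1)
    (ht : Trv (A := Al l n) pl X k) :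
    (∀ e u, ie e u → co u ⊆ X → k.z e = 0) ∧ ∀ e, (∀ u, ¬ ie e u) → k.z e = 0 := by
  have hdw : ∀ e, dw k 0 e = k.z e := by
    intro e
    unfold dw
    rw [hk]
    rw [Finset.sum_eq_zero, add_zero]
    intro C _
    rw [Pi.one_apply, Hb.cc_one, smul_zero]
  constructor
  · intro e u hu hc
    have h1 := ht (Al.atm (mkA u 0 0)) hc
    rw [smul_atm, Al.atm.injEq] at h1
    have h2 := congrArg (fun y => At.w y e) h1
    simp only [smul_w] at h2
    rw [if_pos (show ie e (mkA (n := n) u 0 0).v from hu), mkA_w, mkA_a, Pi.zero_apply, zero_add,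
      hdw] at h2
    exact h2
  · intro e he
    have h1 := ht (Al.est (mkE e 0 0)) (by
      intro i hi
      change i ∈ ce e at hi
      rw [ce, Finset.mem_biUnion] at hi
      obtain ⟨u, hu, -⟩ := hi
      exact absurd (Finset.mem_filter.1 hu).2 (he u))
    rw [smul_est, Al.est.injEq] at h1
    have h2 := congrArg Es.w h1
    rw [smulE_w, mkE_w, mkE_a, mkE_e, zero_add, hdw] at h2
    exact h2

/-- if `x` is fixed by the central elements with values in `Ah n h` of all squares outside `J`, then
the coordinates of the squares in `J` support `x` -/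
theorem fix_of_sq (h : ℕ) (x : HF (AB (Al l n) B)) (J : Finset (Sq l))
    (hJ : ∀ C, C ∉ J → ∀ a ∈ Ah n h, (mkK 0 (Pi.mulSingle C (Hb.ce a)) : KK l n) • x = x)
    (hl : J.biUnion cs ≠ Finset.univ) (k : KK l n) (hk : k ∈ GZ l n h)
    (ht : Trv (A := Al l n) pl (J.biUnion cs) k) : k • x = x := by
  obtain ⟨hk1, hk2, hk3⟩ := hk
  obtain ⟨ht1, ht2⟩ := Sup_trv hk1 ht
  set X := J.biUnion cs with hX
  set S : Subgroup (KK l n) := MulAction.stabilizer (KK l n) x with hS
  let z : Ed l → Ah n h := fun e => ⟨k.z e, hk2 e⟩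
  have hz : ∀ v, dv z v = 0 := by
    intro v
    have h1 := dv_map (Ah n h).subtype z v
    apply Subtype.ext
    change (Ah n h).subtype (dv z v) = 0
    rw [← h1]
    exact hk3 v
  obtain ⟨σ, hσ1, hσ2⟩ := fill hl hz
    (by
      intro e he u hu hc
      exact he (Subtype.ext (ht1 e u hu hc)))
    (fun e he => Subtype.ext (ht2 e he))
  have hflip : ∀ C, (σ C : Rn n) ≠ 0 → (mkK (fun e => sg C e • (σ C : Rn n)) 1 : KK l n) ∈ S := by
    intro C hC
    have hC' : σ C ≠ 0 := fun h => hC (by rw [h]; rfl)
    have hCJ : C ∉ J := by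
      intro hCJ
      obtain ⟨⟨u, hu⟩, hall⟩ := hσ2 C hC'
      apply hall u hu
      exact (co_sub_cs hu).trans (Finset.subset_biUnion_of_mem cs hCJ)
    have h1 : (mkK (fun e => sg C e • (σ C : Rn n)) (Pi.mulSingle C (Hb.ce (-(σ C : Rn n)))) :
        KK l n) ∈ S := MulAction.mem_stabilizer_iff.2 (sqf_triv C _ x)
    have h2 : (mkK 0 (Pi.mulSingle C (Hb.ce (σ C : Rn n))) : KK l n) ∈ S :=
      MulAction.mem_stabilizer_iff.2 (hJ C hCJ _ (σ C).2)
    have h3 : (mkK (fun e => sg C e • (σ C : Rn n)) 1 : KK l n) =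
        mkK (fun e => sg C e • (σ C : Rn n)) (Pi.mulSingle C (Hb.ce (-(σ C : Rn n)))) *
          mkK 0 (Pi.mulSingle C (Hb.ce (σ C : Rn n))) := by
      apply KK.ext
      · rw [mul_z, mkK_z, mkK_z, mkK_z, add_zero]
      · rw [mul_g, mkK_g, mkK_g, mkK_g, ← Pi.mulSingle_mul]
        have : Hb.ce (-(σ C : Rn n)) * Hb.ce (σ C : Rn n) = 1 := by
          ext <;> simp [Hb.ce]
        rw [this, Pi.mulSingle_one]
    rw [h3]
    exact S.mul_mem h1 h2
  have hfin : k = mkK (fun e => ∑ C, sg C e • (σ C : Rn n)) 1 := by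
    apply KK.ext
    · funext e
      rw [mkK_z]
      have h1 := congrArg (fun a : Ah n h => (a : Rn n)) (hσ1 e)
      simp only [z] at h1
      rw [h1]
      push_cast
      rfl
    · exact hk1
  have hmem := Sup_sum S (fun C => (σ C : Rn n)) hflip
  rw [← hfin] at hmem
  exact MulAction.mem_stabilizer_iff.1 hmem

/-- elements of `Ah n h` are multiples of small powers of two -/
private theorem Sup_mul {h r : ℕ} (hrn : 2 * r + h ≤ n + 1) {a : Rn n} (ha : a ∈ Ah n h) :
    ∃ b : Rn n, a = 2 ^ (2 * r - 2) * b := by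
  obtain ⟨m, rfl⟩ := AddSubgroup.mem_zmultiples_iff.1 ha
  refine ⟨2 ^ (n - 1 - h - (2 * r - 2)) * (m : Rn n), ?_⟩
  rw [← mul_assoc, ← pow_add, zsmul_eq_mul, mul_comm]
  congr 2
  omega

/-- few squares have a central element that does not fix an object with a small orbit -/
theorem few_sq (Q r : ℕ) (hr : 1 ≤ r) (x : HF (AB (Al l n) B)) (hx : (orb (HH l n) x).card ≤ Q) :
    ∃ J : Finset (Sq l), 2 ^ (r * J.card) ≤ Q ^ 2 ∧
      ∀ C, C ∉ J → ∀ b : Rn n, (mkK 0 (Pi.mulSingle C (Hb.ce (2 ^ (2 * r - 2) * b))) : KK l n) • x =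
        x := by
  let φ : Sq l → Hb n →* HH l n := fun C =>
    { toFun := fun g => ⟨mkK 0 (Pi.mulSingle C g), fun v => dv_zero v⟩
      map_one' := by
        apply Subtype.ext
        apply KK.ext
        · rfl
        · exact Pi.mulSingle_one C
      map_mul' := by
        intro g g'
        apply Subtype.ext
        apply KK.ext
        · change (0 : Ed l → Rn n) = 0 + 0
          rw [add_zero]
        · exact Pi.mulSingle_mul (f := fun _ : Sq l => Hb n) C g g' }
  have hφ : ∀ (C : Sq l) (g : Hb n) (y : HF (AB (Al l n) B)),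
      φ C g • y = (mkK 0 (Pi.mulSingle C g) : KK l n) • y := fun C g y => rfl
  have horb : MulAction.orbit (HH l n) x = (orb (HH l n) x : Set (HF (AB (Al l n) B))) := by
    ext y
    simp only [orb, Finset.coe_image, Set.mem_image, Finset.mem_coe, Finset.mem_filter,
        Finset.mem_univ, true_and]
    constructor
    · rintro ⟨g, rfl⟩
      exact ⟨g.1, g.2, rfl⟩
    · rintro ⟨g, hg, rfl⟩
      exact ⟨⟨g, hg⟩, rfl⟩
  obtain ⟨J, hJ1, hJ2⟩ := grp_lemma (G := HH l n) φ
    (by
      intro C D hCD a b
      apply Subtype.ext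
      apply KK.ext
      · rfl
      · exact (Pi.mulSingle_commute (f := fun _ : Sq l => Hb n) hCD a b)) x Q r hr
    (by rw [horb]; exact Finset.finite_toSet _)
    (by rw [horb, Set.ncard_coe_finset]; exact hx)
  refine ⟨J, hJ1, fun C hC b => ?_⟩
  rw [← hφ]
  exact hJ2 C hC b

theorem card_pl (v0 : Vx l) (h L : ℕ) (hL : L < l) (x : AB (Al l n) B) :
    (((frm v0 n h L hL).ext B).pl x).card ≤ 6 := by
  have hce : ∀ e : Ed l, (ce e).card ≤ 6 := by
    intro e
    by_cases he : (e.2 e.1).val + 1 < l
    · have h1 : ce e = co e.2 ∪ co (up e he) := by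
        unfold ce
        have : Finset.univ.filter (fun u => ie e u) = {e.2, up e he} := by
          ext u
          rw [Finset.mem_filter, ie_iff e he, Finset.mem_insert, Finset.mem_singleton]
          simp
        rw [this, Finset.biUnion_insert, Finset.singleton_biUnion]
      rw [h1]
      exact (Finset.card_union_le _ _).trans (Nat.add_le_add (card_co _) (card_co _))
    · have h1 : ce e = ∅ := by
        unfold ce
        have : Finset.univ.filter (fun u => ie e u) = ∅ := by
          rw [Finset.filter_eq_empty_iff]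
          intro u _ hu
          exact he hu.1
        rw [this, Finset.biUnion_empty]
      rw [h1]
      simp
  rcases AB.cases x with ⟨a, rfl⟩ | ⟨b, rfl⟩
  · show (pl a).card ≤ 6
    cases a with
    | atm x => exact (card_co x.v).trans (by norm_num)
    | est y => exact hce y.e
    | lf y => exact hce y.e
    | pv v => exact Nat.zero_le _
    | pf v j => exact Nat.zero_le _
    | mr i => exact Nat.zero_le _
    | mf i j => exact Nat.zero_le _
  · show (∅ : Finset (Fin l)).card ≤ 6
    simp

/-- the support theorem -/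
theorem sup_exists (v0 : Vx l) (h L : ℕ) (hL : L < l) (Q r s0 : ℕ) (hr : 1 ≤ r)
    (hrh : 2 * r + h ≤ n + 1) (hQ : Q ^ 2 < 2 ^ (r * (s0 + 1))) (hl : 5 * s0 + 6 ≤ L)
    (x : HF (AB (Al l n) B)) (hx : (orb (HH l n) x).card ≤ Q) :
    ∃ X : Finset (Fin l), X.card ≤ 5 * s0 + 6 ∧
      Supp ((frm v0 n h L hL).ext B).pl ((frm v0 n h L hL).ext B).G X x := by
  rcases HF.cases' x with ⟨a, rfl⟩ | ⟨t, rfl⟩
  · refine ⟨((frm v0 n h L hL).ext B).pl a, (card_pl v0 h L hL a).trans (by omega), ?_, ?_⟩
    · intro g _ ht
      rw [HF.smul_atom, ht a (Finset.Subset.refl _)]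
    · intro b hb
      rw [HF.atom_inj hb]
  · obtain ⟨J, hJ1, hJ2⟩ := few_sq Q r hr (HF.mk t) hx
    have hJs : J.card ≤ s0 := by
      have h1 : 2 ^ (r * J.card) < 2 ^ (r * (s0 + 1)) := lt_of_le_of_lt hJ1 hQ
      have h2 := (Nat.pow_lt_pow_iff_right (by norm_num : 1 < 2)).1 h1
      have h3 : J.card < s0 + 1 := lt_of_mul_lt_mul_left h2 (Nat.zero_le r)
      omega
    have hcard : (J.biUnion cs).card ≤ 5 * s0 := by
      refine (Finset.card_biUnion_le_card_mul J cs 5 fun C _ => card_cs C).trans ?_
      omega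
    refine ⟨J.biUnion cs, hcard.trans (by omega), ?_, ?_⟩
    · intro g hg ht
      refine fix_of_sq h (HF.mk t) J (fun C hC a ha => ?_) ?_ g hg ?_
      · obtain ⟨b, rfl⟩ := Sup_mul hrh ha
        exact hJ2 C hC b
      · intro hcon
        have h1 : (J.biUnion cs).card = l := by
          rw [hcon, Finset.card_univ, Fintype.card_fin]
        omega
      · intro a ha
        have h1 := ht (AB.l a) ha
        rw [AB.smul_l] at h1
        exact AB.l_inj h1
    · intro a ha
      exact absurd ha.symm (HF.atom_ne_mk a t)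

end Pool.Agent.CLA
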