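import Pool.Agent.CLA.Def

/-!
# Graphs and pairs of graphs as structures
-/

set_option autoImplicit false

namespace Pool.Agent.CLA

open Pool.Agent.CPT (Voc Str)

/-- the vocabulary of graphs: adjacency, a binary relation -/
def GV : Voc where
  R := Unit
  ar := fun _ => 2

/-- a graph as a structure -/
def gStr {V : Type} (r : V → V → Prop) : Str GV V := fun _ x => r (x (0 : Fin 2)) (x (1 : Fin 2))

/-- the vocabulary of pairs of graphs: adjacency (`0`) and an order of the vertices of the first
graph (`1`), both binary -/
def PV : Voc where
  R := Fin 2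
  ar := fun _ => 2

/-- a pair of graphs, the first one with an order `o` of its vertices, as a structure on the disjoint
union of the vertices -/
def pStr {V W : Type} (r o : V → V → Prop) (r' : W → W → Prop) : Str PV (V ⊕ W) := fun s x =>
  (![Sum.LiftRel r r' (x (0 : Fin 2)) (x (1 : Fin 2)),
    Sum.LiftRel o (fun _ _ => False) (x (0 : Fin 2)) (x (1 : Fin 2))] : Fin 2 → Prop) s

end Pool.Agent.CLA
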