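import Pool.Agent.CLA.Twn
import Pool.Agent.CLA.Voc

/-!
# The twins: pairs of graphs, single graphs (without colours)
-/

set_option autoImplicit false

namespace Pool.Agent.CLA

open Finset Classical
open Pool.Agent.CPT

variable {l n : ℕ}

private theorem tw_mem_l {B : Type} (S : Finset (Al l n)) (T : Finset (AB (Al l n) B))
    (hT : ∀ a, (AB.l a : AB (Al l n) B) ∉ T) (a : Al l n) :
    (AB.l a : AB (Al l n) B) ∈ S.image AB.l ∪ T ↔ a ∈ S := by
  rw [Finset.mem_union, or_iff_left (hT a), Finset.mem_image]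
  constructor
  · rintro ⟨b, hb, h⟩
    rwa [← AB.l_inj h]
  · intro h
    exact ⟨a, h, rfl⟩

private theorem tw_l_ne_r {B : Type} (a : Al l n) (b : B) : (AB.l a : AB (Al l n) B) ≠ AB.r b := by
  intro h
  cases h

private theorem tw_not_r {B : Type} [Fintype B] (a : Al l n) :
    (AB.l a : AB (Al l n) B) ∉ Finset.univ.image AB.r := by
  rw [Finset.mem_image]
  rintro ⟨b, _, h⟩
  exact tw_l_ne_r a b h.symm

private theorem tw_inv {B : Type} [Fintype B] {S S' : Finset (Al l n)} (k : KK l n)
    (x : AB (Al l n) B) (h : ∀ a, x = AB.l a → (k • a ∈ S' ↔ a ∈ S)) :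
    k • x ∈ S'.image AB.l ∪ Finset.univ.image AB.r ↔
      x ∈ S.image AB.l ∪ Finset.univ.image AB.r := by
  rcases AB.cases x with ⟨a, rfl⟩ | ⟨b, rfl⟩
  · rw [AB.smul_l, tw_mem_l _ _ tw_not_r, tw_mem_l _ _ tw_not_r]
    exact h a rfl
  · rw [AB.smul_r]
    have hb : (AB.r b : AB (Al l n) B) ∈ Finset.univ.image AB.r :=
      Finset.mem_image_of_mem _ (Finset.mem_univ b)
    exact ⟨fun _ => Finset.mem_union_right _ hb, fun _ => Finset.mem_union_right _ hb⟩

private theorem tw_inv' {S S' : Finset (Al l n)} (k : KK l n)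
    (x : AB (Al l n) Empty) (h : ∀ a, x = AB.l a → (k • a ∈ S' ↔ a ∈ S)) :
    k • x ∈ S'.image AB.l ↔ x ∈ S.image AB.l := by
  rcases AB.cases x with ⟨a, rfl⟩ | ⟨b, rfl⟩
  · have h1 := tw_mem_l (B := Empty) S' ∅ (fun a => Finset.notMem_empty _) (k • a)
    have h2 := tw_mem_l (B := Empty) S ∅ (fun a => Finset.notMem_empty _) a
    rw [Finset.union_empty] at h1 h2
    rw [AB.smul_l, h1, h2]
    exact h a rfl
  · exact b.elim

/-- the structure of the pair on atoms -/
def pAB {B : Type} (r o : B → B → Prop) : Str PV (AB (Al l n) B) :=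
  fun s x => pStr r o adj s (fun i => AB.elim Sum.inr Sum.inl (x i))

private theorem p_congr {V W : Type} (r o : V → V → Prop) (r' : W → W → Prop) (s : Fin 2)
    (x : Fin 2 → V ⊕ W) : pStr r o r' s x ↔ pStr r o r' s ![x 0, x 1] := by
  fin_cases s <;> simp [pStr]

private theorem tw_inv2 {B : Type} (r o : B → B → Prop) (k : KK l n) (s : Fin 2)
    (y z : AB (Al l n) B) :
    pStr r o adj s ![AB.elim Sum.inr Sum.inl (k • y), AB.elim Sum.inr Sum.inl (k • z)] ↔
      pStr r o adj s ![AB.elim Sum.inr Sum.inl y, AB.elim Sum.inr Sum.inl z] := by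
  rcases AB.cases y with ⟨a, rfl⟩ | ⟨b, rfl⟩ <;> rcases AB.cases z with ⟨a', rfl⟩ | ⟨b', rfl⟩ <;>
    fin_cases s <;> simp [pStr, adj_smul]

/-- the twins for pairs: a fixed graph `r` on `B` is the first graph -/
noncomputable def twP' (v0 : Vx l) (n h L : ℕ) (hL : L < l) (B : Type) [Fintype B]
    (r o : B → B → Prop) : Twin PV (AB (Al l n) B) (Fin l) (KK l n) where
  F := (frm v0 n h L hL).ext B
  H := HH l n
  U0 := (Finset.univ.filter (InU 0)).image AB.l ∪ Finset.univ.image AB.r
  U1 := (Finset.univ.filter (InU (tw n v0))).image AB.l ∪ Finset.univ.image AB.r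
  S := pAB r o
  GH := fun _ hg => hg.2.2
  inv := by
    intro k s x
    have key : ∀ g : Fin 2 → AB (Al l n) B,
        pStr r o adj s (fun i => AB.elim Sum.inr Sum.inl (k • g i)) ↔
        pStr r o adj s (fun i => AB.elim Sum.inr Sum.inl (g i)) := fun g =>
      ((p_congr r o adj s _).trans (tw_inv2 r o k s (g 0) (g 1))).trans
        (p_congr r o adj s _).symm
    exact key x
  inv0 := by
    intro g hg x
    exact tw_inv g x fun a _ => (twn v0 n h L hL).inv0 g hg a
  inv1 := by
    intro g hg x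
    exact tw_inv g x fun a _ => (twn v0 n h L hL).inv1 g hg a
  loc := by
    intro X k hk x hx
    refine tw_inv k x fun a ha => (twn v0 n h L hL).loc X k hk a ?_
    rw [ha] at hx
    exact hx

/-- the structure of a single graph on atoms -/
def gAB : Str GV (AB (Al l n) Empty) :=
  fun s x => gStr adj s (fun i => AB.elim id Empty.elim (x i))

/-- the twins for single graphs -/
noncomputable def twS' (v0 : Vx l) (n h L : ℕ) (hL : L < l) :
    Twin GV (AB (Al l n) Empty) (Fin l) (KK l n) where
  F := (frm v0 n h L hL).ext Empty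
  H := HH l n
  U0 := (Finset.univ.filter (InU 0)).image AB.l
  U1 := (Finset.univ.filter (InU (tw n v0))).image AB.l
  S := gAB
  GH := fun _ hg => hg.2.2
  inv := by
    intro k s x
    have key : ∀ (s : Unit) (g : Fin 2 → AB (Al l n) Empty),
        gStr adj s (fun i => AB.elim id Empty.elim (k • g i)) ↔
        gStr adj s (fun i => AB.elim id Empty.elim (g i)) := by
      intro s g
      rcases AB.cases (g 0) with ⟨a, h0⟩ | ⟨b, h0⟩
      · rcases AB.cases (g 1) with ⟨a', h1⟩ | ⟨b', h1⟩
        · simp [gStr, h0, h1, adj_smul]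
        · exact b'.elim
      · exact b.elim
    exact key s x
  inv0 := by
    intro g hg x
    exact tw_inv' g x fun a _ => (twn v0 n h L hL).inv0 g hg a
  inv1 := by
    intro g hg x
    exact tw_inv' g x fun a _ => (twn v0 n h L hL).inv1 g hg a
  loc := by
    intro X k hk x hx
    refine tw_inv' k x fun a ha => (twn v0 n h L hL).loc X k hk a ?_
    rw [ha] at hx
    exact hx

end Pool.Agent.CLA
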