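import Pool.Agent.CLA.EvT
import Pool.Agent.CLA.EvM
import Pool.Agent.CLA.Sup
import Pool.Agent.CLA.TwG
import Pool.Agent.CLA.Msr
import Pool.Agent.CLA.In5

/-!
# Programs with linear-algebraic operators do not distinguish the twins
-/

set_option autoImplicit false

namespace Pool.Agent.CLA

open Finset Classical
open Pool.Agent.CPT

variable {l n : ℕ}

/-- the corner of the grid -/
def v0c (l : ℕ) (h : 0 < l) : Vx l := fun _ => ⟨0, h⟩

/-- the vertices of the graph with signed sums `τ` -/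
abbrev VG (l n : ℕ) (τ : Vx l → Rn n) : Type := {x : Al l n // InU τ x}

theorem th_nonempty (v0 : Vx l) (h : ℕ) : (Tht v0 n h (∅ : Finset (Fin l))).Nonempty := by
  refine ⟨1, rfl, fun e => (Ah n h).zero_mem, fun v hv => ?_⟩
  have : v 0 ∈ co v := Finset.mem_image_of_mem _ (Finset.mem_univ _)
  exact absurd (hv this) (Finset.notMem_empty _)

theorem gz_pow {h : ℕ} {g : KK l n} (hg : g ∈ GZ l n h) : g ^ (2 ^ n) = 1 := by
  have h1 : ∀ m : ℕ, (g ^ m).z = m • g.z ∧ (g ^ m).g = 1 := by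
    intro m
    induction m with
    | zero =>
      rw [pow_zero, zero_smul]
      exact ⟨rfl, rfl⟩
    | succ m ih =>
      rw [pow_succ, mul_z, mul_g, ih.1, ih.2, hg.1, one_mul, succ_nsmul]
      exact ⟨rfl, rfl⟩
  refine KK.ext ?_ (h1 _).2
  rw [(h1 _).1]
  funext e
  rw [Pi.smul_apply, nsmul_eq_mul, one_z]
  have h2 : ((2 ^ n : ℕ) : Rn n) = 0 := ZMod.natCast_self _
  rw [h2, zero_mul]
  rfl

/-- intertwiners over all fields for the frame of the graphs -/
theorem int_frm (v0 : Vx l) (h L s : ℕ) (hL : L < l) (hB : L ^ 2 ≤ h) (hn : h + 1 ≤ n)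
    (hl : 3 ^ h + h < l) (A' : Type) [Fintype A'] (R : Type) [Field R] :
    Int ((frm v0 n h L hL).ext A') s 9 R := by
  intro X k Z hk hX hZ hG
  have hXL : X.card + 9 * s ≤ L := hX
  obtain ⟨P, Q, h1, h2, h3⟩ := int_field (F := (frm v0 n h L hL).ext A') R hk hZ hG
    (fun g hg k' => flip_comm hg.1 k') (a := n) (fun g hg => gz_pow hg) hX
    (ms_exists v0 h L (X.card + 6 * s) hL
      ((Nat.pow_le_pow_left (by omega) 2).trans hB) hn hl A' (by omega) hk)
  refine ⟨P, Q, h1, h2, fun M N hMN => h3 M N ?_⟩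
  intro x y Yx Yy hYx hYy hSx hSy k' hk' ha x' y' hx' hy'
  exact hMN x y x' y' Yx Yy k' hYx hYy hSx hSy hk' ha hx' hy'

theorem card_U {L : ℕ} (hL0 : 54 ≤ L) (hL : L < l) (v0 : Vx l) :
    Fintype.card (VG l n (tw n v0)) = Fintype.card (VG l n 0) := by
  have h1 := twin_card (twS' v0 n 0 L hL) 6 (card_pl v0 0 L hL) (th_nonempty v0 0)
    (by show 9 * 6 ≤ L; omega)
  have e0 : (twS' v0 n 0 L hL).U0 = (Finset.univ.filter (InU 0)).image AB.l := rfl
  have e1 : (twS' v0 n 0 L hL).U1 = (Finset.univ.filter (InU (tw n v0))).image AB.l :=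
    rfl
  rw [e0, e1, Finset.card_image_of_injective _ (fun a b h => AB.l_inj h),
    Finset.card_image_of_injective _ (fun a b h => AB.l_inj h)] at h1
  rw [Fintype.card_subtype, Fintype.card_subtype]
  exact h1.symm

/-- the vertices of a pair of graphs as atoms -/
def prAt (τ : Vx l → Rn n) (x : VG l n 0 ⊕ VG l n τ) : AB (Al l n) (VG l n 0) :=
  Sum.elim (fun v => AB.r v) (fun w => AB.l w.1) x

theorem pAB_comp (τ : Vx l → Rn n) (o : VG l n 0 → VG l n 0 → Prop) :
    (fun (r : PV.R) (x : Fin (PV.ar r) → VG l n 0 ⊕ VG l n τ) =>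
      pAB (XG l n 0).Adj o r (fun i => prAt τ (x i))) =
    pStr (XG l n 0).Adj o (XG l n τ).Adj := by
  funext r x
  have h : ∀ (s : Fin 2) (g : Fin 2 → VG l n 0 ⊕ VG l n τ),
      pAB (XG l n 0).Adj o s (fun i => prAt τ (g i)) =
      pStr (XG l n 0).Adj o (XG l n τ).Adj s g := by
    intro s g
    rcases h0 : g 0 with v | v <;> rcases h1 : g 1 with w | w <;>
      fin_cases s <;> simp [pAB, pStr, prAt, h0, h1, XG]
  exact h r x

/-- the conditions for the parameters -/
structure Par (l n h L s r s0 Q : ℕ) : Prop where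
  hL : L < l
  hB : L ^ 2 ≤ h
  hn : h + 1 ≤ n
  hl : 3 ^ h + h < l
  hr : 1 ≤ r
  hrh : 2 * r + h ≤ n + 1
  hQ : Q ^ 2 < 2 ^ (r * (s0 + 1))
  hs : s = 5 * s0 + 6

/-- pairs of graphs -/
theorem pair_same (v0 : Vx l)
    (ns b N : ℕ) (t : Tm PV) (o : VG l n 0 → VG l n 0 → Prop)
    (hN : ∀ τ : Vx l → Rn n, Fintype.card (VG l n τ) ≤ N)
    (e : ℕ) (he : ∀ b q : ℕ, t.bd b q 0 ≤ (b + q + 2) ^ e) {h L s r s0 : ℕ}
    (hp : Par l n h L s r s0 ((max b (N + N) + 2) ^ e)) (hd : (t.dep 9 + 9) * s ≤ L) :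
    Accepts (pStr (XG l n 0).Adj o (XG l n 0).Adj) t ns b ↔
      Accepts (pStr (XG l n 0).Adj o (XG l n (tw n v0)).Adj) t ns b := by
  set B := max b (N + N) with hB
  set Q := (B + 2) ^ e with hQ
  let P := twP' v0 n h L hp.hL (VG l n 0) (XG l n 0).Adj o
  have hinj : ∀ τ : Vx l → Rn n, Function.Injective
      (fun x : VG l n 0 ⊕ VG l n τ => prAt τ x) := by
    intro τ x y hxy
    rcases x with x | x <;> rcases y with y | y
    · exact congrArg Sum.inl (AB.r_inj hxy)
    · exact absurd hxy (by intro h; cases h)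
    · exact absurd hxy (by intro h; cases h)
    · exact congrArg Sum.inr (Subtype.ext (AB.l_inj hxy))
  have hS : ∀ τ : Vx l → Rn n, (fun (r : PV.R) (x : Fin (PV.ar r) → VG l n 0 ⊕ VG l n τ) =>
      P.S r (fun i => prAt τ (x i))) =
      pStr (XG l n 0).Adj o (XG l n τ).Adj := fun τ => pAB_comp τ o
  have hU : ∀ τ : Vx l → Rn n,
      Finset.univ.image (fun x : VG l n 0 ⊕ VG l n τ => prAt τ x) =
      (Finset.univ.filter (InU τ)).image AB.l ∪ Finset.univ.image AB.r := by
    intro τ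
    ext z
    simp only [mem_image, mem_univ, true_and, mem_union, mem_filter, Sum.exists, prAt, Sum.elim_inl,
      Sum.elim_inr, Subtype.exists, exists_prop]
    rw [or_comm]
  have h0 := accepts_iff _ (hinj 0) P.S ns b t
  have h1 := accepts_iff _ (hinj (tw n v0)) P.S ns b t
  rw [hS, hU] at h0 h1
  rw [h0, h1]
  have hcard : P.U0.card ≤ B := by
    show ((Finset.univ.filter (InU 0)).image AB.l ∪ Finset.univ.image AB.r).card ≤ B
    refine (card_union_le _ _).trans ?_
    have h2 : ((Finset.univ.filter (InU (l := l) (n := n) 0)).image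
        (AB.l (B := VG l n 0))).card ≤ N := by
      refine card_image_le.trans ?_
      have := hN 0
      rwa [Fintype.card_subtype] at this
    have h3 : ((Finset.univ : Finset (VG l n 0)).image (AB.r (A := Al l n))).card ≤ N :=
      card_image_le.trans (hN 0)
    omega
  have hdep : (9 : ℕ) * s ≤ (t.dep 9 + 9) * s := Nat.mul_le_mul_right _ (by omega)
  have hdep' : t.dep 9 * s ≤ (t.dep 9 + 9) * s := Nat.mul_le_mul_right _ (by omega)
  have hs := hp.hs
  exact twin_same P ns b B s Q 9 hcard (le_max_left _ _)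
    (fun a => (card_pl v0 h L hp.hL a).trans (by omega))
    (fun x hx => hp.hs ▸ sup_exists v0 h L hp.hL Q r s0 hp.hr hp.hrh hp.hQ (by omega) x hx)
    (fun R _ => int_frm v0 h L s hp.hL hp.hB hp.hn hp.hl _ R)
    (th_nonempty v0 h) t (by simpa using he B 0)
    (by show t.dep 9 * s ≤ L; omega)

/-- single graphs -/
theorem single_same (v0 : Vx l)
    (ns b N : ℕ) (t : Tm GV)
    (hN : ∀ τ : Vx l → Rn n, Fintype.card (VG l n τ) ≤ N)
    (e : ℕ) (he : ∀ b q : ℕ, t.bd b q 0 ≤ (b + q + 2) ^ e) {h L s r s0 : ℕ}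
    (hp : Par l n h L s r s0 ((max b (N + N) + 2) ^ e)) (hd : (t.dep 9 + 9) * s ≤ L) :
    Accepts (gStr (XG l n 0).Adj) t ns b ↔
      Accepts (gStr (XG l n (tw n v0)).Adj) t ns b := by
  set B := max b (N + N) with hB
  set Q := (B + 2) ^ e with hQ
  let P := twS' v0 n h L hp.hL
  have hinj : ∀ τ : Vx l → Rn n, Function.Injective
      (fun x : VG l n τ => (AB.l x.1 : AB (Al l n) Empty)) := by
    intro τ x y hxy
    exact Subtype.ext (AB.l_inj hxy)
  have hS : ∀ τ : Vx l → Rn n, (fun (r : GV.R) (x : Fin (GV.ar r) → VG l n τ) =>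
      P.S r (fun i => (AB.l (x i).1 : AB (Al l n) Empty))) =
      gStr (XG l n τ).Adj := by
    intro τ
    funext r x
    rfl
  have hU : ∀ τ : Vx l → Rn n, Finset.univ.image (fun x : VG l n τ =>
      (AB.l x.1 : AB (Al l n) Empty)) = (Finset.univ.filter (InU τ)).image AB.l := by
    intro τ
    ext z
    simp only [mem_image, mem_univ, true_and, mem_filter, Subtype.exists, exists_prop]
  have h0 := accepts_iff _ (hinj 0) P.S ns b t
  have h1 := accepts_iff _ (hinj (tw n v0)) P.S ns b t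
  rw [hS, hU] at h0 h1
  rw [h0, h1]
  have hcard : P.U0.card ≤ B := by
    show ((Finset.univ.filter (InU 0)).image AB.l).card ≤ B
    refine card_image_le.trans ?_
    have h3 := hN 0
    rw [Fintype.card_subtype] at h3
    refine h3.trans ?_
    omega
  have hdep : (9 : ℕ) * s ≤ (t.dep 9 + 9) * s := Nat.mul_le_mul_right _ (by omega)
  have hdep' : t.dep 9 * s ≤ (t.dep 9 + 9) * s := Nat.mul_le_mul_right _ (by omega)
  have hs := hp.hs
  exact twin_same P ns b B s Q 9 hcard (le_max_left _ _)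
    (fun a => (card_pl v0 h L hp.hL a).trans (by omega))
    (fun x hx => hp.hs ▸ sup_exists v0 h L hp.hL Q r s0 hp.hr hp.hrh hp.hQ (by omega) x hx)
    (fun R _ => int_frm v0 h L s hp.hL hp.hB hp.hn hp.hl _ R)
    (th_nonempty v0 h) t (by simpa using he B 0)
    (by show t.dep 9 * s ≤ L; omega)

end Pool.Agent.CLA
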