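import Mathlib

/-!
# The Heisenberg group over `ZMod (2 ^ n)`, its action on pairs and the cocycle
-/

set_option autoImplicit false

namespace Pool.Agent.CLA

open Finset Classical

/-- the ring `Z / 2^n` -/
abbrev Rn (n : ℕ) : Type := ZMod (2 ^ n)

instance (n : ℕ) : NeZero (2 ^ n) := ⟨pow_ne_zero n (by norm_num)⟩

/-- the Heisenberg group: unitriangular matrices of size three -/
@[ext] structure Hb (n : ℕ) where
  /-- entry (1,2) -/
  x : Rn n
  /-- entry (2,3) -/
  y : Rn n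
  /-- entry (1,3) -/
  z : Rn n

namespace Hb

variable {n : ℕ}

instance : Mul (Hb n) := ⟨fun g h => ⟨g.x + h.x, g.y + h.y, g.z + h.z + g.x * h.y⟩⟩
instance : One (Hb n) := ⟨⟨0, 0, 0⟩⟩
instance : Inv (Hb n) := ⟨fun g => ⟨-g.x, -g.y, -g.z + g.x * g.y⟩⟩

@[simp] theorem mul_x (g h : Hb n) : (g * h).x = g.x + h.x := rfl
@[simp] theorem mul_y (g h : Hb n) : (g * h).y = g.y + h.y := rfl
@[simp] theorem mul_z (g h : Hb n) : (g * h).z = g.z + h.z + g.x * h.y := rfl
@[simp] theorem one_x : (1 : Hb n).x = 0 := rfl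
@[simp] theorem one_y : (1 : Hb n).y = 0 := rfl
@[simp] theorem one_z : (1 : Hb n).z = 0 := rfl
@[simp] theorem inv_x (g : Hb n) : (g⁻¹).x = -g.x := rfl
@[simp] theorem inv_y (g : Hb n) : (g⁻¹).y = -g.y := rfl
@[simp] theorem inv_z (g : Hb n) : (g⁻¹).z = -g.z + g.x * g.y := rfl

instance : Group (Hb n) := Group.ofLeftAxioms
  (fun a b c => by ext <;> simp <;> ring)
  (fun a => by ext <;> simp)
  (fun a => by ext <;> simp)

noncomputable instance : Fintype (Hb n) :=
  Fintype.ofInjective (fun g : Hb n => (g.x, g.y, g.z)) (fun g h e => by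
    simp only [Prod.mk.injEq] at e
    exact Hb.ext e.1 e.2.1 e.2.2)

/-- the group acts on pairs (the quotient by the centre) by translations -/
instance : MulAction (Hb n) (Rn n × Rn n) where
  smul g p := (p.1 + g.x, p.2 + g.y)
  one_smul p := by
    change (p.1 + 0, p.2 + 0) = p
    simp
  mul_smul g h p := by
    change (p.1 + (g.x + h.x), p.2 + (g.y + h.y)) = (p.1 + h.x + g.x, p.2 + h.y + g.y)
    rw [add_comm g.x, add_comm g.y, add_assoc, add_assoc]

theorem smul_def (g : Hb n) (p : Rn n × Rn n) : g • p = (p.1 + g.x, p.2 + g.y) := rfl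

/-- the cocycle -/
def cc (g : Hb n) (p : Rn n × Rn n) : Rn n := g.z + g.x * p.2

theorem cc_mul (g h : Hb n) (p : Rn n × Rn n) : cc (g * h) p = cc g (h • p) + cc h p := by
  simp only [cc, smul_def, mul_z, mul_x]
  ring

theorem cc_one (p : Rn n × Rn n) : cc 1 p = 0 := by
  simp [cc]

/-- central elements -/
def ce (a : Rn n) : Hb n := ⟨0, 0, a⟩

theorem ce_smul (a : Rn n) (p : Rn n × Rn n) : ce a • p = p := by
  simp [smul_def, ce]

theorem cc_ce (a : Rn n) (p : Rn n × Rn n) : cc (ce a) p = a := by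
  simp [cc, ce]

/-- the commutator of `(s,0,0)` and `(0,t,0)` -/
theorem comm_xy (s t : Rn n) :
    (⟨s, 0, 0⟩ : Hb n) * ⟨0, t, 0⟩ * (⟨s, 0, 0⟩ : Hb n)⁻¹ * (⟨0, t, 0⟩ : Hb n)⁻¹ = ce (s * t) := by
  ext <;> simp [ce]

theorem pow_ce (a : Rn n) (k : ℕ) : ce a ^ k = ce (k • a) := by
  induction k with
  | zero => ext <;> simp [ce]
  | succ k ih =>
    rw [pow_succ, ih]
    ext <;> simp [ce]
    ring

end Hb

end Pool.Agent.CLA
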