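import Pool.Agent.CLA.GdD
import Pool.Agent.CLA.Hb

/-!
# Atoms, edge states, the group `KK`, the graphs

An atom at the vertex `v` of the grid consists of an element `a C` of `(Z/2^n)^2` for every square
`C` at `v` and a label `w e` of `Z/2^n` for every edge `e` at `v`; the signed sum of the labels is
prescribed: `dv w v = τ v`. An edge state at the edge `e` consists of the elements `a C` for the
squares `C` that contain `e` and a label `w`. (The components of `a`, `w` which do not belong to `v`
or `e` are trivial.) An atom is joined to its restrictions to the edges at `v`.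

The vertices of the graph are the atoms, the edge states (with one leaf each), one vertex for every
vertex `v` of the grid, joined to all atoms at `v` (with two leaves if `v` is even and three leaves if
`v` is odd) and `n` marker vertices with four leaves each; the markers are not joined to anything
else. So atoms have no leaves, and the leaves are the only vertices of degree one.
-/

set_option autoImplicit false

namespace Pool.Agent.CLA

open Finset Classical
open Pool.Agent.CPT

/-- atoms (with arbitrary components outside the vertex) -/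
def At (l n : ℕ) : Type := Vx l × (Sq l → Rn n × Rn n) × (Ed l → Rn n)

/-- edge states (with arbitrary components at the squares which do not contain the edge) -/
def Es (l n : ℕ) : Type := Ed l × (Sq l → Rn n × Rn n) × Rn n

/-- the group of the flips of edges and the local groups of the squares -/
def KK (l n : ℕ) : Type := Multiplicative (Ed l → Rn n) × (Sq l → Hb n)

variable {l n : ℕ}

noncomputable instance : Fintype (At l n) :=
  inferInstanceAs (Fintype (Vx l × (Sq l → Rn n × Rn n) × (Ed l → Rn n)))

noncomputable instance : Fintype (Es l n) :=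
  inferInstanceAs (Fintype (Ed l × (Sq l → Rn n × Rn n) × Rn n))

noncomputable instance : Group (KK l n) :=
  inferInstanceAs (Group (Multiplicative (Ed l → Rn n) × (Sq l → Hb n)))

noncomputable instance : Fintype (KK l n) :=
  inferInstanceAs (Fintype (Multiplicative (Ed l → Rn n) × (Sq l → Hb n)))

/-- the flips of an element -/
def KK.z (k : KK l n) : Ed l → Rn n := Multiplicative.toAdd k.1

/-- the local components of an element -/
def KK.g (k : KK l n) : Sq l → Hb n := k.2

/-- the element with given components -/
def mkK (z : Ed l → Rn n) (g : Sq l → Hb n) : KK l n := (Multiplicative.ofAdd z, g)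

@[simp] theorem mkK_z (z : Ed l → Rn n) (g : Sq l → Hb n) : (mkK z g).z = z := rfl
@[simp] theorem mkK_g (z : Ed l → Rn n) (g : Sq l → Hb n) : (mkK z g).g = g := rfl
@[simp] theorem mul_z (k k' : KK l n) : (k * k').z = k.z + k'.z := rfl
@[simp] theorem mul_g (k k' : KK l n) : (k * k').g = k.g * k'.g := rfl
@[simp] theorem one_z : (1 : KK l n).z = 0 := rfl
@[simp] theorem one_g : (1 : KK l n).g = 1 := rfl
@[simp] theorem inv_z (k : KK l n) : (k⁻¹).z = -k.z := rfl
@[simp] theorem inv_g (k : KK l n) : (k⁻¹).g = k.g⁻¹ := rfl

theorem KK.ext {k k' : KK l n} (h : k.z = k'.z) (h' : k.g = k'.g) : k = k' :=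
  Prod.ext (Multiplicative.toAdd.injective h) h'

/-- the place of an atom -/
def At.v (x : At l n) : Vx l := x.1

/-- the components at the squares -/
def At.a (x : At l n) : Sq l → Rn n × Rn n := x.2.1

/-- the labels at the edges -/
def At.w (x : At l n) : Ed l → Rn n := x.2.2

/-- the atom with given components -/
def mkA (v : Vx l) (a : Sq l → Rn n × Rn n) (w : Ed l → Rn n) : At l n := (v, a, w)

@[simp] theorem mkA_v (v : Vx l) (a : Sq l → Rn n × Rn n) (w : Ed l → Rn n) :
    (mkA v a w).v = v := rfl
@[simp] theorem mkA_a (v : Vx l) (a : Sq l → Rn n × Rn n) (w : Ed l → Rn n) :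
    (mkA v a w).a = a := rfl
@[simp] theorem mkA_w (v : Vx l) (a : Sq l → Rn n × Rn n) (w : Ed l → Rn n) :
    (mkA v a w).w = w := rfl

theorem At.ext {x y : At l n} (h : x.v = y.v) (h' : x.a = y.a) (h'' : x.w = y.w) : x = y :=
  Prod.ext h (Prod.ext h' h'')

/-- the edge of an edge state -/
def Es.e (y : Es l n) : Ed l := y.1

/-- the components at the squares -/
def Es.a (y : Es l n) : Sq l → Rn n × Rn n := y.2.1

/-- the label -/
def Es.w (y : Es l n) : Rn n := y.2.2

/-- the edge state with given components -/
def mkE (e : Ed l) (a : Sq l → Rn n × Rn n) (w : Rn n) : Es l n := (e, a, w)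

@[simp] theorem mkE_e (e : Ed l) (a : Sq l → Rn n × Rn n) (w : Rn n) : (mkE e a w).e = e := rfl
@[simp] theorem mkE_a (e : Ed l) (a : Sq l → Rn n × Rn n) (w : Rn n) : (mkE e a w).a = a := rfl
@[simp] theorem mkE_w (e : Ed l) (a : Sq l → Rn n × Rn n) (w : Rn n) : (mkE e a w).w = w := rfl

theorem Es.ext {x y : Es l n} (h : x.e = y.e) (h' : x.a = y.a) (h'' : x.w = y.w) : x = y :=
  Prod.ext h (Prod.ext h' h'')

/-- the change of the label of the edge `e`, if the components at the squares are `a` -/
noncomputable def dw (k : KK l n) (a : Sq l → Rn n × Rn n) (e : Ed l) : Rn n :=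
  k.z e + ∑ C ∈ Finset.univ.filter (fun C => se C e), sg C e • Hb.cc (k.g C) (a C)

/-- the action on atoms -/
noncomputable def act (k : KK l n) (x : At l n) : At l n :=
  mkA x.v (fun C => if sv C x.v then k.g C • x.a C else x.a C)
    (fun e => if ie e x.v then x.w e + dw k x.a e else x.w e)

/-- the action on edge states -/
noncomputable def actE (k : KK l n) (y : Es l n) : Es l n :=
  mkE y.e (fun C => if se C y.e then k.g C • y.a C else y.a C) (y.w + dw k y.a y.e)

/-- the ends of an edge of a square are vertices of the square -/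
theorem sv_of_se {C : Sq l} {e : Ed l} {u : Vx l} (h : se C e) (hu : ie e u) : sv C u := h.2 u hu

theorem dw_one (a : Sq l → Rn n × Rn n) (e : Ed l) : dw (1 : KK l n) a e = 0 := by
  unfold dw
  rw [one_z, one_g, Pi.zero_apply, zero_add]
  refine Finset.sum_eq_zero fun C _ => ?_
  rw [Pi.one_apply, Hb.cc_one, smul_zero]

/-- the cocycle rule -/
theorem dw_mul (k k' : KK l n) (a a' : Sq l → Rn n × Rn n) (e : Ed l)
    (h : ∀ C, se C e → a' C = k'.g C • a C) :
    dw (k * k') a e = dw k a' e + dw k' a e := by
  unfold dw
  have h1 : ∑ C ∈ Finset.univ.filter (fun C => se C e), sg C e • Hb.cc ((k * k').g C) (a C) =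
      ∑ C ∈ Finset.univ.filter (fun C => se C e), sg C e • Hb.cc (k.g C) (a' C) +
      ∑ C ∈ Finset.univ.filter (fun C => se C e), sg C e • Hb.cc (k'.g C) (a C) := by
    rw [← Finset.sum_add_distrib]
    refine Finset.sum_congr rfl fun C hC => ?_
    rw [h C (Finset.mem_filter.1 hC).2, mul_g, Pi.mul_apply, Hb.cc_mul, smul_add]
  rw [h1, mul_z, Pi.add_apply]
  abel

noncomputable instance : MulAction (KK l n) (At l n) where
  smul := act
  one_smul x := by
    change act 1 x = x
    refine At.ext rfl ?_ ?_
    · funext C
      change (if sv C x.v then (1 : Hb n) • x.a C else x.a C) = x.a C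
      rw [one_smul, ite_self]
    · funext e
      change (if ie e x.v then x.w e + dw 1 x.a e else x.w e) = x.w e
      rw [dw_one, add_zero, ite_self]
  mul_smul k k' x := by
    change act (k * k') x = act k (act k' x)
    refine At.ext rfl ?_ ?_
    · funext C
      change (if sv C x.v then (k.g C * k'.g C) • x.a C else x.a C) =
        if sv C x.v then k.g C • (if sv C x.v then k'.g C • x.a C else x.a C) else
          (if sv C x.v then k'.g C • x.a C else x.a C)
      by_cases h : sv C x.v
      · rw [if_pos h, if_pos h, if_pos h, mul_smul]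
      · rw [if_neg h, if_neg h, if_neg h]
    · funext e
      change (if ie e x.v then x.w e + dw (k * k') x.a e else x.w e) =
        if ie e x.v then (if ie e x.v then x.w e + dw k' x.a e else x.w e) +
          dw k (fun C => if sv C x.v then k'.g C • x.a C else x.a C) e
        else (if ie e x.v then x.w e + dw k' x.a e else x.w e)
      by_cases h : ie e x.v
      · rw [if_pos h, if_pos h, if_pos h, dw_mul k k' x.a
          (fun C => if sv C x.v then k'.g C • x.a C else x.a C) e
          (fun C hC => if_pos (sv_of_se hC h))]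
        abel
      · rw [if_neg h, if_neg h, if_neg h]

noncomputable instance : MulAction (KK l n) (Es l n) where
  smul := actE
  one_smul y := by
    change actE 1 y = y
    refine Es.ext rfl ?_ ?_
    · funext C
      change (if se C y.e then (1 : Hb n) • y.a C else y.a C) = y.a C
      rw [one_smul, ite_self]
    · change y.w + dw 1 y.a y.e = y.w
      rw [dw_one, add_zero]
  mul_smul k k' y := by
    change actE (k * k') y = actE k (actE k' y)
    refine Es.ext rfl ?_ ?_
    · funext C
      change (if se C y.e then (k.g C * k'.g C) • y.a C else y.a C) =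
        if se C y.e then k.g C • (if se C y.e then k'.g C • y.a C else y.a C) else
          (if se C y.e then k'.g C • y.a C else y.a C)
      by_cases h : se C y.e
      · rw [if_pos h, if_pos h, if_pos h, mul_smul]
      · rw [if_neg h, if_neg h, if_neg h]
    · change y.w + dw (k * k') y.a y.e = y.w + dw k' y.a y.e +
        dw k (fun C => if se C y.e then k'.g C • y.a C else y.a C) y.e
      rw [dw_mul k k' y.a (fun C => if se C y.e then k'.g C • y.a C else y.a C) y.e
          (fun C hC => if_pos hC)]
      abel

@[simp] theorem smul_v (k : KK l n) (x : At l n) : (k • x).v = x.v := rfl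

theorem smul_a (k : KK l n) (x : At l n) (C : Sq l) :
    (k • x).a C = if sv C x.v then k.g C • x.a C else x.a C := rfl

theorem smul_w (k : KK l n) (x : At l n) (e : Ed l) :
    (k • x).w e = if ie e x.v then x.w e + dw k x.a e else x.w e := rfl

@[simp] theorem smulE_e (k : KK l n) (y : Es l n) : (k • y).e = y.e := rfl

theorem smulE_a (k : KK l n) (y : Es l n) (C : Sq l) :
    (k • y).a C = if se C y.e then k.g C • y.a C else y.a C := rfl

theorem smulE_w (k : KK l n) (y : Es l n) : (k • y).w = y.w + dw k y.a y.e := rfl

/-- `y` is the restriction of the atom `x` to an edge at its place -/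
def St (x : At l n) (y : Es l n) : Prop :=
  ie y.e x.v ∧ (∀ C, se C y.e → y.a C = x.a C) ∧ y.w = x.w y.e

/-- the atoms of the graph with the signed sums `τ` -/
def IsAt (τ : Vx l → Rn n) (x : At l n) : Prop :=
  (∀ C, ¬ sv C x.v → x.a C = 0) ∧ (∀ e, ¬ ie e x.v → x.w e = 0) ∧ dv x.w x.v = τ x.v

/-- the edge states of the graph -/
def IsEs (y : Es l n) : Prop := (∃ u, ie y.e u) ∧ ∀ C, ¬ se C y.e → y.a C = 0

/-- all possible vertices of the graphs -/
inductive Al (l n : ℕ) : Type
  /-- atoms -/
  | atm (x : At l n) : Al l n
  /-- edge states -/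
  | est (y : Es l n) : Al l n
  /-- the leaf of an edge state -/
  | lf (y : Es l n) : Al l n
  /-- the vertex of a place -/
  | pv (v : Vx l) : Al l n
  /-- the leaves of the vertex of a place -/
  | pf (v : Vx l) (j : Fin 3) : Al l n
  /-- markers -/
  | mr (i : Fin n) : Al l n
  /-- the leaves of the markers -/
  | mf (i : Fin n) (j : Fin 4) : Al l n

/-- the vertices as a sum type -/
def Al.toSum : Al l n → At l n ⊕ Es l n ⊕ Es l n ⊕ Vx l ⊕ (Vx l × Fin 3) ⊕ Fin n ⊕ (Fin n × Fin 4)
  | .atm x => Sum.inl x
  | .est y => Sum.inr (Sum.inl y)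
  | .lf y => Sum.inr (Sum.inr (Sum.inl y))
  | .pv v => Sum.inr (Sum.inr (Sum.inr (Sum.inl v)))
  | .pf v j => Sum.inr (Sum.inr (Sum.inr (Sum.inr (Sum.inl (v, j)))))
  | .mr i => Sum.inr (Sum.inr (Sum.inr (Sum.inr (Sum.inr (Sum.inl i)))))
  | .mf i j => Sum.inr (Sum.inr (Sum.inr (Sum.inr (Sum.inr (Sum.inr (i, j))))))

theorem Al.toSum_inj : Function.Injective (Al.toSum (l := l) (n := n)) := by
  intro x y h
  cases x <;> cases y <;> simp_all [Al.toSum]

noncomputable instance : Fintype (Al l n) := Fintype.ofInjective _ Al.toSum_inj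

/-- the coordinates of the ends of an edge -/
noncomputable def ce (e : Ed l) : Finset (Fin l) :=
  (Finset.univ.filter (fun u => ie e u)).biUnion co

/-- coordinates -/
noncomputable def pl : Al l n → Finset (Fin l)
  | .atm x => co x.v
  | .est y => ce y.e
  | .lf y => ce y.e
  | _ => ∅

noncomputable instance : MulAction (KK l n) (Al l n) where
  smul k x := match x with
    | .atm x => .atm (k • x)
    | .est y => .est (k • y)
    | .lf y => .lf (k • y)
    | .pv v => .pv v
    | .pf v j => .pf v j
    | .mr i => .mr i
    | .mf i j => .mf i j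
  one_smul x := by
    rcases x with x | y | y | v | ⟨v, j⟩ | i | ⟨i, j⟩
    · exact congrArg Al.atm (one_smul (KK l n) x)
    · exact congrArg Al.est (one_smul (KK l n) y)
    · exact congrArg Al.lf (one_smul (KK l n) y)
    · rfl
    · rfl
    · rfl
    · rfl
  mul_smul k k' x := by
    rcases x with x | y | y | v | ⟨v, j⟩ | i | ⟨i, j⟩
    · exact congrArg Al.atm (mul_smul k k' x)
    · exact congrArg Al.est (mul_smul k k' y)
    · exact congrArg Al.lf (mul_smul k k' y)
    · rfl
    · rfl
    · rfl
    · rfl

@[simp] theorem smul_atm (k : KK l n) (x : At l n) : k • (Al.atm x) = Al.atm (k • x) := rfl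
@[simp] theorem smul_est (k : KK l n) (y : Es l n) : k • (Al.est y) = Al.est (k • y) := rfl
@[simp] theorem smul_lf (k : KK l n) (y : Es l n) : k • (Al.lf y) = Al.lf (k • y) := rfl
@[simp] theorem smul_pv (k : KK l n) (v : Vx l) : k • (Al.pv v : Al l n) = Al.pv v := rfl
@[simp] theorem smul_pf (k : KK l n) (v : Vx l) (j : Fin 3) :
    k • (Al.pf v j : Al l n) = Al.pf v j := rfl
@[simp] theorem smul_mr (k : KK l n) (i : Fin n) : k • (Al.mr i : Al l n) = Al.mr i := rfl
@[simp] theorem smul_mf (k : KK l n) (i : Fin n) (j : Fin 4) :
    k • (Al.mf i j : Al l n) = Al.mf i j := rfl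

/-- the vertices of the graph with the signed sums `τ` -/
def InU (τ : Vx l → Rn n) : Al l n → Prop
  | .atm x => IsAt τ x
  | .est y => IsEs y
  | .lf y => IsEs y
  | .pf v j => j.val < 2 ∨ sgv v = -1
  | _ => True

/-- adjacency -/
def adj : Al l n → Al l n → Prop
  | .atm x, .est y => St x y
  | .est y, .atm x => St x y
  | .est y, .lf y' => y = y'
  | .lf y', .est y => y = y'
  | .atm x, .pv v => x.v = v
  | .pv v, .atm x => x.v = v
  | .pv v, .pf v' _ => v = v'
  | .pf v' _, .pv v => v = v'
  | .mr i, .mf i' _ => i = i'
  | .mf i' _, .mr i => i = i'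
  | _, _ => False

/-- the colours: types and places of the vertices, the fixed vertices are linearly ordered -/
noncomputable def col : Al l n → ℕ
  | .atm x => 7 * (Fintype.equivFin (Vx l) x.v).val
  | .est y => 7 * (Fintype.equivFin (Ed l) y.e).val + 1
  | .lf y => 7 * (Fintype.equivFin (Ed l) y.e).val + 2
  | .pv v => 7 * (Fintype.equivFin (Vx l) v).val + 3
  | .pf v j => 7 * (3 * (Fintype.equivFin (Vx l) v).val + j.val) + 4
  | .mr i => 7 * i.val + 5
  | .mf i j => 7 * (4 * i.val + j.val) + 6

theorem adj_symm {x y : Al l n} (h : adj x y) : adj y x := by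
  cases x <;> cases y <;> simp_all [adj]

theorem adj_irrefl (x : Al l n) : ¬ adj x x := by
  cases x <;> simp [adj]

theorem col_smul (k : KK l n) (x : Al l n) : col (k • x) = col x := by
  cases x <;> rfl

theorem pl_smul (k : KK l n) (x : Al l n) : pl (k • x) = pl x := by
  cases x <;> rfl

/-- the restriction to an edge commutes with the action -/
theorem st_smul (k : KK l n) (x : At l n) (y : Es l n) : St (k • x) (k • y) ↔ St x y := by
  unfold St
  rw [smulE_e, smul_v]
  refine and_congr_right fun h1 => ?_
  have ha : (∀ C, se C y.e → (k • y).a C = (k • x).a C) ↔ ∀ C, se C y.e → y.a C = x.a C := by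
    refine forall_congr' fun C => ?_
    refine imp_congr_right fun hC => ?_
    rw [smulE_a, smul_a, if_pos hC, if_pos (sv_of_se hC h1)]
    exact (MulAction.injective (k.g C)).eq_iff
  rw [ha]
  refine and_congr_right fun h2 => ?_
  have hs : dw k y.a y.e = dw k x.a y.e := by
    unfold dw
    congr 1
    refine Finset.sum_congr rfl fun C hC => ?_
    rw [h2 C (Finset.mem_filter.1 hC).2]
  rw [smulE_w, smul_w, if_pos h1, hs, add_left_inj]

theorem adj_smul (k : KK l n) (x y : Al l n) : adj (k • x) (k • y) ↔ adj x y := by
  have hE : ∀ a b : Es l n, k • a = k • b ↔ a = b := fun a b => (MulAction.injective k).eq_iff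
  cases x <;> cases y <;> simp [adj, st_smul, hE]

/-- the graph with the signed sums `τ` -/
def XG (l n : ℕ) (τ : Vx l → Rn n) : SimpleGraph {x : Al l n // InU τ x} where
  Adj x y := adj x.1 y.1
  symm := ⟨fun _ _ h => adj_symm h⟩
  loopless := ⟨fun x h => adj_irrefl x.1 h⟩

/-- the twist: the signed sum is `2^(n-1)` at `v0` and `0` at all other vertices -/
noncomputable def tw (n : ℕ) (v0 : Vx l) : Vx l → Rn n := Pi.single v0 (2 ^ (n - 1))

end Pool.Agent.CLA
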