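import Pool.Agent.CPT.Def

/-!
# Choiceless polynomial time with counting and linear-algebraic operators: definitions

`LaOp` are the linear-algebraic operators: families of functions of tuples of square matrices over
fields, invariant under simultaneous similarity.

`Tm Γ` are the terms of BGS logic with counting (see `Pool.Agent.CPT.Def`) extended by these
operators. The index sets of the matrices are arbitrary sets that occur in the computation, the
entries are given by terms.
-/

set_option autoImplicit false

namespace Pool.Agent.CLA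

open Finset Classical
open Pool.Agent.CPT (HF Voc Str)

/-- a linear-algebraic operator: for every natural number `p` a field `Fd p`, a reading `rd p` of
the natural numbers as elements of `Fd p`, and a function `f p` of `k`-tuples of square matrices
over `Fd p`, indexed by arbitrary finite sets, with values in the natural numbers, which is invariant
under simultaneous similarity -/
structure LaOp where
  /-- the number of matrices -/
  k : ℕ
  /-- the fields -/
  Fd : ℕ → Type
  fld : ∀ p : ℕ, Field (Fd p)
  /-- the reading of numbers as field elements -/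
  rd : ∀ p : ℕ, ℕ → Fd p
  /-- the function -/
  f : ∀ (p : ℕ) (I : Type) [Fintype I], (Fin k → Matrix I I (Fd p)) → ℕ
  inv : ∀ (p : ℕ) (I J : Type) [Fintype I] [Fintype J] [DecidableEq I] [DecidableEq J]
    (P : Matrix J I (Fd p)) (Q : Matrix I J (Fd p)) (M : Fin k → Matrix I I (Fd p))
    (N : Fin k → Matrix J J (Fd p)), P * Q = 1 → Q * P = 1 → (∀ i, P * M i = N i * P) →
    f p I M = f p J N

/-- the number `n` if `x` is the ordinal `n`, and `0` if `x` is not an ordinal -/
noncomputable def num {A : Type} (x : HF A) : ℕ := sInf {n : ℕ | x = HF.ord n}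

/-- terms of BGS logic with counting and linear-algebraic operators -/
inductive Tm (Γ : Voc) : Type 1
  /-- a variable -/
  | var (i : ℕ) : Tm Γ
  /-- the empty set -/
  | empty : Tm Γ
  /-- the set of all atoms -/
  | atoms : Tm Γ
  /-- `{s, t}` -/
  | pair (s t : Tm Γ) : Tm Γ
  /-- the union of the elements of `t` -/
  | union (t : Tm Γ) : Tm Γ
  /-- the element of `t`, if `t` has exactly one element, otherwise `∅` -/
  | uniq (t : Tm Γ) : Tm Γ
  /-- the number of elements of `t`, as a von Neumann ordinal -/
  | card (t : Tm Γ) : Tm Γ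
  /-- truth value of `s = t` -/
  | eq (s t : Tm Γ) : Tm Γ
  /-- truth value of `s ∈ t` -/
  | mem (s t : Tm Γ) : Tm Γ
  /-- truth value of an atomic formula `r (t_0, …)` of the input structure -/
  | rel (r : Γ.R) (ts : Fin (Γ.ar r) → Tm Γ) : Tm Γ
  /-- negation: `1` if `t = 0`, otherwise `0` -/
  | neg (t : Tm Γ) : Tm Γ
  /-- conjunction: `1` if `s ≠ 0` and `t ≠ 0`, otherwise `0` -/
  | and (s t : Tm Γ) : Tm Γ
  /-- comprehension `{s(x) : x ∈ t, c(x) ≠ 0}`; in `s` and `c` the variable `0` is `x` -/
  | comp (s t c : Tm Γ) : Tm Γ
  /-- iteration: the fixed point of `∅, t(∅), t(t(∅)), …`; in `t` the variable `0` is iterated -/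
  | iter (t : Tm Γ) : Tm Γ
  /-- the value (an ordinal) of the operator `o` with the field given by the number `p`, at the
  matrices with index set `i` and entries `e_j(x, y)`; in `e_j` the variable `0` is the column `y`
  and the variable `1` is the row `x` -/
  | la (o : LaOp) (p i : Tm Γ) (e : Fin o.k → Tm Γ) : Tm Γ

/-- the value of a term; `U` is the set of atoms, `S` the structure, `a` and `b` the bounds for the
number of steps and the size of the stages of the iterations, `ρ` the list of the values of the
variables (variables outside the list are `∅`) -/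
noncomputable def eval {Γ : Voc} {A : Type} (U : Finset A) (S : Str Γ A) (a b : ℕ) :
    Tm Γ → List (HF A) → HF A
  | .var i, ρ => ρ.getD i HF.emp
  | .empty, _ => HF.emp
  | .atoms, _ => HF.mk (U.image HF.atom)
  | .pair s t, ρ => HF.pr (eval U S a b s ρ) (eval U S a b t ρ)
  | .union t, ρ => HF.un (eval U S a b t ρ)
  | .uniq t, ρ => HF.uq (eval U S a b t ρ)
  | .card t, ρ => HF.ord (HF.elems (eval U S a b t ρ)).card
  | .eq s t, ρ => HF.tv (eval U S a b s ρ = eval U S a b t ρ)
  | .mem s t, ρ => HF.tv (eval U S a b s ρ ∈ HF.elems (eval U S a b t ρ))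
  | .rel r ts, ρ => HF.tv (∃ x : Fin (Γ.ar r) → A, (∀ i, eval U S a b (ts i) ρ = HF.atom (x i)) ∧
      S r x)
  | .neg t, ρ => HF.tv (eval U S a b t ρ = HF.ord 0)
  | .and s t, ρ => HF.tv (eval U S a b s ρ ≠ HF.ord 0 ∧ eval U S a b t ρ ≠ HF.ord 0)
  | .comp s t c, ρ => HF.mk (((HF.elems (eval U S a b t ρ)).filter
      (fun x => eval U S a b c (x :: ρ) ≠ HF.ord 0)).image (fun x => eval U S a b s (x :: ρ)))
  | .iter t, ρ => HF.itr a b (fun x => eval U S a b t (x :: ρ))
  | .la o p i e, ρ => HF.ord (o.f (num (eval U S a b p ρ))
      {x : HF A // x ∈ HF.elems (eval U S a b i ρ)}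
      (fun j x y => o.rd (num (eval U S a b p ρ)) (num (eval U S a b (e j) (y.1 :: x.1 :: ρ)))))

/-- the input structure `S` on `V` is accepted by the term `t` with bounds `a` (number of steps) and
`b` (size) -/
def Accepts {Γ : Voc} {V : Type} [Fintype V] (S : Str Γ V) (t : Tm Γ) (a b : ℕ) : Prop :=
  eval Finset.univ S a b t [] = HF.ord 1

end Pool.Agent.CLA
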