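import Pool.Agent.CLA.Def
import Pool.Agent.CPT.HF

/-!
# Linear-algebraic operators: reindexing; reading of numbers
-/

set_option autoImplicit false

namespace Pool.Agent.CLA

open Finset Classical
open Pool.Agent.CPT

/-- reindexing -/
theorem LaOp.f_equiv (o : LaOp) (p : ℕ) {I J : Type} [Fintype I] [Fintype J] (e : I ≃ J)
    (M : Fin o.k → Matrix I I (o.Fd p)) (N : Fin o.k → Matrix J J (o.Fd p))
    (h : ∀ j x y, N j (e x) (e y) = M j x y) : o.f p I M = o.f p J N := by
  let _ := o.fld p
  refine o.inv p I J (Matrix.of fun j i => if j = e i then 1 else 0)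
    (Matrix.of fun i j => if j = e i then 1 else 0) M N ?_ ?_ ?_
  · ext a b
    rw [Matrix.mul_apply, Matrix.one_apply, Finset.sum_eq_single (e.symm a)]
    · by_cases hab : a = b
      · subst hab; simp
      · have hba : ¬ b = a := fun h => hab h.symm
        simp [hab, hba]
    · intro c _ hc
      have : ¬ a = e c := fun h => hc (by rw [h]; simp)
      simp [this]
    · intro h; exact absurd (Finset.mem_univ _) h
  · ext a b
    rw [Matrix.mul_apply, Matrix.one_apply, Finset.sum_eq_single (e a)]
    · by_cases hab : a = b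
      · subst hab; simp
      · have : ¬ e a = e b := fun h => hab (e.injective h)
        simp [hab]
    · intro c _ hc
      simp [hc]
    · intro h; exact absurd (Finset.mem_univ _) h
  · intro i
    ext a b
    rw [Matrix.mul_apply, Matrix.mul_apply, Finset.sum_eq_single (e.symm a),
      Finset.sum_eq_single (e b)]
    · have h1 := h i (e.symm a) b
      rw [Equiv.apply_symm_apply] at h1
      simp [h1]
    · intro c _ hc
      simp [hc]
    · intro h; exact absurd (Finset.mem_univ _) h
    · intro c _ hc
      have : ¬ a = e c := fun h => hc (by rw [h]; simp)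
      simp [this]
    · intro h; exact absurd (Finset.mem_univ _) h

/-- reindexing along an injective map of finite sets -/
theorem LaOp.f_image (o : LaOp) (p : ℕ) {α β : Type} (u : Finset α) (v : Finset β) (φ : α → β)
    (hφ : Set.InjOn φ u) (huv : v = u.image φ)
    (M : Fin o.k → Matrix {x : α // x ∈ u} {x : α // x ∈ u} (o.Fd p))
    (N : Fin o.k → Matrix {x : β // x ∈ v} {x : β // x ∈ v} (o.Fd p))
    (h : ∀ j (x y : {x : α // x ∈ u}) (x' y' : {x : β // x ∈ v}), x'.1 = φ x.1 → y'.1 = φ y.1 →
      N j x' y' = M j x y) :
    o.f p {x : α // x ∈ u} M = o.f p {x : β // x ∈ v} N := by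
  have hb : Function.Bijective (fun x : {x : α // x ∈ u} =>
      (⟨φ x.1, by rw [huv]; exact mem_image_of_mem _ x.2⟩ : {x : β // x ∈ v})) := by
    constructor
    · intro x y hxy
      exact Subtype.ext (hφ x.2 y.2 (congrArg Subtype.val hxy))
    · rintro ⟨y, hy⟩
      have hy' := hy
      rw [huv, mem_image] at hy'
      obtain ⟨x, hx, hxy⟩ := hy'
      exact ⟨⟨x, hx⟩, Subtype.ext hxy⟩
  refine o.f_equiv p (Equiv.ofBijective _ hb) M N (fun j x y => ?_)
  exact h j x y _ _ rfl rfl

theorem num_ord {A : Type} (n : ℕ) : num (HF.ord n : HF A) = n := by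
  unfold num
  have h : {m : ℕ | (HF.ord n : HF A) = HF.ord m} = {n} := by
    ext m
    simp only [Set.mem_ofPred_eq, Set.mem_singleton_iff]
    constructor
    · intro h; exact (HF.ord_inj h).symm
    · rintro rfl; rfl
  rw [h]
  exact csInf_singleton n

/-- the number read from an object depends only on which ordinal it is -/
theorem num_congr {A B : Type} {x : HF A} {y : HF B} (h : ∀ n : ℕ, x = HF.ord n ↔ y = HF.ord n) :
    num x = num y := by
  unfold num
  congr 1
  ext n
  exact h n

end Pool.Agent.CLA
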