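import Pool.Agent.CLA.Def
import Pool.Agent.CPT.TrC

/-!
# Two locally isomorphic structures with a large group of automorphisms; intertwiners
-/

set_option autoImplicit false

namespace Pool.Agent.CLA

open Finset Classical
open Pool.Agent.CPT

/-- the transport of the family `Z` is intertwined over the field `R`, for all families `Z` of
objects with supports of size at most `s` and all `X` of size at most `L - c s` -/
def Int {A I K : Type} [Fintype A] [Fintype I] [Fintype K] [Group K] [MulAction K A]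
    (F : Fr A I K) (s c : ℕ) (R : Type) [Field R] : Prop :=
  ∀ (X : Finset I) (k : K) (Z : Finset (HF A)), k ∈ F.Th X → X.card + c * s ≤ F.L →
    (∀ y ∈ Z, HS F.pl F.G s y) → (∀ g ∈ F.G, Trv F.pl X g → ∀ y ∈ Z, g • y ∈ Z) →
    ∃ (P : Matrix {z : HF A // z ∈ F.TF s Z X k} {z : HF A // z ∈ Z} R)
      (Q : Matrix {z : HF A // z ∈ Z} {z : HF A // z ∈ F.TF s Z X k} R), P * Q = 1 ∧ Q * P = 1 ∧
      ∀ (M : Matrix {z : HF A // z ∈ Z} {z : HF A // z ∈ Z} R)
        (N : Matrix {z : HF A // z ∈ F.TF s Z X k} {z : HF A // z ∈ F.TF s Z X k} R),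
        (∀ (x y : {z : HF A // z ∈ Z}) (x' y' : {z : HF A // z ∈ F.TF s Z X k})
          (W Y : Finset I) (k' : K), W.card ≤ s → Y.card ≤ s → Supp F.pl F.G W x.1 →
          Supp F.pl F.G Y y.1 → k' ∈ F.Th (X ∪ W ∪ Y) → Agr F.pl X k k' →
          x'.1 = F.T s x.1 W k' → y'.1 = F.T s y.1 Y k' → N x' y' = M x y) → P * M = N * P

/-- two structures with atoms `U0`, `U1` inside `A`, with relations `S` invariant under `K`; `H` is
a group of automorphisms of both structures -/
structure Twin (Γ : Voc) (A I K : Type) [Fintype A] [Fintype I] [Fintype K] [Group K]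
    [MulAction K A] where
  F : Fr A I K
  H : Subgroup K
  U0 : Finset A
  U1 : Finset A
  S : Str Γ A
  inv : ∀ (k : K) (r : Γ.R) (x : Fin (Γ.ar r) → A), S r (fun i => k • x i) ↔ S r x
  GH : F.G ≤ H
  inv0 : ∀ g ∈ H, ∀ a, g • a ∈ U0 ↔ a ∈ U0
  inv1 : ∀ g ∈ H, ∀ a, g • a ∈ U1 ↔ a ∈ U1
  loc : ∀ (X : Finset I), ∀ k ∈ F.Th X, ∀ a, F.pl a ⊆ X → (k • a ∈ U1 ↔ a ∈ U0)

end Pool.Agent.CLA
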