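import Pool.Agent.CLA.Ev
import Pool.Agent.CPT.EvS

/-!
# All values that occur in an evaluation have small orbits
-/

set_option autoImplicit false

namespace Pool.Agent.CLA

open Finset Classical
open Pool.Agent.CPT hiding Tm Twin eval Accepts stage_Sm eval_Sm eval_smul

section

variable {Γ : Voc} {A I K : Type} [Fintype A] [Fintype I] [Fintype K] [Group K] [MulAction K A]
variable (P : Twin Γ A I K)

/-- the stages of an iteration have small orbits, as long as they have at most `B` elements -/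
theorem stage_Sm (ns b B : ℕ) (hbB : b ≤ B) (t : Tm Γ) (ρ : List (HF A)) (q j : ℕ)
    (hρ : ∀ x ∈ ρ, Sm P.H q x)
    (hj : (HF.tc ((fun x => eval P.U0 P.S ns b t (x :: ρ))^[j] HF.emp)).card ≤ b) :
    Sm P.H (B * (q + 1) ^ (ρ.length + 1)) ((fun x => eval P.U0 P.S ns b t (x :: ρ))^[j] HF.emp) := by
  have h := EvSm.orb_tc_le (G := P.H) (q := q) (b := b) hρ
    (fun l => (fun x => eval P.U0 P.S ns b t (x :: l))^[j] HF.emp)
    (by
      intro g hg
      apply EvA.smul_iterate
      intro x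
      exact eval_smul P.U0 P.S ns b g (P.inv0 g hg) (P.inv g) t (x :: ρ))
    hj
  exact EvSm.Sm.mono h (Nat.mul_le_mul_right _ hbB)

theorem eval_Sm (ns b B : ℕ) (hb : P.U0.card ≤ B) (hbB : b ≤ B) (t : Tm Γ) (ρ : List (HF A)) (q : ℕ)
    (hρ : ∀ x ∈ ρ, Sm P.H q x) : Sm P.H (t.bd B q ρ.length) (eval P.U0 P.S ns b t ρ) := by
  have key : ∀ (t : Tm Γ) (ρ : List (HF A)) (q : ℕ), (∀ x ∈ ρ, Sm P.H q x) →
      (orb P.H (eval P.U0 P.S ns b t ρ)).card ≤ (q + 1) ^ (ρ.length + 1) := by
    intro t ρ q hρ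
    exact EvSm.orb_le hρ (fun l => eval P.U0 P.S ns b t l)
      (fun g hg => eval_smul P.U0 P.S ns b g (P.inv0 g hg) (P.inv g) t ρ)
  have hone : ∀ (n m : ℕ), 1 ≤ (n + 1) ^ m := fun n m => Nat.one_le_pow _ _ (by omega)
  induction t generalizing ρ q with
  | var i =>
    have h1 := hone q (ρ.length + 1)
    show Sm P.H ((q + 1) ^ (ρ.length + 1) + B) (ρ.getD i HF.emp)
    rw [List.getD_eq_getElem?_getD]
    cases hi : ρ[i]? with
    | none => exact EvSm.Sm.emp (by omega)
    | some x =>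
      have hx : x ∈ ρ := List.mem_of_getElem? hi
      refine EvSm.Sm.mono (hρ x hx) ?_
      have h2 : q + 1 ≤ (q + 1) ^ (ρ.length + 1) := Nat.le_self_pow (by omega) _
      omega
  | empty =>
    have h1 := hone q (ρ.length + 1)
    exact EvSm.Sm.emp (by show 1 ≤ (q + 1) ^ (ρ.length + 1) + B; omega)
  | atoms =>
    have h0 := key Tm.atoms ρ q hρ
    refine EvSm.Sm.mk' (h0.trans (by show _ ≤ (q + 1) ^ (ρ.length + 1) + B; omega)) ?_
    intro y hy
    have hy' : y ∈ HF.elems (HF.mk (P.U0.image HF.atom)) := hy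
    rw [HF.elems_mk, mem_image] at hy'
    obtain ⟨a, ha, rfl⟩ := hy'
    apply EvSm.Sm.mk'
    · have hsub : orb P.H (HF.atom a : HF A) ⊆ P.U0.image HF.atom := by
        intro z hz
        obtain ⟨g, hg, rfl⟩ := EvSm.mem_orb.1 hz
        rw [HF.smul_atom]
        exact mem_image_of_mem _ ((P.inv0 g hg a).2 ha)
      have h3 := (card_le_card hsub).trans (card_image_le.trans hb)
      show _ ≤ (q + 1) ^ (ρ.length + 1) + B
      omega
    · intro y hy
      rw [HF.elems_atom] at hy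
      exact absurd hy (by simp)
  | pair s t hs ht =>
    have h0 := key (Tm.pair s t) ρ q hρ
    have h1 := hs ρ q hρ
    have h2 := ht ρ q hρ
    have hbd : (Tm.pair s t).bd B q ρ.length =
      s.bd B q ρ.length + t.bd B q ρ.length + (q + 1) ^ (ρ.length + 1) + B := rfl
    rw [hbd]
    refine EvSm.Sm.mk' (h0.trans (by omega)) ?_
    intro y hy
    have hy' : y ∈ HF.elems (HF.pr (eval P.U0 P.S ns b s ρ) (eval P.U0 P.S ns b t ρ)) := hy
    unfold HF.pr at hy'
    rw [HF.elems_mk, mem_insert, mem_singleton] at hy'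
    rcases hy' with rfl | rfl
    · exact EvSm.Sm.mono h1 (by omega)
    · exact EvSm.Sm.mono h2 (by omega)
  | union t ht =>
    have h0 := key (Tm.union t) ρ q hρ
    have h2 := ht ρ q hρ
    have hbd : (Tm.union t).bd B q ρ.length =
      t.bd B q ρ.length + (q + 1) ^ (ρ.length + 1) + B := rfl
    rw [hbd]
    refine EvSm.Sm.mk' (h0.trans (by omega)) ?_
    intro y hy
    have hy' : y ∈ HF.elems (HF.un (eval P.U0 P.S ns b t ρ)) := hy
    unfold HF.un at hy'
    rw [HF.elems_mk, mem_biUnion] at hy'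
    obtain ⟨z, hz, hyz⟩ := hy'
    exact EvSm.Sm.mono (EvSm.Sm.el (EvSm.Sm.el h2 hz) hyz) (by omega)
  | uniq t ht =>
    have h1 := hone q (ρ.length + 1)
    have h2 := ht ρ q hρ
    have hbd : (Tm.uniq t).bd B q ρ.length =
      t.bd B q ρ.length + (q + 1) ^ (ρ.length + 1) + B := rfl
    rw [hbd]
    show Sm P.H _ (HF.uq (eval P.U0 P.S ns b t ρ))
    by_cases h : ∃ y, HF.elems (eval P.U0 P.S ns b t ρ) = {y}
    · obtain ⟨y, hy⟩ := h
      rw [EvA.uq_eq hy]
      exact EvSm.Sm.mono (EvSm.Sm.el h2 (by rw [hy]; exact mem_singleton_self y)) (by omega)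
    · rw [EvA.uq_neg h]
      exact EvSm.Sm.emp (by omega)
  | card t ht =>
    have h1 := hone q (ρ.length + 1)
    have hbd : (Tm.card t).bd B q ρ.length =
      t.bd B q ρ.length + (q + 1) ^ (ρ.length + 1) + B := rfl
    rw [hbd]
    exact EvSm.Sm.ord (by omega) _
  | eq s t hs ht =>
    have h1 := hone q (ρ.length + 1)
    have hbd : (Tm.eq s t).bd B q ρ.length =
      s.bd B q ρ.length + t.bd B q ρ.length + (q + 1) ^ (ρ.length + 1) + B := rfl
    rw [hbd]
    exact EvSm.Sm.tv (by omega) _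
  | mem s t hs ht =>
    have h1 := hone q (ρ.length + 1)
    have hbd : (Tm.mem s t).bd B q ρ.length =
      s.bd B q ρ.length + t.bd B q ρ.length + (q + 1) ^ (ρ.length + 1) + B := rfl
    rw [hbd]
    exact EvSm.Sm.tv (by omega) _
  | rel r ts ih =>
    have h1 := hone q (ρ.length + 1)
    have hbd : (Tm.rel r ts).bd B q ρ.length =
      (∑ i : Fin (Γ.ar r), (ts i).bd B q ρ.length) + (q + 1) ^ (ρ.length + 1) + B := rfl
    rw [hbd]
    exact EvSm.Sm.tv (by omega) _
  | neg t ht =>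
    have h1 := hone q (ρ.length + 1)
    have hbd : (Tm.neg t).bd B q ρ.length =
      t.bd B q ρ.length + (q + 1) ^ (ρ.length + 1) + B := rfl
    rw [hbd]
    exact EvSm.Sm.tv (by omega) _
  | and s t hs ht =>
    have h1 := hone q (ρ.length + 1)
    have hbd : (Tm.and s t).bd B q ρ.length =
      s.bd B q ρ.length + t.bd B q ρ.length + (q + 1) ^ (ρ.length + 1) + B := rfl
    rw [hbd]
    exact EvSm.Sm.tv (by omega) _
  | comp s t c hs ht hc =>
    have h0 := key (Tm.comp s t c) ρ q hρ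
    have h2 := ht ρ q hρ
    have hbd : (Tm.comp s t c).bd B q ρ.length =
      t.bd B q ρ.length + s.bd B (t.bd B q ρ.length + q) (ρ.length + 1) +
      c.bd B (t.bd B q ρ.length + q) (ρ.length + 1) + (q + 1) ^ (ρ.length + 1) + B := rfl
    rw [hbd]
    refine EvSm.Sm.mk' (h0.trans (by omega)) ?_
    intro y hy
    have hy' : y ∈ HF.elems (HF.mk (((HF.elems (eval P.U0 P.S ns b t ρ)).filter
      (fun x => eval P.U0 P.S ns b c (x :: ρ) ≠ HF.ord 0)).image
        (fun x => eval P.U0 P.S ns b s (x :: ρ)))) := hy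
    rw [HF.elems_mk, mem_image] at hy'
    obtain ⟨x, hx, rfl⟩ := hy'
    rw [mem_filter] at hx
    have h3 := hs (x :: ρ) (t.bd B q ρ.length + q) (by
      intro z hz
      rw [List.mem_cons] at hz
      rcases hz with rfl | hz
      · exact EvSm.Sm.mono (EvSm.Sm.el h2 hx.1) (by omega)
      · exact EvSm.Sm.mono (hρ z hz) (by omega))
    rw [List.length_cons] at h3
    exact EvSm.Sm.mono h3 (by omega)
  | iter t ht =>
    have h1 := hone q (ρ.length + 1)
    have hbd : (Tm.iter t).bd B q ρ.length =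
      t.bd B (B * (q + 1) ^ (ρ.length + 1) + q) (ρ.length + 1) + B * (q + 1) ^ (ρ.length + 1) +
      (q + 1) ^ (ρ.length + 1) + B := rfl
    rw [hbd]
    show Sm P.H _ (HF.itr ns b (fun x => eval P.U0 P.S ns b t (x :: ρ)))
    rw [HF.itr_def]
    by_cases hf : ∃ i : ℕ, i ≤ ns ∧ (fun x => eval P.U0 P.S ns b t (x :: ρ))
        ((fun x => eval P.U0 P.S ns b t (x :: ρ))^[i] HF.emp) =
          (fun x => eval P.U0 P.S ns b t (x :: ρ))^[i] HF.emp ∧
        ∀ j ≤ i, (HF.tc ((fun x => eval P.U0 P.S ns b t (x :: ρ))^[j] HF.emp)).card ≤ b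
    · rw [dif_pos hf]
      have hspec := Nat.find_spec hf
      have h3 := stage_Sm P ns b B hbB t ρ q (Nat.find hf) hρ (hspec.2.2 _ le_rfl)
      exact EvSm.Sm.mono h3 (by omega)
    · rw [dif_neg hf]
      exact EvSm.Sm.emp (by omega)
  | la o p i e hp hi he =>
    have h1 := hone q (ρ.length + 1)
    have hbd : (Tm.la o p i e).bd B q ρ.length =
      p.bd B q ρ.length + i.bd B q ρ.length +
      (∑ j : Fin o.k, (e j).bd B (i.bd B q ρ.length + q) (ρ.length + 2)) +
      (q + 1) ^ (ρ.length + 1) + B := rfl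
    rw [hbd]
    exact EvSm.Sm.ord (by omega) _

end

end Pool.Agent.CLA
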