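import Pool.Agent.CLA.EvS
import Pool.Agent.CPT.EvT

/-!
# The values of terms are transported by local isomorphisms
-/

set_option autoImplicit false
set_option linter.unusedSectionVars false

namespace Pool.Agent.CLA

open Finset Classical
open Pool.Agent.CPT

/-! ### Values of terms -/

section vals

variable {Γ : Voc} {A I K : Type} [Fintype A] [Fintype I] [Fintype K] [Group K] [MulAction K A]

/-- the standing assumptions -/
structure Cx (P : Twin Γ A I K) (ns b B s Q cc : ℕ) : Prop where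
  hb : P.U0.card ≤ B
  hbB : b ≤ B
  h9 : 9 * s ≤ P.F.L
  h3 : ∀ a, (P.F.pl a).card ≤ s
  hsup : ∀ x : HF A, (orb P.H x).card ≤ Q → ∃ X : Finset I, X.card ≤ s ∧
      Supp P.F.pl P.F.G X x
  hint : ∀ (R : Type) [Field R], Int P.F s cc R

variable {P : Twin Γ A I K} {ns b B s Q cc : ℕ}

theorem Cx.hs (c : Cx P ns b B s Q cc) {q : ℕ} {x : HF A} (h : Sm P.H q x) (hq : q ≤ Q) :
    HS P.F.pl P.F.G s x := fun y hy => c.hsup y ((h y hy).trans hq)

theorem Cx.sup (c : Cx P ns b B s Q cc) {q : ℕ} {x : HF A} (h : Sm P.H q x) (hq : q ≤ Q) :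
    ∃ X : Finset I, X.card ≤ s ∧ Supp P.F.pl P.F.G X x :=
  c.hsup x ((h x (HF.self_mem_tc x)).trans hq)

theorem bd_ge (t : Tm Γ) (b q m : ℕ) : q ≤ t.bd b q m := by
  have h : q ≤ (q + 1) ^ (m + 1) := by
    calc q ≤ q + 1 := Nat.le_succ q
      _ = (q + 1) ^ 1 := (pow_one _).symm
      _ ≤ (q + 1) ^ (m + 1) := Nat.pow_le_pow_right (Nat.succ_pos q) (by omega)
  cases t <;> simp only [Tm.bd] <;> omega

theorem dep_ge (cc : ℕ) (t : Tm Γ) : 9 ≤ t.dep cc := by
  cases t <;> simp only [Tm.dep] <;> omega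

theorem Cx.val (c : Cx P ns b B s Q cc) (t : Tm Γ) (ρ : List (HF A)) (q : ℕ)
    (hρ : ∀ x ∈ ρ, Sm P.H q x) : Sm P.H (t.bd B q ρ.length) (eval P.U0 P.S ns b t ρ) :=
  eval_Sm P ns b B c.hb c.hbB t ρ q hρ

variable (P ns b B s Q cc)

/-- the statement of the main theorem for one term -/
def Good (t : Tm Γ) : Prop :=
  ∀ (ρ0 ρ1 : List (HF A)) (q : ℕ), t.bd B q ρ0.length ≤ Q → q ≤ Q →
    (∀ x ∈ ρ0, Sm P.H q x) → ∀ (X : Finset I) (k : K), k ∈ P.F.Th X →
    List.Forall₂ (Rel P.F s X k) ρ0 ρ1 → X.card + t.dep cc * s ≤ P.F.L →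
    ∀ Y : Finset I, Y.card ≤ s → Supp P.F.pl P.F.G Y (eval P.U0 P.S ns b t ρ0) →
    ∀ k' ∈ P.F.Th (X ∪ Y), Agr P.F.pl X k k' →
    eval P.U1 P.S ns b t ρ1 = P.F.T s (eval P.U0 P.S ns b t ρ0) Y k'

variable {P ns b B s Q cc}

/-- the value of a subterm, with a support -/
theorem Good.sub (c : Cx P ns b B s Q cc) {t : Tm Γ} (hg : Good P ns b B s Q cc t) {ρ0 ρ1 : List (HF A)}
    {q : ℕ} (hq : t.bd B q ρ0.length ≤ Q) (hqQ : q ≤ Q) (hρ : ∀ x ∈ ρ0, Sm P.H q x)
    {X : Finset I} {k : K} (hk : k ∈ P.F.Th X) (hr : List.Forall₂ (Rel P.F s X k) ρ0 ρ1)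
    (hL : X.card + t.dep cc * s ≤ P.F.L) :
    ∃ Y : Finset I, Y.card ≤ s ∧ Supp P.F.pl P.F.G Y (eval P.U0 P.S ns b t ρ0) ∧
      HS P.F.pl P.F.G s (eval P.U0 P.S ns b t ρ0) ∧
      ∀ (Z : Finset I) (k' : K), X ⊆ Z → Y ⊆ Z → k' ∈ P.F.Th Z → Agr P.F.pl X k k' →
        Rel P.F s Z k' (eval P.U0 P.S ns b t ρ0) (eval P.U1 P.S ns b t ρ1) := by
  have h1 := c.val t ρ0 q hρ
  obtain ⟨Y, hY, hYs⟩ := c.sup h1 hq
  refine ⟨Y, hY, hYs, c.hs h1 hq, fun Z k' hXZ hYZ hk' ha => ⟨Y, hYZ, hY, hYs, ?_⟩⟩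
  exact hg ρ0 ρ1 q hq hqQ hρ X k hk hr hL Y hY hYs k' (P.F.Th_anti (union_subset hXZ hYZ) hk') ha

/-- the value of a term in an environment with one more variable -/
theorem Good.step {t : Tm Γ} (hg : Good P ns b B s Q cc t)
    {ρ0 ρ1 : List (HF A)} {q q' : ℕ} {x x' : HF A} (hqq : q ≤ q')
    (hq : t.bd B q' (ρ0.length + 1) ≤ Q) (hρ : ∀ x ∈ ρ0, Sm P.H q x)
    (hx : Sm P.H q' x)
    {X Z Yx Y : Finset I} {k k' : K} (hr : List.Forall₂ (Rel P.F s X k) ρ0 ρ1)
    (hL : X.card + s + t.dep cc * s ≤ P.F.L) (hXZ : X ⊆ Z) (hk' : k' ∈ P.F.Th Z)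
    (ha : Agr P.F.pl X k k') (hYxZ : Yx ⊆ Z) (hYx : Yx.card ≤ s)
    (hYxs : Supp P.F.pl P.F.G Yx x) (hx' : x' = P.F.T s x Yx k')
    (hYZ : Y ⊆ Z) (hY : Y.card ≤ s)
    (hYs : Supp P.F.pl P.F.G Y (eval P.U0 P.S ns b t (x :: ρ0))) :
    eval P.U1 P.S ns b t (x' :: ρ1) = P.F.T s (eval P.U0 P.S ns b t (x :: ρ0)) Y k' := by
  refine hg (x :: ρ0) (x' :: ρ1) q' hq ((bd_ge t B q' _).trans hq) ?_ (X ∪ Yx) k'
    (P.F.Th_anti (union_subset hXZ hYxZ) hk') ?_ ?_ Y hY hYs k'
    (P.F.Th_anti (union_subset (union_subset hXZ hYxZ) hYZ) hk') (agr_refl _ _ _)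
  · intro y hy
    rcases List.mem_cons.1 hy with rfl | hy
    · exact hx
    · exact (hρ y hy).mono hqq
  · exact List.Forall₂.cons ⟨Yx, subset_union_right, hYx, hYxs, hx'⟩
      (forall2_ext hr subset_union_left ha)
  · have := card_union_le X Yx
    omega

/-- ordinals have empty supports -/
theorem hs_ord {F : Fr A I K} {s : ℕ} (n : ℕ) : HS F.pl F.G s (HF.ord n : HF A) := by
  have key : ∀ z ∈ HF.tc (HF.ord n : HF A), ∃ m : ℕ, z = HF.ord m := by
    apply HF.tc_ind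
    · exact ⟨n, rfl⟩
    · rintro y - ⟨m, rfl⟩ z hz
      rw [HF.elems_ord, mem_image] at hz
      obtain ⟨k, -, rfl⟩ := hz
      exact ⟨k, rfl⟩
  intro y hy
  obtain ⟨m, rfl⟩ := key y hy
  exact ⟨∅, by simp, supp_emp⟩

/-- the value of a term in an environment with two more variables -/
theorem Good.step2 (c : Cx P ns b B s Q cc) {t : Tm Γ} (hg : Good P ns b B s Q cc t)
    {ρ0 ρ1 : List (HF A)} {q q' : ℕ} {x x' y y' : HF A} (hqq : q ≤ q')
    (hq : t.bd B q' (ρ0.length + 1 + 1) ≤ Q) (hρ : ∀ x ∈ ρ0, Sm P.H q x)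
    (hx : Sm P.H q' x) (hy : Sm P.H q' y)
    {X Z W Y : Finset I} {k k' : K} (hr : List.Forall₂ (Rel P.F s X k) ρ0 ρ1)
    (hL : X.card + 2 * s + t.dep cc * s ≤ P.F.L) (hZ : Z.card + 6 * s ≤ P.F.L) (hXZ : X ⊆ Z)
    (ha : Agr P.F.pl X k k') (hk' : k' ∈ P.F.Th (Z ∪ W ∪ Y))
    (hW : W.card ≤ s) (hWs : Supp P.F.pl P.F.G W x) (hx' : x' = P.F.T s x W k')
    (hY : Y.card ≤ s) (hYs : Supp P.F.pl P.F.G Y y) (hy' : y' = P.F.T s y Y k') :
    num (eval P.U1 P.S ns b t (y' :: x' :: ρ1)) = num (eval P.U0 P.S ns b t (y :: x :: ρ0)) := by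
  have hρ' : ∀ z ∈ (y :: x :: ρ0), Sm P.H q' z := by
    intro z hz
    rcases List.mem_cons.1 hz with rfl | hz
    · exact hy
    · rcases List.mem_cons.1 hz with rfl | hz
      · exact hx
      · exact (hρ z hz).mono hqq
  have hXW : (X ∪ W ∪ Y).card ≤ X.card + 2 * s := by
    have := card_union_le (X ∪ W) Y
    have := card_union_le X W
    omega
  have hZW : (Z ∪ W ∪ Y).card ≤ Z.card + 2 * s := by
    have := card_union_le (Z ∪ W) Y
    have := card_union_le Z W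
    omega
  have hsub : X ∪ W ∪ Y ⊆ Z ∪ W ∪ Y :=
    union_subset_union (union_subset_union hXZ subset_rfl) subset_rfl
  have hr' : List.Forall₂ (Rel P.F s (X ∪ W ∪ Y) k') (y :: x :: ρ0) (y' :: x' :: ρ1) := by
    refine List.Forall₂.cons ⟨Y, subset_union_right, hY, hYs, hy'⟩ (List.Forall₂.cons
      ⟨W, subset_union_right.trans subset_union_left, hW, hWs, hx'⟩ ?_)
    exact forall2_ext hr (subset_union_left.trans subset_union_left) ha
  obtain ⟨Ye, hYe, hSe, hHe, re⟩ := hg.sub c hq ((bd_ge t B q' _).trans hq) hρ'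
    (P.F.Th_anti hsub hk') hr' (by omega)
  have hZe : (Z ∪ W ∪ Y ∪ Ye).card ≤ Z.card + 3 * s := by
    have := card_union_le (Z ∪ W ∪ Y) Ye
    omega
  obtain ⟨k4, hk4, ha4⟩ := P.F.Th_ext (subset_union_left (s₁ := Z ∪ W ∪ Y) (s₂ := Ye))
    (by omega) hk'
  have R := re (Z ∪ W ∪ Y ∪ Ye) k4 (hsub.trans subset_union_left) subset_union_right hk4
    (agr_mono ha4 hsub)
  have hds := Nat.mul_le_mul_right s (dep_ge cc t)
  refine num_congr fun n => ?_
  exact R.inj (rel_ord n hk4) hHe (hs_ord n) hk4 (by omega) (by omega)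

theorem atoms_T (P : Twin Γ A I K) (s : ℕ) (h3 : ∀ a, (P.F.pl a).card ≤ s) {Y : Finset I} {k : K}
    (hk : k ∈ P.F.Th Y) (hL : Y.card + s ≤ P.F.L) :
    P.F.T s (HF.mk (P.U0.image HF.atom)) Y k = HF.mk (P.U1.image HF.atom) := by
  refine HF.IsSet.ext' (isSet_T (HF.isSet_mk _) Y k) (HF.isSet_mk _) (Finset.ext fun z => ?_)
  rw [P.F.mem_T, HF.elems_mk, HF.elems_mk]
  constructor
  · rintro ⟨y, hy, W, hW, hWs, k', hk', ha, rfl⟩
    obtain ⟨a, ha0, rfl⟩ := mem_image.1 hy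
    rw [P.F.T_atom]
    exact mem_image.2 ⟨k' • a, (P.loc (Y ∪ W) k' hk' a
      ((hWs.2 a rfl).trans subset_union_right)).2 ha0, rfl⟩
  · intro hz
    obtain ⟨a', ha', rfl⟩ := mem_image.1 hz
    obtain ⟨k', hk', ha⟩ := P.F.Th_ext (subset_union_left (s₁ := Y) (s₂ := P.F.pl a'))
      (by have := card_union_le Y (P.F.pl a'); have := h3 a'; omega) hk
    have hpl : P.F.pl (k'⁻¹ • a') = P.F.pl a' := P.F.pl_smul _ _
    have h1 := P.loc _ k' hk' (k'⁻¹ • a') (by rw [hpl]; exact subset_union_right)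
    rw [smul_inv_smul] at h1
    refine ⟨HF.atom (k'⁻¹ • a'), mem_image.2 ⟨_, h1.1 ha', rfl⟩, P.F.pl a', h3 a', ?_, k', hk', ha,
      ?_⟩
    · rw [← hpl]
      exact supp_atom _
    · rw [P.F.T_atom, smul_inv_smul]

theorem good_var (c : Cx P ns b B s Q cc) (i : ℕ) : Good P ns b B s Q cc (Tm.var i) := by
  intro ρ0 ρ1 q hq hqQ hρ X k hk hr hL Y hY hYs k' hk' ha
  simp only [eval] at hYs ⊢
  have h9 := c.h9
  have hd : X.card + 9 * s ≤ P.F.L := hL
  have hc : (X ∪ Y).card + s ≤ P.F.L := by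
    have := card_union_le X Y
    omega
  rcases forall2_getD hr i HF.emp HF.emp with h | ⟨h1, h2⟩
  · exact (h.ext subset_union_left ha).eq subset_union_right hYs hk' hc
  · rw [h1, h2]
    exact (P.F.T_ord s 0 (P.F.Th_anti subset_union_right hk')).symm

theorem good_empty : Good P ns b B s Q cc Tm.empty := by
  intro ρ0 ρ1 q hq hqQ hρ X k hk hr hL Y hY hYs k' hk' ha
  simp only [eval]
  exact (P.F.T_ord s 0 (P.F.Th_anti subset_union_right hk')).symm

theorem good_atoms (c : Cx P ns b B s Q cc) : Good P ns b B s Q cc Tm.atoms := by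
  intro ρ0 ρ1 q hq hqQ hρ X k hk hr hL Y hY hYs k' hk' ha
  simp only [eval]
  have h9 := c.h9
  exact (atoms_T P s c.h3 (P.F.Th_anti subset_union_right hk') (by omega)).symm

theorem good_pair (c : Cx P ns b B s Q cc) {t1 t2 : Tm Γ} (g1 : Good P ns b B s Q cc t1)
    (g2 : Good P ns b B s Q cc t2) : Good P ns b B s Q cc (Tm.pair t1 t2) := by
  intro ρ0 ρ1 q hq hqQ hρ X k hk hr hL Y hY hYs k' hk' ha
  have hv := c.hs (c.val (Tm.pair t1 t2) ρ0 q hρ) hq
  have hd : X.card + (t1.dep cc + t2.dep cc + 9) * s ≤ P.F.L := hL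
  rw [add_mul, add_mul] at hd
  simp only [Tm.bd] at hq
  obtain ⟨Y1, hY1, hS1, hH1, r1⟩ := g1.sub c (by omega) hqQ hρ hk hr (by omega)
  obtain ⟨Y2, hY2, hS2, hH2, r2⟩ := g2.sub c (by omega) hqQ hρ hk hr (by omega)
  have hc0 : (X ∪ Y ∪ (Y1 ∪ Y2)).card ≤ X.card + 3 * s := by
    have := card_union_le (X ∪ Y) (Y1 ∪ Y2)
    have := card_union_le X Y
    have := card_union_le Y1 Y2
    omega
  refine reduce hk' (Y1 ∪ Y2) (by omega) hYs fun k'' hk'' ha' => ?_
  have haX : Agr P.F.pl X k k'' := ha.trans' (agr_mono ha' subset_union_left)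
  have R1 := r1 _ k'' (subset_union_left.trans subset_union_left)
    (subset_union_left.trans subset_union_right) hk'' haX
  have R2 := r2 _ k'' (subset_union_left.trans subset_union_left)
    (subset_union_right.trans subset_union_right) hk'' haX
  simp only [eval] at hv hYs ⊢
  have e1 : ∀ x y : HF A, HF.elems (HF.pr x y) = {x, y} := fun x y => HF.elems_mk _
  refine eq_T hv (HF.isSet_mk _) (HF.isSet_mk _) (subset_union_right.trans subset_union_left)
    hY hYs hk'' (by omega) (by omega) ?_ ?_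
  · intro y hy Y' hY' hS' k3 hk3 ha3
    rw [e1] at hy ⊢
    have hc3 : (X ∪ Y ∪ (Y1 ∪ Y2) ∪ Y').card + s ≤ P.F.L := by
      have := card_union_le (X ∪ Y ∪ (Y1 ∪ Y2)) Y'
      omega
    rcases mem_insert.1 hy with rfl | hy
    · rw [← (R1.ext subset_union_left ha3).eq subset_union_right hS' hk3 hc3]
      exact mem_insert_self _ _
    · rw [mem_singleton] at hy
      subst hy
      rw [← (R2.ext subset_union_left ha3).eq subset_union_right hS' hk3 hc3]
      exact mem_insert_of_mem (mem_singleton_self _)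
  · intro z hz
    rw [e1] at hz
    rw [e1]
    rcases mem_insert.1 hz with rfl | hz
    · exact ⟨_, mem_insert_self _ _, _, subset_rfl, k'', hk'', agr_refl _ _ _, by omega, R1⟩
    · rw [mem_singleton] at hz
      subst hz
      exact ⟨_, mem_insert_of_mem (mem_singleton_self _), _, subset_rfl, k'', hk'',
        agr_refl _ _ _, by omega, R2⟩

theorem good_union (c : Cx P ns b B s Q cc) {t : Tm Γ} (g : Good P ns b B s Q cc t) :
    Good P ns b B s Q cc (Tm.union t) := by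
  intro ρ0 ρ1 q hq hqQ hρ X k hk hr hL Y hY hYs k' hk' ha
  have hv := c.hs (c.val (Tm.union t) ρ0 q hρ) hq
  have hd : X.card + (t.dep cc + 9) * s ≤ P.F.L := hL
  rw [add_mul] at hd
  simp only [Tm.bd] at hq
  obtain ⟨Y1, hY1, hS1, hH1, r1⟩ := g.sub c (by omega) hqQ hρ hk hr (by omega)
  have hc0 : (X ∪ Y ∪ Y1).card ≤ X.card + 2 * s := by
    have := card_union_le (X ∪ Y) Y1
    have := card_union_le X Y
    omega
  refine reduce hk' Y1 (by omega) hYs fun k'' hk'' ha' => ?_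
  have haX : Agr P.F.pl X k k'' := ha.trans' (agr_mono ha' subset_union_left)
  have R1 := r1 _ k'' (subset_union_left.trans subset_union_left)
    subset_union_right hk'' haX
  simp only [eval] at hv hYs ⊢
  have e1 : ∀ x z : HF A, z ∈ HF.elems (HF.un x) ↔ ∃ w ∈ HF.elems x, z ∈ HF.elems w := by
    intro x z
    unfold HF.un
    rw [HF.elems_mk, mem_biUnion]
  generalize hZ : X ∪ Y ∪ Y1 = Z at *
  refine eq_T hv (HF.isSet_mk _) (HF.isSet_mk _)
    (by rw [← hZ]; exact subset_union_right.trans subset_union_left)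
    hY hYs hk'' (by omega) (by omega) ?_ ?_
  · intro y hy Y' hY' hS' k3 hk3 ha3
    rw [e1] at hy ⊢
    obtain ⟨w, hw, hyw⟩ := hy
    obtain ⟨Yw, hYw, hSw⟩ := (Fr.HS.mem P.F s hH1 hw) w (HF.self_mem_tc w)
    have hcZ : (Z ∪ Y' ∪ Yw).card ≤ Z.card + 2 * s := by
      have := card_union_le (Z ∪ Y') Yw
      have := card_union_le Z Y'
      omega
    obtain ⟨k4, hk4, ha4⟩ := P.F.Th_ext (subset_union_left (s₁ := Z ∪ Y') (s₂ := Yw))
      (by omega) hk3
    have Rw : Rel P.F s (Z ∪ Y' ∪ Yw) k4 w (P.F.T s w Yw k4) :=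
      ⟨Yw, subset_union_right, hYw, hSw, rfl⟩
    have R1' := R1.ext (Z' := Z ∪ Y' ∪ Yw) (subset_union_left.trans subset_union_left)
      (ha3.trans' (agr_mono ha4 subset_union_left))
    have Ry : Rel P.F s (Z ∪ Y' ∪ Yw) k4 y (P.F.T s y Y' k3) :=
      Rel.ext ⟨Y', subset_union_right, hY', hS', rfl⟩ subset_union_left ha4
    refine ⟨P.F.T s w Yw k4, (Rw.mem R1' (Fr.HS.mem P.F s hH1 hw) hH1 hk4 (by omega)
      (by omega)).2 hw, ?_⟩
    exact (Ry.mem Rw (Fr.HS.mem P.F s (Fr.HS.mem P.F s hH1 hw) hyw) (Fr.HS.mem P.F s hH1 hw) hk4 (by omega)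
      (by omega)).2 hyw
  · intro z hz
    rw [e1] at hz
    obtain ⟨w', hw', hz⟩ := hz
    obtain ⟨w, hw, Yw, hYw, hSw, k3, hk3, ha3, Rw⟩ := R1.elem hw' hk'' (by omega)
    have hc1 : (Z ∪ Yw).card ≤ Z.card + s := by
      have := card_union_le Z Yw
      omega
    obtain ⟨y, hy, Yy, hYy, hSy, k4, hk4, ha4, Ry⟩ := Rw.elem hz hk3 (by omega)
    have hc2 : (Z ∪ Yw ∪ Yy).card ≤ Z.card + 2 * s := by
      have := card_union_le (Z ∪ Yw) Yy
      omega
    exact ⟨y, (e1 _ _).2 ⟨w, hw, hy⟩, Z ∪ Yw ∪ Yy, subset_union_left.trans subset_union_left, k4,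
      hk4, ha3.trans' (agr_mono ha4 subset_union_left), by omega, Ry⟩

theorem good_uniq (c : Cx P ns b B s Q cc) {t : Tm Γ} (g : Good P ns b B s Q cc t) :
    Good P ns b B s Q cc (Tm.uniq t) := by
  intro ρ0 ρ1 q hq hqQ hρ X k hk hr hL Y hY hYs k' hk' ha
  have hd : X.card + (t.dep cc + 9) * s ≤ P.F.L := hL
  rw [add_mul] at hd
  simp only [Tm.bd] at hq
  obtain ⟨Y1, hY1, hS1, hH1, r1⟩ := g.sub c (by omega) hqQ hρ hk hr (by omega)
  have hc0 : (X ∪ Y ∪ Y1).card ≤ X.card + 2 * s := by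
    have := card_union_le (X ∪ Y) Y1
    have := card_union_le X Y
    omega
  refine reduce hk' Y1 (by omega) hYs fun k'' hk'' ha' => ?_
  have haX : Agr P.F.pl X k k'' := ha.trans' (agr_mono ha' subset_union_left)
  have R1 := r1 _ k'' (subset_union_left.trans subset_union_left)
    subset_union_right hk'' haX
  simp only [eval] at hYs ⊢
  generalize hZ : X ∪ Y ∪ Y1 = Z at *
  have hYZ : Y ⊆ Z := by rw [← hZ]; exact subset_union_right.trans subset_union_left
  generalize eval P.U0 P.S ns b t ρ0 = v1 at *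
  generalize eval P.U1 P.S ns b t ρ1 = v1' at *
  have e1 : ∀ x y : HF A, HF.elems x = {y} → HF.uq x = y := by
    intro x y h
    have h' : ∃ y, HF.elems x = {y} := ⟨y, h⟩
    unfold HF.uq
    rw [dif_pos h']
    exact (Finset.singleton_injective (h'.choose_spec.symm.trans h))
  by_cases h : ∃ y, HF.elems v1 = {y}
  · obtain ⟨y, hy⟩ := h
    rw [e1 _ _ hy] at hYs ⊢
    have hmem : y ∈ HF.elems v1 := by rw [hy]; exact mem_singleton_self _
    have hHy := Fr.HS.mem P.F s hH1 hmem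
    have Ry : Rel P.F s Z k'' y (P.F.T s y Y k'') := ⟨Y, hYZ, hY, hYs, rfl⟩
    apply e1
    refine Finset.ext fun z => ?_
    rw [mem_singleton]
    constructor
    · intro hz
      obtain ⟨u, hu, Yu, hYu, hSu, k3, hk3, ha3, Ru⟩ := R1.elem hz hk'' (by omega)
      rw [hy, mem_singleton] at hu
      subst hu
      have hc1 : (Z ∪ Yu).card ≤ Z.card + s := by
        have := card_union_le Z Yu
        omega
      exact (Ru.inj (Ry.ext subset_union_left ha3) hHy hHy hk3 (by omega) (by omega)).2 rfl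
    · rintro rfl
      exact (Ry.mem R1 hHy hH1 hk'' (by omega) (by omega)).2 hmem
  · have hcard : (HF.elems v1').card = (HF.elems v1).card := by
      obtain ⟨W, hWZ, hW, hWs, rfl⟩ := R1
      have := card_le_card hWZ
      exact P.F.card_elems_T s hH1 hWs (by omega) (by omega) (P.F.Th_anti hWZ hk'')
    have h' : ¬ ∃ y, HF.elems v1' = {y} := by
      rw [← Finset.card_eq_one] at h ⊢
      rw [hcard]
      exact h
    unfold HF.uq
    rw [dif_neg h, dif_neg h']
    exact (P.F.T_ord s 0 (P.F.Th_anti hYZ hk'')).symm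

theorem good_card (c : Cx P ns b B s Q cc) {t : Tm Γ} (g : Good P ns b B s Q cc t) :
    Good P ns b B s Q cc (Tm.card t) := by
  intro ρ0 ρ1 q hq hqQ hρ X k hk hr hL Y hY hYs k' hk' ha
  have hd : X.card + (t.dep cc + 9) * s ≤ P.F.L := hL
  rw [add_mul] at hd
  simp only [Tm.bd] at hq
  obtain ⟨Y1, hY1, hS1, hH1, r1⟩ := g.sub c (by omega) hqQ hρ hk hr (by omega)
  have hc0 : (X ∪ Y ∪ Y1).card ≤ X.card + 2 * s := by
    have := card_union_le (X ∪ Y) Y1
    have := card_union_le X Y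
    omega
  refine reduce hk' Y1 (by omega) hYs fun k'' hk'' ha' => ?_
  have haX : Agr P.F.pl X k k'' := ha.trans' (agr_mono ha' subset_union_left)
  have R1 := r1 _ k'' (subset_union_left.trans subset_union_left)
    subset_union_right hk'' haX
  simp only [eval] at hYs ⊢
  rw [P.F.T_ord s _ (P.F.Th_anti (subset_union_right.trans subset_union_left) hk'')]
  obtain ⟨W, hWZ, hW, hWs, h⟩ := R1
  have := card_le_card hWZ
  rw [h, P.F.card_elems_T s hH1 hWs (by omega) (by omega) (P.F.Th_anti hWZ hk'')]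

theorem good_eq (c : Cx P ns b B s Q cc) {t1 t2 : Tm Γ} (g1 : Good P ns b B s Q cc t1)
    (g2 : Good P ns b B s Q cc t2) : Good P ns b B s Q cc (Tm.eq t1 t2) := by
  intro ρ0 ρ1 q hq hqQ hρ X k hk hr hL Y hY hYs k' hk' ha
  have hd : X.card + (t1.dep cc + t2.dep cc + 9) * s ≤ P.F.L := hL
  rw [add_mul, add_mul] at hd
  simp only [Tm.bd] at hq
  obtain ⟨Y1, hY1, hS1, hH1, r1⟩ := g1.sub c (by omega) hqQ hρ hk hr (by omega)
  obtain ⟨Y2, hY2, hS2, hH2, r2⟩ := g2.sub c (by omega) hqQ hρ hk hr (by omega)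
  have hc0 : (X ∪ Y ∪ (Y1 ∪ Y2)).card ≤ X.card + 3 * s := by
    have := card_union_le (X ∪ Y) (Y1 ∪ Y2)
    have := card_union_le X Y
    have := card_union_le Y1 Y2
    omega
  refine reduce hk' (Y1 ∪ Y2) (by omega) hYs fun k'' hk'' ha' => ?_
  have haX : Agr P.F.pl X k k'' := ha.trans' (agr_mono ha' subset_union_left)
  have R1 := r1 _ k'' (subset_union_left.trans subset_union_left)
    (subset_union_left.trans subset_union_right) hk'' haX
  have R2 := r2 _ k'' (subset_union_left.trans subset_union_left)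
    (subset_union_right.trans subset_union_right) hk'' haX
  simp only [eval]
  rw [T_tv _ (P.F.Th_anti (subset_union_right.trans subset_union_left) hk'')]
  exact HF.tv_congr (R1.inj R2 hH1 hH2 hk'' (by omega) (by omega))

theorem good_mem (c : Cx P ns b B s Q cc) {t1 t2 : Tm Γ} (g1 : Good P ns b B s Q cc t1)
    (g2 : Good P ns b B s Q cc t2) : Good P ns b B s Q cc (Tm.mem t1 t2) := by
  intro ρ0 ρ1 q hq hqQ hρ X k hk hr hL Y hY hYs k' hk' ha
  have hd : X.card + (t1.dep cc + t2.dep cc + 9) * s ≤ P.F.L := hL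
  rw [add_mul, add_mul] at hd
  simp only [Tm.bd] at hq
  obtain ⟨Y1, hY1, hS1, hH1, r1⟩ := g1.sub c (by omega) hqQ hρ hk hr (by omega)
  obtain ⟨Y2, hY2, hS2, hH2, r2⟩ := g2.sub c (by omega) hqQ hρ hk hr (by omega)
  have hc0 : (X ∪ Y ∪ (Y1 ∪ Y2)).card ≤ X.card + 3 * s := by
    have := card_union_le (X ∪ Y) (Y1 ∪ Y2)
    have := card_union_le X Y
    have := card_union_le Y1 Y2
    omega
  refine reduce hk' (Y1 ∪ Y2) (by omega) hYs fun k'' hk'' ha' => ?_
  have haX : Agr P.F.pl X k k'' := ha.trans' (agr_mono ha' subset_union_left)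
  have R1 := r1 _ k'' (subset_union_left.trans subset_union_left)
    (subset_union_left.trans subset_union_right) hk'' haX
  have R2 := r2 _ k'' (subset_union_left.trans subset_union_left)
    (subset_union_right.trans subset_union_right) hk'' haX
  simp only [eval]
  rw [T_tv _ (P.F.Th_anti (subset_union_right.trans subset_union_left) hk'')]
  exact HF.tv_congr (R1.mem R2 hH1 hH2 hk'' (by omega) (by omega))

theorem good_neg (c : Cx P ns b B s Q cc) {t : Tm Γ} (g : Good P ns b B s Q cc t) :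
    Good P ns b B s Q cc (Tm.neg t) := by
  intro ρ0 ρ1 q hq hqQ hρ X k hk hr hL Y hY hYs k' hk' ha
  have hd : X.card + (t.dep cc + 9) * s ≤ P.F.L := hL
  rw [add_mul] at hd
  simp only [Tm.bd] at hq
  obtain ⟨Y1, hY1, hS1, hH1, r1⟩ := g.sub c (by omega) hqQ hρ hk hr (by omega)
  have hc0 : (X ∪ Y ∪ Y1).card ≤ X.card + 2 * s := by
    have := card_union_le (X ∪ Y) Y1
    have := card_union_le X Y
    omega
  refine reduce hk' Y1 (by omega) hYs fun k'' hk'' ha' => ?_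
  have haX : Agr P.F.pl X k k'' := ha.trans' (agr_mono ha' subset_union_left)
  have R1 := r1 _ k'' (subset_union_left.trans subset_union_left)
    subset_union_right hk'' haX
  simp only [eval]
  rw [T_tv _ (P.F.Th_anti (subset_union_right.trans subset_union_left) hk'')]
  exact HF.tv_congr (R1.inj (rel_ord 0 hk'') hH1 hs_ord0 hk'' (by omega) (by omega))

theorem good_and (c : Cx P ns b B s Q cc) {t1 t2 : Tm Γ} (g1 : Good P ns b B s Q cc t1)
    (g2 : Good P ns b B s Q cc t2) : Good P ns b B s Q cc (Tm.and t1 t2) := by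
  intro ρ0 ρ1 q hq hqQ hρ X k hk hr hL Y hY hYs k' hk' ha
  have hd : X.card + (t1.dep cc + t2.dep cc + 9) * s ≤ P.F.L := hL
  rw [add_mul, add_mul] at hd
  simp only [Tm.bd] at hq
  obtain ⟨Y1, hY1, hS1, hH1, r1⟩ := g1.sub c (by omega) hqQ hρ hk hr (by omega)
  obtain ⟨Y2, hY2, hS2, hH2, r2⟩ := g2.sub c (by omega) hqQ hρ hk hr (by omega)
  have hc0 : (X ∪ Y ∪ (Y1 ∪ Y2)).card ≤ X.card + 3 * s := by
    have := card_union_le (X ∪ Y) (Y1 ∪ Y2)
    have := card_union_le X Y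
    have := card_union_le Y1 Y2
    omega
  refine reduce hk' (Y1 ∪ Y2) (by omega) hYs fun k'' hk'' ha' => ?_
  have haX : Agr P.F.pl X k k'' := ha.trans' (agr_mono ha' subset_union_left)
  have R1 := r1 _ k'' (subset_union_left.trans subset_union_left)
    (subset_union_left.trans subset_union_right) hk'' haX
  have R2 := r2 _ k'' (subset_union_left.trans subset_union_left)
    (subset_union_right.trans subset_union_right) hk'' haX
  simp only [eval]
  rw [T_tv _ (P.F.Th_anti (subset_union_right.trans subset_union_left) hk'')]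
  exact HF.tv_congr (and_congr
    (not_congr (R1.inj (rel_ord 0 hk'') hH1 hs_ord0 hk'' (by omega) (by omega)))
    (not_congr (R2.inj (rel_ord 0 hk'') hH2 hs_ord0 hk'' (by omega) (by omega))))

theorem good_rel (c : Cx P ns b B s Q cc) (r : Γ.R) (ts : Fin (Γ.ar r) → Tm Γ)
    (g : ∀ i, Good P ns b B s Q cc (ts i)) : Good P ns b B s Q cc (Tm.rel r ts) := by
  intro ρ0 ρ1 q hq hqQ hρ X k hk hr hL Y hY hYs k' hk' ha
  have hd : X.card + ((∑ i : Fin (Γ.ar r), (ts i).dep cc) + 9) * s ≤ P.F.L := hL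
  rw [add_mul] at hd
  simp only [Tm.bd] at hq
  have hb1 : ∀ i, (ts i).bd B q ρ0.length ≤ Q := by
    intro i
    have := Finset.single_le_sum (f := fun i => (ts i).bd B q ρ0.length)
      (fun _ _ => Nat.zero_le _) (Finset.mem_univ i)
    omega
  have hd1 : ∀ i, (ts i).dep cc ≤ ∑ i : Fin (Γ.ar r), (ts i).dep cc := by
    intro i
    exact Finset.single_le_sum (f := fun i => (ts i).dep cc)
      (fun _ _ => Nat.zero_le _) (Finset.mem_univ i)
  have key := fun i => (g i).sub c (hb1 i) hqQ hρ hk hr (by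
    have := Nat.mul_le_mul_right s (hd1 i)
    omega)
  choose Yf hYf hSf hHf rf using key
  have hcW : (Finset.univ.biUnion Yf).card ≤ Γ.ar r * s := by
    have := Finset.card_biUnion_le_card_mul (Finset.univ : Finset (Fin (Γ.ar r))) Yf s
      (fun i _ => hYf i)
    simpa using this
  have hcs : Γ.ar r * s ≤ (∑ i : Fin (Γ.ar r), (ts i).dep cc) * s := by
    apply Nat.mul_le_mul_right
    have : ∑ _i : Fin (Γ.ar r), 1 ≤ ∑ i : Fin (Γ.ar r), (ts i).dep cc :=
      Finset.sum_le_sum fun i _ => by have := dep_ge cc (ts i); omega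
    simpa using this
  have hc0 : (X ∪ Y ∪ Finset.univ.biUnion Yf).card ≤ X.card + s + Γ.ar r * s := by
    have := card_union_le (X ∪ Y) (Finset.univ.biUnion Yf)
    have := card_union_le X Y
    omega
  refine reduce hk' (Finset.univ.biUnion Yf) (by omega) hYs fun k'' hk'' ha' => ?_
  have haX : Agr P.F.pl X k k'' := ha.trans' (agr_mono ha' subset_union_left)
  have R := fun i => rf i _ k'' (subset_union_left.trans subset_union_left)
    ((Finset.subset_biUnion_of_mem Yf (Finset.mem_univ i)).trans subset_union_right) hk'' haX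
  simp only [eval]
  rw [T_tv _ (P.F.Th_anti (subset_union_right.trans subset_union_left) hk'')]
  refine HF.tv_congr ⟨?_, ?_⟩
  · rintro ⟨x', hx', hS⟩
    have h1 : ∀ i, ∃ a, eval P.U0 P.S ns b (ts i) ρ0 = HF.atom a ∧ k'' • a = x' i := by
      intro i
      have := R i
      rw [hx' i] at this
      exact rel_atom' this
    choose x hx hxk using h1
    refine ⟨x, hx, (P.inv k'' r x).1 ?_⟩
    rw [show (fun i => k'' • x i) = x' from funext hxk]
    exact hS
  · rintro ⟨x, hx, hS⟩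
    refine ⟨fun i => k'' • x i, fun i => ?_, (P.inv k'' r x).2 hS⟩
    have := R i
    rw [hx i] at this
    exact rel_atom this

theorem good_comp (c : Cx P ns b B s Q cc) {t1 t2 t3 : Tm Γ} (g1 : Good P ns b B s Q cc t1)
    (g2 : Good P ns b B s Q cc t2) (g3 : Good P ns b B s Q cc t3) : Good P ns b B s Q cc (Tm.comp t1 t2 t3) := by
  intro ρ0 ρ1 q hq hqQ hρ X k hk hr hL Y hY hYs k' hk' ha
  have hv := c.hs (c.val (Tm.comp t1 t2 t3) ρ0 q hρ) hq
  have hd : X.card + (t1.dep cc + t2.dep cc + t3.dep cc + 9) * s ≤ P.F.L := hL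
  rw [add_mul, add_mul, add_mul] at hd
  simp only [Tm.bd] at hq
  have hv2 := c.val t2 ρ0 q hρ
  obtain ⟨Y1, hY1, hS1, hH1, r1⟩ := g2.sub c (by omega) hqQ hρ hk hr (by omega)
  have hc0 : (X ∪ Y ∪ Y1).card ≤ X.card + 2 * s := by
    have := card_union_le (X ∪ Y) Y1
    have := card_union_le X Y
    omega
  refine reduce hk' Y1 (by omega) hYs fun k'' hk'' ha' => ?_
  have haX : Agr P.F.pl X k k'' := ha.trans' (agr_mono ha' subset_union_left)
  have R1 := r1 _ k'' (subset_union_left.trans subset_union_left)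
    subset_union_right hk'' haX
  simp only [eval] at hv hYs ⊢
  have hXZ : X ⊆ X ∪ Y ∪ Y1 := subset_union_left.trans subset_union_left
  have hYZ : Y ⊆ X ∪ Y ∪ Y1 := subset_union_right.trans subset_union_left
  generalize X ∪ Y ∪ Y1 = Z at *
  generalize hv1 : eval P.U0 P.S ns b t2 ρ0 = v1 at *
  generalize hv1' : eval P.U1 P.S ns b t2 ρ1 = v1' at *
  set q' := t2.bd B q ρ0.length + q with hq'
  have hqQ' : q' ≤ Q := by
    have := bd_ge t1 B q' (ρ0.length + 1)
    omega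
  have hSm : ∀ x ∈ HF.elems v1, Sm P.H q' x := fun x hx =>
    (Sm.mem hv2 hx).mono (Nat.le_add_right _ _)
  have hval : ∀ (t : Tm Γ) (x : HF A), x ∈ HF.elems v1 →
      Sm P.H (t.bd B q' (ρ0.length + 1)) (eval P.U0 P.S ns b t (x :: ρ0)) := by
    intro t x hx
    refine c.val t (x :: ρ0) q' ?_
    intro y hy
    rcases List.mem_cons.1 hy with rfl | hy
    · exact hSm _ hx
    · exact (hρ y hy).mono (Nat.le_add_left _ _)
  refine eq_T hv (HF.isSet_mk _) (HF.isSet_mk _) hYZ hY hYs hk'' (by omega) (by omega) ?_ ?_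
  · intro u hu Y' hY' hS' k3 hk3 ha3
    rw [HF.elems_mk] at hu ⊢
    obtain ⟨x, hx, rfl⟩ := mem_image.1 hu
    obtain ⟨hx, hcx⟩ := mem_filter.1 hx
    obtain ⟨Yx, hYx, hSx⟩ := c.sup (hSm x hx) hqQ'
    obtain ⟨Yc, hYc, hSc⟩ := c.sup (hval t3 x hx) (by omega)
    have hcZ : (Z ∪ Y' ∪ (Yx ∪ Yc)).card ≤ Z.card + 3 * s := by
      have := card_union_le (Z ∪ Y') (Yx ∪ Yc)
      have := card_union_le Z Y'
      have := card_union_le Yx Yc
      omega
    obtain ⟨k4, hk4, ha4⟩ := P.F.Th_ext (subset_union_left (s₁ := Z ∪ Y') (s₂ := Yx ∪ Yc))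
      (by omega) hk3
    have haZ : Agr P.F.pl Z k'' k4 := ha3.trans' (agr_mono ha4 subset_union_left)
    have Rx : Rel P.F s (Z ∪ Y' ∪ (Yx ∪ Yc)) k4 x (P.F.T s x Yx k4) :=
      ⟨Yx, subset_union_left.trans subset_union_right, hYx, hSx, rfl⟩
    have R1' := R1.ext (Z' := Z ∪ Y' ∪ (Yx ∪ Yc)) (subset_union_left.trans subset_union_left) haZ
    have hHx := Fr.HS.mem P.F s hH1 hx
    have E1 := g1.step (q' := q') (x := x) (x' := P.F.T s x Yx k4) (Y := Y') (Nat.le_add_left _ _)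
      (by omega) hρ (hSm x hx) hr (by omega)
      (hXZ.trans (subset_union_left.trans subset_union_left)) hk4
      (haX.trans' (agr_mono haZ hXZ)) (subset_union_left.trans subset_union_right) hYx hSx rfl
      (subset_union_right.trans subset_union_left) hY' hS'
    have E3 := g3.step (q' := q') (x := x) (x' := P.F.T s x Yx k4) (Y := Yc) (Nat.le_add_left _ _)
      (by omega) hρ (hSm x hx) hr (by omega)
      (hXZ.trans (subset_union_left.trans subset_union_left)) hk4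
      (haX.trans' (agr_mono haZ hXZ)) (subset_union_left.trans subset_union_right) hYx hSx rfl
      (subset_union_right.trans subset_union_right) hYc hSc
    rw [P.F.T_agr s hS' (agr_mono ha4 subset_union_right), ← E1]
    refine mem_image.2 ⟨P.F.T s x Yx k4, mem_filter.2 ⟨(Rx.mem R1' hHx hH1 hk4 (by omega)
      (by omega)).2 hx, ?_⟩, rfl⟩
    rw [E3]
    intro h0
    apply hcx
    refine (Rel.inj ⟨Yc, subset_union_right.trans subset_union_right, hYc, hSc, rfl⟩
      (rel_ord 0 hk4) (c.hs (hval t3 x hx) (by omega)) hs_ord0 hk4 (by omega) (by omega)).1 h0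
  · intro z hz
    rw [HF.elems_mk] at hz
    obtain ⟨x', hx', rfl⟩ := mem_image.1 hz
    obtain ⟨hx', hcx'⟩ := mem_filter.1 hx'
    obtain ⟨x, hx, Yx, hYx, hSx, k3, hk3, ha3, Rx⟩ := R1.elem hx' hk'' (by omega)
    obtain ⟨Yu, hYu, hSu⟩ := c.sup (hval t1 x hx) (by omega)
    obtain ⟨Yc, hYc, hSc⟩ := c.sup (hval t3 x hx) (by omega)
    have hcZ : (Z ∪ Yx ∪ (Yu ∪ Yc)).card ≤ Z.card + 3 * s := by
      have := card_union_le (Z ∪ Yx) (Yu ∪ Yc)
      have := card_union_le Z Yx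
      have := card_union_le Yu Yc
      omega
    obtain ⟨k4, hk4, ha4⟩ := P.F.Th_ext (subset_union_left (s₁ := Z ∪ Yx) (s₂ := Yu ∪ Yc))
      (by omega) hk3
    have haZ : Agr P.F.pl Z k'' k4 := ha3.trans' (agr_mono ha4 subset_union_left)
    have ex' : x' = P.F.T s x Yx k4 := (Rx.ext subset_union_left ha4).eq
      (subset_union_right.trans subset_union_left) hSx hk4 (by omega)
    have E1 := g1.step (q' := q') (x := x) (x' := x') (Y := Yu) (Nat.le_add_left _ _)
      (by omega) hρ (hSm x hx) hr (by omega)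
      (hXZ.trans (subset_union_left.trans subset_union_left)) hk4
      (haX.trans' (agr_mono haZ hXZ)) (subset_union_right.trans subset_union_left) hYx hSx ex'
      (subset_union_left.trans subset_union_right) hYu hSu
    have E3 := g3.step (q' := q') (x := x) (x' := x') (Y := Yc) (Nat.le_add_left _ _)
      (by omega) hρ (hSm x hx) hr (by omega)
      (hXZ.trans (subset_union_left.trans subset_union_left)) hk4
      (haX.trans' (agr_mono haZ hXZ)) (subset_union_right.trans subset_union_left) hYx hSx ex'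
      (subset_union_right.trans subset_union_right) hYc hSc
    refine ⟨eval P.U0 P.S ns b t1 (x :: ρ0), ?_, Z ∪ Yx ∪ (Yu ∪ Yc),
      subset_union_left.trans subset_union_left, k4, hk4, haZ, by omega,
      ⟨Yu, subset_union_left.trans subset_union_right, hYu, hSu, E1⟩⟩
    rw [HF.elems_mk]
    refine mem_image.2 ⟨x, mem_filter.2 ⟨hx, fun h0 => hcx' ?_⟩, rfl⟩
    rw [E3, h0]
    exact P.F.T_ord s 0 (P.F.Th_anti (subset_union_right.trans subset_union_right) hk4)

section iter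

variable {t : Tm Γ} {ρ0 ρ1 : List (HF A)} {q : ℕ} {X : Finset I} {k : K}

/-- the stages of an iteration are transported -/
theorem iter_stage (c : Cx P ns b B s Q cc) (g : Good P ns b B s Q cc t)
    (hq : t.bd B (B * (q + 1) ^ (ρ0.length + 1) + q) (ρ0.length + 1) ≤ Q)
    (hρ : ∀ x ∈ ρ0, Sm P.H q x)
    (hr : List.Forall₂ (Rel P.F s X k) ρ0 ρ1) (hL : X.card + (t.dep cc + 9) * s ≤ P.F.L) :
    ∀ i : ℕ, (∀ j < i, (HF.tc ((fun x => eval P.U0 P.S ns b t (x :: ρ0))^[j] HF.emp)).card ≤ b) →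
    ∀ Y : Finset I, Y.card ≤ s →
    Supp P.F.pl P.F.G Y ((fun x => eval P.U0 P.S ns b t (x :: ρ0))^[i] HF.emp) →
    ∀ k' ∈ P.F.Th (X ∪ Y), Agr P.F.pl X k k' →
    (fun x => eval P.U1 P.S ns b t (x :: ρ1))^[i] HF.emp =
      P.F.T s ((fun x => eval P.U0 P.S ns b t (x :: ρ0))^[i] HF.emp) Y k' := by
  intro i
  induction i with
  | zero =>
    intro _ Y hY hYs k' hk' ha
    exact (P.F.T_ord s 0 (P.F.Th_anti subset_union_right hk')).symm
  | succ i ih =>
    intro hj Y hY hYs k' hk' ha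
    rw [add_mul] at hL
    rw [Function.iterate_succ_apply'] at hYs ⊢
    rw [Function.iterate_succ_apply']
    have hSi := stage_Sm P ns b B c.hbB t ρ0 q i hρ (hj i (Nat.lt_succ_self i))
    have hqi := (bd_ge t B (B * (q + 1) ^ (ρ0.length + 1) + q) (ρ0.length + 1)).trans hq
    obtain ⟨Yi, hYi, hSi'⟩ := c.sup hSi (by omega)
    have hc0 : (X ∪ Y ∪ Yi).card ≤ X.card + 2 * s := by
      have := card_union_le (X ∪ Y) Yi
      have := card_union_le X Y
      omega
    refine reduce hk' Yi (by omega) hYs fun k'' hk'' ha' => ?_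
    have haX : Agr P.F.pl X k k'' := ha.trans' (agr_mono ha' subset_union_left)
    have e := ih (fun j hj' => hj j (by omega)) Yi hYi hSi' k''
      (P.F.Th_anti (union_subset (subset_union_left.trans subset_union_left)
        subset_union_right) hk'') haX
    exact g.step (q := q) (q' := B * (q + 1) ^ (ρ0.length + 1) + q) (Nat.le_add_left _ _) hq hρ
      (hSi.mono (Nat.le_add_right _ _)) hr (by omega) (subset_union_left.trans subset_union_left)
      hk'' haX subset_union_right hYi hSi' e (subset_union_right.trans subset_union_left) hY hYs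

theorem iter_Sm (c : Cx P ns b B s Q cc) (hρ : ∀ x ∈ ρ0, Sm P.H q x) (i : ℕ)
    (hj : ∀ j < i, (HF.tc ((fun x => eval P.U0 P.S ns b t (x :: ρ0))^[j] HF.emp)).card ≤ b) :
    Sm P.H (t.bd B (B * (q + 1) ^ (ρ0.length + 1) + q) (ρ0.length + 1) + 1)
      ((fun x => eval P.U0 P.S ns b t (x :: ρ0))^[i] HF.emp) := by
  cases i with
  | zero =>
    intro y hy
    change y ∈ HF.tc (HF.ord 0) at hy
    rw [tc_emp, Finset.mem_singleton] at hy
    subst hy
    have h1 : orb P.H (HF.ord 0 : HF A) ⊆ {HF.ord 0} := by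
      intro z hz
      obtain ⟨g, _, rfl⟩ := mem_image.1 hz
      rw [HF.smul_ord]
      exact mem_singleton_self _
    have := card_le_card h1
    rw [card_singleton] at this
    omega
  | succ i =>
    rw [Function.iterate_succ_apply']
    have hSi := stage_Sm P ns b B c.hbB t ρ0 q i hρ (hj i (Nat.lt_succ_self i))
    refine Sm.mono (c.val t (_ :: ρ0) _ ?_) (Nat.le_add_right _ 1)
    intro y hy
    rcases List.mem_cons.1 hy with rfl | hy
    · exact hSi.mono (Nat.le_add_right _ _)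
    · exact (hρ y hy).mono (Nat.le_add_left _ _)

theorem iter_card (c : Cx P ns b B s Q cc) (g : Good P ns b B s Q cc t)
    (hq : t.bd B (B * (q + 1) ^ (ρ0.length + 1) + q) (ρ0.length + 1) + 1 ≤ Q)
    (hρ : ∀ x ∈ ρ0, Sm P.H q x) (hk : k ∈ P.F.Th X)
    (hr : List.Forall₂ (Rel P.F s X k) ρ0 ρ1) (hL : X.card + (t.dep cc + 9) * s ≤ P.F.L) (i : ℕ)
    (hj : ∀ j < i, (HF.tc ((fun x => eval P.U0 P.S ns b t (x :: ρ0))^[j] HF.emp)).card ≤ b) :
    (HF.tc ((fun x => eval P.U1 P.S ns b t (x :: ρ1))^[i] HF.emp)).card =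
      (HF.tc ((fun x => eval P.U0 P.S ns b t (x :: ρ0))^[i] HF.emp)).card := by
  have h1 := iter_Sm (t := t) c hρ i hj
  obtain ⟨Yi, hYi, hSi⟩ := c.sup h1 hq
  have hL' := hL
  rw [add_mul] at hL'
  have hc0 : (X ∪ Yi).card ≤ X.card + s := by
    have := card_union_le X Yi
    omega
  obtain ⟨k', hk', ha⟩ := P.F.Th_ext (subset_union_left (s₁ := X) (s₂ := Yi)) (by omega) hk
  rw [iter_stage c g (by omega) hρ hr hL i hj Yi hYi hSi k' hk' ha]
  exact P.F.card_tc_T s (c.hs h1 hq) hSi (by omega) (by omega)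
    (P.F.Th_anti subset_union_right hk')

theorem iter_fix (c : Cx P ns b B s Q cc) (g : Good P ns b B s Q cc t)
    (hq : t.bd B (B * (q + 1) ^ (ρ0.length + 1) + q) (ρ0.length + 1) + 1 ≤ Q)
    (hρ : ∀ x ∈ ρ0, Sm P.H q x) (hk : k ∈ P.F.Th X)
    (hr : List.Forall₂ (Rel P.F s X k) ρ0 ρ1) (hL : X.card + (t.dep cc + 9) * s ≤ P.F.L) (i : ℕ)
    (hj : ∀ j ≤ i, (HF.tc ((fun x => eval P.U0 P.S ns b t (x :: ρ0))^[j] HF.emp)).card ≤ b) :
    (fun x => eval P.U1 P.S ns b t (x :: ρ1)) ((fun x => eval P.U1 P.S ns b t (x :: ρ1))^[i] HF.emp) =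
      (fun x => eval P.U1 P.S ns b t (x :: ρ1))^[i] HF.emp ↔
    (fun x => eval P.U0 P.S ns b t (x :: ρ0)) ((fun x => eval P.U0 P.S ns b t (x :: ρ0))^[i] HF.emp) =
      (fun x => eval P.U0 P.S ns b t (x :: ρ0))^[i] HF.emp := by
  have h1 := iter_Sm (t := t) c hρ i (fun j hj' => hj j hj'.le)
  have h2 := iter_Sm (t := t) c hρ (i + 1) (fun j hj' => hj j (Nat.lt_succ_iff.1 hj'))
  obtain ⟨Y1, hY1, hS1⟩ := c.sup h1 hq
  obtain ⟨Y2, hY2, hS2⟩ := c.sup h2 hq
  have hL' := hL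
  rw [add_mul] at hL'
  have hc0 : (X ∪ (Y1 ∪ Y2)).card ≤ X.card + 2 * s := by
    have := card_union_le X (Y1 ∪ Y2)
    have := card_union_le Y1 Y2
    omega
  obtain ⟨k', hk', ha⟩ := P.F.Th_ext (subset_union_left (s₁ := X) (s₂ := Y1 ∪ Y2)) (by omega) hk
  have E1 := iter_stage c g (by omega) hρ hr hL i (fun j hj' => hj j hj'.le) Y1 hY1 hS1 k'
    (P.F.Th_anti (union_subset_union subset_rfl subset_union_left) hk') ha
  have E2 := iter_stage c g (by omega) hρ hr hL (i + 1) (fun j hj' => hj j (Nat.lt_succ_iff.1 hj'))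
    Y2 hY2 hS2 k' (P.F.Th_anti (union_subset_union subset_rfl subset_union_right) hk') ha
  generalize (fun x => eval P.U1 P.S ns b t (x :: ρ1)) = f1 at *
  generalize (fun x => eval P.U0 P.S ns b t (x :: ρ0)) = f0 at *
  rw [← Function.iterate_succ_apply' f1, ← Function.iterate_succ_apply' f0]
  exact Rel.inj (Z := X ∪ (Y1 ∪ Y2)) (k := k')
    ⟨Y2, subset_union_right.trans subset_union_right, hY2, hS2, E2⟩
    ⟨Y1, subset_union_left.trans subset_union_right, hY1, hS1, E1⟩ (c.hs h2 hq) (c.hs h1 hq) hk'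
    (by omega) (by omega)

end iter

theorem good_iter (c : Cx P ns b B s Q cc) {t : Tm Γ} (g : Good P ns b B s Q cc t) :
    Good P ns b B s Q cc (Tm.iter t) := by
  intro ρ0 ρ1 q hq hqQ hρ X k hk hr hL Y hY hYs k' hk' ha
  have hL' : X.card + (t.dep cc + 9) * s ≤ P.F.L := hL
  simp only [Tm.bd] at hq
  have hq1 : t.bd B (B * (q + 1) ^ (ρ0.length + 1) + q) (ρ0.length + 1) + 1 ≤ Q := by
    have : 0 < (q + 1) ^ (ρ0.length + 1) := Nat.pow_pos (Nat.succ_pos q)
    omega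
  simp only [eval] at hYs ⊢
  set f0 : HF A → HF A := fun x => eval P.U0 P.S ns b t (x :: ρ0) with hf0
  set f1 : HF A → HF A := fun x => eval P.U1 P.S ns b t (x :: ρ1) with hf1
  have hcard : ∀ i, (∀ j < i, (HF.tc (f0^[j] HF.emp)).card ≤ b) →
      (HF.tc (f1^[i] HF.emp)).card = (HF.tc (f0^[i] HF.emp)).card :=
    fun i hj => iter_card c g hq1 hρ hk hr hL' i hj
  have hcond : ∀ i, (∀ j ≤ i, (HF.tc (f0^[j] HF.emp)).card ≤ b) ↔
      (∀ j ≤ i, (HF.tc (f1^[j] HF.emp)).card ≤ b) := by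
    intro i
    constructor
    · intro h j hj
      rw [hcard j (fun j' hj' => h j' (by omega))]
      exact h j hj
    · intro h j
      induction j using Nat.strong_induction_on with
      | _ j ih =>
        intro hj
        rw [← hcard j (fun j' hj' => ih j' hj' (by omega))]
        exact h j hj
  have hP : ∀ i, (i ≤ ns ∧ f1 (f1^[i] HF.emp) = f1^[i] HF.emp ∧
      ∀ j ≤ i, (HF.tc (f1^[j] HF.emp)).card ≤ b) ↔
      (i ≤ ns ∧ f0 (f0^[i] HF.emp) = f0^[i] HF.emp ∧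
      ∀ j ≤ i, (HF.tc (f0^[j] HF.emp)).card ≤ b) := by
    intro i
    rw [← hcond i]
    refine and_congr Iff.rfl ⟨fun h => ⟨?_, h.2⟩, fun h => ⟨?_, h.2⟩⟩
    · exact (iter_fix c g hq1 hρ hk hr hL' i h.2).1 h.1
    · exact (iter_fix c g hq1 hρ hk hr hL' i h.2).2 h.1
  rw [HF.itr_def] at hYs
  rw [HF.itr_def, HF.itr_def]
  by_cases h : ∃ i : ℕ, i ≤ ns ∧ f0 (f0^[i] HF.emp) = f0^[i] HF.emp ∧
      ∀ j ≤ i, (HF.tc (f0^[j] HF.emp)).card ≤ b
  · have h' : ∃ i : ℕ, i ≤ ns ∧ f1 (f1^[i] HF.emp) = f1^[i] HF.emp ∧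
      ∀ j ≤ i, (HF.tc (f1^[j] HF.emp)).card ≤ b := by
      obtain ⟨i, hi⟩ := h
      exact ⟨i, (hP i).2 hi⟩
    rw [dif_pos h] at hYs ⊢
    rw [dif_pos h', Nat.find_congr' (hq := h) (fun {n} => hP n)]
    exact iter_stage c g (by omega) hρ hr hL' _ (fun j hj => (Nat.find_spec h).2.2 j hj.le) Y hY
      hYs k' hk' ha
  · have h' : ¬ ∃ i : ℕ, i ≤ ns ∧ f1 (f1^[i] HF.emp) = f1^[i] HF.emp ∧
      ∀ j ≤ i, (HF.tc (f1^[j] HF.emp)).card ≤ b := by
      rintro ⟨i, hi⟩
      exact h ⟨i, (hP i).1 hi⟩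
    rw [dif_neg h, dif_neg h']
    exact (P.F.T_ord s 0 (P.F.Th_anti subset_union_right hk')).symm

theorem good_la (c : Cx P ns b B s Q cc) (o : LaOp) {tp ti : Tm Γ} {te : Fin o.k → Tm Γ}
    (gp : Good P ns b B s Q cc tp) (gi : Good P ns b B s Q cc ti)
    (ge : ∀ j, Good P ns b B s Q cc (te j)) : Good P ns b B s Q cc (Tm.la o tp ti te) := by
  intro ρ0 ρ1 q hq hqQ hρ X k hk hr hL Y hY hYs k' hk' ha
  have hd : X.card + (tp.dep cc + ti.dep cc + (∑ j : Fin o.k, (te j).dep cc) + cc + 9) * s ≤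
    P.F.L := hL
  rw [add_mul, add_mul, add_mul, add_mul] at hd
  simp only [Tm.bd] at hq
  have hd1 : ∀ j, (te j).dep cc * s ≤ (∑ j : Fin o.k, (te j).dep cc) * s := fun j =>
    Nat.mul_le_mul_right s (Finset.single_le_sum (f := fun j => (te j).dep cc)
      (fun _ _ => Nat.zero_le _) (Finset.mem_univ j))
  have hq1 : ∀ j, (te j).bd B (ti.bd B q ρ0.length + q) (ρ0.length + 2) ≤
      ∑ j : Fin o.k, (te j).bd B (ti.bd B q ρ0.length + q) (ρ0.length + 2) := fun j =>
    Finset.single_le_sum (f := fun j => (te j).bd B (ti.bd B q ρ0.length + q) (ρ0.length + 2))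
      (fun _ _ => Nat.zero_le _) (Finset.mem_univ j)
  have hv2 := c.val ti ρ0 q hρ
  obtain ⟨Y1, hY1, hS1, hH1, r1⟩ := gp.sub c (by omega) hqQ hρ hk hr (by omega)
  obtain ⟨Y2, hY2, hS2, hH2, r2⟩ := gi.sub c (by omega) hqQ hρ hk hr (by omega)
  have hc0 : (X ∪ Y ∪ (Y1 ∪ Y2)).card ≤ X.card + 3 * s := by
    have := card_union_le (X ∪ Y) (Y1 ∪ Y2)
    have := card_union_le X Y
    have := card_union_le Y1 Y2
    omega
  refine reduce hk' (Y1 ∪ Y2) (by omega) hYs fun k'' hk'' ha' => ?_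
  have haX : Agr P.F.pl X k k'' := ha.trans' (agr_mono ha' subset_union_left)
  have R1 := r1 _ k'' (subset_union_left.trans subset_union_left)
    (subset_union_left.trans subset_union_right) hk'' haX
  have R2 := r2 _ k'' (subset_union_left.trans subset_union_left)
    (subset_union_right.trans subset_union_right) hk'' haX
  have hn : num (eval P.U1 P.S ns b tp ρ1) = num (eval P.U0 P.S ns b tp ρ0) :=
    num_congr fun n => R1.inj (rel_ord n hk'') hH1 (hs_ord n) hk'' (by omega) (by omega)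
  have hXZ : X ⊆ X ∪ Y ∪ (Y1 ∪ Y2) := subset_union_left.trans subset_union_left
  have hYZ : Y ⊆ X ∪ Y ∪ (Y1 ∪ Y2) := subset_union_right.trans subset_union_left
  have hY2Z : Y2 ⊆ X ∪ Y ∪ (Y1 ∪ Y2) := subset_union_right.trans subset_union_right
  simp only [eval]
  rw [P.F.T_ord s _ (P.F.Th_anti hYZ hk''), hn]
  congr 1
  generalize num (eval P.U0 P.S ns b tp ρ0) = pn
  have hE : HF.elems (eval P.U1 P.S ns b ti ρ1) =
      P.F.TF s (HF.elems (eval P.U0 P.S ns b ti ρ0)) (X ∪ Y ∪ (Y1 ∪ Y2)) k'' := by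
    rw [R2.eq subset_rfl (P.F.supp_mono hS2 hY2Z) hk'' (by omega)]
    exact P.F.elems_T s _ _ _
  let _ := o.fld pn
  obtain ⟨Pm, Qm, hPQ, hQP, hint⟩ := c.hint (o.Fd pn) (X ∪ Y ∪ (Y1 ∪ Y2)) k''
    (HF.elems (eval P.U0 P.S ns b ti ρ0)) hk'' (by omega)
    (fun y hy => Fr.HS.mem P.F s hH2 hy) (fun g hg hgN y hy => by
      have h1 := (HF.smul_mem_elems g (eval P.U0 P.S ns b ti ρ0) y).2 hy
      rwa [(P.F.supp_mono hS2 hY2Z).1 g hg hgN] at h1)
  have hSm : ∀ x ∈ HF.elems (eval P.U0 P.S ns b ti ρ0), Sm P.H (ti.bd B q ρ0.length + q) x :=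
    fun x hx => (Sm.mem hv2 hx).mono (Nat.le_add_right _ _)
  have h1 : o.f pn {x : HF A // x ∈ HF.elems (eval P.U1 P.S ns b ti ρ1)}
      (fun j x y => o.rd pn (num (eval P.U1 P.S ns b (te j) (y.1 :: x.1 :: ρ1)))) =
      o.f pn {x : HF A // x ∈ P.F.TF s (HF.elems (eval P.U0 P.S ns b ti ρ0))
        (X ∪ Y ∪ (Y1 ∪ Y2)) k''}
      (fun j x y => o.rd pn (num (eval P.U1 P.S ns b (te j) (y.1 :: x.1 :: ρ1)))) := by
    refine o.f_image pn _ _ (fun x => x) (fun x _ y _ h => h) ?_ _ _ ?_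
    · rw [hE, Finset.image_id']
    · intro j x y x' y' hx hy
      rw [hx, hy]
  rw [h1]
  symm
  refine o.inv pn _ _ Pm Qm _ _ hPQ hQP fun j => ?_
  apply hint
  intro x y x' y' W V k3 hW hV hWs hVs hk3 ha3 hx hy
  show o.rd pn _ = o.rd pn _
  congr 1
  refine (ge j).step2 c (q := q) (q' := ti.bd B q ρ0.length + q) (Nat.le_add_left _ _)
    ((hq1 j).trans (by omega)) hρ (hSm x.1 x.2) (hSm y.1 y.2) hr ?_ ?_ hXZ
    (haX.trans' (agr_mono ha3 hXZ)) hk3 hW hWs hx hV hVs hy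
  · have := hd1 j
    omega
  · omega

theorem good (c : Cx P ns b B s Q cc) (t : Tm Γ) : Good P ns b B s Q cc t := by
  induction t with
  | var i => exact good_var c i
  | empty => exact good_empty
  | atoms => exact good_atoms c
  | pair s t ih1 ih2 => exact good_pair c ih1 ih2
  | union t ih => exact good_union c ih
  | uniq t ih => exact good_uniq c ih
  | card t ih => exact good_card c ih
  | eq s t ih1 ih2 => exact good_eq c ih1 ih2
  | mem s t ih1 ih2 => exact good_mem c ih1 ih2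
  | rel r ts ih => exact good_rel c r ts ih
  | neg t ih => exact good_neg c ih
  | and s t ih1 ih2 => exact good_and c ih1 ih2
  | comp s t c' ih1 ih2 ih3 => exact good_comp c ih1 ih2 ih3
  | iter t ih => exact good_iter c ih
  | la o p i e ihp ihi ihe => exact good_la c o ihp ihi ihe

end vals

section

variable {Γ : Voc} {A I K : Type} [Fintype A] [Fintype I] [Fintype K] [Group K] [MulAction K A]
variable (P : Twin Γ A I K)

/-- the values of terms are transported -/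
theorem eval_T (ns b B s Q cc : ℕ) (hb : P.U0.card ≤ B) (hbB : b ≤ B) (h9 : 9 * s ≤ P.F.L)
    (h3 : ∀ a, (P.F.pl a).card ≤ s)
    (hsup : ∀ x : HF A, (orb P.H x).card ≤ Q → ∃ X : Finset I, X.card ≤ s ∧
      Supp P.F.pl P.F.G X x)
    (hint : ∀ (R : Type) [Field R], Int P.F s cc R)
    (t : Tm Γ) (ρ0 ρ1 : List (HF A)) (q : ℕ) (hq : t.bd B q ρ0.length ≤ Q) (hqQ : q ≤ Q)
    (hρ : ∀ x ∈ ρ0, Sm P.H q x) (X : Finset I) (k : K) (hk : k ∈ P.F.Th X)
    (hr : List.Forall₂ (fun x x' => ∃ Y : Finset I, Y ⊆ X ∧ Y.card ≤ s ∧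
      Supp P.F.pl P.F.G Y x ∧ x' = P.F.T s x Y k) ρ0 ρ1)
    (hL : X.card + t.dep cc * s ≤ P.F.L)
    (Y : Finset I) (hY : Y.card ≤ s) (hYs : Supp P.F.pl P.F.G Y (eval P.U0 P.S ns b t ρ0))
    (k' : K) (hk' : k' ∈ P.F.Th (X ∪ Y)) (ha : Agr P.F.pl X k k') :
    eval P.U1 P.S ns b t ρ1 = P.F.T s (eval P.U0 P.S ns b t ρ0) Y k' :=
  good ⟨hb, hbB, h9, h3, hsup, hint⟩ t ρ0 ρ1 q hq hqQ hρ X k hk hr hL Y hY hYs k' hk' ha

/-- the two structures satisfy the same closed terms -/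
theorem twin_same (ns b B s Q cc : ℕ) (hb : P.U0.card ≤ B) (hbB : b ≤ B)
    (h3 : ∀ a, (P.F.pl a).card ≤ s)
    (hsup : ∀ x : HF A, (orb P.H x).card ≤ Q → ∃ X : Finset I, X.card ≤ s ∧
      Supp P.F.pl P.F.G X x)
    (hint : ∀ (R : Type) [Field R], Int P.F s cc R)
    (hTh : (P.F.Th ∅).Nonempty)
    (t : Tm Γ) (hq : t.bd B 0 0 ≤ Q) (hL : t.dep cc * s ≤ P.F.L) :
    eval P.U0 P.S ns b t [] = HF.ord 1 ↔ eval P.U1 P.S ns b t [] = HF.ord 1 := by
  obtain ⟨k, hk⟩ := hTh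
  have h9 : 9 * s ≤ P.F.L := (Nat.mul_le_mul_right s (dep_ge cc t)).trans hL
  have c : Cx P ns b B s Q cc := ⟨hb, hbB, h9, h3, hsup, hint⟩
  have hv := c.val t [] 0 (by simp)
  obtain ⟨Y, hY, hYs⟩ := c.sup hv hq
  obtain ⟨k', hk', ha⟩ := P.F.Th_ext (empty_subset (∅ ∪ Y)) (by rw [empty_union]; omega) hk
  have e := good c t [] [] 0 hq (Nat.zero_le _) (by simp) ∅ k hk List.Forall₂.nil (by simpa using hL)
    Y hY hYs k' hk' ha
  rw [e]
  rw [empty_union] at hk'
  have h1 := Rel.inj (F := P.F) (s := s) (Z := Y) (k := k') ⟨Y, subset_rfl, hY, hYs, rfl⟩ (rel_ord 1 hk')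
    (c.hs hv hq) hs_ord1 hk' (by omega) (by omega)
  exact h1.symm

/-- the two structures have the same number of atoms -/
theorem twin_card (s : ℕ) (h3 : ∀ a, (P.F.pl a).card ≤ s) (hTh : (P.F.Th ∅).Nonempty)
    (hL : 9 * s ≤ P.F.L) : P.U0.card = P.U1.card := by
  obtain ⟨k, hk⟩ := hTh
  have h1 := atoms_T P s h3 hk (by rw [card_empty]; omega)
  have hinj : Function.Injective (HF.atom : A → HF A) := fun a b h => HF.atom_inj h
  have hsup : Supp P.F.pl P.F.G ∅ (HF.mk (P.U0.image HF.atom)) := by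
    refine ⟨fun g hg _ => ?_, fun a ha => absurd ha.symm (HF.atom_ne_mk _ _)⟩
    rw [HF.smul_mk, image_image]
    congr 1
    ext z
    simp only [mem_image, Function.comp]
    constructor
    · rintro ⟨a, ha, rfl⟩
      exact ⟨g • a, (P.inv0 g (P.GH hg) a).2 ha, (HF.smul_atom g a).symm⟩
    · rintro ⟨a, ha, rfl⟩
      refine ⟨g⁻¹ • a, (P.inv0 g (P.GH hg) _).1 (by rwa [smul_inv_smul]), ?_⟩
      rw [HF.smul_atom, smul_inv_smul]
  have hHS : HS P.F.pl P.F.G s (HF.mk (P.U0.image HF.atom)) := by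
    intro y hy
    rw [HF.tc_mk, mem_insert] at hy
    rcases hy with rfl | hy
    · exact ⟨∅, by simp, hsup⟩
    · obtain ⟨w, hw, hy⟩ := mem_biUnion.1 hy
      obtain ⟨a, _, rfl⟩ := mem_image.1 hw
      rw [HF.tc_atom, mem_singleton] at hy
      rw [hy]
      exact ⟨P.F.pl a, h3 a, supp_atom a⟩
  have h2 := P.F.card_elems_T s hHS hsup (by omega) (by rw [card_empty]; omega) hk
  rw [h1, HF.elems_mk, HF.elems_mk, card_image_of_injective _ hinj,
    card_image_of_injective _ hinj] at h2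
  exact h2.symm

end

end Pool.Agent.CLA
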