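import Pool.Agent.CLA.Seq

/-!
# Choiceless polynomial time with linear-algebraic operators does not capture polynomial time
-/

set_option autoImplicit false

namespace Pool.Agent.CLA

open Finset Classical
open Pool.Agent.CPT
open Pool.Agent.CPT.P (gcode)

/-- the main theorem -/
theorem final : ∃ (D : ℕ) (K L : ∀ V : Type, SimpleGraph V → Prop)
    (dec inv : List Bool → List Bool) (N : ℕ → ℕ) (G H : ∀ i, SimpleGraph (Fin (N i))),
    (∀ (V W : Type) (G : SimpleGraph V) (H : SimpleGraph W), K V G → Nonempty (G ≃g H) → K W H) ∧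
    (∀ (V W : Type) (G : SimpleGraph V) (H : SimpleGraph W), L V G → Nonempty (G ≃g H) → L W H) ∧
    Nonempty (Turing.TM2ComputableInPolyTime (fun w : List Bool => w)
      (fun w : List Bool => w) dec) ∧
    (∀ (n : ℕ) (G : SimpleGraph (Fin n)), dec (gcode G) = [true] ↔ L (Fin n) G) ∧
    Nonempty (Turing.TM2ComputableInPolyTime (fun w : List Bool => w)
      (fun w : List Bool => w) inv) ∧
    (∀ (n m : ℕ) (G : SimpleGraph (Fin n)) (H : SimpleGraph (Fin m)), K (Fin n) G →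
      K (Fin m) H → (inv (gcode G) = inv (gcode H) ↔ Nonempty (G ≃g H))) ∧
    (∀ i, 2 ^ i ≤ N i ∧ N i ≤ 2 ^ (D * (i + 1)) ∧ K (Fin (N i)) (G i) ∧ K (Fin (N i)) (H i) ∧
      ¬ L (Fin (N i)) (G i) ∧ L (Fin (N i)) (H i) ∧ IsEmpty (G i ≃g H i)) ∧
    (∀ (t : Tm PV) (t' : Tm GV), ∃ C : ℕ, ∀ i ≥ C, ∀ a b : ℕ, b ^ C ≤ 2 ^ (i * Nat.sqrt i) →
      (Accepts (pStr (G i).Adj (· ≤ ·) (G i).Adj) t a b ↔
        Accepts (pStr (G i).Adj (· ≤ ·) (H i).Adj) t a b) ∧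
      (Accepts (gStr (G i).Adj) t' a b ↔ Accepts (gStr (H i).Adj) t' a b)) ∧
    (∀ (t : Tm PV) (p q : Polynomial ℕ), ¬ ∀ (n : ℕ) (G H : SimpleGraph (Fin n)),
      K (Fin n) G → K (Fin n) H →
      (Accepts (pStr G.Adj (· ≤ ·) H.Adj) t (p.eval (n + n)) (q.eval (n + n)) ↔
        Nonempty (G ≃g H))) ∧
    (∀ (t : Tm GV) (p q : Polynomial ℕ), ¬ ∀ (n : ℕ) (G : SimpleGraph (Fin n)),
      K (Fin n) G → (Accepts (gStr G.Adj) t (p.eval n) (q.eval n) ↔ L (Fin n) G)) := by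
  have hN : ∀ i, sN i ≤ 2 ^ (80 * (i + 55)) := fun i =>
    (sN_le i).trans (Nat.pow_le_pow_right (by norm_num) (by omega))
  refine ⟨480, P.Cls, P.Lg, P.dec, P.inva, sN, sG, sH, P.cls_iso, P.lg_iso', P.dec_time,
    fun n G => P.dec_iff' G, P.inva_time, P.inva_complete,
    fun i => ⟨le_sN i, (sN_le i).trans (Nat.pow_le_pow_right (by norm_num) (by omega)), cls_sG i,
      cls_sH i, not_l_sG i, l_sH i, sG_not_iso i⟩, s_same, ?_, ?_⟩
  · intro t p q h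
    obtain ⟨C, hC⟩ := s_same t .empty
    obtain ⟨i0, hi0⟩ := poly_small q C
    have h1 := (hi0 (i0 + C) (by omega) (sN (i0 + C)) (hN _)).2
    have h2 := (hC (i0 + C) (by omega) (p.eval (sN (i0 + C) + sN (i0 + C))) _ h1).1
    obtain ⟨f⟩ := (h _ _ _ (cls_sG _) (cls_sH _)).1
      (h2.1 ((h _ _ _ (cls_sG _) (cls_sG _)).2 ⟨RelIso.refl _⟩))
    exact (sG_not_iso _).false f
  · intro t p q h
    obtain ⟨C, hC⟩ := s_same .empty t
    obtain ⟨i0, hi0⟩ := poly_small q C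
    have h1 := (hi0 (i0 + C) (by omega) (sN (i0 + C)) (hN _)).1
    have h2 := (hC (i0 + C) (by omega) (p.eval (sN (i0 + C))) _ h1).2
    exact not_l_sG _ ((h _ _ (cls_sG _)).1 (h2.2 ((h _ _ (cls_sH _)).2 (l_sH _))))

end Pool.Agent.CLA
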