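import Pool.Agent.CLA.At
import Pool.Agent.CLA.GdC
import Pool.Agent.CLA.Tw
import Pool.Agent.CPT.Ab

/-!
# The frame of the graphs

`Ah n h` is the subgroup of the multiples of `2^(n-1-h)` in `Z/2^n`. The group of the transport `GZ`
consists of the flips `(z, 1)` with values in `Ah n h` and divergence `0`; the local isomorphisms `Tht`
on `X` are the flips with values in `Ah n h` whose divergence at the vertices with coordinates in `X`
is `tw n v0`. `HH` is the group of all known automorphisms: all elements whose flips have divergence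
`0`.

Plan. `dv_smul`: as `bdry_smul` in `CPT/At.lean`: the local groups do not change the signed sum,
because `dv (fun e => sg C e • a) v = 0` (`dv_sq` of `CLA/Gd.lean`). `tht_ext`: the defect
`dv k.z v - tw n v0 v` vanishes on `X^3`; `ext` of `CLA/Gd.lean` (in the group `Ah n h`, then `dv_map`)
gives a chain with values in `Ah n h` supported outside `X^3` which cancels it on `Y^3`. `tht_hom`: the
difference of two elements has divergence `0` on `X^3` and total sum `0` (`sum_dv`), cancel its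
divergence by a chain outside `X^3`. `2 * 2^(n-1) = 0` in `Z/2^n` (also for `n = 0`).
-/

set_option autoImplicit false

namespace Pool.Agent.CLA

open Finset Classical
open Pool.Agent.CPT

variable {l n : ℕ}

/-- the multiples of `2^(n-1-h)` -/
def Ah (n h : ℕ) : AddSubgroup (Rn n) := AddSubgroup.zmultiples ((2 : Rn n) ^ (n - 1 - h))

theorem two_half (n : ℕ) : -((2 : Rn n) ^ (n - 1)) = (2 : Rn n) ^ (n - 1) := by
  have h : (2 : Rn n) ^ (n - 1) + (2 : Rn n) ^ (n - 1) = 0 := by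
    rcases Nat.eq_zero_or_pos n with h0 | h0
    · subst h0
      exact Subsingleton.elim (α := ZMod 1) _ _
    · obtain ⟨m, rfl⟩ : ∃ m, n = m + 1 := ⟨n - 1, by omega⟩
      have h1 : ((2 ^ (m + 1) : ℕ) : Rn (m + 1)) = 0 := ZMod.natCast_self _
      rw [Nat.add_sub_cancel, ← two_mul, ← pow_succ']
      exact_mod_cast h1
  exact neg_eq_of_add_eq_zero_left h

theorem half_mem (n h : ℕ) : (2 : Rn n) ^ (n - 1) ∈ Ah n h := by
  rw [Ah, AddSubgroup.mem_zmultiples_iff]
  refine ⟨((2 ^ ((n - 1) - (n - 1 - h)) : ℕ) : ℤ), ?_⟩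
  rw [natCast_zsmul, nsmul_eq_mul]
  push_cast
  rw [← pow_add]
  congr 1
  omega

/-- the central group of the transport -/
def GZ (l n h : ℕ) : Subgroup (KK l n) where
  carrier := {k | k.g = 1 ∧ (∀ e, k.z e ∈ Ah n h) ∧ ∀ v, dv k.z v = 0}
  mul_mem' := by
    rintro a b ⟨h1, h2, h3⟩ ⟨h4, h5, h6⟩
    refine ⟨by rw [mul_g, h1, h4, one_mul], fun e => (Ah n h).add_mem (h2 e) (h5 e), fun v => ?_⟩
    rw [mul_z, dv_add, h3, h6, add_zero]
  one_mem' := ⟨rfl, fun _ => (Ah n h).zero_mem, fun v => dv_zero v⟩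
  inv_mem' := by
    rintro a ⟨h1, h2, h3⟩
    refine ⟨by rw [inv_g, h1, inv_one], fun e => (Ah n h).neg_mem (h2 e), fun v => ?_⟩
    rw [inv_z, dv_neg, h3, neg_zero]

/-- all known automorphisms -/
def HH (l n : ℕ) : Subgroup (KK l n) where
  carrier := {k | ∀ v, dv k.z v = 0}
  mul_mem' := by
    intro a b h3 h6 v
    rw [mul_z, dv_add, h3 v, h6 v, add_zero]
  one_mem' := fun v => dv_zero v
  inv_mem' := by
    intro a h3 v
    rw [inv_z, dv_neg, h3 v, neg_zero]

theorem mem_GZ {h : ℕ} {k : KK l n} :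
    k ∈ GZ l n h ↔ k.g = 1 ∧ (∀ e, k.z e ∈ Ah n h) ∧ ∀ v, dv k.z v = 0 := Iff.rfl

theorem mem_HH {k : KK l n} : k ∈ HH l n ↔ ∀ v, dv k.z v = 0 := Iff.rfl

/-- local isomorphisms -/
def Tht (v0 : Vx l) (n h : ℕ) (X : Finset (Fin l)) : Set (KK l n) :=
  {k | k.g = 1 ∧ (∀ e, k.z e ∈ Ah n h) ∧ ∀ v, co v ⊆ X → dv k.z v = tw n v0 v}

/-- flips commute with everything -/
theorem flip_comm {k : KK l n} (hk : k.g = 1) (k' : KK l n) : k * k' = k' * k := by
  refine KK.ext ?_ ?_
  · rw [mul_z, mul_z, add_comm]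
  · rw [mul_g, mul_g, hk, one_mul, mul_one]

/-- the signed sum of the labels of an atom changes by the divergence of the flips -/
theorem dv_smul (k : KK l n) (x : At l n) : dv (k • x).w x.v = dv x.w x.v + dv k.z x.v := by
  have h1 : dv (k • x).w x.v = dv (x.w + k.z +
      ∑ C : Sq l, fun e => sg C e • Hb.cc (k.g C) (x.a C)) x.v := by
    refine dv_congr fun e he => ?_
    rw [smul_w, if_pos he, Pi.add_apply, Pi.add_apply, Finset.sum_apply, dw, add_assoc]
    congr 2
    rw [Finset.sum_filter]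
    refine Finset.sum_congr rfl fun C _ => ?_
    by_cases h : se C e
    · rw [if_pos h]
    · rw [if_neg h, sg, if_neg h, zero_smul]
  rw [h1, dv_add, dv_add, dv_sum, Finset.sum_eq_zero (fun C _ => dv_sq C _ x.v), add_zero]

theorem isAt_smul {τ σ : Vx l → Rn n} (k : KK l n) (x : At l n)
    (h : dv k.z x.v = τ x.v - σ x.v) : IsAt τ (k • x) ↔ IsAt σ x := by
  unfold IsAt
  rw [smul_v, dv_smul, h]
  refine and_congr ?_ (and_congr ?_ ?_)
  · refine forall_congr' fun C => forall_congr' fun hC => ?_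
    rw [smul_a, if_neg hC]
  · refine forall_congr' fun e => forall_congr' fun he => ?_
    rw [smul_w, if_neg he]
  · constructor
    · intro h1
      linear_combination h1
    · intro h1
      linear_combination h1

theorem isEs_smul (k : KK l n) (y : Es l n) : IsEs (k • y) ↔ IsEs y := by
  unfold IsEs
  rw [smulE_e]
  refine and_congr_right fun _ => ?_
  refine forall_congr' fun C => forall_congr' fun hC => ?_
  rw [smulE_a, if_neg hC]

theorem inU_smul {τ σ : Vx l → Rn n} (k : KK l n) (X : Finset (Fin l))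
    (h : ∀ v, co v ⊆ X → dv k.z v = τ v - σ v) (a : Al l n) (ha : pl a ⊆ X) :
    InU τ (k • a) ↔ InU σ a := by
  rcases a with x | y | y | v | ⟨v, j⟩ | i | ⟨i, j⟩
  · exact isAt_smul k x (h _ ha)
  · exact isEs_smul k y
  · exact isEs_smul k y
  · exact Iff.rfl
  · exact Iff.rfl
  · exact Iff.rfl
  · exact Iff.rfl

/-- the edges with an end in `X^3` and the edges without ends -/
def EdX (X : Finset (Fin l)) (e : Ed l) : Prop := (∃ u, ie e u) → ∃ u, ie e u ∧ co u ⊆ X

theorem dw_flip (z : Ed l → Rn n) (a : Sq l → Rn n × Rn n) (e : Ed l) :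
    dw (mkK z (1 : Sq l → Hb n)) a e = z e := by
  unfold dw
  rw [mkK_z, mkK_g]
  rw [Finset.sum_eq_zero, add_zero]
  intro C _
  rw [Pi.one_apply, Hb.cc_one, smul_zero]

/-- a flip is trivial at `X` if and only if it vanishes on the edges with an end in `X^3` and on the
edges without ends (states of edges without ends have no coordinates) -/
theorem flip_trv {X : Finset (Fin l)} {z : Ed l → Rn n} :
    Trv (pl (n := n)) X (mkK z (1 : Sq l → Hb n)) ↔ ∀ e, EdX X e → z e = 0 := by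
  constructor
  · intro h e he
    by_cases h1 : ∃ u, ie e u
    · obtain ⟨u, hu, hX⟩ := he h1
      have h2 := h (Al.atm (mkA u 0 0)) hX
      rw [smul_atm, Al.atm.injEq] at h2
      have h3 : (mkK z (1 : Sq l → Hb n) • (mkA u 0 0 : At l n)).w e = (mkA u 0 0 : At l n).w e := by
        rw [h2]
      rw [smul_w, mkA_v, if_pos hu, dw_flip, mkA_w, Pi.zero_apply, zero_add] at h3
      exact h3
    · have h2 := h (Al.est (mkE e 0 0)) (by
        change ce e ⊆ X
        intro i hi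
        rw [ce, Finset.mem_biUnion] at hi
        obtain ⟨u, hu, -⟩ := hi
        exact absurd ⟨u, (Finset.mem_filter.1 hu).2⟩ h1)
      rw [smul_est, Al.est.injEq] at h2
      have h3 : (mkK z (1 : Sq l → Hb n) • (mkE e 0 0 : Es l n)).w = (mkE e 0 0 : Es l n).w := by
        rw [h2]
      rw [smulE_w, mkE_e, dw_flip, mkE_w, zero_add] at h3
      exact h3
  · intro h
    have hE : ∀ y : Es l n, ce y.e ⊆ X → mkK z (1 : Sq l → Hb n) • y = y := by
      intro y hy
      refine Es.ext rfl ?_ ?_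
      · funext C
        rw [smulE_a, mkK_g, Pi.one_apply, one_smul, ite_self]
      · rw [smulE_w, dw_flip, h y.e, add_zero]
        rintro ⟨u, hu⟩
        refine ⟨u, hu, ?_⟩
        intro i hi
        exact hy (Finset.mem_biUnion.2 ⟨u, Finset.mem_filter.2 ⟨Finset.mem_univ _, hu⟩, hi⟩)
    intro a ha
    rcases a with x | y | y | v | ⟨v, j⟩ | i | ⟨i, j⟩
    · rw [smul_atm]
      congr 1
      refine At.ext rfl ?_ ?_
      · funext C
        rw [smul_a, mkK_g, Pi.one_apply, one_smul, ite_self]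
      · funext e
        rw [smul_w, dw_flip]
        by_cases h1 : ie e x.v
        · rw [if_pos h1, h e (fun _ => ⟨x.v, h1, ha⟩), add_zero]
        · rw [if_neg h1]
    · rw [smul_est, hE y ha]
    · rw [smul_lf, hE y ha]
    · rfl
    · rfl
    · rfl
    · rfl

/-- two flips agree at `X` if and only if they agree on these edges -/
theorem flip_agr {X : Finset (Fin l)} {k k' : KK l n} (hk : k.g = 1) (hk' : k'.g = 1) :
    Agr (pl (n := n)) X k k' ↔ ∀ e, EdX X e → k.z e = k'.z e := by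
  have h1 : k'⁻¹ * k = mkK (k.z - k'.z) (1 : Sq l → Hb n) := by
    refine KK.ext ?_ ?_
    · rw [mul_z, inv_z, mkK_z]
      abel
    · rw [mul_g, inv_g, hk, hk', inv_one, one_mul, mkK_g]
  have h2 : Agr (pl (n := n)) X k k' ↔ Trv (pl (n := n)) X (k'⁻¹ * k) := by
    unfold Agr Trv
    refine forall_congr' fun a => imp_congr_right fun _ => ?_
    rw [mul_smul, inv_smul_eq_iff]
  rw [h2, h1, flip_trv]
  refine forall_congr' fun e => imp_congr_right fun _ => ?_
  rw [Pi.sub_apply, sub_eq_zero]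

theorem tht_inv (v0 : Vx l) (h : ℕ) {X : Finset (Fin l)} {k : KK l n} (hk : k ∈ Tht v0 n h X) :
    k⁻¹ ∈ Tht v0 n h X := by
  obtain ⟨h1, h2, h3⟩ := hk
  refine ⟨by rw [inv_g, h1, inv_one], fun e => (Ah n h).neg_mem (h2 e), fun v hv => ?_⟩
  rw [inv_z, dv_neg, h3 v hv, tw, Pi.single_apply]
  split_ifs
  · exact two_half n
  · exact neg_zero

theorem tw_mem (v0 : Vx l) (h : ℕ) (v : Vx l) : tw n v0 v ∈ Ah n h := by
  rw [tw, Pi.single_apply]
  split_ifs
  · exact half_mem n h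
  · exact (Ah n h).zero_mem

theorem dv_mem {h : ℕ} {z : Ed l → Rn n} (hz : ∀ e, z e ∈ Ah n h) (v : Vx l) :
    dv z v ∈ Ah n h := by
  unfold dv
  exact (Ah n h).zsmul_mem ((Ah n h).sum_mem fun e _ => hz e) _

theorem flip_off {X : Finset (Fin l)} {M : Type} [AddCommGroup M] {z : Ed l → M}
    (hz : ∀ e, z e ≠ 0 → (∃ u, ie e u) ∧ ∀ u, ie e u → ¬ co u ⊆ X) {e : Ed l} (he : EdX X e) :
    z e = 0 := by
  by_contra h1
  obtain ⟨h2, h3⟩ := hz e h1
  obtain ⟨u, hu, hX⟩ := he h2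
  exact h3 u hu hX

theorem tht_ext (v0 : Vx l) (h : ℕ) {X Y : Finset (Fin l)} {k : KK l n} (hXY : X ⊆ Y)
    (hY : Y.card < l) (hk : k ∈ Tht v0 n h X) : ∃ k' ∈ Tht v0 n h Y, Agr (pl (n := n)) X k k' := by
  obtain ⟨h1, h2, h3⟩ := hk
  obtain ⟨y, hy⟩ : ∃ y, y ∉ Y := by
    by_contra hcon
    push Not at hcon
    have h4 : Y = Finset.univ := Finset.eq_univ_iff_forall.2 hcon
    rw [h4, Finset.card_univ, Fintype.card_fin] at hY
    exact lt_irrefl _ hY
  have hv1 : ¬ co (fun _ : Fin 3 => y) ⊆ Y := fun hc =>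
    hy (hc (Finset.mem_image.2 ⟨0, Finset.mem_univ _, rfl⟩))
  obtain ⟨z, hz1, hz2⟩ := flow' (M := Ah n h) hXY hv1
    (fun v => ⟨tw n v0 v - dv k.z v, (Ah n h).sub_mem (tw_mem v0 h v) (dv_mem h2 v)⟩)
    (fun v hv => Subtype.ext (by
      change tw n v0 v - dv k.z v = 0
      rw [h3 v hv, sub_self]))
  have hz3 : ∀ u, co u ⊆ Y → dv (fun e => ((z e : Ah n h) : Rn n)) u = tw n v0 u - dv k.z u := by
    intro u hu
    have h5 := dv_map (Ah n h).subtype z u
    rw [hz2 u hu] at h5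
    exact h5
  refine ⟨mkK (k.z + fun e => ((z e : Ah n h) : Rn n)) 1, ⟨mkK_g _ _, fun e => ?_, fun v hv => ?_⟩, ?_⟩
  · exact (Ah n h).add_mem (h2 e) (z e).2
  · rw [mkK_z, dv_add, hz3 v hv, add_sub_cancel]
  · rw [flip_agr h1 (mkK_g _ _)]
    intro e he
    rw [mkK_z, Pi.add_apply, flip_off hz1 he]
    exact (add_zero _).symm

theorem tht_hom (v0 : Vx l) (h : ℕ) {X : Finset (Fin l)} {k k' : KK l n} (hX : X.card < l)
    (hk : k ∈ Tht v0 n h X) (hk' : k' ∈ Tht v0 n h X) : ∃ g ∈ GZ l n h, Agr (pl (n := n)) X k' (k * g) := by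
  obtain ⟨h1, h2, h3⟩ := hk
  obtain ⟨h4, h5, h6⟩ := hk'
  have h7 : ∀ e, (k'.z - k.z) e ∈ Ah n h := fun e => (Ah n h).sub_mem (h5 e) (h2 e)
  obtain ⟨z, hz1, hz2⟩ := flow (M := Ah n h) (X := X)
    (fun v => ⟨dv (k'.z - k.z) v, dv_mem h7 v⟩)
    (fun v hv => Subtype.ext (by
      change dv (k'.z - k.z) v = 0
      rw [dv_sub, h3 v hv, h6 v hv, sub_self]))
    (by
      refine Subtype.ext ?_
      rw [AddSubgroup.val_finsetSum]
      exact sum_dv (k'.z - k.z))
  have hz3 : ∀ u, dv (fun e => ((z e : Ah n h) : Rn n)) u = dv (k'.z - k.z) u := by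
    intro u
    have h8 := dv_map (Ah n h).subtype z u
    rw [hz2 u] at h8
    exact h8
  refine ⟨mkK (k'.z - k.z - fun e => ((z e : Ah n h) : Rn n)) 1,
    ⟨mkK_g _ _, fun e => ?_, fun v => ?_⟩, ?_⟩
  · exact (Ah n h).sub_mem (h7 e) (z e).2
  · rw [mkK_z, dv_sub, hz3 v, sub_self]
  · rw [flip_agr h4 (by rw [mul_g, h1, mkK_g, one_mul])]
    intro e he
    rw [mul_z, mkK_z, Pi.add_apply, Pi.sub_apply, flip_off hz1 he, Pi.sub_apply]
    change k'.z e = k.z e + (k'.z e - k.z e - 0)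
    rw [sub_zero, add_sub_cancel]

/-- the frame -/
noncomputable def frm (v0 : Vx l) (n h L : ℕ) (hL : L < l) : Fr (Al l n) (Fin l) (KK l n) where
  pl := pl
  pl_smul := pl_smul
  G := GZ l n h
  norm := ⟨fun g hg k => by
    have h1 : k * g * k⁻¹ = g := by
      rw [← flip_comm hg.1 k, mul_inv_cancel_right]
    rw [h1]
    exact hg⟩
  Th := Tht v0 n h
  L := L
  Th_anti := fun {_ _} hXY _ hk => ⟨hk.1, hk.2.1, fun v hv => hk.2.2 v (hv.trans hXY)⟩
  Th_inv := fun hk => tht_inv v0 h hk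
  Th_mul := by
    rintro X g k ⟨h1, h2, h3⟩ ⟨h4, h5, h6⟩
    refine ⟨by rw [mul_g, h1, h4, one_mul], fun e => (Ah n h).add_mem (h2 e) (h5 e),
      fun v hv => ?_⟩
    rw [mul_z, dv_add, h3, h6 v hv, zero_add]
  Th_ext := fun {_ _ _} hXY hY hk => tht_ext v0 h hXY (lt_of_le_of_lt hY hL) hk
  Th_hom := fun {_ _ _} hX hk hk' => tht_hom v0 h (lt_of_le_of_lt hX hL) hk hk'

end Pool.Agent.CLA
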