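import Pool.Agent.CLA.GdD

/-!
# The three-dimensional grid with coefficients: signs, divergence, squares are cycles

The vertices, edges and squares of the grid are those of `Pool.Agent.CPT.Gd`. The graph is bipartite;
with the sign `sgv v` of a vertex `v` the divergence of a chain `z` at `v` is
`sgv v • ∑ z e`, the sum over the edges `e` at `v`. In the chain of a square two parallel edges have
the sign `1` and the other two the sign `-1`.
-/

set_option autoImplicit false

namespace Pool.Agent.CLA

open Finset Classical Pool.Agent.CPT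

variable {l : ℕ} {M : Type} [AddCommGroup M]

theorem sgv_mul_self (v : Vx l) : sgv v * sgv v = 1 := by
  unfold sgv
  rw [← pow_add, ← two_mul]
  exact (even_two_mul _).neg_one_pow

theorem sgv_smul_smul (v : Vx l) (a : M) : sgv v • sgv v • a = a := by
  rw [smul_smul, sgv_mul_self, one_smul]

theorem sgv_up (e : Ed l) (h : (e.2 e.1).val + 1 < l) : sgv (up e h) = - sgv e.2 := by
  obtain ⟨i, v⟩ := e
  have key : ((up (i, v) h) 0).val + ((up (i, v) h) 1).val + ((up (i, v) h) 2).val =
      ((v 0).val + (v 1).val + (v 2).val) + 1 := by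
    fin_cases i
    · simp [up, Function.update]
      omega
    · simp [up, Function.update]
      omega
    · simp [up, Function.update]
      omega
  unfold sgv
  rw [key, pow_succ]
  simp

theorem dv_zero (v : Vx l) : dv (0 : Ed l → M) v = 0 := by
  unfold dv
  simp

theorem dv_add (z z' : Ed l → M) (v : Vx l) : dv (z + z') v = dv z v + dv z' v := by
  unfold dv
  rw [← smul_add, ← Finset.sum_add_distrib]
  rfl

theorem dv_neg (z : Ed l → M) (v : Vx l) : dv (-z) v = - dv z v := by
  unfold dv
  rw [← smul_neg, ← Finset.sum_neg_distrib]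
  rfl

theorem dv_sub (z z' : Ed l → M) (v : Vx l) : dv (z - z') v = dv z v - dv z' v := by
  rw [sub_eq_add_neg, dv_add, dv_neg, ← sub_eq_add_neg]

theorem dv_sum {ι : Type*} (s : Finset ι) (z : ι → Ed l → M) (v : Vx l) :
    dv (∑ i ∈ s, z i) v = ∑ i ∈ s, dv (z i) v := by
  induction s using Finset.induction_on with
  | empty => simp [dv_zero]
  | insert i s hi ih => rw [Finset.sum_insert hi, Finset.sum_insert hi, dv_add, ih]

theorem dv_eq_zero (z : Ed l → M) (v : Vx l) :
    dv z v = 0 ↔ ∑ e ∈ Finset.univ.filter (fun e => ie e v), z e = 0 := by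
  constructor
  · intro h
    have h1 : sgv v • dv z v = 0 := by rw [h, smul_zero]
    unfold dv at h1
    rwa [sgv_smul_smul] at h1
  · intro h
    unfold dv
    rw [h, smul_zero]

/-- the divergence only depends on the edges at the vertex -/
theorem dv_congr {z z' : Ed l → M} {v : Vx l} (h : ∀ e, ie e v → z e = z' e) : dv z v = dv z' v := by
  unfold dv
  congr 1
  exact Finset.sum_congr rfl fun e he => h e (Finset.mem_filter.1 he).2

/-- the divergence and homomorphisms of the coefficients -/
theorem dv_map {N : Type} [AddCommGroup N] (f : M →+ N) (z : Ed l → M) (v : Vx l) :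
    dv (fun e => f (z e)) v = f (dv z v) := by
  unfold dv
  rw [map_zsmul, map_sum]

/-- the divergence of a single edge -/
theorem dv_single (e : Ed l) (h : (e.2 e.1).val + 1 < l) (a : M) (v : Vx l) :
    dv (Pi.single e a) v = (if v = e.2 then sgv e.2 • a else 0) -
      (if v = up e h then sgv e.2 • a else 0) := by
  have h1 : ∑ e' ∈ Finset.univ.filter (fun e' => ie e' v), (Pi.single e a : Ed l → M) e' =
      if ie e v then a else 0 := by
    rw [Finset.sum_filter]
    rw [Finset.sum_eq_single e]
    · rw [Pi.single_eq_same]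
    · intro b _ hb
      rw [Pi.single_eq_of_ne hb]
      simp
    · intro h; exact absurd (Finset.mem_univ _) h
  unfold dv
  rw [h1, if_congr (ie_iff e h v) rfl rfl]
  by_cases h2 : v = e.2
  · simp [h2, (up_ne e h).symm]
  · by_cases h3 : v = up e h
    · rw [if_pos (Or.inr h3), if_neg h2, if_pos h3, h3, sgv_up, neg_smul, zero_sub]
    · simp [h2, h3]

/-- the sum of the divergences is zero -/
theorem sum_dv (z : Ed l → M) : ∑ v, dv z v = 0 := by
  have h1 : ∑ v, dv z v = ∑ e, ∑ v, if ie e v then sgv v • z e else 0 := by
    simp only [dv, Finset.sum_filter, Finset.smul_sum, smul_ite, smul_zero]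
    exact Finset.sum_comm
  rw [h1]
  refine Finset.sum_eq_zero fun e _ => ?_
  by_cases h : (e.2 e.1).val + 1 < l
  · rw [← Finset.sum_filter]
    have h2 : (Finset.univ.filter (fun v => ie e v)) = {e.2, up e h} := by
      ext v
      rw [Finset.mem_filter, Finset.mem_insert, Finset.mem_singleton, ie_iff e h]
      simp
    rw [h2, Finset.sum_pair (up_ne e h).symm, sgv_up, neg_smul, add_neg_cancel]
  · refine Finset.sum_eq_zero fun v _ => ?_
    rw [if_neg (fun h3 => h h3.1)]

/-- the squares are cycles -/
theorem dv_sq (C : Sq l) (a : M) (v : Vx l) : dv (fun e => sg C e • a) v = 0 := by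
  rw [dv_eq_zero]
  by_cases h : sv C v
  · have h2 : (Finset.univ.filter (fun e : Ed l => ie e v)).filter (fun e => se C e) =
        (Finset.univ.erase C.1).image (fun i => ((i, Function.update v i (C.2 i)) : Ed l)) := by
      ext e
      rw [Finset.filter_filter, Finset.mem_filter, Finset.mem_image]
      constructor
      · rintro ⟨-, h3⟩
        obtain ⟨h4, h5⟩ := (se_iff h e).1 h3
        exact ⟨e.1, Finset.mem_erase.2 ⟨h4, Finset.mem_univ _⟩, Prod.ext rfl h5.symm⟩
      · rintro ⟨i, hi, rfl⟩
        refine ⟨Finset.mem_univ _, (se_iff h _).2 ⟨(Finset.mem_erase.1 hi).1, rfl⟩⟩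
    have h3 : ∑ e ∈ Finset.univ.filter (fun e => ie e v), sg C e • a =
        ∑ e ∈ (Finset.univ.filter (fun e : Ed l => ie e v)).filter (fun e => se C e),
          (if e.1 = C.1 + 1 then (1 : ℤ) else -1) • a := by
      conv_rhs => rw [Finset.sum_filter]
      refine Finset.sum_congr rfl fun e _ => ?_
      unfold sg
      split_ifs <;> simp
    rw [h3, h2, Finset.sum_image]
    · have h4 : (Finset.univ.erase C.1 : Finset (Fin 3)) = {C.1 + 1, C.1 + 2} := by
        generalize C.1 = i
        revert i
        decide
      have h5 : C.1 + 1 ≠ C.1 + 2 := by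
        generalize C.1 = i
        revert i
        decide
      rw [h4, Finset.sum_pair h5]
      rw [if_pos rfl, if_neg h5.symm, one_smul, neg_smul, one_smul, add_neg_cancel]
    · intro i _ j _ hij
      exact congrArg Prod.fst hij
  · refine Finset.sum_eq_zero fun e he => ?_
    rw [Finset.mem_filter] at he
    rw [sg, if_neg, zero_smul]
    exact fun h1 => h (h1.2 v he.2)

end Pool.Agent.CLA
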