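import Pool.Agent.CPT.Gd

/-!
# The grid: signs of vertices, of edges in squares, the signed divergence

The types and incidences `Vx`, `Ed`, `Sq`, `ie`, `sv`, `se`, `co`, `cs`, `up` are those of
`Pool/Agent/CPT/Gd.lean`.
-/

set_option autoImplicit false

namespace Pool.Agent.CLA

open Finset Classical
open Pool.Agent.CPT

variable {l : ℕ}

/-- the sign of a vertex -/
def sgv (v : Vx l) : ℤ := (-1) ^ ((v 0).val + (v 1).val + (v 2).val)

/-- the sign of an edge in a square -/
noncomputable def sg (C : Sq l) (e : Ed l) : ℤ :=
  if se C e then (if e.1 = C.1 + 1 then 1 else -1) else 0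

/-- the signed divergence of a chain at a vertex -/
noncomputable def dv {M : Type} [AddCommGroup M] (z : Ed l → M) (v : Vx l) : M :=
  sgv v • ∑ e ∈ Finset.univ.filter (fun e => ie e v), z e

end Pool.Agent.CLA
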