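import Pool.Agent.CLA.In1

/-!
# Intertwiners II: characteristic two

The matrix `P` of a measure of total mass one satisfies `(Pᵀ P) ^ (2 ^ a) = 1` in characteristic
two, if `2 ^ a` is a multiple of the exponent of the group.
-/

set_option autoImplicit false
set_option linter.unusedSectionVars false

namespace Pool.Agent.CLA

open Finset Classical
open Pool.Agent.CPT

/-! ### Squares of sums in characteristic two -/

section sq

variable {ι S : Type} [Ring S]

theorem sq_sum (h2 : ∀ x : S, x + x = 0) (t : Finset ι) (f : ι → S)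
    (hc : ∀ i j, f i * f j = f j * f i) : (∑ i ∈ t, f i) ^ 2 = ∑ i ∈ t, f i ^ 2 := by
  induction t using Finset.induction_on with
  | empty => simp
  | insert a t ha ih =>
    rw [sum_insert ha, sum_insert ha, ← ih]
    have h1 : (∑ i ∈ t, f i) * f a = f a * ∑ i ∈ t, f i := by
      rw [Finset.sum_mul, Finset.mul_sum]
      exact Finset.sum_congr rfl fun i _ => hc i a
    have h3 : (f a + ∑ i ∈ t, f i) ^ 2 =
        f a ^ 2 + (∑ i ∈ t, f i) ^ 2 + (f a * ∑ i ∈ t, f i + (∑ i ∈ t, f i) * f a) := by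
      noncomm_ring
    rw [h3, h1, h2, add_zero]

theorem pow_sum (h2 : ∀ x : S, x + x = 0) (t : Finset ι) (f : ι → S)
    (hc : ∀ i j, f i * f j = f j * f i) (n : ℕ) :
    (∑ i ∈ t, f i) ^ (2 ^ n) = ∑ i ∈ t, f i ^ (2 ^ n) := by
  induction n with
  | zero => simp
  | succ n ih =>
    rw [pow_succ, pow_mul, ih, sq_sum h2 t (fun i => f i ^ (2 ^ n))]
    · exact Finset.sum_congr rfl fun i _ => by rw [← pow_mul]
    · intro i j
      exact (Commute.pow_pow (hc i j) _ _)

end sq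

variable {A I K : Type} [Fintype A] [Fintype I] [Fintype K] [Group K] [MulAction K A]

/-! ### Permutation matrices -/

/-- the permutation matrix of a group element -/
noncomputable def Pm (Z : Finset (HF A)) (R : Type) [CommRing R] (g : K) :
    Matrix {z // z ∈ Z} {z // z ∈ Z} R := fun z y => if g • y.1 = z.1 then 1 else 0

section pm

variable {Z : Finset (HF A)} {R : Type} [CommRing R]

theorem Pm_mul {g : K} (hg : ∀ y ∈ Z, g • y ∈ Z) (h : K) :
    Pm Z R h * Pm Z R g = Pm Z R (h * g) := by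
  ext z y
  rw [Matrix.mul_apply, Finset.sum_eq_single (⟨g • y.1, hg y.1 y.2⟩ : {z // z ∈ Z})]
  · simp only [Pm, if_true, mul_one, mul_smul]
  · intro u _ hu
    have h1 : ¬ g • y.1 = u.1 := fun h => hu (Subtype.ext h.symm)
    simp only [Pm, if_neg h1, mul_zero]
  · intro h
    exact absurd (mem_univ _) h

theorem Pm_one : Pm Z R (1 : K) = 1 := by
  ext z y
  simp only [Pm, one_smul, Matrix.one_apply]
  by_cases h : z = y
  · rw [if_pos h, if_pos (by rw [h])]
  · rw [if_neg h, if_neg (fun h' => h (Subtype.ext h'.symm))]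

theorem Pm_pow {g : K} (hg : ∀ y ∈ Z, g • y ∈ Z) (n : ℕ) : Pm Z R g ^ n = Pm Z R (g ^ n) := by
  induction n with
  | zero => rw [pow_zero, pow_zero, Pm_one]
  | succ n ih => rw [pow_succ, pow_succ, ih, Pm_mul hg]

end pm

/-! ### The element which moves `c` to `c'` -/

/-- an element of the group with `c' = c g` on `D` -/
noncomputable def gam (F : Fr A I K) (X D : Finset I) (c c' : K) : K :=
  if h : ∃ g ∈ F.G, Trv F.pl X g ∧ Agr F.pl D c' (c * g) then h.choose else 1

section gam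

variable {F : Fr A I K} {X D : Finset I} {c c' : K}

theorem gam_mem : gam F X D c c' ∈ F.G := by
  unfold gam
  split_ifs with h
  · exact h.choose_spec.1
  · exact one_mem _

theorem gam_trv : Trv F.pl X (gam F X D c c') := by
  unfold gam
  split_ifs with h
  · exact h.choose_spec.2.1
  · exact fun a _ => one_smul K a

theorem gam_agr (hXD : X ⊆ D) (hL : D.card ≤ F.L) (hc : c ∈ F.Th D) (hc' : c' ∈ F.Th D)
    (h : Agr F.pl X c c') : Agr F.pl D c' (c * gam F X D c c') := by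
  have h1 : ∃ g ∈ F.G, Trv F.pl X g ∧ Agr F.pl D c' (c * g) := by
    obtain ⟨g, hg, hg1⟩ := F.Th_hom hL hc hc'
    refine ⟨g, hg, ?_, hg1⟩
    rw [← ag_mul_iff (k := c)]
    exact ag_trans h (ag_anti hXD hg1)
  unfold gam
  rw [dif_pos h1]
  exact h1.choose_spec.2.2

end gam

section two

variable {F : Fr A I K} {s : ℕ} {R : Type} [CommRing R] {X : Finset I} {k : K} {B : ℕ}
  {Z : Finset (HF A)}

theorem Ms.agr (w : Ms F R X k B) {D : Finset I} (hXD : X ⊆ D) (hL : D.card ≤ B) {c c' : K}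
    (hc : w.w D c ≠ 0) (hc' : w.w D c' ≠ 0) : Agr F.pl X c c' :=
  ag_trans (ag_symm (w.ag hXD hL hc)) (w.ag hXD hL hc')

/-- the Gram matrix of a measure -/
theorem Ms.ptp (w : Ms F R X k B) (hB : B ≤ F.L) (hZ : ∀ y ∈ Z, HS F.pl F.G s y)
    (h9 : 9 * s ≤ F.L) {D : Finset I} (hXD : X ⊆ D) (hL : D.card + 4 * s ≤ B)
    (z y : {z // z ∈ Z}) (hD : Supp F.pl F.G D y.1) :
    ((w.mat s Z).transpose * w.mat s Z) z y =
      ∑ c' : K, ∑ c : K, (w.w D c' * w.w D c) * Pm Z R (gam F X D c c') z y := by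
  have hsy := hZ y.1 y.2
  have hsz := hZ z.1 z.2
  rw [Matrix.mul_apply]
  have e1 : ∀ y' : {z // z ∈ F.TF s Z X k},
      (w.mat s Z).transpose z y' * w.mat s Z y' y =
      ∑ c' : K, w.S s y'.1 z.1 * (if F.T s y.1 D c' = y'.1 then w.w D c' else 0) := by
    intro y'
    rw [← Finset.mul_sum, ← sum_filter]
    congr 1
    exact w.S_eq hB hsy hXD hD (by omega)
  rw [Finset.sum_congr rfl (fun y' _ => e1 y'), Finset.sum_comm]
  refine Finset.sum_congr rfl fun c' _ => ?_
  by_cases hc' : w.w D c' = 0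
  · simp only [hc', ite_self, zero_mul, mul_zero, sum_const_zero]
  · have hcT' := w.th hXD (by omega) hc'
    have hcA' := w.ag hXD (by omega) hc'
    have g4 := T_mem_TF F s hZ y.2 hXD hD hcT' hcA' (by omega)
    have hsy' := HS_TF F s hZ h9 g4
    rw [Finset.sum_eq_single (⟨_, g4⟩ : {z // z ∈ F.TF s Z X k})]
    · rw [if_pos rfl, w.S_inv hB hsz hsy' h9 hXD (F.supp_T s c' hD) (by omega), sum_filter,
        Finset.sum_mul]
      refine Finset.sum_congr rfl fun c _ => ?_
      by_cases hc : w.w D c = 0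
      · simp only [hc, ite_self, zero_mul, mul_zero]
      · have hcT := w.th hXD (by omega) hc
        have h1 := gam_agr hXD (by omega) hcT hcT' (w.agr hXD (by omega) hc hc')
        have h2 : F.T s y.1 D c' = F.T s (gam F X D c c' • y.1) D c := by
          rw [← T_mulr F s gam_mem]
          exact F.T_agr s hD h1
        have h3 : F.T s (F.T s y.1 D c') D c⁻¹ = gam F X D c c' • y.1 := by
          rw [h2]
          exact F.T_inv s (Fr.HS.smul F s hsy _) (F.supp_smul hD _) (by omega) (by omega) hcT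
        simp only [h3, Pm]
        split_ifs <;> ring
    · intro u _ hu
      rw [if_neg (fun h => hu (Subtype.ext h.symm)), mul_zero]
    · intro h
      exact absurd (mem_univ _) h

/-- the element of the group algebra which describes the Gram matrix -/
noncomputable def Ms.eps (w : Ms F R X k B) (Z : Finset (HF A)) (D : Finset I) :
    Matrix {z // z ∈ Z} {z // z ∈ Z} R :=
  ∑ p : K × K, (w.w D p.1 * w.w D p.2) • Pm Z R (gam F X D p.2 p.1)

theorem Ms.ptp' (w : Ms F R X k B) (hB : B ≤ F.L) (hZ : ∀ y ∈ Z, HS F.pl F.G s y)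
    (h9 : 9 * s ≤ F.L) {D : Finset I} (hXD : X ⊆ D) (hL : D.card + 4 * s ≤ B)
    (z y : {z // z ∈ Z}) (hD : Supp F.pl F.G D y.1) :
    ((w.mat s Z).transpose * w.mat s Z) z y = w.eps Z D z y := by
  rw [w.ptp hB hZ h9 hXD hL z y hD]
  unfold Ms.eps
  rw [Matrix.sum_apply, Fintype.sum_prod_type]
  rfl

/-- vectors on the objects supported by `D` -/
def VD (F : Fr A I K) (D : Finset I) (v : {z // z ∈ Z} → R) : Prop :=
  ∀ y, v y ≠ 0 → Supp F.pl F.G D y.1

theorem Ms.eps_VD (w : Ms F R X k B) {D : Finset I} {v : {z // z ∈ Z} → R} (hv : VD F D v) :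
    VD F D ((w.eps Z D).mulVec v) := by
  intro z hz
  by_contra hs
  apply hz
  unfold Matrix.mulVec dotProduct
  refine Finset.sum_eq_zero fun y _ => ?_
  by_cases hy : v y = 0
  · rw [hy, mul_zero]
  · have h0 : w.eps Z D z y = 0 := by
      unfold Ms.eps
      rw [Matrix.sum_apply]
      refine Finset.sum_eq_zero fun p _ => ?_
      have h1 : ¬ gam F X D p.2 p.1 • y.1 = z.1 := by
        intro h
        apply hs
        rw [← h]
        exact F.supp_smul (hv y hy) _
      simp only [Matrix.smul_apply, Pm, if_neg h1, smul_zero]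
    show w.eps Z D z y * v y = 0
    rw [h0, zero_mul]

theorem Ms.pow_eq (w : Ms F R X k B) (hB : B ≤ F.L) (hZ : ∀ y ∈ Z, HS F.pl F.G s y)
    (h9 : 9 * s ≤ F.L) {D : Finset I} (hXD : X ⊆ D) (hL : D.card + 4 * s ≤ B) (m : ℕ) :
    ∀ v : {z // z ∈ Z} → R, VD F D v →
      (((w.mat s Z).transpose * w.mat s Z) ^ m).mulVec v = ((w.eps Z D) ^ m).mulVec v := by
  induction m with
  | zero => intro v _; rw [pow_zero, pow_zero]
  | succ m ih =>
    intro v hv
    have h1 : ((w.mat s Z).transpose * w.mat s Z).mulVec v = (w.eps Z D).mulVec v := by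
      ext z
      unfold Matrix.mulVec dotProduct
      refine Finset.sum_congr rfl fun y _ => ?_
      by_cases hy : v y = 0
      · rw [hy, mul_zero, mul_zero]
      · show ((w.mat s Z).transpose * w.mat s Z) z y * v y = w.eps Z D z y * v y
        rw [w.ptp' hB hZ h9 hXD hL z y (hv y hy)]
    have h2 := ih _ (w.eps_VD hv)
    generalize (w.mat s Z).transpose * w.mat s Z = B at h1 h2 ⊢
    rw [pow_succ, pow_succ, ← Matrix.mulVec_mulVec, ← Matrix.mulVec_mulVec, h1, h2]

/-- the total mass does not depend on the set -/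
theorem Ms.tot (w : Ms F R X k B) {D : Finset I} (hXD : X ⊆ D) (hL : D.card ≤ B) :
    ∑ c, w.w D c = ∑ c, w.w X c := by
  have h := w.cons subset_rfl hXD hL (fun _ => True) (fun _ _ _ => Iff.rfl)
  simpa using h

theorem Ms.eps_pow (w : Ms F R X k B) (h2 : (2 : R) = 0) (hm : ∑ c, w.w X c = 1)
    (hG : ∀ g ∈ F.G, Trv F.pl X g → ∀ y ∈ Z, g • y ∈ Z)
    (hc : ∀ g ∈ F.G, ∀ h ∈ F.G, g * h = h * g) {a : ℕ} (ha : ∀ g ∈ F.G, g ^ (2 ^ a) = 1)
    {D : Finset I} (hXD : X ⊆ D) (hL : D.card ≤ B) : (w.eps Z D) ^ (2 ^ a) = 1 := by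
  have h2R : ∀ x : R, x + x = 0 := fun x => by
    rw [← two_mul, h2, zero_mul]
  have hst : ∀ p : K × K, ∀ y ∈ Z, gam F X D p.2 p.1 • y ∈ Z := fun p =>
    hG _ gam_mem gam_trv
  unfold Ms.eps
  rw [pow_sum (S := Matrix {z // z ∈ Z} {z // z ∈ Z} R)]
  · have e1 : ∀ p : K × K, ((w.w D p.1 * w.w D p.2) • Pm Z R (gam F X D p.2 p.1)) ^ (2 ^ a) =
        (w.w D p.1 * w.w D p.2) ^ (2 ^ a) • (1 : Matrix {z // z ∈ Z} {z // z ∈ Z} R) := by
      intro p
      rw [smul_pow, Pm_pow (hst p), ha _ gam_mem, Pm_one]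
    rw [Finset.sum_congr rfl (fun p _ => e1 p), ← Finset.sum_smul, ← pow_sum h2R _ _
      (fun i j => mul_comm _ _), Fintype.sum_prod_type]
    have e2 : ∑ c' : K, ∑ c : K, w.w D c' * w.w D c = 1 := by
      simp_rw [← Finset.mul_sum]
      rw [← Finset.sum_mul, w.tot hXD hL, hm, one_mul]
    show (∑ c' : K, ∑ c : K, w.w D c' * w.w D c) ^ (2 ^ a) • _ = _
    rw [e2, one_pow, one_smul]
  · intro M
    ext z y
    exact h2R _
  · intro p q
    rw [smul_mul_smul_comm, smul_mul_smul_comm, Pm_mul (hst q), Pm_mul (hst p),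
      hc _ gam_mem _ gam_mem, mul_comm (w.w D p.1 * w.w D p.2)]

/-- the Gram matrix is unipotent -/
theorem Ms.ptp_pow (w : Ms F R X k B) (hB : B ≤ F.L) (hZ : ∀ y ∈ Z, HS F.pl F.G s y)
    (h2 : (2 : R) = 0) (hm : ∑ c, w.w X c = 1)
    (hG : ∀ g ∈ F.G, Trv F.pl X g → ∀ y ∈ Z, g • y ∈ Z)
    (hc : ∀ g ∈ F.G, ∀ h ∈ F.G, g * h = h * g) {a : ℕ} (ha : ∀ g ∈ F.G, g ^ (2 ^ a) = 1)
    (h9 : 9 * s ≤ F.L) (hX : X.card + 6 * s ≤ B) :
    ((w.mat s Z).transpose * w.mat s Z) ^ (2 ^ a) = 1 := by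
  ext z y
  set D := X ∪ sp F s y.1 with hD
  have hDc : D.card ≤ X.card + s := (card_union_le _ _).trans (Nat.add_le_add_left (sp_card _) _)
  have hDs : Supp F.pl F.G D y.1 := F.supp_mono (sp_supp (hZ y.1 y.2)) subset_union_right
  have hXD : X ⊆ D := subset_union_left
  have hv : VD F D (Pi.single y (1 : R)) := by
    intro u hu
    by_cases h : u = y
    · rw [h]
      exact hDs
    · exact absurd (Pi.single_eq_of_ne h _) hu
  have h1 := w.pow_eq hB hZ h9 hXD (by omega) (2 ^ a) _ hv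
  rw [w.eps_pow h2 hm hG hc ha hXD (by omega), Matrix.one_mulVec] at h1
  have h3 := congrFun h1 z
  rw [Matrix.mulVec_single_one] at h3
  simp only [Matrix.col_apply] at h3
  rw [h3, Matrix.one_apply, Pi.single_apply]

/-- intertwiners in characteristic two -/
theorem int_two (w : Ms F R X k B) (hB : B ≤ F.L) (hZ : ∀ y ∈ Z, HS F.pl F.G s y) (hk : k ∈ F.Th X)
    (h2 : (2 : R) = 0) (hm : ∑ c, w.w X c = 1)
    (hG : ∀ g ∈ F.G, Trv F.pl X g → ∀ y ∈ Z, g • y ∈ Z)
    (hc : ∀ g ∈ F.G, ∀ h ∈ F.G, g * h = h * g) {a : ℕ} (ha : ∀ g ∈ F.G, g ^ (2 ^ a) = 1)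
    (h9 : 9 * s ≤ F.L) (hX : X.card + 6 * s ≤ B) :
    ∃ (P : Matrix {z // z ∈ F.TF s Z X k} {z // z ∈ Z} R)
      (Q : Matrix {z // z ∈ Z} {z // z ∈ F.TF s Z X k} R), P * Q = 1 ∧ Q * P = 1 ∧
      ∀ M N, Trm F s X k Z M N → P * M = N * P := by
  have h1 := w.ptp_pow hB hZ h2 hm hG hc ha h9 hX
  have h3 : (((w.mat s Z).transpose * w.mat s Z) ^ (2 ^ a - 1) * (w.mat s Z).transpose) *
      w.mat s Z = 1 := by
    rw [Matrix.mul_assoc, ← pow_succ]
    have : 2 ^ a - 1 + 1 = 2 ^ a := Nat.sub_add_cancel Nat.one_le_two_pow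
    rw [this, h1]
  refine ⟨w.mat s Z, _, ?_, h3, fun M N h => w.intertw hB hZ hG h9 hX h⟩
  have hcard : Fintype.card {z // z ∈ Z} = Fintype.card {z // z ∈ F.TF s Z X k} := by
    rw [Fintype.card_coe, Fintype.card_coe]
    exact (F.card_TF s hZ hG (by omega) (by omega) hk).symm
  exact (Matrix.mul_eq_one_comm_of_equiv (Fintype.equivOfCardEq hcard)).1 h3

end two

end Pool.Agent.CLA
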