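import Pool.Agent.CLA.In2

/-!
# Intertwiners III: gluing partial isometries

If the products `∏ (1 - E i)` vanish, then the matrices `U i` with `(U i)ᵀ U i = E i` can be glued to
one matrix `S` with `Sᵀ S = 1`.
-/

set_option autoImplicit false
set_option linter.unusedSectionVars false

namespace Pool.Agent.CLA

open Matrix

variable {m n ι R : Type} [Fintype m] [Fintype n] [DecidableEq m] [DecidableEq n] [CommRing R]

/-- the product of the `1 - E i` -/
def glR (E : ι → Matrix n n R) : List ι → Matrix n n R
  | [] => 1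
  | i :: l => glR E l * (1 - E i)

/-- the glued matrix -/
def glS (U : ι → Matrix m n R) (E : ι → Matrix n n R) : List ι → Matrix m n R
  | [] => 0
  | i :: l => glS U E l + U i * glR E l

section glue

variable {U : ι → Matrix m n R} {E : ι → Matrix n n R}

theorem glR_comm {C : Matrix n n R} (h : ∀ i, C * E i = E i * C) (l : List ι) :
    C * glR E l = glR E l * C := by
  induction l with
  | nil => simp [glR]
  | cons i l ih =>
    simp only [glR]
    rw [← Matrix.mul_assoc, ih, Matrix.mul_assoc, Matrix.mul_assoc, Matrix.mul_sub, Matrix.sub_mul,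
      h i, Matrix.mul_one, Matrix.one_mul]

theorem glR_trans (hE : ∀ i j, E i * E j = E j * E i) (ht : ∀ i, (E i)ᵀ = E i) (l : List ι) :
    (glR E l)ᵀ = glR E l := by
  induction l with
  | nil => simp [glR]
  | cons i l ih =>
    simp only [glR]
    rw [Matrix.transpose_mul, ih, Matrix.transpose_sub, Matrix.transpose_one, ht i, Matrix.sub_mul,
      Matrix.mul_sub, Matrix.one_mul, Matrix.mul_one, glR_comm (fun j => hE i j) l]

theorem glR_idem (hE : ∀ i j, E i * E j = E j * E i) (hi : ∀ i, E i * E i = E i) (l : List ι) :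
    glR E l * glR E l = glR E l := by
  induction l with
  | nil => simp [glR]
  | cons i l ih =>
    simp only [glR]
    have h1 : (1 - E i) * glR E l = glR E l * (1 - E i) := by
      rw [Matrix.sub_mul, Matrix.mul_sub, Matrix.one_mul, Matrix.mul_one,
        glR_comm (fun j => hE i j) l]
    have h2 : (1 - E i) * (1 - E i) = 1 - E i := by
      rw [Matrix.sub_mul, Matrix.one_mul, Matrix.mul_sub, Matrix.mul_one, hi i, sub_self, sub_zero]
    calc glR E l * (1 - E i) * (glR E l * (1 - E i))
        = glR E l * ((1 - E i) * glR E l) * (1 - E i) := by simp only [Matrix.mul_assoc]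
      _ = (glR E l * glR E l) * ((1 - E i) * (1 - E i)) := by rw [h1]; simp only [Matrix.mul_assoc]
      _ = _ := by rw [ih, h2]

theorem glS_comm (hUU : ∀ i j k, (U i)ᵀ * U j * E k = E k * ((U i)ᵀ * U j))
    (hE : ∀ i j, E i * E j = E j * E i) (j k : ι) (l : List ι) :
    ((U j)ᵀ * glS U E l) * E k = E k * ((U j)ᵀ * glS U E l) := by
  induction l with
  | nil => simp [glS]
  | cons i l ih =>
    simp only [glS]
    rw [Matrix.mul_add, Matrix.add_mul, Matrix.mul_add, ih]
    congr 1
    have h1 : glR E l * E k = E k * glR E l := (glR_comm (fun j => hE k j) l).symm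
    calc (U j)ᵀ * (U i * glR E l) * E k = (U j)ᵀ * U i * (glR E l * E k) := by
          simp only [Matrix.mul_assoc]
      _ = ((U j)ᵀ * U i * E k) * glR E l := by rw [h1]; simp only [Matrix.mul_assoc]
      _ = _ := by rw [hUU]; simp only [Matrix.mul_assoc]

theorem glS_mul (hUE : ∀ i, U i * E i = U i) (hE : ∀ i j, E i * E j = E j * E i)
    (hi : ∀ i, E i * E i = E i) (l : List ι) : glS U E l * glR E l = 0 := by
  induction l with
  | nil => simp [glS]
  | cons i l ih =>
    simp only [glS, glR]
    have h1 : (1 - E i) * glR E l = glR E l * (1 - E i) := by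
      rw [Matrix.sub_mul, Matrix.mul_sub, Matrix.one_mul, Matrix.mul_one,
        glR_comm (fun j => hE i j) l]
    rw [Matrix.add_mul, ← Matrix.mul_assoc, ih, Matrix.zero_mul, zero_add]
    calc U i * glR E l * (glR E l * (1 - E i)) = U i * (glR E l * glR E l) * (1 - E i) := by
          simp only [Matrix.mul_assoc]
      _ = U i * (glR E l * (1 - E i)) := by rw [glR_idem hE hi]; simp only [Matrix.mul_assoc]
      _ = (U i * (1 - E i)) * glR E l := by rw [← h1]; simp only [Matrix.mul_assoc]
      _ = 0 := by rw [Matrix.mul_sub, Matrix.mul_one, hUE i, sub_self, Matrix.zero_mul]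

/-- the Gram matrix of the glued matrix -/
theorem glS_gram (hUt : ∀ i, (U i)ᵀ * U i = E i)
    (hUU : ∀ i j k, (U i)ᵀ * U j * E k = E k * ((U i)ᵀ * U j))
    (hUE : ∀ i, U i * E i = U i) (hE : ∀ i j, E i * E j = E j * E i) (l : List ι) :
    (glS U E l)ᵀ * glS U E l = 1 - glR E l := by
  have hi : ∀ i, E i * E i = E i := fun i => by
    conv_lhs => rw [← hUt i, Matrix.mul_assoc, hUt i, hUE i]
    exact hUt i
  have ht : ∀ i, (E i)ᵀ = E i := fun i => by
    rw [← hUt i, Matrix.transpose_mul, Matrix.transpose_transpose]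
  induction l with
  | nil => simp [glS, glR]
  | cons i l ih =>
    simp only [glS, glR]
    have h1 : glR E l * ((U i)ᵀ * glS U E l) = 0 := by
      rw [← glR_comm (fun k => glS_comm hUU hE i k l) l, Matrix.mul_assoc, glS_mul hUE hE hi,
        Matrix.mul_zero]
    have h2 : (glS U E l)ᵀ * U i * glR E l = 0 := by
      have h3 := congrArg Matrix.transpose h1
      rw [Matrix.transpose_mul, Matrix.transpose_mul, Matrix.transpose_transpose,
        glR_trans hE ht, Matrix.transpose_zero] at h3
      exact h3
    have h4 : glR E l * E i * glR E l = E i * glR E l := by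
      rw [← glR_comm (fun j => hE i j) l, Matrix.mul_assoc, glR_idem hE hi]
    rw [Matrix.transpose_add, Matrix.transpose_mul, glR_trans hE ht, Matrix.add_mul, Matrix.mul_add,
      Matrix.mul_add, ih, ← Matrix.mul_assoc, h2, Matrix.mul_assoc, h1]
    have h5 : glR E l * (U i)ᵀ * (U i * glR E l) = E i * glR E l := by
      rw [← h4, ← hUt i]
      simp only [Matrix.mul_assoc]
    rw [h5, Matrix.mul_sub, Matrix.mul_one, glR_comm (fun j => hE i j) l]
    abel

theorem glS_intertw {M : Matrix n n R} {N : Matrix m m R} (hU : ∀ i, U i * M = N * U i)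
    (hM : ∀ i, M * E i = E i * M) (l : List ι) : glS U E l * M = N * glS U E l := by
  induction l with
  | nil => simp [glS]
  | cons i l ih =>
    simp only [glS]
    rw [Matrix.add_mul, Matrix.mul_add, ih, Matrix.mul_assoc, ← glR_comm hM l, ← Matrix.mul_assoc,
      hU i, Matrix.mul_assoc]

theorem glR_mulVec (hE : ∀ i j, E i * E j = E j * E i) {i : ι} {v : n → R}
    (hv : (E i).mulVec v = v) {l : List ι} (hl : i ∈ l) : (glR E l).mulVec v = 0 := by
  induction l with
  | nil => exact absurd hl (List.not_mem_nil)
  | cons j l ih =>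
    simp only [glR]
    rw [← Matrix.mulVec_mulVec]
    rcases List.mem_cons.1 hl with rfl | h
    · rw [Matrix.sub_mulVec, Matrix.one_mulVec, hv, sub_self, Matrix.mulVec_zero]
    · rw [Matrix.mulVec_mulVec]
      have h1 : glR E l * (1 - E j) = (1 - E j) * glR E l := by
        rw [Matrix.sub_mul, Matrix.mul_sub, Matrix.one_mul, Matrix.mul_one,
          glR_comm (fun k => hE j k) l]
      rw [h1, ← Matrix.mulVec_mulVec, ih h, Matrix.mulVec_zero]

end glue

end Pool.Agent.CLA
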