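import Pool.Agent.CLA.In3
import Mathlib.GroupTheory.PGroup

/-!
# Intertwiners IV: characteristic different from two
-/

set_option autoImplicit false
set_option linter.unusedSectionVars false

namespace Pool.Agent.CLA

open Finset Classical
open Pool.Agent.CPT

variable {A I K : Type} [Fintype A] [Fintype I] [Fintype K] [Group K] [MulAction K A]

/-! ### The elements of the group which are trivial on `D` -/

/-- the elements of the group which are trivial on `D` -/
def GDs (F : Fr A I K) (D : Finset I) : Subgroup K where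
  carrier := {g | g ∈ F.G ∧ Trv F.pl D g}
  mul_mem' := fun {a b} ha hb => ⟨mul_mem ha.1 hb.1, fun c hc => by
    rw [mul_smul, hb.2 c hc, ha.2 c hc]⟩
  one_mem' := ⟨one_mem _, fun c _ => one_smul K c⟩
  inv_mem' := fun {a} ha => ⟨inv_mem ha.1, fun c hc => by rw [inv_smul_eq_iff, ha.2 c hc]⟩

/-- the elements of the group which are trivial on `D` -/
noncomputable def GD (F : Fr A I K) (D : Finset I) : Finset K := univ.filter (fun g => g ∈ GDs F D)

section gd

variable {F : Fr A I K} {D : Finset I}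

theorem mem_GD {g : K} : g ∈ GD F D ↔ g ∈ F.G ∧ Trv F.pl D g := by
  unfold GD
  simp only [mem_filter, mem_univ, true_and]
  exact Iff.rfl

theorem GD_inv {g : K} (h : g ∈ GD F D) : g⁻¹ ∈ GD F D := by
  rw [mem_GD] at h ⊢
  exact (GDs F D).inv_mem h

theorem GD_mul {g h : K} (hg : g ∈ GD F D) (hh : h ∈ GD F D) : g * h ∈ GD F D := by
  rw [mem_GD] at hg hh ⊢
  exact (GDs F D).mul_mem hg hh

theorem GD_card_ne {R : Type} [Field R] (h2 : (2 : R) ≠ 0) {a : ℕ}
    (ha : ∀ g ∈ F.G, g ^ (2 ^ a) = 1) : ((GD F D).card : R) ≠ 0 := by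
  have h1 : IsPGroup 2 (GDs F D) := fun g => ⟨a, Subtype.ext (ha g.1 g.2.1)⟩
  have : Fact (Nat.Prime 2) := ⟨Nat.prime_two⟩
  obtain ⟨n, hn⟩ := IsPGroup.iff_card.1 h1
  have h3 : (GD F D).card = 2 ^ n := by
    rw [← hn, Nat.card_eq_fintype_card, Fintype.card_subtype]
    rfl
  rw [h3]
  push_cast
  exact pow_ne_zero _ h2

/-- sums over the group are invariant under translations -/
theorem GD_sum_mul {R : Type} [AddCommMonoid R] (f : K → R) {h : K} (hh : h ∈ GD F D) :
    ∑ g ∈ GD F D, f (g * h) = ∑ g ∈ GD F D, f g := by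
  refine Finset.sum_bij' (fun g _ => g * h) (fun g _ => g * h⁻¹) (fun g hg => GD_mul hg hh)
    (fun g hg => GD_mul hg (GD_inv hh)) ?_ ?_ (fun _ _ => rfl)
  · intro g _
    simp
  · intro g _
    simp

theorem GD_sum_mul' {R : Type} [AddCommMonoid R] (f : K → R) {h : K} (hh : h ∈ GD F D) :
    ∑ g ∈ GD F D, f (h * g) = ∑ g ∈ GD F D, f g := by
  refine Finset.sum_bij' (fun g _ => h * g) (fun g _ => h⁻¹ * g) (fun g hg => GD_mul hh hg)
    (fun g hg => GD_mul (GD_inv hh) hg) ?_ ?_ (fun _ _ => rfl)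
  · intro g _
    simp
  · intro g _
    simp

theorem GD_sum_inv {R : Type} [AddCommMonoid R] (f : K → R) :
    ∑ g ∈ GD F D, f g⁻¹ = ∑ g ∈ GD F D, f g := by
  refine Finset.sum_bij' (fun g _ => g⁻¹) (fun g _ => g⁻¹) (fun g hg => GD_inv hg)
    (fun g hg => GD_inv hg) ?_ ?_ (fun _ _ => rfl)
  · intro g _
    simp
  · intro g _
    simp

end gd

/-! ### The uniform measure on the extensions of `cD` -/

/-- an extension of `cD` -/
noncomputable def ex (F : Fr A I K) (D : Finset I) (cD : K) (Y : Finset I) : K :=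
  if h : ∃ e ∈ F.Th (D ∪ Y), Agr F.pl D cD e then h.choose else 1

/-- the weights -/
noncomputable def wD (F : Fr A I K) (R : Type) [Field R] (D : Finset I) (cD : K) (Y : Finset I)
    (c : K) : R :=
  ((GD F D).card : R)⁻¹ * ∑ g ∈ GD F D, if ex F D cD Y * g = c then 1 else 0

section wd

variable {F : Fr A I K} {s : ℕ} {R : Type} [Field R] {X D Y : Finset I} {k cD : K} {B : ℕ}
  {Z : Finset (HF A)}

theorem ex_spec (hc : cD ∈ F.Th D) (hL : (D ∪ Y).card ≤ F.L) :
    ex F D cD Y ∈ F.Th (D ∪ Y) ∧ Agr F.pl D cD (ex F D cD Y) := by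
  have h := F.Th_ext (X := D) (Y := D ∪ Y) subset_union_left hL hc
  unfold ex
  rw [dif_pos h]
  exact h.choose_spec

theorem wD_sum (f : K → R) : ∑ c, wD F R D cD Y c * f c =
    ((GD F D).card : R)⁻¹ * ∑ g ∈ GD F D, f (ex F D cD Y * g) := by
  unfold wD
  simp_rw [mul_assoc, Finset.sum_mul]
  rw [← Finset.mul_sum, Finset.sum_comm]
  congr 1
  refine Finset.sum_congr rfl fun g _ => ?_
  simp [ite_mul]

theorem wD_filter (p : K → Prop) : ∑ c ∈ univ.filter p, wD F R D cD Y c =
    ((GD F D).card : R)⁻¹ * ∑ g ∈ GD F D, if p (ex F D cD Y * g) then 1 else 0 := by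
  rw [← wD_sum (fun c => if p c then (1 : R) else 0), sum_filter]
  refine Finset.sum_congr rfl fun c _ => ?_
  split_ifs <;> simp

theorem wD_ne {c : K} (h : wD F R D cD Y c ≠ 0) : ∃ g ∈ GD F D, ex F D cD Y * g = c := by
  by_contra hn
  push Not at hn
  apply h
  unfold wD
  rw [Finset.sum_eq_zero fun g hg => if_neg (hn g hg), mul_zero]

theorem card_un (hXD : X ⊆ D) (hXY : X ⊆ Y) : (D ∪ Y).card + X.card ≤ D.card + Y.card := by
  have h1 := card_union_add_card_inter D Y
  have h2 : X.card ≤ (D ∩ Y).card := card_le_card (subset_inter hXD hXY)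
  omega

/-- the uniform measure on the extensions of `cD` -/
noncomputable def wMs (F : Fr A I K) (R : Type) [Field R] {X D : Finset I} {k cD : K} {B : ℕ}
    (hXD : X ⊆ D) (hc : cD ∈ F.Th D) (hk : Agr F.pl X k cD)
    (hB : D.card + B ≤ F.L + X.card) : Ms F R X k B where
  w := wD F R D cD
  th := by
    intro Y c hXY hY h
    obtain ⟨g, hg, rfl⟩ := wD_ne h
    have h1 := card_un hXD hXY
    rw [mem_GD] at hg
    exact F.Th_anti subset_union_right (Th_mulr F hg.1 (ex_spec hc (by omega)).1)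
  ag := by
    intro Y c hXY hY h
    obtain ⟨g, hg, rfl⟩ := wD_ne h
    have h1 := card_un hXD hXY
    rw [mem_GD] at hg
    have h2 : Agr F.pl D (ex F D cD Y) (ex F D cD Y * g) := ag_mul_iff.2 hg.2
    exact ag_trans hk (ag_anti hXD (ag_trans (ex_spec hc (by omega)).2 h2))
  cons := by
    intro Y Y' hXY hYY hY p hp
    rw [wD_filter, wD_filter]
    congr 1
    have h1 := card_un hXD (hXY.trans hYY)
    have h2 : D ∪ Y ⊆ D ∪ Y' := union_subset_union_right hYY
    have h3 := card_le_card h2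
    obtain ⟨e1, e2⟩ := ex_spec (Y := Y') hc (by omega)
    obtain ⟨e3, e4⟩ := ex_spec (Y := Y) hc (by omega)
    obtain ⟨h, hh, h5⟩ := F.Th_hom (by omega) e3 (F.Th_anti h2 e1)
    have h6 : h ∈ GD F D := by
      rw [mem_GD]
      refine ⟨hh, ?_⟩
      rw [← ag_mul_iff (k := ex F D cD Y)]
      exact ag_trans (ag_symm e4) (ag_trans e2 (ag_anti subset_union_left h5))
    rw [← GD_sum_mul' (fun g => if p (ex F D cD Y * g) then (1 : R) else 0) h6]
    refine Finset.sum_congr rfl fun g _ => ?_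
    have h7 : p (ex F D cD Y' * g) ↔ p (ex F D cD Y * (h * g)) := by
      refine hp _ _ ?_
      have h8 := ag_right F (ag_anti (subset_union_right (s₁ := D) (s₂ := Y)) h5) g
      rwa [mul_assoc] at h8
    simp only [h7]

end wd

end Pool.Agent.CLA
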