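import Pool.Agent.CLA.At
import Pool.Agent.CPT.Deg

/-!
# The sizes of the graphs

Plan. Upper bound: the squares and the edges at a vertex `u` of the grid are named by the 24 elements
of `Deg_Cd` (`Deg_dec`, `Deg_dec_surj`, `Deg_sv`, `Deg_ie` of `CPT/Deg.lean`). An atom of the graph is
determined by its place and the values of its components at the named squares and edges (as
`Deg_cde_inj`): at most `l^3 (2^n)^72` atoms. An edge state of the graph is determined by its edge `e`
(`3 l^3` possibilities), its label and the components at the squares with a vertex at a chosen end of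
`e` (`se C e` and `ie e u` give `sv C u`): at most `3 l^3 (2^n)^49`, the same for the leaves. The other
vertices: at most `4 l^3 + 5 n`. Use `l ≤ 2^n`, `n ≤ 2^n`. Lower bound: the edge states `mkE e 0 w` at
one edge with ends.
-/

set_option autoImplicit false

namespace Pool.Agent.CLA

open Finset Classical
open Pool.Agent.CPT

variable {l n : ℕ}

/-- the type and the direction of a vertex of the graph -/
private def Siz_tg : Al l n → ℕ
  | .atm _ => 0
  | .est y => 1 + y.e.1.val
  | .lf y => 4 + y.e.1.val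
  | .pv _ => 7
  | .pf _ j => 8 + j.val
  | .mr _ => 11
  | .mf _ j => 12 + j.val

private theorem Siz_tg_lt (x : Al l n) : Siz_tg x < 16 := by
  rcases x with x | y | y | v | ⟨v, j⟩ | i | ⟨i, j⟩ <;> simp only [Siz_tg]
  · omega
  · have := y.e.1.isLt; omega
  · have := y.e.1.isLt; omega
  · omega
  · have := j.isLt; omega
  · omega
  · have := j.isLt; omega

/-- a chosen end of an edge -/
private noncomputable def Siz_en (e : Ed l) : Vx l := if h : ∃ u, ie e u then Classical.choose h else e.2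

private theorem Siz_en_ie {e : Ed l} (h : ∃ u, ie e u) : ie e (Siz_en e) := by
  unfold Siz_en
  rw [dif_pos h]
  exact Classical.choose_spec h

/-- the place -/
private def Siz_pl : Al l n → Option (Vx l)
  | .atm x => some x.v
  | .est y => some y.e.2
  | .lf y => some y.e.2
  | .pv v => some v
  | .pf v _ => some v
  | .mr _ => none
  | .mf _ _ => none

/-- the components at the squares -/
private noncomputable def Siz_ca : Al l n → Deg_Cd → Rn n × Rn n
  | .atm x => fun t => x.a (Deg_dec x.v t)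
  | .est y => fun t => y.a (Deg_dec (Siz_en y.e) t)
  | .lf y => fun t => y.a (Deg_dec (Siz_en y.e) t)
  | _ => fun _ => 0

/-- the labels -/
private def Siz_cw : Al l n → Deg_Cd → Rn n
  | .atm x => fun t => x.w (Deg_dec x.v t)
  | .est y => fun _ => y.w
  | .lf y => fun _ => y.w
  | .mr i => fun _ => (i.val : Rn n)
  | .mf i _ => fun _ => (i.val : Rn n)
  | _ => fun _ => 0

private theorem Siz_cast {i j : Fin n} (h : ((i.val : ℕ) : Rn n) = ((j.val : ℕ) : Rn n)) : i = j := by
  have hlt : ∀ k : Fin n, k.val < 2 ^ n := fun k => k.isLt.trans Nat.lt_two_pow_self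
  have h1 := congrArg ZMod.val h
  rw [ZMod.val_natCast, ZMod.val_natCast, Nat.mod_eq_of_lt (hlt i), Nat.mod_eq_of_lt (hlt j)] at h1
  exact Fin.ext h1

private theorem Siz_atm {τ : Vx l → Rn n} {x y : At l n} (hx : IsAt τ x) (hy : IsAt τ y) (hv : x.v = y.v)
    (h1 : ∀ t, x.a (Deg_dec x.v t) = y.a (Deg_dec y.v t))
    (h2 : ∀ t, x.w (Deg_dec x.v t) = y.w (Deg_dec y.v t)) : x = y := by
  refine At.ext hv ?_ ?_
  · funext C
    by_cases hC : sv C x.v
    · obtain ⟨t, ht⟩ := Deg_dec_surj (fun j => Deg_sv hC j)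
      have := h1 t
      rw [← hv, ht] at this
      exact this
    · rw [hx.1 C hC, hy.1 C (hv ▸ hC)]
  · funext e
    by_cases he : ie e x.v
    · obtain ⟨t, ht⟩ := Deg_dec_surj (fun j => Deg_ie he j)
      have := h2 t
      rw [← hv, ht] at this
      exact this
    · rw [hx.2.1 e he, hy.2.1 e (hv ▸ he)]

private theorem Siz_est {x y : Es l n} (hx : IsEs x) (hy : IsEs y) (he : x.e = y.e)
    (h1 : ∀ t, x.a (Deg_dec (Siz_en x.e) t) = y.a (Deg_dec (Siz_en y.e) t)) (h2 : x.w = y.w) : x = y := by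
  refine Es.ext he ?_ h2
  funext C
  by_cases hC : se C x.e
  · have hs : sv C (Siz_en x.e) := hC.2 _ (Siz_en_ie hx.1)
    obtain ⟨t, ht⟩ := Deg_dec_surj (fun j => Deg_sv hs j)
    have := h1 t
    rw [← he, ht] at this
    exact this
  · rw [hx.2 C hC, hy.2 C (he ▸ hC)]

private theorem Siz_inj {τ : Vx l → Rn n} {x y : Al l n} (hx : InU τ x) (hy : InU τ y)
    (h1 : Siz_tg x = Siz_tg y) (h2 : Siz_pl x = Siz_pl y) (h3 : Siz_ca x = Siz_ca y)
    (h4 : Siz_cw x = Siz_cw y) : x = y := by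
  have t0 : Deg_Cd := (0, fun _ => 0)
  rcases x with x | x | x | v | ⟨v, j⟩ | i | ⟨i, j⟩ <;>
    rcases y with y | y | y | v' | ⟨v', j'⟩ | i' | ⟨i', j'⟩ <;>
    simp only [Siz_tg] at h1 <;> try omega
  · exact congrArg Al.atm (Siz_atm hx hy (Option.some.inj h2) (fun t => congrFun h3 t)
      (fun t => congrFun h4 t))
  · have he : x.e = y.e := Prod.ext (Fin.ext (by omega)) (Option.some.inj h2)
    exact congrArg Al.est (Siz_est hx hy he (fun t => congrFun h3 t) (congrFun h4 t0))
  · have he : x.e = y.e := Prod.ext (Fin.ext (by omega)) (Option.some.inj h2)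
    exact congrArg Al.lf (Siz_est hx hy he (fun t => congrFun h3 t) (congrFun h4 t0))
  · exact congrArg Al.pv (Option.some.inj h2)
  · have hv : v = v' := Option.some.inj h2
    have hj : j = j' := Fin.ext (by omega)
    rw [hv, hj]
  · exact congrArg Al.mr (Siz_cast (congrFun h4 t0))
  · have hi : i = i' := Siz_cast (congrFun h4 t0)
    have hj : j = j' := Fin.ext (by omega)
    rw [hi, hj]

theorem size_le {l n : ℕ} (hn : 1 ≤ n) (hl : l ≤ 2 ^ n) (τ : Vx l → Rn n) :
    Fintype.card {x : Al l n // InU τ x} ≤ 2 ^ (80 * n) := by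
  have h1 : Fintype.card {x : Al l n // InU τ x} ≤
      Fintype.card (Fin 16 × Option (Vx l) × (Deg_Cd → Rn n × Rn n) × (Deg_Cd → Rn n)) := by
    refine Fintype.card_le_of_injective
      (fun x => (⟨Siz_tg x.1, Siz_tg_lt x.1⟩, Siz_pl x.1, Siz_ca x.1, Siz_cw x.1)) ?_
    intro x y hxy
    simp only [Prod.mk.injEq, Fin.mk.injEq] at hxy
    exact Subtype.ext (Siz_inj x.2 y.2 hxy.1 hxy.2.1 hxy.2.2.1 hxy.2.2.2)
  refine h1.trans ?_
  have h2 : Fintype.card (Fin 16 × Option (Vx l) × (Deg_Cd → Rn n × Rn n) × (Deg_Cd → Rn n)) =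
      16 * ((l ^ 3 + 1) * ((2 ^ n * 2 ^ n) ^ 24 * (2 ^ n) ^ 24)) := by
    rw [Fintype.card_prod, Fintype.card_prod, Fintype.card_prod, Fintype.card_option, Fintype.card_fun,
      Fintype.card_fun, Fintype.card_fun, Fintype.card_prod, ZMod.card]
    simp
  rw [h2]
  have h3 : l ^ 3 + 1 ≤ 2 ^ (3 * n + 1) := by
    have h4 : l ^ 3 ≤ (2 ^ n) ^ 3 := Nat.pow_le_pow_left hl 3
    have h5 : (1 : ℕ) ≤ 2 ^ (3 * n) := Nat.one_le_two_pow
    rw [← pow_mul, mul_comm n 3] at h4
    have h6 : (2 : ℕ) ^ (3 * n + 1) = 2 ^ (3 * n) * 2 := pow_succ _ _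
    rw [h6]
    generalize l ^ 3 = L at h4 ⊢
    omega
  calc 16 * ((l ^ 3 + 1) * ((2 ^ n * 2 ^ n) ^ 24 * (2 ^ n) ^ 24))
      ≤ 16 * (2 ^ (3 * n + 1) * ((2 ^ n * 2 ^ n) ^ 24 * (2 ^ n) ^ 24)) :=
        Nat.mul_le_mul_left _ (Nat.mul_le_mul_right _ h3)
    _ = 2 ^ (75 * n + 5) := by
        have e1 : (16 : ℕ) = 2 ^ 4 := by norm_num
        rw [e1, ← pow_add, ← pow_mul, ← pow_mul, ← pow_add, ← pow_add, ← pow_add]
        congr 1
        ring
    _ ≤ 2 ^ (80 * n) := Nat.pow_le_pow_right (by norm_num) (by omega)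

theorem le_size {l n : ℕ} (hl : 2 ≤ l) (τ : Vx l → Rn n) :
    2 ^ n ≤ Fintype.card {x : Al l n // InU τ x} := by
  have e0 : ∃ e : Ed l, ∃ u, ie e u :=
    ⟨(0, fun _ => ⟨0, by omega⟩), fun _ => ⟨0, by omega⟩, by
      show 0 + 1 < l
      omega, fun _ _ => rfl, Or.inl rfl⟩
  obtain ⟨e, he⟩ := e0
  have h1 : Fintype.card (Rn n) ≤ Fintype.card {x : Al l n // InU τ x} := by
    refine Fintype.card_le_of_injective
      (fun w => ⟨Al.est (mkE e 0 w), ⟨he, fun C _ => rfl⟩⟩) ?_
    intro w w' h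
    have h2 := congrArg Subtype.val h
    simp only [Al.est.injEq] at h2
    exact congrArg Es.w h2
  rwa [ZMod.card] at h1

end Pool.Agent.CLA
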