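import Pool.Agent.CLA.Asm
import Pool.Agent.CLA.Num
import Pool.Agent.CLA.Siz

/-!
# The twins on `Fin m`
-/

set_option autoImplicit false

namespace Pool.Agent.CLA

open Finset Classical
open Pool.Agent.CPT

/-- the graph with signed sums `τ` on `Fin m` -/
noncomputable def fg (l n : ℕ) (τ : Vx l → Rn n) (m : ℕ) (e : Fin m ≃ VG l n τ) :
    SimpleGraph (Fin m) :=
  (XG l n τ).comap e

/-- it is isomorphic to the graph -/
noncomputable def fgIso {l n : ℕ} {τ : Vx l → Rn n} {m : ℕ} (e : Fin m ≃ VG l n τ) :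
    fg l n τ m e ≃g XG l n τ := ⟨e, by intro a b; rfl⟩

theorem fg_pair {l n : ℕ} {τ τ' : Vx l → Rn n} {m : ℕ} (e : Fin m ≃ VG l n τ)
    (e' : Fin m ≃ VG l n τ') (t : Tm PV) (ns b : ℕ) :
    Accepts (pStr (fg l n τ m e).Adj (· ≤ ·) (fg l n τ' m e').Adj) t ns b ↔
      Accepts (pStr (XG l n τ).Adj (fun x y => e.symm x ≤ e.symm y) (XG l n τ').Adj) t ns b := by
  rw [← accepts_iso (Equiv.sumCongr e e')]
  have h : pStr (fg l n τ m e).Adj (· ≤ ·) (fg l n τ' m e').Adj =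
      fun (r : PV.R) x => pStr (XG l n τ).Adj (fun x y => e.symm x ≤ e.symm y)
        (XG l n τ').Adj r (fun i => Equiv.sumCongr e e' (x i)) := by
    funext r x
    have key : ∀ (s : Fin 2) (f : Fin 2 → Fin m ⊕ Fin m),
        pStr (fg l n τ m e).Adj (· ≤ ·) (fg l n τ' m e').Adj s f =
        pStr (XG l n τ).Adj (fun x y => e.symm x ≤ e.symm y) (XG l n τ').Adj
          s (fun i => Equiv.sumCongr e e' (f i)) := by
      intro s f
      rcases h0 : f 0 with v | v <;> rcases h1 : f 1 with w | w <;>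
        fin_cases s <;> simp [pStr, h0, h1, fg]
    exact key r x
  rw [h]

theorem fg_single {l n : ℕ} {τ : Vx l → Rn n} {m : ℕ} (e : Fin m ≃ VG l n τ)
    (t : Tm GV) (ns b : ℕ) : Accepts (gStr (fg l n τ m e).Adj) t ns b ↔
      Accepts (gStr (XG l n τ).Adj) t ns b := by
  rw [← accepts_iso e]
  rfl

/-- the side of the grid is positive -/
theorem side_pos (n : ℕ) : 0 < 2 ^ n := Nat.two_pow_pos n

/-- the choice of the parameters -/
theorem par_ex (d e : ℕ) : ∃ C : ℕ, ∀ n ≥ C, ∀ b : ℕ, b ^ C ≤ 2 ^ (n * Nat.sqrt n) →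
    ∃ h L s r s0 : ℕ,
      Par (2 ^ n) n h L s r s0 ((max b (2 ^ (80 * n) + 2 ^ (80 * n)) + 2) ^ e) ∧
      (d + 9) * s ≤ L := by
  obtain ⟨C, hC⟩ := num_all d e
  refine ⟨C, fun n hn b hb => ?_⟩
  obtain ⟨s0, L, h, r, h1, h2, h3, h4, h5, h6, h7, h8⟩ := hC n hn b _ hb le_rfl
  exact ⟨h, L, 5 * s0 + 6, r, s0, ⟨h3, h2, h4, h5, h6, h7, h8, rfl⟩, h1⟩

theorem pow_le_of_le {b C0 C E : ℕ} (h : C0 ≤ C) (hb : b ^ C ≤ 2 ^ E) : b ^ C0 ≤ 2 ^ E := by
  rcases Nat.eq_zero_or_pos b with hb0 | hb0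
  · subst hb0
    rcases Nat.eq_zero_or_pos C0 with h0 | h0
    · subst h0
      simpa using Nat.one_le_two_pow
    · rw [zero_pow (by omega)]
      exact Nat.zero_le _
  · exact le_trans (Nat.pow_le_pow_right hb0 h) hb

/-- every program fails on all but finitely many of the pairs -/
theorem twins_same (t : Tm PV) (t' : Tm GV) :
    ∃ C : ℕ, ∀ n ≥ C, ∀ (m : ℕ) (e : Fin m ≃ VG (2 ^ n) n 0)
      (e' : Fin m ≃ VG (2 ^ n) n (tw n (v0c (2 ^ n) (side_pos n)))), ∀ ns b : ℕ,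
      b ^ C ≤ 2 ^ (n * Nat.sqrt n) →
      (Accepts (pStr (fg _ n _ m e).Adj (· ≤ ·) (fg _ n _ m e).Adj) t ns b ↔
        Accepts (pStr (fg _ n _ m e).Adj (· ≤ ·) (fg _ n _ m e').Adj) t ns b) ∧
      (Accepts (gStr (fg _ n _ m e).Adj) t' ns b ↔ Accepts (gStr (fg _ n _ m e').Adj) t' ns b) := by
  obtain ⟨e1, he1⟩ := t.bd_poly 0
  obtain ⟨e2, he2⟩ := t'.bd_poly 0
  obtain ⟨C1, hC1⟩ := par_ex (t.dep 9) e1
  obtain ⟨C2, hC2⟩ := par_ex (t'.dep 9) e2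
  refine ⟨C1 + C2 + 1, fun n hn m e e' ns b hb => ?_⟩
  have hN : ∀ τ : Vx (2 ^ n) → Rn n, Fintype.card (VG (2 ^ n) n τ) ≤ 2 ^ (80 * n) :=
    size_le (by omega) le_rfl
  refine ⟨?_, ?_⟩
  · rw [fg_pair, fg_pair]
    obtain ⟨h, L, s, r, s0, hp, hd⟩ := hC1 n (by omega) b (pow_le_of_le (by omega) hb)
    exact pair_same _ ns b _ t _ hN e1 he1 hp hd
  · rw [fg_single, fg_single]
    obtain ⟨h, L, s, r, s0, hp, hd⟩ := hC2 n (by omega) b (pow_le_of_le (by omega) hb)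
    exact single_same _ ns b _ t' hN e2 he2 hp hd

end Pool.Agent.CLA
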