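import Mathlib

/-!
# Powers of values of polynomials are small compared with `2 ^ (i * √i)`
-/

set_option autoImplicit false

namespace Pool.Agent.CLA

private theorem eval_le (p : Polynomial ℕ) : ∃ c k : ℕ, ∀ m, p.eval m ≤ 2 ^ c * (m + 1) ^ k := by
  induction p using Polynomial.induction_on' with
  | add p q hp hq =>
    obtain ⟨c1, k1, h1⟩ := hp
    obtain ⟨c2, k2, h2⟩ := hq
    refine ⟨c1 + c2 + 1, k1 + k2, fun m => ?_⟩
    rw [Polynomial.eval_add]
    have e1 : 2 ^ c1 * (m + 1) ^ k1 ≤ 2 ^ (c1 + c2) * (m + 1) ^ (k1 + k2) :=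
      Nat.mul_le_mul (Nat.pow_le_pow_right (by norm_num) (by omega))
        (Nat.pow_le_pow_right (by omega) (by omega))
    have e2 : 2 ^ c2 * (m + 1) ^ k2 ≤ 2 ^ (c1 + c2) * (m + 1) ^ (k1 + k2) :=
      Nat.mul_le_mul (Nat.pow_le_pow_right (by norm_num) (by omega))
        (Nat.pow_le_pow_right (by omega) (by omega))
    calc p.eval m + q.eval m ≤ 2 ^ (c1 + c2) * (m + 1) ^ (k1 + k2) +
        2 ^ (c1 + c2) * (m + 1) ^ (k1 + k2) :=
          Nat.add_le_add ((h1 m).trans e1) ((h2 m).trans e2)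
      _ = _ := by rw [pow_succ]; ring
  | monomial k a =>
    refine ⟨a, k, fun m => ?_⟩
    rw [Polynomial.eval_monomial]
    exact Nat.mul_le_mul (Nat.lt_two_pow_self).le (Nat.pow_le_pow_left (by omega) k)

/-- polynomial bounds are covered -/
theorem poly_small (p : Polynomial ℕ) (C : ℕ) : ∃ i0 : ℕ, ∀ i ≥ i0,
    ∀ N ≤ 2 ^ (80 * (i + 55)), (p.eval N) ^ C ≤ 2 ^ (i * Nat.sqrt i) ∧
      (p.eval (N + N)) ^ C ≤ 2 ^ (i * Nat.sqrt i) := by
  obtain ⟨c, k, h⟩ := eval_le p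
  refine ⟨(C * (c + 4482 * k)) * (C * (c + 4482 * k)) + 1, fun i hi N hN => ?_⟩
  have hs : C * (c + 4482 * k) ≤ Nat.sqrt i := by
    rw [Nat.le_sqrt]
    omega
  have key : ∀ M : ℕ, M ≤ 2 ^ (80 * (i + 55) + 1) → (p.eval M) ^ C ≤ 2 ^ (i * Nat.sqrt i) := by
    intro M hM
    have h1 : M + 1 ≤ 2 ^ (80 * (i + 55) + 2) := by
      have h2 : 1 ≤ 2 ^ (80 * (i + 55) + 1) := Nat.one_le_two_pow
      rw [pow_succ (2 : ℕ) (80 * (i + 55) + 1)]
      omega
    calc (p.eval M) ^ C ≤ (2 ^ c * (M + 1) ^ k) ^ C := Nat.pow_le_pow_left (h M) C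
      _ ≤ (2 ^ c * (2 ^ (80 * (i + 55) + 2)) ^ k) ^ C :=
          Nat.pow_le_pow_left (Nat.mul_le_mul_left _ (Nat.pow_le_pow_left h1 k)) C
      _ = 2 ^ ((c + (80 * (i + 55) + 2) * k) * C) := by rw [← pow_mul, ← pow_add, ← pow_mul]
      _ ≤ 2 ^ (i * Nat.sqrt i) := by
        apply Nat.pow_le_pow_right (by norm_num)
        have hi1 : 1 ≤ i := by omega
        have h3 : c + (80 * (i + 55) + 2) * k ≤ i * (c + 4482 * k) := by
          have h4 : c ≤ i * c := Nat.le_mul_of_pos_left c hi1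
          have h5 : 80 * (i + 55) + 2 ≤ i * 4482 := by omega
          have h6 : (80 * (i + 55) + 2) * k ≤ i * 4482 * k := Nat.mul_le_mul_right k h5
          calc c + (80 * (i + 55) + 2) * k ≤ i * c + i * 4482 * k := Nat.add_le_add h4 h6
            _ = _ := by ring
        calc (c + (80 * (i + 55) + 2) * k) * C ≤ i * (c + 4482 * k) * C :=
              Nat.mul_le_mul_right C h3
          _ = i * (C * (c + 4482 * k)) := by ring
          _ ≤ _ := Nat.mul_le_mul_left i hs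
  have e1 : 2 ^ (80 * (i + 55) + 1) = 2 ^ (80 * (i + 55)) + 2 ^ (80 * (i + 55)) := by
    rw [pow_succ]; ring
  refine ⟨key N ?_, key (N + N) ?_⟩
  · omega
  · omega

end Pool.Agent.CLA
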