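import Pool.Agent.CLA.Main
import Pool.Agent.CLA.PolyN
import Pool.Agent.CLA.P.Main

/-!
# The sequence of pairs of graphs
-/

set_option autoImplicit false

namespace Pool.Agent.CLA

open Finset Classical
open Pool.Agent.CPT

theorem side_ge (i : ℕ) : 64 ≤ 2 ^ (i + 6) := by
  calc 64 = 2 ^ 6 := by norm_num
    _ ≤ _ := Nat.pow_le_pow_right (by norm_num) (by omega)

/-- the number of vertices of the members of the sequence -/
noncomputable def sN (i : ℕ) : ℕ := Fintype.card (VG (2 ^ (i + 6)) (i + 6) 0)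

/-- the twisted vertex -/
def sv0 (i : ℕ) : Vx (2 ^ (i + 6)) := v0c (2 ^ (i + 6)) (side_pos (i + 6))

/-- numbering of the vertices of the untwisted graph -/
noncomputable def sE (i : ℕ) : Fin (sN i) ≃ VG (2 ^ (i + 6)) (i + 6) 0 := (Fintype.equivFin _).symm

/-- numbering of the vertices of the twisted graph -/
noncomputable def sF (i : ℕ) : Fin (sN i) ≃ VG (2 ^ (i + 6)) (i + 6) (tw (i + 6) (sv0 i)) :=
  (Fintype.equivFinOfCardEq (card_U (L := 54) le_rfl (by have := side_ge i; omega) (sv0 i))).symm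

/-- the untwisted graphs -/
noncomputable def sG (i : ℕ) : SimpleGraph (Fin (sN i)) := fg (2 ^ (i + 6)) (i + 6) 0 (sN i) (sE i)

/-- the twisted graphs -/
noncomputable def sH (i : ℕ) : SimpleGraph (Fin (sN i)) :=
  fg (2 ^ (i + 6)) (i + 6) (tw (i + 6) (sv0 i)) (sN i) (sF i)

theorem side_two (i : ℕ) : 2 ≤ 2 ^ (i + 6) := by have := side_ge i; omega

theorem le_sN (i : ℕ) : 2 ^ i ≤ sN i :=
  (Nat.pow_le_pow_right (by norm_num) (by omega)).trans (le_size (n := i + 6) (side_two i) 0)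

theorem sN_le (i : ℕ) : sN i ≤ 2 ^ (80 * (i + 6)) := size_le (by omega) le_rfl 0

theorem not_l_sG (i : ℕ) : ¬ P.Lg (Fin (sN i)) (sG i) := fun h =>
  P.not_lg_zero (l := 2 ^ (i + 6)) (n := i + 6) (side_two i) (by omega)
    (P.lg_iso' _ _ _ _ h ⟨fgIso (sE i)⟩)

theorem l_sH (i : ℕ) : P.Lg (Fin (sN i)) (sH i) :=
  P.lg_iso' _ _ _ _ (P.lg_tw (l := 2 ^ (i + 6)) (n := i + 6) (side_two i) (by omega) (sv0 i))
    ⟨(fgIso (sF i)).symm⟩

theorem sG_not_iso (i : ℕ) : IsEmpty (sG i ≃g sH i) :=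
  ⟨fun f => not_l_sG i (P.lg_iso' _ _ _ _ (l_sH i) ⟨f.symm⟩)⟩

theorem cls_sG (i : ℕ) : P.Cls (Fin (sN i)) (sG i) :=
  ⟨2 ^ (i + 6), i + 6, side_two i, by omega, Or.inl ⟨(fgIso (sE i)).symm⟩⟩

theorem cls_sH (i : ℕ) : P.Cls (Fin (sN i)) (sH i) :=
  ⟨2 ^ (i + 6), i + 6, side_two i, by omega, Or.inr ⟨(fgIso (sF i)).symm⟩⟩

/-- no program distinguishes the members of the sequence -/
theorem s_same (t : Tm PV) (t' : Tm GV) :
    ∃ C : ℕ, ∀ i ≥ C, ∀ a b : ℕ, b ^ C ≤ 2 ^ (i * Nat.sqrt i) →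
      (Accepts (pStr (sG i).Adj (· ≤ ·) (sG i).Adj) t a b ↔
        Accepts (pStr (sG i).Adj (· ≤ ·) (sH i).Adj) t a b) ∧
      (Accepts (gStr (sG i).Adj) t' a b ↔ Accepts (gStr (sH i).Adj) t' a b) := by
  obtain ⟨C, hC⟩ := twins_same t t'
  refine ⟨C, fun i hi a b hb => ?_⟩
  exact hC (i + 6) (by omega) _ (sE i) (sF i) a b
    (hb.trans (Nat.pow_le_pow_right (by norm_num)
      (Nat.mul_le_mul (by omega) (Nat.sqrt_le_sqrt (by omega)))))

end Pool.Agent.CLA
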